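import Pool.Agent.H95.WH.Inter
import Pool.Agent.H95.WH.PushR
import Pool.Agent.H95.WH.ArtRel

/-!
# Artin induction for `K₁(R[F]) ⊗ ℚ`

`R` is a commutative ring such that `R/nR` is finite for all `n ≥ 1`.
-/

set_option autoImplicit false

open Matrix
open scoped Classical

universe u v w

namespace Pool.Agent.H95.WH

open Pool.Agent.H71.FJ (lamR twR incl)
open Pool.Agent.H71.FJ (tw tw_single)

variable (R : Type u) [CommRing R] (F : Type v) [Group F]

/-- The power condition. -/
def PowMod (A : Type w) [Ring A] : Prop :=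
  ∀ n : ℕ, n ≠ 0 → ∀ (k : ℕ) (U : (Matrix (Fin k) (Fin k) A)ˣ),
    ∃ (m : ℕ) (Z : Matrix (Fin k) (Fin k) A), 0 < m ∧
      ((U ^ m : (Matrix (Fin k) (Fin k) A)ˣ) : Matrix (Fin k) (Fin k) A) = 1 + (n : ℤ) • Z

theorem twR_inter {X Y : Type v} [Fintype X] [Fintype Y] [DecidableEq X] [DecidableEq Y]
    [MulAction F X] [MulAction F Y]
    (a : Matrix X Y ℤ) (ha : ∀ (h : F) x y, a (h • x) (h • y) = a x y)
    (r : MonoidAlgebra R F) :
    twR R X r * a.map (Int.castRingHom (MonoidAlgebra R F)) =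
      a.map (Int.castRingHom (MonoidAlgebra R F)) * twR R Y r := by
  induction r using MonoidAlgebra.induction_linear with
  | zero => rw [map_zero, map_zero, Matrix.zero_mul, Matrix.mul_zero]
  | add s t hs ht => rw [map_add, map_add, Matrix.add_mul, Matrix.mul_add, hs, ht]
  | single h r =>
    refine Matrix.ext fun x y => ?_
    rw [Matrix.mul_apply, Matrix.mul_apply]
    have e1 : ∀ z : X, twR R X (MonoidAlgebra.single h r) x z =
        if x = h • z then MonoidAlgebra.single h r else 0 := fun z => tw_single R X h r x z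
    have e2 : ∀ z : Y, twR R Y (MonoidAlgebra.single h r) z y =
        if z = h • y then MonoidAlgebra.single h r else 0 := fun z => tw_single R Y h r z y
    rw [Finset.sum_eq_single (h⁻¹ • x), Finset.sum_eq_single (h • y)]
    · rw [e1, e2, if_pos rfl, if_pos (smul_inv_smul h x).symm, Matrix.map_apply, Matrix.map_apply,
        ← ha h (h⁻¹ • x) y, smul_inv_smul]
      change _ * ((a x (h • y) : ℤ) : MonoidAlgebra R F) =
        ((a x (h • y) : ℤ) : MonoidAlgebra R F) * _
      exact (Int.cast_commute _ _).symm.eq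
    · intro z _ hz
      rw [e2, if_neg hz, mul_zero]
    · intro hz
      exact absurd (Finset.mem_univ _) hz
    · intro z _ hz
      rw [e1, if_neg, zero_mul]
      intro e
      exact hz (by rw [e, inv_smul_smul])
    · intro hz
      exact absurd (Finset.mem_univ _) hz

/-- Families indexed by a finite type. -/
private theorem art_enum {K : Type} [Fintype K] (D : K → Subgroup F)
    (y : ∀ i, K1 (MonoidAlgebra R (D i))) (hD : ∀ i, IsCyclic (D i)) (z : K1 (MonoidAlgebra R F))
    (hz : z = ∑ i, K1.map (incl R (D i)) (y i)) :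
    ∃ (r : ℕ) (D : Fin r → Subgroup F) (y : ∀ i, K1 (MonoidAlgebra R (D i))),
      (∀ i, IsCyclic (D i)) ∧ z = ∑ i, K1.map (incl R (D i)) (y i) :=
  ⟨Fintype.card K, fun i => D ((Fintype.equivFin K).symm i),
    fun i => y ((Fintype.equivFin K).symm i), fun i => hD _, by
      rw [hz]
      exact (Equiv.sum_comp (Fintype.equivFin K).symm
        (fun i => K1.map (incl R (D i)) (y i))).symm⟩

private theorem inter_tw {X Y : Type v} [Fintype X] [Fintype Y] [DecidableEq X] [DecidableEq Y]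
    [MulAction F X] [MulAction F Y]
    (hpow : PowMod (MonoidAlgebra R F)) (n : ℕ) (hn : n ≠ 0) (a : Matrix X Y ℤ) (b : Matrix Y X ℤ)
    (hab : a * b = (n : ℤ) • (1 : Matrix X X ℤ)) (hba : b * a = (n : ℤ) • (1 : Matrix Y Y ℤ))
    (ha : ∀ (h : F) x y, a (h • x) (h • y) = a x y) (x : K1 (MonoidAlgebra R F)) :
    ∃ m : ℕ, 0 < m ∧ m • K1.push (twR R X) x = m • K1.push (twR R Y) x :=
  inter (R := MonoidAlgebra R F) (S := MonoidAlgebra R F) (twR R X) (twR R Y) (n : ℤ) a b hab hba
    (twR_inter R F a ha) (fun k U => hpow n hn k U) x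

/-- Rationally isomorphic permutation lattices act in the same way up to torsion. -/
def InterP : Prop :=
  ∀ {X Y : Type v} [Fintype X] [Fintype Y] [DecidableEq X] [DecidableEq Y]
    [MulAction F X] [MulAction F Y] (n : ℕ) (_ : n ≠ 0) (a : Matrix X Y ℤ) (b : Matrix Y X ℤ)
    (_ : a * b = (n : ℤ) • (1 : Matrix X X ℤ)) (_ : b * a = (n : ℤ) • (1 : Matrix Y Y ℤ))
    (_ : ∀ (h : F) x y, a (h • x) (h • y) = a x y) (x : K1 (MonoidAlgebra R F)),
    ∃ m : ℕ, 0 < m ∧ m • K1.push (twR R X) x = m • K1.push (twR R Y) x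

/-- the relation for the permutation modules -/
private theorem art_rel [Finite F] (hint : InterP R F)
    (x : K1 (MonoidAlgebra R F)) :
    ∃ (I J : Type) (_ : Fintype I) (_ : Fintype J) (D : I → Subgroup F) (E : J → Subgroup F)
      (_ : ∀ i, Fintype (F ⧸ D i)) (_ : ∀ j, Fintype (F ⧸ E j)) (m : ℕ),
      (∀ i, IsCyclic (D i)) ∧ (∀ j, IsCyclic (E j)) ∧ 0 < m ∧
      m • (Nat.card F • x + ∑ i : I, K1.push (twR R (F ⧸ D i)) x) =
        m • ∑ j : J, K1.push (twR R (F ⧸ E j)) x := by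
  obtain ⟨I, J, hI, hJ, D, E, hf1, hf2, a, b, n, hD, hE, hn, hab, hba, ha⟩ := exists_artin_rel F
  have hfD : ∀ H : Subgroup F, Fintype (F ⧸ H) := fun H => Fintype.ofFinite _
  obtain ⟨m, hm, key⟩ := hint n hn a b hab hba ha x
  refine ⟨I, J, hI, hJ, D, E, fun _ => hfD _, fun _ => hfD _, m, hD, hE, hm, ?_⟩
  rw [push_tw_sigmaR R (fun i : Fin (Nat.card F) ⊕ I => (Sum.elim (fun _ => ⊤) D i : Subgroup F)),
    push_tw_sigmaR R E, Fintype.sum_sum_type] at key
  have h1 : ∑ i : Fin (Nat.card F), K1.push (twR R (F ⧸ (⊤ : Subgroup F))) x = Nat.card F • x := by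
    rw [Finset.sum_const, Finset.card_univ, Fintype.card_fin, push_tw_topR]
  rw [← h1]
  exact key

theorem artin_K1_of_inter [Finite F] (hint : InterP R F)
    (x : K1 (MonoidAlgebra R F)) :
    ∃ (m r : ℕ) (D : Fin r → Subgroup F) (y : ∀ i, K1 (MonoidAlgebra R (D i))),
      0 < m ∧ (∀ i, IsCyclic (D i)) ∧ m • x = ∑ i, K1.map (incl R (D i)) (y i) := by
  obtain ⟨I, J, hI, hJ, D, E, hfD, hfE, m, hD, hE, hm, key⟩ := art_rel R F hint x
  obtain ⟨r, DD, y, h1, h2⟩ := art_enum R F (K := J ⊕ I) (Sum.elim E D)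
    (fun i => match i with
      | Sum.inl j => m • K1.push (lamR R (E j)) x
      | Sum.inr i => -(m • K1.push (lamR R (D i)) x))
    (by
      rintro (i | i)
      · exact hE i
      · exact hD i) ((m * Nat.card F) • x) (by
      rw [Fintype.sum_sum_type]
      have h4 : ∀ j : J, K1.map (incl R (E j)) (m • K1.push (lamR R (E j)) x) =
          m • K1.push (twR R (F ⧸ E j)) x := by
        intro j
        rw [map_nsmul, ind_res1R]
      have h5 : ∀ j : I, K1.map (incl R (D j)) (-(m • K1.push (lamR R (D j)) x)) =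
          -(m • K1.push (twR R (F ⧸ D j)) x) := by
        intro j
        rw [map_neg, map_nsmul, ind_res1R]
      refine Eq.trans ?_ (congrArg₂ (· + ·) (Finset.sum_congr rfl (fun j _ => (h4 j).symm))
        (Finset.sum_congr rfl (fun j _ => (h5 j).symm)))
      rw [Finset.sum_neg_distrib, ← Finset.smul_sum, ← Finset.smul_sum, ← key, smul_add, mul_smul]
      abel)
  exact ⟨m * Nat.card F, r, DD, y, Nat.mul_pos hm Nat.card_pos, h1, h2⟩

theorem artin_K1_of_pow [Finite F] (hpow : PowMod (MonoidAlgebra R F))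
    (x : K1 (MonoidAlgebra R F)) :
    ∃ (m r : ℕ) (D : Fin r → Subgroup F) (y : ∀ i, K1 (MonoidAlgebra R (D i))),
      0 < m ∧ (∀ i, IsCyclic (D i)) ∧ m • x = ∑ i, K1.map (incl R (D i)) (y i) :=
  artin_K1_of_inter R F
    (fun n hn a b hab hba ha x => inter_tw R F hpow n hn a b hab hba ha x) x

private theorem artR_div (n : ℕ) (r : MonoidAlgebra R F)
    (h : MonoidAlgebra.mapRingHom F (Ideal.Quotient.mk (Ideal.span {(n : R)})) r = 0) :
    ∃ z : MonoidAlgebra R F, r = (n : ℤ) • z := by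
  have h0 : ∀ t : R, ∃ z : R, Ideal.Quotient.mk (Ideal.span {(n : R)}) t = 0 → t = (n : R) * z := by
    intro t
    by_cases ht : Ideal.Quotient.mk (Ideal.span {(n : R)}) t = 0
    · rw [Ideal.Quotient.eq_zero_iff_mem, Ideal.mem_span_singleton] at ht
      obtain ⟨z, hz⟩ := ht
      exact ⟨z, fun _ => hz⟩
    · exact ⟨0, fun h => absurd h ht⟩
  choose f hf using h0
  let g : R → R := fun t => if t = 0 then 0 else f t
  refine ⟨MonoidAlgebra.ofCoeff (r.coeff.mapRange g (by simp [g])), ?_⟩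
  ext x
  have h1 : (MonoidAlgebra.mapRingHom F (Ideal.Quotient.mk (Ideal.span {(n : R)})) r).coeff x = 0 := by
    rw [h]
    rfl
  rw [MonoidAlgebra.coeff_mapRingHom] at h1
  change r.coeff x = (n : ℤ) • (g (r.coeff x))
  by_cases h2 : r.coeff x = 0
  · simp [h2, g]
  · simp only [g, if_neg h2, natCast_zsmul, nsmul_eq_mul]
    exact hf _ h1

theorem powMod_of_finite [Finite F] (hR : ∀ n : ℕ, n ≠ 0 → Finite (R ⧸ Ideal.span {(n : R)})) :
    PowMod (MonoidAlgebra R F) := by
  intro n hn k U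
  have hfin := hR n hn
  let f := MonoidAlgebra.mapRingHom F (Ideal.Quotient.mk (Ideal.span {(n : R)}))
  have h1 : Finite (MonoidAlgebra (R ⧸ Ideal.span {(n : R)}) F) :=
    Finite.of_injective (fun x : MonoidAlgebra (R ⧸ Ideal.span {(n : R)}) F =>
      (⇑x.coeff : F → R ⧸ Ideal.span {(n : R)}))
      (DFunLike.coe_injective.comp MonoidAlgebra.coeff_injective)
  have h2 : Finite (Matrix (Fin k) (Fin k) (MonoidAlgebra (R ⧸ Ideal.span {(n : R)}) F)) :=
    inferInstanceAs (Finite (Fin k → Fin k → MonoidAlgebra (R ⧸ Ideal.span {(n : R)}) F))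
  let u := K1.mapU f U
  have hm : 0 < orderOf u := orderOf_pos u
  have hu : u ^ orderOf u = 1 := pow_orderOf_eq_one u
  have hu2 : K1.mapU f (U ^ orderOf u) = 1 := by
    rw [map_pow]
    exact hu
  have hu3 : ((U ^ orderOf u : (Matrix (Fin k) (Fin k) (MonoidAlgebra R F))ˣ) :
      Matrix (Fin k) (Fin k) (MonoidAlgebra R F)).map f = 1 := congrArg Units.val hu2
  have hu4 : ∀ i j, ∃ z : MonoidAlgebra R F,
      (((U ^ orderOf u : (Matrix (Fin k) (Fin k) (MonoidAlgebra R F))ˣ) :
      Matrix (Fin k) (Fin k) (MonoidAlgebra R F)) - 1) i j = (n : ℤ) • z := by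
    intro i j
    apply artR_div
    change f _ = 0
    have e := congrFun (congrFun hu3 i) j
    rw [Matrix.map_apply] at e
    rw [Matrix.sub_apply, map_sub, e, Matrix.one_apply, Matrix.one_apply]
    split_ifs
    · rw [map_one, sub_self]
    · rw [map_zero, sub_zero]
  choose Z hZ using hu4
  refine ⟨orderOf u, Matrix.of Z, hm, ?_⟩
  rw [← sub_eq_iff_eq_add']
  refine Matrix.ext fun i j => ?_
  exact hZ i j

/-- **Artin induction** for `K₁(R[F]) ⊗ ℚ`, `R` commutative, `R/nR` finite for all `n ≥ 1`. -/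
theorem artin_K1R [Finite F] (hR : ∀ n : ℕ, n ≠ 0 → Finite (R ⧸ Ideal.span {(n : R)}))
    (x : K1 (MonoidAlgebra R F)) :
    ∃ (m r : ℕ) (D : Fin r → Subgroup F) (y : ∀ i, K1 (MonoidAlgebra R (D i))),
      0 < m ∧ (∀ i, IsCyclic (D i)) ∧ m • x = ∑ i, K1.map (incl R (D i)) (y i) :=
  artin_K1_of_pow R F (powMod_of_finite R F hR) x

/-- The case of a field of characteristic zero. -/
theorem artin_K1_field (k : Type u) [Field k] [CharZero k] [Finite F]
    (x : K1 (MonoidAlgebra k F)) :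
    ∃ (m r : ℕ) (D : Fin r → Subgroup F) (y : ∀ i, K1 (MonoidAlgebra k (D i))),
      0 < m ∧ (∀ i, IsCyclic (D i)) ∧ m • x = ∑ i, K1.map (incl k (D i)) (y i) := by
  apply artin_K1R k F
  intro n hn
  have h : Ideal.span {(n : k)} = ⊤ := by
    rw [Ideal.span_singleton_eq_top]
    exact (Nat.cast_ne_zero.2 hn).isUnit
  rw [h]
  have : Subsingleton (k ⧸ (⊤ : Ideal k)) := Ideal.Quotient.subsingleton_iff.2 rfl
  infer_instance

end Pool.Agent.H95.WH
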