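import Pool.Agent.H95.WH.Red

/-!
# `K₁` of semilocal commutative rings

If `A` is a commutative ring with finitely many maximal ideals (for example a finite dimensional commutative
algebra over a field) then the class in `K₁(A)` of an invertible matrix is the class of its determinant.

## Paper proofs

`sr_semi`: for every maximal ideal `M` put `s_M = 0` if `x ∉ M` and `s_M = 1` if `x ∈ M` (then `y ∉ M`, since
`u x + v y = 1`). The maximal ideals are pairwise coprime and finite in number, so by the Chinese remainder theorem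
(`Ideal.exists_forall_sub_mem_ideal` or `Ideal.quotientInfRingEquivPiQuotient`) there is a `t` with
`t - s_M ∈ M` for all `M`. Then `x + t y` lies in no maximal ideal, so it is a unit
(`exists_max_ideal_of_mem_nonunits`).

`det_semi`: induction on the size `n`. `n = 0`: `U = 1`. `n = 1`: `U` is the scalar matrix of its determinant. Size
`n + 2`: as in the proof of `sr_row` (`FinQ.lean`) the row `(U 0 j)_j` is unimodular (`red_row`), so there are
`t_i` with `U 0 0 + ∑ t_i U 0 (i + 1)` a unit `w`. `red_op` (column operations: the class and the determinant do not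
change) gives the matrix with entry `(0, 0)` equal to `w`; another `red_op` (subtract multiples of column `0` from
the others) makes the rest of the row `0` zero. So we have a matrix `V` with first row `(w, 0, …, 0)`. Put
`W = V * diag(w⁻¹, 1, …, 1)`; its first row is `(1, 0, …, 0)` and `red_corner` and the induction hypothesis give
`[W] = [det W]`. Finally `[diag(w, 1, …, 1)] = [w] = K1.unit w` (`K1.cls_reindex`, `K1.cls_stab`), and `det` is
multiplicative. (Alternatively: for `n ≥ 1` first make the entry `(0, 1)` equal to `1` by adding multiples of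
column `0`, and use `red_one`: [U] = [V] with `V` of smaller size and the same determinant.)
-/

set_option autoImplicit false

open Matrix

universe u

namespace Pool.Agent.H95.WH

variable {A : Type u} [CommRing A]

theorem sr_semi [Finite (MaximalSpectrum A)] (x y u v : A) (h : u * x + v * y = 1) :
    ∃ t : A, IsUnit (x + t * y) := by
  classical
  obtain ⟨t, ht⟩ := Ideal.exists_forall_sub_mem_ideal (ι := MaximalSpectrum A)
    (I := fun M => M.asIdeal) (fun M N hMN => MaximalSpectrum.isCoprime_of_ne hMN)
    (fun M => if x ∈ M.asIdeal then 1 else 0)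
  refine ⟨t, ?_⟩
  by_contra hu
  obtain ⟨P, hP, hmem⟩ := exists_max_ideal_of_mem_nonunits hu
  have h1 : t - (if x ∈ P then 1 else 0) ∈ P := ht ⟨P, hP⟩
  by_cases hx : x ∈ P
  · rw [if_pos hx] at h1
    have h2 : t * y ∈ P := (Ideal.add_mem_iff_right P hx).1 hmem
    have h3 : y ∈ P := by
      have h4 : y = t * y - (t - 1) * y := by ring
      rw [h4]
      exact P.sub_mem h2 (P.mul_mem_right _ h1)
    apply hP.ne_top
    rw [Ideal.eq_top_iff_one, ← h]
    exact P.add_mem (P.mul_mem_left _ hx) (P.mul_mem_left _ h3)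
  · rw [if_neg hx, sub_zero] at h1
    exact hx ((Ideal.add_mem_iff_left P (P.mul_mem_right _ h1)).1 hmem)

private theorem semi_row [Finite (MaximalSpectrum A)] {n : ℕ} (x v : Fin (n + 1) → A)
    (h : ∑ i, v i * x i = 1) : ∃ t : Fin n → A, IsUnit (x 0 + ∑ i, t i * x i.succ) := by
  rw [Fin.sum_univ_succ] at h
  obtain ⟨t, ht⟩ := sr_semi (x 0) (∑ i : Fin n, v i.succ * x i.succ) (v 0) 1
    (by rw [one_mul]; exact h)
  refine ⟨fun i => t * v i.succ, ?_⟩
  have e : (∑ i : Fin n, t * v i.succ * x i.succ) = t * ∑ i : Fin n, v i.succ * x i.succ := by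
    rw [Finset.mul_sum]
    exact Finset.sum_congr rfl fun i _ => mul_assoc _ _ _
  rw [e]
  exact ht

private theorem semi_step [Finite (MaximalSpectrum A)] {n : ℕ}
    (U : (Matrix (Fin (n + 2)) (Fin (n + 2)) A)ˣ) :
    ∃ V : (Matrix (Fin (n + 1)) (Fin (n + 1)) A)ˣ, K1.mk U = K1.mk V ∧ detU U = detU V := by
  obtain ⟨t, ht⟩ := semi_row (fun j => U.val 0 j) (fun j => U.inv j 0) (red_row U 0)
  obtain ⟨V, hV1, hV2, hV3⟩ := red_op U (fun j => j ≠ 0)
    (fun i j => if j = 0 then (Fin.cases 0 t i : A) else 0) (by
      intro i j h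
      by_cases hj : j = 0
      · have hi : i = 0 := by
          by_contra hi
          exact h ⟨hi, fun h' => h' hj⟩
        simp [hi]
      · simp [hj])
  have h1 : V.val 0 0 = U.val 0 0 + ∑ i, t i * U.val 0 i.succ := by
    rw [hV3, Fin.sum_univ_succ]
    simp [mul_comm]
  rw [← h1] at ht
  obtain ⟨w, hw⟩ := ht
  have h10 : (1 : Fin (n + 2)) ≠ 0 := by
    intro h
    have := congrArg Fin.val h
    simp at this
  obtain ⟨W, hW1, hW2, hW3⟩ := red_op V (fun i => i = 0)
    (fun i k => if i = 0 ∧ k = 1 then ((w⁻¹ : Aˣ) : A) * (1 - V.val 0 1) else 0) (by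
      intro i k h'
      rw [if_neg]
      rintro ⟨hi, hk⟩
      exact h' ⟨hi, by rw [hk]; exact h10⟩)
  have hW : W.val 0 1 = 1 := by
    rw [hW3, Finset.sum_eq_single 0]
    · rw [if_pos ⟨rfl, rfl⟩, ← mul_assoc, ← hw, Units.mul_inv]
      ring
    · intro i _ hi
      rw [if_neg (fun h => hi h.1), mul_zero]
    · intro hk
      exact absurd (Finset.mem_univ _) hk
  obtain ⟨Z, hZ1, hZ2⟩ := red_one W 1 h10 hW
  refine ⟨Z, ?_, ?_⟩
  · rw [← hZ1, ← K1.cls_mk, ← K1.cls_mk, hW1, hV1]
  · rw [← hZ2, hW2, hV2]

theorem det_semi [Finite (MaximalSpectrum A)] {n : ℕ} (U : (Matrix (Fin n) (Fin n) A)ˣ) :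
    K1.mk U = K1.unit (detU U) := by
  have hu1 : K1.unit (1 : Aˣ) = 0 := by
    have h := K1.unit_mul (1 : Aˣ) 1
    rw [one_mul] at h
    exact left_eq_add.1 h
  match n, U with
  | 0, U =>
    have h1 : U = 1 := Units.ext (Subsingleton.elim _ _)
    rw [h1, map_one, hu1, ← K1.cls_mk, K1.cls_one]
  | 1, U =>
    rw [K1.unit]
    congr 1
    apply Units.ext
    refine Matrix.ext fun i j => ?_
    change U.val i j = (Matrix.scalar (Fin 1)) U.val.det i j
    rw [Matrix.det_fin_one, Matrix.scalar_apply, Subsingleton.elim i 0, Subsingleton.elim j 0,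
      Matrix.diagonal_apply_eq]
  | (n + 2), U =>
    obtain ⟨V, hV1, hV2⟩ := semi_step U
    rw [hV1, hV2]
    exact det_semi V

/-- The case of a finite dimensional algebra over a field. -/
theorem det_finDim (k : Type*) [Field k] [Algebra k A] [Module.Finite k A] {n : ℕ}
    (U : (Matrix (Fin n) (Fin n) A)ˣ) : K1.mk U = K1.unit (detU U) := by
  have : IsArtinianRing A := IsArtinianRing.of_finite k A
  exact det_semi U

end Pool.Agent.H95.WH
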