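import Mathlib

/-!
# Finite quotients and unimodular rows

## Paper proofs

`sr_fin` (stable range one of a finite commutative ring): some power `e = x^m`, `m ≥ 1`, is
idempotent (`B` is finite); put `t = 1 - e`. If `P` is a maximal ideal containing `x + t y`: if
`x ∉ P` then `e = x^m` is an idempotent not in `P`, so `t = 1 - e ∈ P` (`e (1 - e) = 0`) and `x ∈ P`,
contradiction; if `x ∈ P` then `e ∈ P`, `t ∉ P`, so `y ∈ P` and `1 = u x + v y ∈ P`, contradiction. So
`x + t y` is a unit.
`sr_row`: put `y = ∑ vᵢ xᵢ` over `i ≥ 1` and apply `sr_fin` to `x 0`, `y`.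
`fin_quot`: the norm `n(a)` (determinant of the multiplication by `a` on the free `ℤ`-module `A`) is
multiplicative and `n(1 + q z) ≡ 1` modulo `q`, so `n(a) n(a') ≡ 1` modulo `q ≥ 2` and `n(a) ≠ 0`. By
Cayley-Hamilton `n(a) ∈ a A`. So `A / a A` is a quotient of `A / n(a) A`, which is finite.
-/

set_option autoImplicit false

namespace Pool.Agent.H95.WH

private theorem finq_pow {B : Type*} [CommRing B] [Finite B] (x : B) :
    ∃ m : ℕ, 0 < m ∧ x ^ m * x ^ m = x ^ m := by
  obtain ⟨i, j, hij, h⟩ := Finite.exists_ne_map_eq_of_infinite (fun n : ℕ => x ^ n)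
  wlog hlt : i < j generalizing i j
  · exact this j i hij.symm h.symm (lt_of_le_of_ne (not_lt.1 hlt) hij.symm)
  obtain ⟨p, rfl⟩ := Nat.exists_eq_add_of_lt hlt
  have h : x ^ i = x ^ (i + p + 1) := h
  have h1 : ∀ k : ℕ, x ^ (i + k + (p + 1)) = x ^ (i + k) := by
    intro k
    have e : i + k + (p + 1) = (i + p + 1) + k := by omega
    rw [e, pow_add, ← h, ← pow_add]
  have h2 : ∀ (c k : ℕ), x ^ (i + k + c * (p + 1)) = x ^ (i + k) := by
    intro c
    induction c with
    | zero => intro k; simp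
    | succ c ih =>
      intro k
      have e : i + k + (c + 1) * (p + 1) = i + (k + c * (p + 1)) + (p + 1) := by ring
      rw [e, h1, ← ih k]
      congr 1
      omega
  refine ⟨(i + 1) * (p + 1), by positivity, ?_⟩
  rw [← pow_add]
  have e : (i + 1) * (p + 1) = i + (i * p + p + 1) := by ring
  have h3 := h2 (i + 1) (i * p + p + 1)
  rw [← e] at h3
  exact h3

theorem sr_fin {B : Type*} [CommRing B] [Finite B] (x y u v : B) (h : u * x + v * y = 1) :
    ∃ t : B, IsUnit (x + t * y) := by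
  obtain ⟨m, hm, he⟩ := finq_pow x
  refine ⟨1 - x ^ m, ?_⟩
  by_contra hu
  obtain ⟨P, hP, hmem⟩ := exists_max_ideal_of_mem_nonunits hu
  have hPp : P.IsPrime := hP.isPrime
  by_cases hx : x ∈ P
  · have hxm : x ^ m ∈ P := P.pow_mem_of_mem hx m hm
    have h1 : (1 - x ^ m) * y ∈ P := (Ideal.add_mem_iff_right P hx).1 hmem
    rcases hPp.mem_or_mem h1 with h2 | h2
    · apply hP.ne_top
      rw [Ideal.eq_top_iff_one]
      have := P.add_mem h2 hxm
      rwa [sub_add_cancel] at this
    · apply hP.ne_top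
      rw [Ideal.eq_top_iff_one, ← h]
      exact P.add_mem (P.mul_mem_left _ hx) (P.mul_mem_left _ h2)
  · have hxm : x ^ m ∉ P := fun h1 => hx (hPp.mem_of_pow_mem _ h1)
    have h1 : x ^ m * (1 - x ^ m) ∈ P := by
      rw [mul_sub, mul_one, he, sub_self]
      exact P.zero_mem
    have h2 : (1 - x ^ m) ∈ P := (hPp.mem_or_mem h1).resolve_left hxm
    have h3 : (1 - x ^ m) * y ∈ P := P.mul_mem_right _ h2
    exact hx ((Ideal.add_mem_iff_left P h3).1 hmem)

theorem sr_row {B : Type*} [CommRing B] [Finite B] {n : ℕ} (x v : Fin (n + 1) → B)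
    (h : ∑ i, v i * x i = 1) : ∃ t : Fin n → B, IsUnit (x 0 + ∑ i, t i * x i.succ) := by
  rw [Fin.sum_univ_succ] at h
  obtain ⟨t, ht⟩ := sr_fin (x 0) (∑ i : Fin n, v i.succ * x i.succ) (v 0) 1
    (by rw [one_mul]; exact h)
  refine ⟨fun i => t * v i.succ, ?_⟩
  have e : (∑ i : Fin n, t * v i.succ * x i.succ) = t * ∑ i : Fin n, v i.succ * x i.succ := by
    rw [Finset.mul_sum]
    exact Finset.sum_congr rfl fun i _ => mul_assoc _ _ _
  rw [e]
  exact ht

private theorem finq_aux {A : Type*} [CommRing A] [Module.Free ℤ A] [Module.Finite ℤ A] (a : A)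
    (ha : ∀ x : A, a * x = 0 → x = 0) : Finite (A ⧸ Ideal.span {a}) := by
  let f : A →ₗ[ℤ] A := LinearMap.mulLeft ℤ a
  have hf : Function.Injective f := by
    rw [injective_iff_map_eq_zero]
    intro x hx
    exact ha x hx
  have hr : LinearMap.range f = (Ideal.span {a}).restrictScalars ℤ := by
    ext x
    rw [LinearMap.mem_range, Submodule.restrictScalars_mem, Ideal.mem_span_singleton']
    constructor
    · rintro ⟨y, hy⟩
      exact ⟨y, by rw [mul_comm]; exact hy⟩
    · rintro ⟨y, hy⟩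
      exact ⟨y, by rw [← hy, mul_comm]; rfl⟩
  have h1 : Module.finrank ℤ (LinearMap.range f) = Module.finrank ℤ A :=
    (LinearEquiv.ofInjective f hf).finrank_eq.symm
  rw [hr] at h1
  have h2 := Submodule.finiteQuotientOfFreeOfRankEq ((Ideal.span {a}).restrictScalars ℤ) h1
  exact Finite.of_equiv _ (Submodule.Quotient.restrictScalarsEquiv ℤ (Ideal.span {a})).toEquiv

theorem fin_quot {A : Type*} [CommRing A] [Module.Free ℤ A] [Module.Finite ℤ A] (q : ℕ)
    (hq : 2 ≤ q) (a a' z : A) (h : a * a' = 1 + (q : A) * z) : Finite (A ⧸ Ideal.span {a}) := by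
  apply finq_aux
  intro x hx
  have h1 : x = (q : A) * (-z * x) := by
    have : (a * a') * x = 0 := by rw [mul_comm a a', mul_assoc, hx, mul_zero]
    rw [h] at this
    linear_combination this
  have h2 : ∀ k : ℕ, ∃ y : A, x = ((q : A) ^ k) * y := by
    intro k
    induction k with
    | zero => exact ⟨x, by simp⟩
    | succ k ih =>
      obtain ⟨y, hy⟩ := ih
      refine ⟨-z * y, ?_⟩
      calc x = (q : A) * (-z * x) := h1
        _ = (q : A) * (-z * ((q : A) ^ k * y)) := by rw [← hy]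
        _ = (q : A) ^ (k + 1) * (-z * y) := by ring
  let b := Module.Free.chooseBasis ℤ A
  apply b.repr.injective
  rw [map_zero]
  ext i
  rw [Finsupp.zero_apply]
  by_contra hne
  obtain ⟨y, hy⟩ := h2 (b.repr x i).natAbs
  have h3 : b.repr x i = (q : ℤ) ^ (b.repr x i).natAbs * b.repr y i := by
    conv_lhs => rw [hy]
    have e : ((q : A) ^ (b.repr x i).natAbs) * y = ((q : ℤ) ^ (b.repr x i).natAbs) • y := by
      rw [zsmul_eq_mul]
      push_cast
      rfl
    rw [e, map_smul, Finsupp.smul_apply, smul_eq_mul]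
  have h4 : ((q : ℤ) ^ (b.repr x i).natAbs) ∣ b.repr x i := ⟨_, h3⟩
  have h5 := Int.natAbs_dvd_natAbs.2 h4
  rw [Int.natAbs_pow, Int.natAbs_natCast] at h5
  have h6 := Nat.le_of_dvd (Int.natAbs_pos.2 hne) h5
  have h7 : (b.repr x i).natAbs < q ^ (b.repr x i).natAbs := Nat.lt_pow_self hq
  omega

theorem fin_quot_nat {A : Type*} [CommRing A] [Module.Free ℤ A] [Module.Finite ℤ A] (q : ℕ)
    (hq : q ≠ 0) : Finite (A ⧸ Ideal.span {(q : A)}) := by
  apply finq_aux
  intro x hx
  let b := Module.Free.chooseBasis ℤ A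
  apply b.repr.injective
  rw [map_zero]
  ext i
  rw [Finsupp.zero_apply]
  have e : ((q : A)) * x = (q : ℤ) • x := by
    rw [zsmul_eq_mul]
    push_cast
    rfl
  rw [e] at hx
  have h1 : b.repr ((q : ℤ) • x) i = 0 := by rw [hx, map_zero, Finsupp.zero_apply]
  rw [map_smul, Finsupp.smul_apply, smul_eq_mul] at h1
  rcases mul_eq_zero.1 h1 with h2 | h2
  · exact absurd (by exact_mod_cast h2) hq
  · exact h2

end Pool.Agent.H95.WH
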