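import Mathlib

/-!
# Rationally isomorphic lattices modulo a prime

Let `a : Matrix X Y ℤ`, `b : Matrix Y X ℤ`, `a b = n`, `b a = n`, `n ≠ 0`, and let `A h`, `B h` be matrices with
`A h * a = a * B h` for all `h`. Then in suitable `ℤ`-bases `A h` and `B h` are, modulo `p`, block upper and
block lower triangular with respect to a function `v`, with conjugate diagonal blocks.

## Paper proof

Smith normal form of `a` (`Submodule.exists_smith_normal_form_of_rank_eq` for the range of `a.mulVecLin` in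
`X → ℤ`, which has full rank since `a b = n`; `a.mulVecLin` is injective since `b a = n`): there are invertible
integral matrices `P` (`X × X`, inverse `P'`), `Q` (`Y × X`, inverse `Q'`) and integers `d i ≠ 0`, `i : X`, with
`P' a Q = diagonal d`. (Basis `β i` of `X → ℤ`, basis `γ i` of the range with `γ i = d i • β i`: `P` has the columns
`β i`; the columns of `Q` are the preimages of the `γ i` in `Y → ℤ`, a basis since `a.mulVecLin` is injective.)

Put `A' h = P' A h P`, `B' h = Q' B h Q`. From `A h a = a B h`: `A' h (diagonal d) = (diagonal d) B' h`, i.e.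
`A' h i j * d j = d i * B' h i j`. Let `v i` be the exponent of `p` in `d i` (`padicValInt` or `multiplicity`),
`d i = p ^ v i * u i`, `p ∤ u i`, and choose `u' i` with `u i u' i ≡ 1 mod p`.
- `v j < v i`: `A' h i j * u j = p ^ (v i - v j) * u i * B' h i j`, so `p ∣ A' h i j`.
- `v i < v j`: `A' h i j * p ^ (v j - v i) * u j = u i * B' h i j`, so `p ∣ B' h i j`.
- `v i = v j`: `A' h i j * u j = u i * B' h i j`; multiply by `u' j`.
-/

set_option autoImplicit false

open Matrix

universe u v w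

namespace Pool.Agent.H95.WH

theorem exists_smn {X Y : Type v} [Fintype X] [Fintype Y] [DecidableEq X] [DecidableEq Y]
    (n : ℕ) (hn : n ≠ 0) (a : Matrix X Y ℤ) (b : Matrix Y X ℤ)
    (hab : a * b = (n : ℤ) • (1 : Matrix X X ℤ)) (hba : b * a = (n : ℤ) • (1 : Matrix Y Y ℤ)) :
    ∃ (P P' : Matrix X X ℤ) (Q : Matrix Y X ℤ) (Q' : Matrix X Y ℤ) (d : X → ℤ),
      P * P' = 1 ∧ P' * P = 1 ∧ Q * Q' = 1 ∧ Q' * Q = 1 ∧ a * Q = P * diagonal d ∧
        ∀ i, d i ≠ 0 := by
  have hn' : (n : ℤ) ≠ 0 := by exact_mod_cast hn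
  have hainj : Function.Injective a.mulVecLin := by
    rw [← LinearMap.ker_eq_bot, LinearMap.ker_eq_bot']
    intro y hy
    have h1 : b *ᵥ (a *ᵥ y) = 0 := by
      have : a *ᵥ y = 0 := hy
      rw [this, mulVec_zero]
    rw [mulVec_mulVec, hba, smul_mulVec, one_mulVec] at h1
    exact (smul_eq_zero.1 h1).resolve_left hn'
  have hbinj : Function.Injective b.mulVecLin := by
    rw [← LinearMap.ker_eq_bot, LinearMap.ker_eq_bot']
    intro y hy
    have h1 : a *ᵥ (b *ᵥ y) = 0 := by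
      have : b *ᵥ y = 0 := hy
      rw [this, mulVec_zero]
    rw [mulVec_mulVec, hab, smul_mulVec, one_mulVec] at h1
    exact (smul_eq_zero.1 h1).resolve_left hn'
  have hfr : Module.finrank ℤ (Y → ℤ) = Module.finrank ℤ (X → ℤ) :=
    le_antisymm (LinearMap.finrank_le_finrank_of_injective hainj)
      (LinearMap.finrank_le_finrank_of_injective hbinj)
  have hfr' : Module.finrank ℤ (LinearMap.range a.mulVecLin) = Module.finrank ℤ (X → ℤ) := by
    rw [← hfr]
    exact (LinearEquiv.ofInjective a.mulVecLin hainj).finrank_eq.symm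
  obtain ⟨β, d, γ, hγ⟩ := Submodule.exists_smith_normal_form_of_rank_eq (Pi.basisFun ℤ X) hfr'
  let c : Module.Basis X ℤ (Y → ℤ) := γ.map (LinearEquiv.ofInjective a.mulVecLin hainj).symm
  have hc : ∀ i, a *ᵥ (c i) = d i • β i := by
    intro i
    rw [← hγ i]
    have h1 : LinearEquiv.ofInjective a.mulVecLin hainj (c i) = γ i := by
      rw [Module.Basis.map_apply, LinearEquiv.apply_symm_apply]
    rw [← h1]
    rfl
  refine ⟨(Pi.basisFun ℤ X).toMatrix β, β.toMatrix (Pi.basisFun ℤ X),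
    (Pi.basisFun ℤ Y).toMatrix c, c.toMatrix (Pi.basisFun ℤ Y), d,
    Module.Basis.toMatrix_mul_toMatrix_flip _ _, Module.Basis.toMatrix_mul_toMatrix_flip _ _,
    Module.Basis.toMatrix_mul_toMatrix_flip _ _, Module.Basis.toMatrix_mul_toMatrix_flip _ _, ?_, ?_⟩
  · ext x i
    have h1 := congrFun (hc i) x
    rw [mul_diagonal]
    have h2 : (a * (Pi.basisFun ℤ Y).toMatrix c) x i = (a *ᵥ (c i)) x := rfl
    rw [h2, h1]
    have h3 : ((Pi.basisFun ℤ X).toMatrix β) x i = β i x := rfl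
    rw [h3, Pi.smul_apply, smul_eq_mul, mul_comm]
  · intro i hi
    apply γ.ne_zero i
    apply Subtype.ext
    rw [hγ i, hi, zero_smul]
    rfl

private theorem exists_val (p : ℕ) [Fact p.Prime] (d : ℤ) (hd : d ≠ 0) :
    ∃ (v : ℕ) (u u' : ℤ), d = (p : ℤ) ^ v * u ∧ ¬ (p : ℤ) ∣ u ∧ (p : ℤ) ∣ u * u' - 1 := by
  have hp : Prime (p : ℤ) := Nat.prime_iff_prime_int.1 (Fact.out : p.Prime)
  have hfin : FiniteMultiplicity (p : ℤ) d := by
    rw [Int.finiteMultiplicity_iff]
    refine ⟨?_, hd⟩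
    rw [Int.natAbs_natCast]
    exact (Fact.out : p.Prime).ne_one
  obtain ⟨u, h1, h2⟩ := hfin.exists_eq_pow_mul_and_not_dvd
  have hcop : IsCoprime (p : ℤ) u := (hp.irreducible.coprime_iff_not_dvd).2 h2
  obtain ⟨x, y, hxy⟩ := hcop
  refine ⟨_, u, y, h1, h2, -x, ?_⟩
  linear_combination hxy

theorem exists_modp (p : ℕ) [Fact p.Prime] {X Y : Type v} [Fintype X] [Fintype Y]
    [DecidableEq X] [DecidableEq Y] (n : ℕ) (hn : n ≠ 0) (a : Matrix X Y ℤ) (b : Matrix Y X ℤ)
    (hab : a * b = (n : ℤ) • (1 : Matrix X X ℤ)) (hba : b * a = (n : ℤ) • (1 : Matrix Y Y ℤ))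
    {H : Type w} (A : H → Matrix X X ℤ) (B : H → Matrix Y Y ℤ) (hAB : ∀ h, A h * a = a * B h) :
    ∃ (v : X → ℕ) (P P' : Matrix X X ℤ) (Q : Matrix Y X ℤ) (Q' : Matrix X Y ℤ) (u u' : X → ℤ),
      P * P' = 1 ∧ P' * P = 1 ∧ Q * Q' = 1 ∧ Q' * Q = 1 ∧ (∀ i, (p : ℤ) ∣ u i * u' i - 1) ∧
      (∀ h i j, v j < v i → (p : ℤ) ∣ (P' * A h * P) i j) ∧
      (∀ h i j, v i < v j → (p : ℤ) ∣ (Q' * B h * Q) i j) ∧
      (∀ h i j, v i = v j →
        (p : ℤ) ∣ (P' * A h * P) i j - u i * (Q' * B h * Q) i j * u' j) := by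
  have hp : Prime (p : ℤ) := Nat.prime_iff_prime_int.1 (Fact.out : p.Prime)
  have hp0 : (p : ℤ) ≠ 0 := hp.ne_zero
  obtain ⟨P, P', Q, Q', d, h1, h2, h3, h4, h5, hd⟩ := exists_smn n hn a b hab hba
  choose v u u' hv hu hu' using fun i => exists_val p (d i) (hd i)
  refine ⟨v, P, P', Q, Q', u, u', h1, h2, h3, h4, hu', ?_⟩
  have hPa : P' * a = diagonal d * Q' := by
    have h6 : P' * (a * Q) * Q' = P' * a := by
      rw [Matrix.mul_assoc, Matrix.mul_assoc, h3, Matrix.mul_one]
    rw [← h6, h5, ← Matrix.mul_assoc P' P, h2, Matrix.one_mul]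
  have key : ∀ h i j, (P' * A h * P) i j * d j = d i * (Q' * B h * Q) i j := by
    intro h i j
    have h7 : P' * A h * P * diagonal d = diagonal d * (Q' * B h * Q) := by
      calc P' * A h * P * diagonal d = P' * A h * (P * diagonal d) := Matrix.mul_assoc _ _ _
        _ = P' * (A h * a) * Q := by
            rw [← h5, ← Matrix.mul_assoc, Matrix.mul_assoc P' (A h) a]
        _ = P' * a * B h * Q := by rw [hAB, ← Matrix.mul_assoc P' a]
        _ = diagonal d * (Q' * B h * Q) := by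
            rw [hPa, Matrix.mul_assoc, Matrix.mul_assoc, Matrix.mul_assoc]
    have h8 := congrFun (congrFun h7 i) j
    rwa [mul_diagonal, diagonal_mul] at h8
  refine ⟨fun h i j hij => ?_, fun h i j hij => ?_, fun h i j hij => ?_⟩
  · obtain ⟨e, he⟩ := Nat.exists_eq_add_of_lt hij
    have h9 := key h i j
    rw [hv i, hv j, he, pow_add, pow_add, pow_one] at h9
    have h10 : (P' * A h * P) i j * u j = (p : ℤ) * ((p : ℤ) ^ e * u i * (Q' * B h * Q) i j) := by
      apply mul_left_cancel₀ (pow_ne_zero (v j) hp0)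
      linear_combination h9
    exact (hp.dvd_or_dvd (Dvd.intro _ h10.symm)).resolve_right (hu j)
  · obtain ⟨e, he⟩ := Nat.exists_eq_add_of_lt hij
    have h9 := key h i j
    rw [hv i, hv j, he, pow_add, pow_add, pow_one] at h9
    have h10 : u i * (Q' * B h * Q) i j = (p : ℤ) * ((p : ℤ) ^ e * u j * (P' * A h * P) i j) := by
      apply mul_left_cancel₀ (pow_ne_zero (v i) hp0)
      linear_combination -h9
    exact (hp.dvd_or_dvd (Dvd.intro _ h10.symm)).resolve_left (hu i)
  · have h9 := key h i j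
    rw [hv i, hv j, hij] at h9
    have h10 : (P' * A h * P) i j * u j = u i * (Q' * B h * Q) i j := by
      apply mul_left_cancel₀ (pow_ne_zero (v j) hp0)
      linear_combination h9
    obtain ⟨w, hw⟩ := hu' j
    refine ⟨-((P' * A h * P) i j * w), ?_⟩
    rw [← h10]
    linear_combination -(P' * A h * P) i j * hw

end Pool.Agent.H95.WH
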