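import Pool.Agent.H95.WH.K1B

/-!
# Block triangular invertible matrices

Two invertible matrices over a (non commutative) ring, one block upper triangular and one block lower
triangular with respect to a function `v`, with the same diagonal blocks, have the same class in `K₁`.

## Paper proof

It is enough to prove: (*) if `U` is invertible, `U` and `U⁻¹` block upper triangular with respect to `v`
(`U i j = 0` for `v j < v i`), then the matrix `D` with `D i j = U i j` for `v i = v j` and `0` otherwise is
invertible, with inverse the corresponding part of `U⁻¹`, and `cls U = cls D`. The lower triangular case is (*)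
for `v' i = N - v i`, `N` a bound of `v`.

`D` is invertible: for `v i = v j`, `(U U⁻¹) i j = ∑_k U i k U⁻¹ k j` and the terms with `v k ≠ v i` vanish
(`U i k = 0` for `v k < v i`, `U⁻¹ k j = 0` for `v k > v j`).

`E = D⁻¹ U` is unipotent: `E i j = 0` for `v j < v i`, and `E i j = δ i j` for `v i = v j`, and the same holds for
`E⁻¹`. Claim: `cls E = 0`, by induction on the cardinality of the index type (any finite type; statement for all
unipotent `E` with unipotent inverse). If the index type is empty, `E = 1`. Otherwise choose `i₀` with `v i₀`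
maximal. The row `i₀` of `E` is `δ`, so after the reindexing `ι ≃ {i // i ≠ i₀} ⊕ {i // i = i₀}` (or
`Equiv.sumCompl`) `E = fromBlocks E' C 0 1`, and the inverse has the same shape. `E'` is invertible and unipotent,
and `cls E = cls E'` by a lemma of `K1B` on block triangular matrices (`cls_stab`, `cls_upper`, `cls_lower`, ...)
or directly: `fromBlocks E' C 0 1 = fromBlocks 1 C 0 1 * fromBlocks E' 0 0 1`.
-/

set_option autoImplicit false

open Matrix

universe u

namespace Pool.Agent.H95.WH

variable {R : Type u} [Ring R]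

/-- The block diagonal part of a matrix. -/
private def dpart {ι : Type*} (v : ι → ℕ) (M : Matrix ι ι R) : Matrix ι ι R :=
  Matrix.of fun i j => if v i = v j then M i j else 0

private theorem dpart_apply {ι : Type*} (v : ι → ℕ) (M : Matrix ι ι R) (i j : ι) :
    dpart v M i j = if v i = v j then M i j else 0 := rfl

private theorem dpart_mul {ι : Type*} [Fintype ι] (v : ι → ℕ) (M N : Matrix ι ι R)
    (hM : ∀ i j, v j < v i → M i j = 0) (hN : ∀ i j, v j < v i → N i j = 0) :
    dpart v (M * N) = dpart v M * dpart v N := by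
  ext i j
  rw [dpart_apply, Matrix.mul_apply, Matrix.mul_apply]
  by_cases hij : v i = v j
  · rw [if_pos hij]
    refine Finset.sum_congr rfl fun k _ => ?_
    rw [dpart_apply, dpart_apply]
    rcases lt_trichotomy (v k) (v i) with h | h | h
    · rw [if_neg (ne_of_gt h), hM i k h, zero_mul, zero_mul]
    · rw [if_pos h.symm, if_pos (h.trans hij)]
    · rw [if_neg (ne_of_lt h), zero_mul, hN k j (hij ▸ h), mul_zero]
  · rw [if_neg hij]
    symm
    refine Finset.sum_eq_zero fun k _ => ?_
    rw [dpart_apply, dpart_apply]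
    by_cases h : v i = v k
    · have h2 : ¬ v k = v j := fun h2 => hij (h.trans h2)
      rw [if_neg h2, mul_zero]
    · rw [if_neg h, zero_mul]

private theorem dpart_one {ι : Type*} [DecidableEq ι] (v : ι → ℕ) :
    dpart v (1 : Matrix ι ι R) = 1 := by
  ext i j
  rw [dpart_apply]
  by_cases h : i = j
  · subst h
    rw [if_pos rfl]
  · rw [Matrix.one_apply_ne h, ite_self]

private theorem dpart_dpart {ι : Type*} (v : ι → ℕ) (M : Matrix ι ι R) :
    dpart v (dpart v M) = dpart v M := by
  ext i j
  rw [dpart_apply, dpart_apply]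
  by_cases h : v i = v j
  · rw [if_pos h]
  · rw [if_neg h, if_neg h]

private theorem dpart_up {ι : Type*} (v : ι → ℕ) (M : Matrix ι ι R) (i j : ι) (h : v j < v i) :
    dpart v M i j = 0 := by
  rw [dpart_apply, if_neg (ne_of_gt h)]

private theorem mul_up {ι : Type*} [Fintype ι] (v : ι → ℕ) (M N : Matrix ι ι R)
    (hM : ∀ i j, v j < v i → M i j = 0) (hN : ∀ i j, v j < v i → N i j = 0)
    (i j : ι) (h : v j < v i) : (M * N) i j = 0 := by
  rw [Matrix.mul_apply]
  refine Finset.sum_eq_zero fun k _ => ?_
  rcases lt_or_ge (v k) (v i) with h1 | h1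
  · rw [hM i k h1, zero_mul]
  · rw [hN k j (lt_of_lt_of_le h h1), mul_zero]

/-- The block diagonal part of an invertible block triangular matrix, invertible. -/
private def dU {ι : Type*} [Fintype ι] [DecidableEq ι] (v : ι → ℕ) (U : (Matrix ι ι R)ˣ)
    (hU : ∀ i j, v j < v i → U.val i j = 0) (hUi : ∀ i j, v j < v i → U.inv i j = 0) :
    (Matrix ι ι R)ˣ where
  val := dpart v U.val
  inv := dpart v U.inv
  val_inv := by rw [← dpart_mul v _ _ hU hUi, U.val_inv, dpart_one]
  inv_val := by rw [← dpart_mul v _ _ hUi hU, U.inv_val, dpart_one]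

private theorem cls_unipotent (n : ℕ) : ∀ (ι : Type*) [Fintype ι] [DecidableEq ι]
    (_ : Fintype.card ι = n) (v : ι → ℕ) (E : (Matrix ι ι R)ˣ)
    (_ : ∀ i j, v j < v i → E.val i j = 0) (_ : ∀ i j, v j < v i → E.inv i j = 0)
    (_ : ∀ i j, v i = v j → E.val i j = (1 : Matrix ι ι R) i j)
    (_ : ∀ i j, v i = v j → E.inv i j = (1 : Matrix ι ι R) i j), K1.cls E = 0 := by
  induction n with
  | zero =>
    intro ι _ _ hc v E _ _ _ _
    have : IsEmpty ι := Fintype.card_eq_zero_iff.1 hc
    have h : E = 1 := Units.ext (Subsingleton.elim _ _)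
    rw [h, K1.cls_one]
  | succ n ih =>
    intro ι _ _ hc v E h1 h2 h3 h4
    have hne : Nonempty ι := Fintype.card_pos_iff.1 (by rw [hc]; exact Nat.succ_pos n)
    obtain ⟨i₀, hi₀⟩ : ∃ i₀ : ι, ∀ j, v j ≤ v i₀ := Finite.exists_max v
    have hrow : ∀ j, j ≠ i₀ → E.val i₀ j = 0 := by
      intro j hj
      rcases lt_or_eq_of_le (hi₀ j) with h | h
      · exact h1 _ _ h
      · rw [h3 _ _ h.symm, Matrix.one_apply_ne hj.symm]
    have hrowi : ∀ j, j ≠ i₀ → E.inv i₀ j = 0 := by
      intro j hj
      rcases lt_or_eq_of_le (hi₀ j) with h | h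
      · exact h2 _ _ h
      · rw [h4 _ _ h.symm, Matrix.one_apply_ne hj.symm]
    let e : ι ≃ {i : ι // i ≠ i₀} ⊕ {i : ι // ¬ i ≠ i₀} := (Equiv.sumCompl fun i => i ≠ i₀).symm
    have hA : (reU e E).val = Matrix.fromBlocks
        (E.val.submatrix (fun i : {i : ι // i ≠ i₀} => i.1) (fun i : {i : ι // i ≠ i₀} => i.1))
        (E.val.submatrix (fun i : {i : ι // i ≠ i₀} => i.1) (fun i : {i : ι // ¬ i ≠ i₀} => i.1))
        0 1 := by
      rw [reU_val]
      ext i j
      rcases i with i | i
      · rcases j with j | j <;> rfl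
      · have hi : i.1 = i₀ := not_not.1 i.2
        rcases j with j | j
        · change E.val i.1 j.1 = 0
          rw [hi]
          exact hrow _ j.2
        · change E.val i.1 j.1 = (1 : Matrix {i : ι // ¬ i ≠ i₀} {i : ι // ¬ i ≠ i₀} R) i j
          have hj : j.1 = i₀ := not_not.1 j.2
          have hij : i = j := Subtype.ext (hi.trans hj.symm)
          subst hij
          rw [Matrix.one_apply_eq, h3 _ _ rfl, Matrix.one_apply_eq]
    have hB : (reU e E).inv = Matrix.fromBlocks
        (E.inv.submatrix (fun i : {i : ι // i ≠ i₀} => i.1) (fun i : {i : ι // i ≠ i₀} => i.1))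
        (E.inv.submatrix (fun i : {i : ι // i ≠ i₀} => i.1) (fun i : {i : ι // ¬ i ≠ i₀} => i.1))
        0 1 := by
      change E.inv.submatrix e.symm e.symm = _
      ext i j
      rcases i with i | i
      · rcases j with j | j <;> rfl
      · have hi : i.1 = i₀ := not_not.1 i.2
        rcases j with j | j
        · change E.inv i.1 j.1 = 0
          rw [hi]
          exact hrowi _ j.2
        · change E.inv i.1 j.1 = (1 : Matrix {i : ι // ¬ i ≠ i₀} {i : ι // ¬ i ≠ i₀} R) i j
          have hj : j.1 = i₀ := not_not.1 j.2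
          have hij : i = j := Subtype.ext (hi.trans hj.symm)
          subst hij
          rw [Matrix.one_apply_eq, h4 _ _ rfl, Matrix.one_apply_eq]
    have hAB := (reU e E).val_inv
    have hBA := (reU e E).inv_val
    rw [hA, hB, Matrix.fromBlocks_multiply, ← Matrix.fromBlocks_one, Matrix.fromBlocks_inj] at hAB
    rw [hA, hB, Matrix.fromBlocks_multiply, ← Matrix.fromBlocks_one, Matrix.fromBlocks_inj] at hBA
    have hAB1 := hAB.1
    have hBA1 := hBA.1
    rw [Matrix.mul_zero, add_zero] at hAB1 hBA1
    let E' : (Matrix {i : ι // i ≠ i₀} {i : ι // i ≠ i₀} R)ˣ :=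
      { val := E.val.submatrix (fun i => i.1) (fun i => i.1)
        inv := E.inv.submatrix (fun i => i.1) (fun i => i.1)
        val_inv := hAB1
        inv_val := hBA1 }
    have hcard : Fintype.card {i : ι // i ≠ i₀} = n := by
      have h := Fintype.card_subtype_compl (fun i : ι => i = i₀)
      rw [Fintype.card_subtype_eq, hc] at h
      exact h
    have hE' : K1.cls E' = 0 := by
      refine ih {i : ι // i ≠ i₀} hcard (fun i => v i.1) E' ?_ ?_ ?_ ?_
      · intro i j h
        exact h1 i.1 j.1 h
      · intro i j h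
        exact h2 i.1 j.1 h
      · intro i j h
        change E.val i.1 j.1 = _
        rw [h3 i.1 j.1 h]
        by_cases hij : i = j
        · subst hij
          rw [Matrix.one_apply_eq, Matrix.one_apply_eq]
        · rw [Matrix.one_apply_ne hij, Matrix.one_apply_ne (fun h => hij (Subtype.ext h))]
      · intro i j h
        change E.inv i.1 j.1 = _
        rw [h4 i.1 j.1 h]
        by_cases hij : i = j
        · subst hij
          rw [Matrix.one_apply_eq, Matrix.one_apply_eq]
        · rw [Matrix.one_apply_ne hij, Matrix.one_apply_ne (fun h => hij (Subtype.ext h))]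
    rw [← K1.cls_reindex e E, K1.cls_upper E' 1 _ (reU e E) hA, hE', K1.cls_one, add_zero]

private theorem cls_dU {ι : Type*} [Fintype ι] [DecidableEq ι] (v : ι → ℕ) (U : (Matrix ι ι R)ˣ)
    (hU : ∀ i j, v j < v i → U.val i j = 0) (hUi : ∀ i j, v j < v i → U.inv i j = 0) :
    K1.cls U = K1.cls (dU v U hU hUi) := by
  have hDi : (dU v U hU hUi)⁻¹.val = dpart v U.inv := rfl
  have hD : (dU v U hU hUi).val = dpart v U.val := rfl
  have h : K1.cls ((dU v U hU hUi)⁻¹ * U) = 0 := by
    have e1 : ((dU v U hU hUi)⁻¹ * U).val = dpart v U.inv * U.val := rfl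
    have e2 : ((dU v U hU hUi)⁻¹ * U).inv = U.inv * dpart v U.val := rfl
    refine cls_unipotent (Fintype.card ι) ι rfl v _ ?_ ?_ ?_ ?_
    · intro i j hij
      rw [e1]
      exact mul_up v _ _ (dpart_up v _) hU i j hij
    · intro i j hij
      rw [e2]
      exact mul_up v _ _ hUi (dpart_up v _) i j hij
    · intro i j hij
      have h5 := dpart_mul v (dpart v U.inv) U.val (dpart_up v _) hU
      rw [dpart_dpart, ← dpart_mul v _ _ hUi hU, U.inv_val, dpart_one] at h5
      have h6 := congrFun (congrFun h5 i) j
      rw [dpart_apply, if_pos hij] at h6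
      rw [e1, h6]
    · intro i j hij
      have h5 := dpart_mul v U.inv (dpart v U.val) hUi (dpart_up v _)
      rw [dpart_dpart, ← dpart_mul v _ _ hUi hU, U.inv_val, dpart_one] at h5
      have h6 := congrFun (congrFun h5 i) j
      rw [dpart_apply, if_pos hij] at h6
      rw [e2, h6]
  rw [K1.cls_mul, K1.cls_inv] at h
  exact (neg_add_eq_zero.1 h).symm

theorem cls_tri {ι : Type*} [Fintype ι] [DecidableEq ι] (v : ι → ℕ) (U V : (Matrix ι ι R)ˣ)
    (hU : ∀ i j, v j < v i → U.val i j = 0) (hUi : ∀ i j, v j < v i → U.inv i j = 0)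
    (hV : ∀ i j, v i < v j → V.val i j = 0) (hVi : ∀ i j, v i < v j → V.inv i j = 0)
    (hUV : ∀ i j, v i = v j → U.val i j = V.val i j) : K1.cls U = K1.cls V := by
  obtain ⟨N, hN⟩ : ∃ N, ∀ i, v i ≤ N := by
    refine ⟨∑ i, v i, fun i => ?_⟩
    exact Finset.single_le_sum (fun _ _ => Nat.zero_le _) (Finset.mem_univ i)
  have hlt : ∀ i j, N - v j < N - v i → v i < v j := by
    intro i j h
    have := hN i
    have := hN j
    omega
  have hV' : ∀ i j, N - v j < N - v i → V.val i j = 0 := fun i j h => hV i j (hlt i j h)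
  have hVi' : ∀ i j, N - v j < N - v i → V.inv i j = 0 := fun i j h => hVi i j (hlt i j h)
  rw [cls_dU v U hU hUi, cls_dU (fun i => N - v i) V hV' hVi']
  congr 1
  apply Units.ext
  ext i j
  change dpart v U.val i j = dpart (fun i => N - v i) V.val i j
  rw [dpart_apply, dpart_apply]
  have h1 := hN i
  have h2 := hN j
  by_cases h : v i = v j
  · rw [if_pos h, if_pos (by rw [h]), hUV i j h]
  · rw [if_neg h, if_neg (fun h3 => h (by omega))]

end Pool.Agent.H95.WH
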