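import Pool.Agent.H95.WH.ArtKR
import Pool.Agent.H95.WH.TriC
import Pool.Agent.H95.WH.SmN

/-!
# Artin induction for `K₁(k[F]) ⊗ ℚ`, `k` a commutative ring of characteristic `p`
-/

set_option autoImplicit false

open Matrix

universe u v w

namespace Pool.Agent.H95.WH

open Pool.Agent.H71.FJ (lamR twR incl)
open Pool.Agent.H71.FJ (tw tw_single)

section Conj

variable {R : Type u} [Ring R] {S : Type v} [Ring S] {J J' : Type*} [Fintype J] [DecidableEq J]
  [Fintype J'] [DecidableEq J']

/-- The conjugate of a homomorphism to a matrix ring. -/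
def conjRep (φ : R →+* Matrix J J S) (P : Matrix J J' S) (P' : Matrix J' J S) (h1 : P * P' = 1)
    (h2 : P' * P = 1) : R →+* Matrix J' J' S where
  toFun r := P' * φ r * P
  map_one' := by rw [map_one, Matrix.mul_one, h2]
  map_mul' r s := by
    have e : P' * φ r * P * (P' * φ s * P) = P' * φ r * (P * P') * φ s * P := by
      simp only [Matrix.mul_assoc]
    rw [e, h1, Matrix.mul_one, map_mul, ← Matrix.mul_assoc]
  map_zero' := by rw [map_zero, Matrix.mul_zero, Matrix.zero_mul]
  map_add' r s := by rw [map_add, Matrix.mul_add, Matrix.add_mul]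

theorem conjRep_apply (φ : R →+* Matrix J J S) (P : Matrix J J' S) (P' : Matrix J' J S)
    (h1 : P * P' = 1) (h2 : P' * P = 1) (r : R) :
    conjRep φ P P' h1 h2 r = P' * φ r * P := rfl

theorem push_conjRep (φ : R →+* Matrix J J S) (P : Matrix J J' S) (P' : Matrix J' J S)
    (h1 : P * P' = 1) (h2 : P' * P = 1) (x : K1 R) :
    K1.push (conjRep φ P P' h1 h2) x = K1.push φ x := by
  symm
  apply K1.push_congr φ _ P P' h1 h2
  intro r
  rw [conjRep_apply, Matrix.mul_assoc P', ← Matrix.mul_assoc P, h1, Matrix.one_mul]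

theorem push_eq_of_tri (φ ψ : R →+* Matrix J J S) (v : J → ℕ)
    (h1 : ∀ r i j, v j < v i → φ r i j = 0) (h2 : ∀ r i j, v i < v j → ψ r i j = 0)
    (h3 : ∀ r i j, v i = v j → φ r i j = ψ r i j) (x : K1 R) : K1.push φ x = K1.push ψ x := by
  have key : K1.push φ = K1.push ψ := by
    apply K1.hom_ext
    intro n U
    rw [K1.push_mk, K1.push_mk]
    exact cls_tri (fun q : Fin n × J => v q.2) (flatU φ U) (flatU ψ U)
      (fun i j h => h1 _ _ _ h) (fun i j h => h1 _ _ _ h)
      (fun i j h => h2 _ _ _ h) (fun i j h => h2 _ _ _ h)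
      (fun i j h => h3 _ _ _ h)
  rw [key]

end Conj

variable (k : Type u) [CommRing k] (F : Type v) [Group F]

/-- The integral permutation matrices. -/
private def permZ (X : Type v) [DecidableEq X] [MulAction F X] (h : F) : Matrix X X ℤ :=
  Matrix.of fun x y => if x = h • y then 1 else 0

private theorem permZ_apply (X : Type v) [DecidableEq X] [MulAction F X] (h : F) (x y : X) :
    permZ F X h x y = if x = h • y then 1 else 0 := rfl

private theorem permZ_inter {X Y : Type v} [Fintype X] [Fintype Y] [DecidableEq X] [DecidableEq Y]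
    [MulAction F X] [MulAction F Y] (a : Matrix X Y ℤ)
    (ha : ∀ (h : F) x y, a (h • x) (h • y) = a x y) (h : F) :
    permZ F X h * a = a * permZ F Y h := by
  ext x y
  rw [Matrix.mul_apply, Matrix.mul_apply, Finset.sum_eq_single (h⁻¹ • x),
    Finset.sum_eq_single (h • y)]
  · rw [permZ_apply, permZ_apply, if_pos rfl, if_pos (smul_inv_smul h x).symm,
      ← ha h (h⁻¹ • x) y, smul_inv_smul, one_mul, mul_one]
  · intro z _ hz
    rw [permZ_apply, if_neg hz, mul_zero]
  · intro hz
    exact absurd (Finset.mem_univ _) hz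
  · intro z _ hz
    rw [permZ_apply, if_neg, zero_mul]
    intro e
    exact hz (by rw [e, inv_smul_smul])
  · intro hz
    exact absurd (Finset.mem_univ _) hz

private theorem tw_eq (X : Type v) [Fintype X] [DecidableEq X] [MulAction F X] (h : F) (s : k) :
    twR k X (MonoidAlgebra.single h s) =
      (permZ F X h).map (fun z : ℤ => ((z : MonoidAlgebra k F) * MonoidAlgebra.single h s)) := by
  refine Matrix.ext fun x y => ?_
  have e1 : twR k X (MonoidAlgebra.single h s) x y =
      if x = h • y then MonoidAlgebra.single h s else 0 := tw_single k X h s x y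
  rw [e1, Matrix.map_apply, permZ_apply]
  split_ifs
  · rw [Int.cast_one, one_mul]
  · rw [Int.cast_zero, zero_mul]

private theorem conj_tw {X Y : Type v} [Fintype X] [Fintype Y] [DecidableEq X] [DecidableEq Y]
    [MulAction F X] (P : Matrix X Y ℤ) (P' : Matrix Y X ℤ) (h : F) (s : k) (i j : Y) :
    (P'.map (Int.castRingHom (MonoidAlgebra k F)) * twR k X (MonoidAlgebra.single h s) *
      P.map (Int.castRingHom (MonoidAlgebra k F))) i j =
      (((P' * permZ F X h * P) i j : ℤ) : MonoidAlgebra k F) * MonoidAlgebra.single h s := by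
  rw [tw_eq]
  simp only [Matrix.mul_apply, Matrix.map_apply, eq_intCast, Int.cast_sum, Int.cast_mul,
    Finset.sum_mul]
  refine Finset.sum_congr rfl fun y _ => Finset.sum_congr rfl fun x _ => ?_
  rw [← mul_assoc, mul_assoc _ (MonoidAlgebra.single h s) _,
    ← (Int.cast_commute (P y j) (MonoidAlgebra.single h s)).eq, ← mul_assoc]

variable (p : ℕ) [Fact p.Prime] [CharP k p]

private theorem cast_zero_of_dvd (z : ℤ) (hz : (p : ℤ) ∣ z) : (z : MonoidAlgebra k F) = 0 := by
  obtain ⟨y, rfl⟩ := hz
  have h1 : ((p : ℕ) : MonoidAlgebra k F) = 0 := by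
    have h2 : ((p : ℕ) : MonoidAlgebra k F) = algebraMap k (MonoidAlgebra k F) (p : k) := by
      rw [map_natCast]
    rw [h2, CharP.cast_eq_zero, map_zero]
  rw [Int.cast_mul, Int.cast_natCast, h1, zero_mul]

include p in
theorem inter_p {X Y : Type v} [Fintype X] [Fintype Y] [DecidableEq X] [DecidableEq Y]
    [MulAction F X] [MulAction F Y] (n : ℕ) (hn : n ≠ 0) (a : Matrix X Y ℤ) (b : Matrix Y X ℤ)
    (hab : a * b = (n : ℤ) • (1 : Matrix X X ℤ)) (hba : b * a = (n : ℤ) • (1 : Matrix Y Y ℤ))
    (ha : ∀ (h : F) x y, a (h • x) (h • y) = a x y) (x : K1 (MonoidAlgebra k F)) :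
    K1.push (twR k X) x = K1.push (twR k Y) x := by
  obtain ⟨v, P, P', Q, Q', u, u', hP, hP', hQ, hQ', hu, hup, hlo, hd⟩ :=
    exists_modp p n hn a b hab hba (permZ F X) (permZ F Y) (permZ_inter F a ha)
  let c := Int.castRingHom (MonoidAlgebra k F)
  have mapc : ∀ {I J K : Type v} [Fintype J] (M : Matrix I J ℤ) (N : Matrix J K ℤ),
      M.map c * N.map c = (M * N).map c := fun M N => (Matrix.map_mul (f := c)).symm
  have onec : ∀ {I : Type v} [DecidableEq I], (1 : Matrix I I ℤ).map c = 1 := fun {I} _ => by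
    refine Matrix.ext fun i j => ?_
    rw [Matrix.map_apply, Matrix.one_apply, Matrix.one_apply]
    split_ifs
    · exact map_one c
    · exact map_zero c
  have eP : P.map c * P'.map c = 1 := by rw [mapc, hP, onec]
  have eP' : P'.map c * P.map c = 1 := by rw [mapc, hP', onec]
  have eQ : Q.map c * Q'.map c = 1 := by rw [mapc, hQ, onec]
  have eQ' : Q'.map c * Q.map c = 1 := by rw [mapc, hQ', onec]
  let D : Matrix X X (MonoidAlgebra k F) := diagonal fun i => (u i : MonoidAlgebra k F)
  let D' : Matrix X X (MonoidAlgebra k F) := diagonal fun i => (u' i : MonoidAlgebra k F)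
  have huu : ∀ i, (u i : MonoidAlgebra k F) * (u' i : MonoidAlgebra k F) = 1 := by
    intro i
    have h1 := cast_zero_of_dvd k F p _ (hu i)
    rw [Int.cast_sub, Int.cast_mul, Int.cast_one, sub_eq_zero] at h1
    exact h1
  have eD : D * D' = 1 := by
    rw [diagonal_mul_diagonal, ← diagonal_one]
    exact congrArg diagonal (funext huu)
  have eD' : D' * D = 1 := by
    rw [diagonal_mul_diagonal, ← diagonal_one]
    refine congrArg diagonal (funext fun i => ?_)
    rw [(Int.cast_commute (u' i) ((u i : ℤ) : MonoidAlgebra k F)).eq]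
    exact huu i
  rw [← push_conjRep (twR k X) (P.map c) (P'.map c) eP eP' x,
    ← push_conjRep (twR k Y) (Q.map c) (Q'.map c) eQ eQ' x,
    ← push_conjRep (conjRep (twR k Y) (Q.map c) (Q'.map c) eQ eQ') D' D eD' eD x]
  apply push_eq_of_tri _ _ v
  · intro r i j hij
    induction r using MonoidAlgebra.induction_linear with
    | zero => rw [map_zero, Matrix.zero_apply]
    | add s t hs ht => rw [map_add, Matrix.add_apply, hs, ht, add_zero]
    | single h s =>
      rw [conjRep_apply, conj_tw, cast_zero_of_dvd k F p _ (hup h i j hij), zero_mul]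
  · intro r i j hij
    induction r using MonoidAlgebra.induction_linear with
    | zero => rw [map_zero, Matrix.zero_apply]
    | add s t hs ht => rw [map_add, Matrix.add_apply, hs, ht, add_zero]
    | single h s =>
      rw [conjRep_apply, conjRep_apply, Matrix.mul_diagonal, Matrix.diagonal_mul, conj_tw,
        cast_zero_of_dvd k F p _ (hlo h i j hij), zero_mul, mul_zero, zero_mul]
  · intro r i j hij
    induction r using MonoidAlgebra.induction_linear with
    | zero => rw [map_zero, map_zero]
    | add s t hs ht => rw [map_add, map_add, Matrix.add_apply, Matrix.add_apply, hs, ht]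
    | single h s =>
      rw [conjRep_apply, conjRep_apply, conjRep_apply, Matrix.mul_diagonal, Matrix.diagonal_mul,
        conj_tw, conj_tw]
      have h1 := cast_zero_of_dvd k F p _ (hd h i j hij)
      rw [Int.cast_sub, sub_eq_zero] at h1
      rw [h1, Int.cast_mul, Int.cast_mul, ← mul_assoc, mul_assoc _ (MonoidAlgebra.single h s) _,
        ← (Int.cast_commute (u' j) (MonoidAlgebra.single h s)).eq, ← mul_assoc]

include p in
/-- **Artin induction** for `K₁(k[F]) ⊗ ℚ`, `k` a commutative ring of characteristic `p`. -/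
theorem artin_K1_charP [Finite F] (x : K1 (MonoidAlgebra k F)) :
    ∃ (m r : ℕ) (D : Fin r → Subgroup F) (y : ∀ i, K1 (MonoidAlgebra k (D i))),
      0 < m ∧ (∀ i, IsCyclic (D i)) ∧ m • x = ∑ i, K1.map (incl k (D i)) (y i) :=
  artin_K1_of_inter k F
    (fun n hn a b hab hba ha x => ⟨1, one_pos, by rw [inter_p k F p n hn a b hab hba ha x]⟩) x

/-- **Artin induction** for `K₁(k[F]) ⊗ ℚ`, `k` a field. -/
theorem artin_K1_anyField (k : Type u) [Field k] (F : Type v) [Group F] [Finite F]
    (x : K1 (MonoidAlgebra k F)) :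
    ∃ (m r : ℕ) (D : Fin r → Subgroup F) (y : ∀ i, K1 (MonoidAlgebra k (D i))),
      0 < m ∧ (∀ i, IsCyclic (D i)) ∧ m • x = ∑ i, K1.map (incl k (D i)) (y i) := by
  obtain ⟨q, hq⟩ := CharP.exists k
  rcases CharP.char_is_prime_or_zero k q with h | h
  · have : Fact q.Prime := ⟨h⟩
    exact artin_K1_charP k F q x
  · subst h
    have : CharZero k := CharP.charP_to_charZero k
    exact artin_K1_field F k x

end Pool.Agent.H95.WH
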