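import Pool.Agent.H95.WH.UnitT
import Pool.Agent.H95.WH.Push

/-!
# The norm of a unit of `ℤ[C]` to a subgroup

## Paper proof of `norm_sub`

Let `ρ = lamR ℤ D : ℤ[C] → Mat_{C/D}(ℤ[D])` (restriction, `Pool/Agent/H71/FJ/Group.lean`) and
`z = det ρ(u)`, a unit of `ℤ[D]` (`D` is commutative). Let `N = p^{k+1}`, `M = p^k`, `e = N - M` and
`N f = u^e - 1` (`exists_f`). Then `z^e = det ρ(u^e) = det (1 + N ρ(f)) = 1 + N tr ρ(f) + N² w`
(`Matrix.det_one_add_smul` or a similar statement), so `z^e - 1 = N (tr ρ(f) + N w)`, and by `GK_comm` for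
`z` the value of `GK p k D (unit z)` at `d` is the coefficient of `tr ρ(f)` at `d` modulo `N`. As `C` is
commutative, `tr ρ(c) = ℓ c` for `c ∈ D` and `0` otherwise (`lam_single`: the diagonal entry at `x` is
`x.out⁻¹ c x.out = c` if it is in `D`), so this coefficient is `ℓ f(d)`, and `f(d)` modulo `N` is the value
of `GK p k C (unit u)` at `d`.

`norm_inj`: apply `norm_sub` to the subgroup `j.range` and transport `z` along the isomorphism
`D ≃* j.range` (`GK_ind`; the induced map on conjugacy classes is injective).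
-/

set_option autoImplicit false

open Matrix

universe v

namespace Pool.Agent.H95.WH

variable (p : ℕ) [Fact p.Prime]

/-- The norm of a unit under a homomorphism to a matrix ring. -/
private theorem norm_det {R : Type*} [Ring R] {S : Type*} [CommRing S] {J : Type*} [Fintype J]
    [DecidableEq J] (ρ : R →+* Matrix J J S) (u : Rˣ) :
    ∃ z : Sˣ, ∀ (e N : ℕ) (f : R), (N : R) * f = (u : R) ^ e - 1 →
      ∃ w : S, (N : S) * (trace (ρ f) + (N : S) * w) = (z : S) ^ e - 1 := by
  refine ⟨⟨det (ρ u), det (ρ (u⁻¹ : Rˣ)), ?_, ?_⟩, ?_⟩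
  · rw [← det_mul, ← map_mul, Units.mul_inv, map_one, det_one]
  · rw [← det_mul, ← map_mul, Units.inv_mul, map_one, det_one]
  · intro e N f hf
    have h1 : (u : R) ^ e = 1 + (N : R) * f := by rw [hf]; abel
    have h2 : (det (ρ u)) ^ e = det (1 + (N : S) • ρ f) := by
      rw [← det_pow, ← map_pow, h1, map_add, map_one, map_mul, map_natCast]
      congr 2
      ext i j
      rw [Matrix.smul_apply, smul_eq_mul, ← Matrix.diagonal_natCast, Matrix.diagonal_mul]
    have h3 := Matrix.det_one_add_smul (N : S) (ρ f)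
    refine ⟨(det (1 + (Polynomial.X : Polynomial S) • (ρ f).map Polynomial.C)).divX.divX.eval
      (N : S), ?_⟩
    show _ = (det (ρ u)) ^ e - 1
    rw [h2, h3]
    ring

private theorem ma_comm {D : Type*} [Group D] (h : ∀ a b : D, a * b = b * a)
    (x y : MonoidAlgebra ℤ D) : x * y = y * x := by
  induction x using MonoidAlgebra.induction_linear with
  | zero => rw [zero_mul, mul_zero]
  | add a b ha hb => rw [add_mul, mul_add, ha, hb]
  | single s t =>
    induction y using MonoidAlgebra.induction_linear with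
    | zero => rw [zero_mul, mul_zero]
    | add a b ha hb => rw [add_mul, mul_add, ha, hb]
    | single s' t' =>
      rw [MonoidAlgebra.single_mul_single, MonoidAlgebra.single_mul_single, h, mul_comm t]

open scoped Classical in
private theorem trace_lam {C : Type v} [Group C] (hC : ∀ a b : C, a * b = b * a)
    (D : Subgroup C) [Fintype (C ⧸ D)] (f : MonoidAlgebra ℤ C) (d : D) :
    (trace (H71.FJ.lamR ℤ D f)).coeff d = D.index * f.coeff (d : C) := by
  have hidx : (D.index : ℤ) = Fintype.card (C ⧸ D) := by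
    rw [Subgroup.index_eq_card, Nat.card_eq_fintype_card]
  induction f using MonoidAlgebra.induction_linear with
  | zero => simp
  | add a b ha hb =>
    rw [map_add, trace_add, MonoidAlgebra.coeff_add, MonoidAlgebra.coeff_add, Finsupp.add_apply,
      Finsupp.add_apply, ha, hb, mul_add]
  | single h r =>
    have h1 : ∀ x : C ⧸ D, (H71.FJ.lamR ℤ D (MonoidAlgebra.single h r) x x).coeff d =
        (MonoidAlgebra.single h r).coeff (d : C) := by
      intro x
      change (H71.FJ.lam ℤ D (MonoidAlgebra.single h r) x x).coeff d = _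
      rw [H71.FJ.lam_single]
      have e : x.out⁻¹ * h * x.out = h := by
        rw [mul_assoc, hC h, ← mul_assoc, inv_mul_cancel, one_mul]
      by_cases hh : x.out⁻¹ * h * x.out ∈ D
      · rw [dif_pos hh, MonoidAlgebra.coeff_single, MonoidAlgebra.coeff_single]
        rw [Finsupp.single_apply, Finsupp.single_apply]
        by_cases hd : h = (d : C)
        · rw [if_pos hd, if_pos (Subtype.ext (e.trans hd))]
        · rw [if_neg hd, if_neg (fun h' => hd (e.symm.trans (congrArg Subtype.val h')))]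
      · rw [dif_neg hh, MonoidAlgebra.coeff_single, Finsupp.single_apply, if_neg]
        · rfl
        · intro hd
          apply hh
          rw [e, hd]
          exact d.2
    rw [Matrix.trace, MonoidAlgebra.coeff_sum, Finsupp.finsetSum_apply]
    simp only [Matrix.diag_apply]
    rw [Finset.sum_congr rfl (fun x _ => h1 x), Finset.sum_const, Finset.card_univ, hidx]
    simp

theorem norm_sub (hp2 : p ≠ 2) {C : Type v} [Group C] [Finite C]
    (hC : ∀ a b : C, a * b = b * a) (hexp : ∀ g : C, g ^ p = g) (D : Subgroup C)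
    (u : (MonoidAlgebra ℤ C)ˣ) :
    ∃ z : (MonoidAlgebra ℤ D)ˣ, ∀ (k : ℕ) (d : D),
      GK p k D (K1.unit z) (ConjClasses.mk d) =
        D.index • GK p k C (K1.unit u) (ConjClasses.mk (d : C)) := by
  classical
  have hD : ∀ a b : D, a * b = b * a := fun a b => Subtype.ext (hC a b)
  have hDexp : ∀ g : D, g ^ p = g := fun g => Subtype.ext (hexp g)
  let _ : Fintype (C ⧸ D) := Fintype.ofFinite _
  let _ : CommRing (MonoidAlgebra ℤ D) :=
    { (inferInstance : Ring (MonoidAlgebra ℤ D)) with mul_comm := ma_comm hD }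
  obtain ⟨z, hz⟩ := norm_det (H71.FJ.lamR ℤ D) u
  refine ⟨z, fun k d => ?_⟩
  obtain ⟨f, hf⟩ := exists_f p hC hexp u k
  obtain ⟨w, hw⟩ := hz (p ^ (k + 1) - p ^ k) (p ^ (k + 1)) f hf
  have h1 := GK_comm p k hp2 hD hDexp z _ hw d
  have h2 := GK_comm p k hp2 hC hexp u f hf (d : C)
  rw [h2]
  refine h1.trans ?_
  rw [MonoidAlgebra.coeff_add, Finsupp.add_apply, trace_lam hC]
  have h3 : ((((p ^ (k + 1) : ℕ) : MonoidAlgebra ℤ D) * w).coeff d : ℤ) =
      ((p ^ (k + 1) : ℕ) : ℤ) * w.coeff d := by
    rw [← nsmul_eq_mul, MonoidAlgebra.coeff_smul, Finsupp.smul_apply, nsmul_eq_mul]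
  rw [h3]
  push_cast
  rw [← Nat.cast_pow, ZMod.natCast_self, zero_mul, add_zero, nsmul_eq_mul]

theorem norm_inj (hp2 : p ≠ 2) {C D : Type v} [Group C] [Finite C] [Group D]
    (hC : ∀ a b : C, a * b = b * a) (hexp : ∀ g : C, g ^ p = g) (j : D →* C)
    (hj : Function.Injective j) (u : (MonoidAlgebra ℤ C)ˣ) :
    ∃ z : (MonoidAlgebra ℤ D)ˣ, ∀ (k : ℕ) (d : D),
      GK p k D (K1.unit z) (ConjClasses.mk d) =
        j.range.index • GK p k C (K1.unit u) (ConjClasses.mk (j d)) := by
  obtain ⟨z', hz'⟩ := norm_sub p hp2 hC hexp j.range u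
  let e : D ≃* j.range := MonoidHom.ofInjective hj
  refine ⟨Units.map (MonoidAlgebra.mapDomainRingHom ℤ e.symm.toMonoidHom).toMonoidHom z',
    fun k d => ?_⟩
  have h1 := hz' k (e d)
  have h2 : ((e d : j.range) : C) = j d := rfl
  rw [h2] at h1
  rw [← h1]
  have h3 : K1.unit (Units.map (MonoidAlgebra.mapDomainRingHom ℤ e.symm.toMonoidHom).toMonoidHom z')
      = ind e.symm.toMonoidHom (K1.unit z') := by
    rw [ind, K1.map_unit]
  rw [h3, GK_ind]
  have hinj : Function.Injective (ConjClasses.map e.symm.toMonoidHom) := by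
    intro a b hab
    obtain ⟨a, rfl⟩ := ConjClasses.mk_surjective a
    obtain ⟨b, rfl⟩ := ConjClasses.mk_surjective b
    have h4 : ConjClasses.mk (e.symm a) = ConjClasses.mk (e.symm b) := hab
    rw [ConjClasses.mk_eq_mk_iff_isConj, isConj_iff] at h4
    obtain ⟨c, hc⟩ := h4
    rw [ConjClasses.mk_eq_mk_iff_isConj, isConj_iff]
    refine ⟨e c, ?_⟩
    have h5 := congrArg e hc
    rw [map_mul, map_mul, map_inv, MulEquiv.apply_symm_apply, MulEquiv.apply_symm_apply] at h5
    exact h5
  have h6 : ConjClasses.mk d = ConjClasses.map e.symm.toMonoidHom (ConjClasses.mk (e d)) := by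
    change ConjClasses.mk d = ConjClasses.mk (e.symm (e d))
    rw [MulEquiv.symm_apply_apply]
  rw [h6, Finsupp.mapDomain_apply hinj]

end Pool.Agent.H95.WH
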