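import Pool.Agent.H95.WH.Lin
import Pool.Agent.H95.WH.NormG
import Pool.Agent.H95.WH.ArtK
import Pool.Agent.H95.WH.Red

/-!
# Rational injectivity of the assembly map for Whitehead groups
-/

set_option autoImplicit false

open Matrix
open scoped TensorProduct

universe u v w

namespace Pool.Agent.H95.WH

theorem lTensor_injective {A B : Type*} [AddCommGroup A] [AddCommGroup B] (f : A →+ B)
    (hf : ∀ a, f a = 0 → ∃ m : ℤ, m ≠ 0 ∧ m • a = 0) :
    Function.Injective (LinearMap.lTensor ℚ f.toIntLinearMap) := by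
  rw [injective_iff_map_eq_zero]
  intro y hy
  obtain ⟨⟨z, m⟩, hz⟩ := IsLocalizedModule.surj (nonZeroDivisors ℤ)
    (TensorProduct.mk ℤ ℚ A 1) y
  have h1 : TensorProduct.mk ℤ ℚ B 1 (f z) = 0 := by
    have h2 : LinearMap.lTensor ℚ f.toIntLinearMap (TensorProduct.mk ℤ ℚ A 1 z) = 0 := by
      have h3 := congrArg (LinearMap.lTensor ℚ f.toIntLinearMap) hz
      rw [Submonoid.smul_def, map_smul, hy, smul_zero] at h3
      exact h3.symm
    exact h2
  obtain ⟨M, hM⟩ := (IsLocalizedModule.eq_zero_iff (nonZeroDivisors ℤ)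
    (TensorProduct.mk ℤ ℚ B 1)).1 h1
  obtain ⟨m', hm', h4⟩ := hf ((M : ℤ) • z) (by rw [map_zsmul]; exact hM)
  have h5 : TensorProduct.mk ℤ ℚ A 1 z = 0 :=
    (IsLocalizedModule.eq_zero_iff (nonZeroDivisors ℤ)
      (TensorProduct.mk ℤ ℚ A 1)).2
      ⟨⟨m' * M, mem_nonZeroDivisors_of_ne_zero
        (mul_ne_zero hm' (nonZeroDivisors.coe_ne_zero M))⟩, by
        rw [Submonoid.smul_def]
        change (m' * (M : ℤ)) • z = 0
        rw [mul_smul, h4]⟩
  have h6 : m • y = m • 0 := by rw [hz, h5, smul_zero]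
  exact IsLocalizedModule.smul_injective (TensorProduct.mk ℤ ℚ A 1) m h6

section Units

variable {C : Type v} [Group C]

/-- Up to torsion every element of `K₁(ℤ[C])`, `C` finite commutative, is the class of a unit. -/
theorem exists_unit [Finite C] (hC : ∀ a b : C, a * b = b * a) (x : K1 (MonoidAlgebra ℤ C)) :
    ∃ (m : ℕ) (u : (MonoidAlgebra ℤ C)ˣ), 0 < m ∧ m • x = K1.unit u := by
  let _ : CommGroup C := { (inferInstance : Group C) with mul_comm := hC }
  obtain ⟨n, U, rfl⟩ := K1.exists_mk x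
  obtain ⟨m, hm, h⟩ := det_torsion (A := MonoidAlgebra ℤ C) U
  refine ⟨m, detU U ^ m, hm, ?_⟩
  rw [h]
  clear h
  induction m with
  | zero => exact absurd hm (lt_irrefl 0)
  | succ m ih =>
    rcases Nat.eq_zero_or_pos m with h0 | h0
    · subst h0
      rw [zero_add, one_smul, pow_one]
    · rw [succ_nsmul, pow_succ, K1.unit_mul, ih h0]

end Units

section Represent

variable (G : Type v) [Group G] (𝓕 : Subgroup G → Prop)

theorem exists_list_repr (z : SumWh G 𝓕) :
    ∃ l : List (Σ F : FamSub G 𝓕, Wh F.1), z = (l.map fun p => inc G 𝓕 p.1 p.2).sum := by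
  classical
  induction z using DirectSum.induction_on with
  | zero => exact ⟨[], rfl⟩
  | of F x =>
    refine ⟨[⟨F, x⟩], ?_⟩
    rw [List.map_singleton, List.sum_singleton, inc]
  | add x y hx hy =>
    obtain ⟨l, hl⟩ := hx
    obtain ⟨l', hl'⟩ := hy
    exact ⟨l ++ l', by rw [List.map_append, List.sum_append, ← hl, ← hl']⟩

/-- Every element of the colimit is a finite sum of classes. -/
theorem colim_induction {P : ColimWh G 𝓕 → Prop} (h0 : P 0)
    (hadd : ∀ a b, P a → P b → P (a + b)) (hcl : ∀ F x, P (cl G 𝓕 F x)) (a : ColimWh G 𝓕) :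
    P a := by
  obtain ⟨z, rfl⟩ : ∃ z, QuotientAddGroup.mk' (colimRel G 𝓕) z = a :=
    QuotientAddGroup.mk_surjective a
  obtain ⟨l, hl⟩ := exists_list_repr G 𝓕 z
  rw [hl]
  clear hl
  induction l with
  | nil => rw [List.map_nil, List.sum_nil, map_zero]; exact h0
  | cons p l ih =>
    rw [List.map_cons, List.sum_cons, map_add]
    exact hadd _ _ (hcl p.1 p.2) ih

end Represent

section Reduce

variable {G : Type v} [Group G]

/-- A finite cyclic subgroup as a member of the family of finite subgroups. -/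
abbrev fcyc (C : Subgroup G) (h : Finite C) : FamSub G FinSub := ⟨C, h⟩

/-- classes from subgroups of a finite subgroup -/
theorem cl_ind (H : FamSub G FinSub) (D : Subgroup H.1) (y : K1 (MonoidAlgebra ℤ D))
    (hfin : Finite (D.map H.1.subtype)) :
    cl G FinSub H (Wh.mk H.1 (ind D.subtype y)) =
      cl G FinSub ⟨D.map H.1.subtype, hfin⟩
        (Wh.mk _ (ind (D.equivMapOfInjective H.1.subtype H.1.subtype_injective).toMonoidHom y)) := by
  have h : ∀ x ∈ D.map H.1.subtype, (1 : G) * x * 1⁻¹ ∈ H.1 := by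
    rintro x ⟨y, _, rfl⟩
    rw [one_mul, inv_one, mul_one]
    exact y.2
  rw [← cl_conj G FinSub ⟨D.map H.1.subtype, hfin⟩ H 1 h, Wh.map_mk]
  congr 2
  rw [ind, ind, ind, K1.map_map]
  congr 2
  apply MonoidAlgebra.ringHom_ext
  · intro r
    change MonoidAlgebra.mapDomain _ _ = MonoidAlgebra.mapDomain _ (MonoidAlgebra.mapDomain _ _)
    rw [MonoidAlgebra.mapDomain_single, MonoidAlgebra.mapDomain_single,
      MonoidAlgebra.mapDomain_single, map_one, map_one, map_one]
  · intro d
    change MonoidAlgebra.mapDomain _ _ = MonoidAlgebra.mapDomain _ (MonoidAlgebra.mapDomain _ _)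
    rw [MonoidAlgebra.mapDomain_single, MonoidAlgebra.mapDomain_single,
      MonoidAlgebra.mapDomain_single]
    congr 1
    apply Subtype.ext
    change ((d : H.1) : G) = 1 * ((d : H.1) : G) * 1⁻¹
    rw [one_mul, inv_one, mul_one]

/-- The finite cyclic subgroups of `G`. -/
abbrev CycF (G : Type v) [Group G] : Type v := {C : Subgroup G // Finite C ∧ IsCyclic C}

/-- The class of a unit in the colimit. -/
noncomputable def ucl (C : CycF G) (u : (MonoidAlgebra ℤ C.1)ˣ) : ColimWh G FinSub :=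
  cl G FinSub ⟨C.1, C.2.1⟩ (Wh.mk C.1 (K1.unit u))

theorem unit_pow {R : Type u} [Ring R] (u : Rˣ) (k : ℕ) : K1.unit (u ^ k) = k • K1.unit u := by
  induction k with
  | zero =>
    rw [pow_zero, zero_smul]
    have h := K1.unit_mul (1 : Rˣ) 1
    rw [one_mul] at h
    exact left_eq_add.1 h
  | succ k ih => rw [pow_succ, K1.unit_mul, ih, succ_nsmul]

theorem ucl_pow (C : CycF G) (u : (MonoidAlgebra ℤ C.1)ˣ) (k : ℕ) :
    ucl C (u ^ k) = k • ucl C u := by
  rw [ucl, unit_pow, map_nsmul, map_nsmul, ucl]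

/-- The sum of the classes of a list of units. -/
noncomputable def lcl (l : List (Σ C : CycF G, (MonoidAlgebra ℤ C.1)ˣ)) : ColimWh G FinSub :=
  (l.map fun p => ucl p.1 p.2).sum

theorem lcl_nil : lcl ([] : List (Σ C : CycF G, (MonoidAlgebra ℤ C.1)ˣ)) = 0 := rfl

theorem lcl_append (l l' : List (Σ C : CycF G, (MonoidAlgebra ℤ C.1)ˣ)) :
    lcl (l ++ l') = lcl l + lcl l' := by
  rw [lcl, List.map_append, List.sum_append, lcl, lcl]

theorem exists_lcl_smul (l : List (Σ C : CycF G, (MonoidAlgebra ℤ C.1)ˣ)) (k : ℕ) :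
    ∃ l', lcl l' = k • lcl l := by
  refine ⟨l.map fun p => ⟨p.1, p.2 ^ k⟩, ?_⟩
  induction l with
  | nil => rw [List.map_nil, lcl_nil, smul_zero]
  | cons p l ih =>
    rw [List.map_cons, lcl, List.map_cons, List.sum_cons]
    change ucl p.1 (p.2 ^ k) + lcl _ = _
    rw [ih, lcl, lcl, List.map_cons, List.sum_cons, smul_add, ucl_pow]

/-- The elements of the colimit with a multiple that is a sum of classes of units. -/
def UnitGen (a : ColimWh G FinSub) : Prop :=
  ∃ (m : ℕ) (l : List (Σ C : CycF G, (MonoidAlgebra ℤ C.1)ˣ)), 0 < m ∧ m • a = lcl l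

theorem UnitGen.zero : UnitGen (0 : ColimWh G FinSub) := ⟨1, [], one_pos, by
  rw [smul_zero, lcl_nil]⟩

theorem UnitGen.add {a b : ColimWh G FinSub} (ha : UnitGen a) (hb : UnitGen b) :
    UnitGen (a + b) := by
  obtain ⟨m, l, hm, h⟩ := ha
  obtain ⟨m', l', hm', h'⟩ := hb
  obtain ⟨L, hL⟩ := exists_lcl_smul l m'
  obtain ⟨L', hL'⟩ := exists_lcl_smul l' m
  refine ⟨m * m', L ++ L', Nat.mul_pos hm hm', ?_⟩
  rw [lcl_append, hL, hL', ← h, ← h', smul_add, mul_smul, mul_smul, smul_comm m m' a]

theorem UnitGen.of_smul {a : ColimWh G FinSub} {m : ℕ} (hm : 0 < m) (h : UnitGen (m • a)) :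
    UnitGen a := by
  obtain ⟨m', l, hm', h'⟩ := h
  exact ⟨m' * m, l, Nat.mul_pos hm' hm, by rw [mul_smul, h']⟩

theorem UnitGen.sum {κ : Type*} (s : Finset κ) (f : κ → ColimWh G FinSub)
    (h : ∀ i ∈ s, UnitGen (f i)) : UnitGen (∑ i ∈ s, f i) := by
  classical
  induction s using Finset.induction_on with
  | empty => rw [Finset.sum_empty]; exact UnitGen.zero
  | insert i s hi ih =>
    rw [Finset.sum_insert hi]
    exact (h i (Finset.mem_insert_self i s)).add
      (ih fun j hj => h j (Finset.mem_insert_of_mem hj))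

theorem unitGen_all (a : ColimWh G FinSub) : UnitGen a := by
  induction a using colim_induction with
  | h0 => exact UnitGen.zero
  | hadd a b ha hb => exact ha.add hb
  | hcl H x =>
    obtain ⟨x, rfl⟩ := Wh.mk_surjective x
    have : Finite H.1 := H.2
    obtain ⟨m, r, D, y, hm, hcyc, h⟩ := artin_K1 H.1 x
    apply UnitGen.of_smul hm
    rw [← map_nsmul, ← map_nsmul, h, map_sum, map_sum]
    apply UnitGen.sum
    intro i _
    have hfinD : Finite (D i) := inferInstance
    have hcom : ∀ a b : D i, a * b = b * a := fun a b => by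
      have := hcyc i
      exact (IsCyclic.commGroup (α := D i)).mul_comm a b
    have hfin : Finite ((D i).map H.1.subtype) :=
      Finite.of_equiv _ ((D i).equivMapOfInjective H.1.subtype H.1.subtype_injective).toEquiv
    have hcyc' : IsCyclic ((D i).map H.1.subtype) := by
      have := hcyc i
      exact isCyclic_of_surjective
        ((D i).equivMapOfInjective H.1.subtype H.1.subtype_injective)
        ((D i).equivMapOfInjective H.1.subtype H.1.subtype_injective).surjective
    obtain ⟨m', u, hm', h'⟩ := exists_unit hcom (y i)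
    apply UnitGen.of_smul hm'
    rw [← map_nsmul, ← map_nsmul, ← map_nsmul, h', cl_ind H (D i) _ hfin]
    refine ⟨1, [⟨⟨(D i).map H.1.subtype, hfin, hcyc'⟩, Units.map (MonoidAlgebra.mapDomainRingHom ℤ
      ((D i).equivMapOfInjective H.1.subtype H.1.subtype_injective).toMonoidHom).toMonoidHom u⟩],
      one_pos, ?_⟩
    rw [one_smul, lcl, List.map_singleton, List.sum_singleton, ucl, ind, K1.map_unit]

end Reduce

section Final

variable (p : ℕ) [Fact p.Prime] {G : Type v} [Group G]

/-- The finite cyclic subgroups of order dividing `p - 1`. -/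
def Good (C : Subgroup G) : Prop := Finite C ∧ IsCyclic C ∧ Nat.card C ∣ p - 1

variable {p}

theorem Good.comm {C : Subgroup G} (h : Good p C) (a b : C) : a * b = b * a := by
  have := h.2.1
  exact (IsCyclic.commGroup (α := C)).mul_comm a b

theorem Good.exp {C : Subgroup G} (h : Good p C) (g : C) : g ^ p = g := by
  have h1 : g ^ (p - 1) = 1 :=
    orderOf_dvd_iff_pow_eq_one.1 ((orderOf_dvd_natCard g).trans h.2.2)
  have hp : p - 1 + 1 = p := Nat.sub_add_cancel (Fact.out : p.Prime).one_le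
  conv_lhs => rw [← hp, pow_succ, h1, one_mul]

theorem Good.sub {C D : Subgroup G} (h : Good p C) (hD : D ≤ C) : Good p D := by
  have hf := h.1
  have hc := h.2.1
  have e : D.subgroupOf C ≃* D := Subgroup.subgroupOfEquivOfLe hD
  refine ⟨Finite.of_equiv _ e.toEquiv, isCyclic_of_surjective e e.surjective, ?_⟩
  rw [← Nat.card_congr e.toEquiv]
  exact (Subgroup.card_subgroup_dvd_card _).trans h.2.2

variable (p)

/-- The logarithm on `K₁(ℤ[C])`. -/
noncomputable def TK (C : Type v) [Group C] :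
    K1 (MonoidAlgebra ℤ C) →+ (C → ∀ k : ℕ, ZMod (p ^ (k + 1))) where
  toFun x := fun c k => GK p k C x (ConjClasses.mk c)
  map_zero' := by
    funext c k
    rw [map_zero]
    rfl
  map_add' x y := by
    funext c k
    rw [map_add]
    rfl

theorem TK_apply (C : Type v) [Group C] (x : K1 (MonoidAlgebra ℤ C)) (c : C) (k : ℕ) :
    TK p C x c k = GK p k C x (ConjClasses.mk c) := rfl

/-- The homomorphism from the units. -/
noncomputable def uH (R : Type v) [Ring R] : Additive Rˣ →+ K1 R where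
  toFun u := K1.unit u.toMul
  map_zero' := by
    have h := K1.unit_mul (1 : Rˣ) 1
    rw [one_mul] at h
    exact left_eq_add.1 h
  map_add' u v := K1.unit_mul _ _

theorem uH_apply (R : Type v) [Ring R] (u : Rˣ) : uH R (Additive.ofMul u) = K1.unit u := rfl

theorem ind_mem_range {C C' : Type v} [Group C] [Group C'] (φ : C →* C')
    {x : K1 (MonoidAlgebra ℤ C)} (hx : x ∈ (uH (MonoidAlgebra ℤ C)).range) :
    ind φ x ∈ (uH (MonoidAlgebra ℤ C')).range := by
  obtain ⟨u, rfl⟩ := hx
  refine ⟨Additive.ofMul (Units.map (MonoidAlgebra.mapDomainRingHom ℤ φ).toMonoidHom u.toMul), ?_⟩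
  change K1.unit _ = ind φ (K1.unit u.toMul)
  rw [ind, K1.map_unit]
  rfl

/-- The map to the rational colimit. -/
noncomputable def tV (G : Type v) [Group G] :
    ColimWh G FinSub →+ (ℚ ⊗[ℤ] ColimWh G FinSub) :=
  (TensorProduct.mk ℤ ℚ (ColimWh G FinSub) 1).toAddMonoidHom

open scoped Classical in
/-- The class in the rational colimit. -/
noncomputable def clV (C : Subgroup G) : K1 (MonoidAlgebra ℤ C) →+ (ℚ ⊗[ℤ] ColimWh G FinSub) :=
  if h : Finite C then (tV G).comp ((cl G FinSub ⟨C, h⟩).comp (Wh.mk C)) else 0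

theorem clV_apply (C : Subgroup G) (h : Finite C) (x : K1 (MonoidAlgebra ℤ C)) :
    clV C x = tV G (cl G FinSub ⟨C, h⟩ (Wh.mk C x)) := by
  rw [clV, dif_pos h]
  rfl

theorem conjHom_injective (g : G) (C C' : Subgroup G) (h : ∀ x ∈ C, g * x * g⁻¹ ∈ C') :
    Function.Injective (conjHom g C C' h) := by
  intro a b hab
  have h1 : g * (a : G) * g⁻¹ = g * (b : G) * g⁻¹ := congrArg (fun z : C' => (z : G)) hab
  exact Subtype.ext (mul_left_cancel (mul_right_cancel h1))

theorem map_mk_injective {C C' : Type v} [Group C] [Group C'] (hC' : ∀ a b : C', a * b = b * a)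
    (φ : C →* C') (hφ : Function.Injective φ) :
    Function.Injective (ConjClasses.map φ) := by
  intro a b hab
  obtain ⟨a, rfl⟩ := ConjClasses.exists_rep a
  obtain ⟨b, rfl⟩ := ConjClasses.exists_rep b
  have h1 : ConjClasses.mk (φ a) = ConjClasses.mk (φ b) := hab
  rw [ConjClasses.mk_eq_mk_iff_isConj, isConj_iff] at h1
  obtain ⟨c, hc⟩ := h1
  rw [hC' c, mul_assoc, mul_inv_cancel, mul_one] at hc
  rw [hφ hc]

/-- The system. -/
noncomputable def sys (hp2 : p ≠ 2) : Sys G (Good p) (∀ k : ℕ, ZMod (p ^ (k + 1)))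
    (ℚ ⊗[ℤ] ColimWh G FinSub) where
  fin C h := h.1
  cyc C h := h.2.1
  sub C D h hD := h.sub hD
  X C := (uH (MonoidAlgebra ℤ C)).range
  mv g C C' h := ((ind (conjHom g C C' h)).comp (AddSubgroup.subtype _)).codRestrict _
    (fun x => ind_mem_range _ x.2)
  T C := (TK p C).comp (AddSubgroup.subtype _)
  cl C := (clV C).comp (AddSubgroup.subtype _)
  T_mv g C C' h hC hC' x c := by
    funext k
    change GK p k C' (ind (conjHom g C C' h) x) (ConjClasses.mk _) = GK p k C x (ConjClasses.mk c)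
    rw [GK_ind]
    have h1 := Finsupp.mapDomain_apply
      (map_mk_injective hC'.comm (conjHom g C C' h) (conjHom_injective g C C' h))
      (GK p k C (x : K1 (MonoidAlgebra ℤ C))) (ConjClasses.mk c)
    exact h1
  T_mv_ne g C C' h hC hC' x y hy := by
    funext k
    change GK p k C' (ind (conjHom g C C' h) x) (ConjClasses.mk _) = 0
    rw [GK_ind]
    apply Finsupp.mapDomain_of_notMem_range
    rintro ⟨a, ha⟩
    obtain ⟨a, rfl⟩ := ConjClasses.exists_rep a
    have h1 : ConjClasses.mk (conjHom g C C' h a) = ConjClasses.mk y := ha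
    rw [ConjClasses.mk_eq_mk_iff_isConj, isConj_iff] at h1
    obtain ⟨c, hc⟩ := h1
    rw [hC'.comm c, mul_assoc, mul_inv_cancel, mul_one] at hc
    exact hy a (congrArg (fun z : C' => (z : G)) hc)
  cl_mv g C C' h hC hC' x := by
    change clV C' (ind (conjHom g C C' h) x) = clV C x
    rw [clV_apply C' hC'.1, clV_apply C hC.1, ← Wh.map_mk,
      cl_conj G FinSub ⟨C, hC.1⟩ ⟨C', hC'.1⟩ g h]
  cl_zero C hC := by
    rintro ⟨x, u, rfl⟩ hx
    change clV C (K1.unit u.toMul) = 0
    have hf : Finite C := hC.1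
    have h1 : u.toMul ^ (p - 1) = 1 := by
      apply unit_detect p hp2 hC.comm hC.exp
      intro k g
      exact congrFun (congrFun hx g) k
    have h2 : (p - 1) • clV C (K1.unit u.toMul) = 0 := by
      rw [← map_nsmul, ← unit_pow, h1]
      have h3 : K1.unit (1 : (MonoidAlgebra ℤ C)ˣ) = 0 := map_zero (uH (MonoidAlgebra ℤ C))
      rw [h3, map_zero]
    have h4 : ((p - 1 : ℕ) : ℚ) ≠ 0 := by
      have := (Fact.out : p.Prime).two_le
      exact_mod_cast (by omega : p - 1 ≠ 0)
    rw [← Nat.cast_smul_eq_nsmul ℚ] at h2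
    exact (smul_eq_zero.1 h2).resolve_left h4
  norm C D hC hDC := by
    rintro ⟨x, u, rfl⟩
    have hf : Finite C := hC.1
    obtain ⟨z, hz⟩ := norm_inj p hp2 hC.comm hC.exp (Subgroup.inclusion hDC)
      (Subgroup.inclusion_injective hDC) u.toMul
    refine ⟨⟨K1.unit z, Additive.ofMul z, rfl⟩, fun d => ?_⟩
    funext k
    change GK p k D (K1.unit z) (ConjClasses.mk d) =
      D.relIndex C • GK p k C (K1.unit u.toMul) (ConjClasses.mk (Subgroup.inclusion hDC d))
    rw [hz k d]
    congr 1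
    rw [Subgroup.inclusion_range]
    rfl

theorem mk_bijective {C : Type v} [Group C] (hC : ∀ a b : C, a * b = b * a) :
    Function.Bijective (ConjClasses.mk : C → ConjClasses C) := by
  refine ⟨?_, ConjClasses.mk_surjective⟩
  intro a b hab
  rw [ConjClasses.mk_eq_mk_iff_isConj, isConj_iff] at hab
  obtain ⟨c, hc⟩ := hab
  rw [hC c, mul_assoc, mul_inv_cancel, mul_one] at hc
  exact hc

open scoped Classical in
theorem mapDomain_eval {C : Type v} [Group C] [Fintype C] (hC : ∀ a b : C, a * b = b * a)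
    {A : Type*} [AddCommMonoid A] {β : Type*} (f : ConjClasses C → β) (x : ConjClasses C →₀ A)
    (y : β) : Finsupp.mapDomain f x y =
      ∑ c : C, if f (ConjClasses.mk c) = y then x (ConjClasses.mk c) else 0 := by
  let e : C ≃ ConjClasses C := Equiv.ofBijective _ (mk_bijective hC)
  let _ : Fintype (ConjClasses C) := Fintype.ofEquiv C e
  rw [Finsupp.mapDomain, Finsupp.sum_apply, Finsupp.sum_fintype _ _ (fun _ => by
    rw [Finsupp.single_zero, Finsupp.zero_apply])]
  rw [← Equiv.sum_comp e]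
  apply Finset.sum_congr rfl
  intro c _
  rw [Finsupp.single_apply]
  rfl

open scoped Classical in
theorem lcl_get (l : List (Σ C : CycF G, (MonoidAlgebra ℤ C.1)ˣ)) :
    lcl l = ∑ i : Fin l.length, ucl (l.get i).1 (l.get i).2 := by
  rw [lcl, ← List.sum_ofFn]
  congr 1
  apply List.ext_get
  · simp
  · intro n h1 h2
    simp

omit [Fact p.Prime] in
theorem exists_prime_mod (M : ℕ) (hM : M ≠ 0) : ∃ q : ℕ, q.Prime ∧ q ≠ 2 ∧ M ∣ q - 1 := by
  obtain ⟨q, hq, h2, hmod⟩ := Nat.exists_prime_gt_modEq_one 2 hM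
  refine ⟨q, hq, h2.ne', ?_⟩
  exact (Nat.modEq_iff_dvd' hq.one_le).1 hmod.symm

/-- The kernel of the assembly map is a torsion group. -/
theorem kernel_torsion (a : ColimWh G FinSub) (ha : assembly G FinSub a = 0) :
    ∃ m : ℤ, m ≠ 0 ∧ m • a = 0 := by
  classical
  obtain ⟨m, l, hm, hl⟩ := unitGen_all a
  have hfin : ∀ i : Fin l.length, Finite (l.get i).1.1 := fun i => (l.get i).1.2.1
  obtain ⟨M, hMdef⟩ : ∃ M : ℕ, M = ∏ i : Fin l.length, Nat.card (l.get i).1.1 := ⟨_, rfl⟩
  have hM0 : M ≠ 0 := by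
    rw [hMdef, Finset.prod_ne_zero_iff]
    intro i _
    exact Nat.card_pos.ne'
  obtain ⟨q, hq, hq2, hqM⟩ := exists_prime_mod M hM0
  have : Fact q.Prime := ⟨hq⟩
  have hgood : ∀ i : Fin l.length, Good q (l.get i).1.1 := fun i =>
    ⟨(l.get i).1.2.1, (l.get i).1.2.2, by
      refine Dvd.dvd.trans ?_ hqM
      rw [hMdef]
      exact Finset.dvd_prod_of_mem _ (Finset.mem_univ i)⟩
  have : ∀ i : Fin l.length, Fintype (l.get i).1.1 := fun i => Fintype.ofFinite _
  -- the relation in the Whitehead group of `G`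
  have hsum : ∑ i : Fin l.length, ind (l.get i).1.1.subtype (K1.unit (l.get i).2) ∈ WhRel G := by
    rw [← Wh.mk_eq_zero, map_sum]
    have h1 : assembly G FinSub (lcl l) = 0 := by rw [← hl, map_nsmul, ha, smul_zero]
    rw [lcl_get, map_sum] at h1
    rw [← h1]
    apply Finset.sum_congr rfl
    intro i _
    rw [ucl, assembly_cl, Wh.map_mk]
  have key := Sys.lin (sys (G := G) q hq2) (fun i : Fin l.length => (l.get i).1.1) hgood
    (fun i => ⟨K1.unit (l.get i).2, Additive.ofMul (l.get i).2, rfl⟩) ?_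
  · -- conclusion
    have h2 : tV G (lcl l) = 0 := by
      rw [lcl_get, map_sum, ← key]
      apply Finset.sum_congr rfl
      intro i _
      change _ = clV (l.get i).1.1 (K1.unit (l.get i).2)
      rw [clV_apply _ (l.get i).1.2.1, ucl]
    rw [← hl, map_nsmul] at h2
    have h3 : tV G a = 0 := by
      rw [← Nat.cast_smul_eq_nsmul ℚ] at h2
      exact (smul_eq_zero.1 h2).resolve_left (by exact_mod_cast hm.ne')
    obtain ⟨M', hM'⟩ := (IsLocalizedModule.eq_zero_iff (nonZeroDivisors ℤ)
      (TensorProduct.mk ℤ ℚ (ColimWh G FinSub) 1)).1 h3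
    exact ⟨M', nonZeroDivisors.coe_ne_zero M', hM'⟩
  · -- the relation on conjugacy classes
    intro g
    funext k
    have h4 := congrArg (fun z => z (ConjClasses.mk g)) (GK_wh q k hq2 _ hsum)
    rw [map_sum] at h4
    simp only [GK_ind, Finsupp.coe_finset_sum, Finset.sum_apply] at h4
    rw [Finset.sum_apply]
    refine Eq.trans ?_ h4
    apply Finset.sum_congr rfl
    intro i _
    rw [mapDomain_eval (hgood i).comm, Finset.sum_apply]
    apply Finset.sum_congr rfl
    intro c _
    have h5 : (ConjClasses.map (l.get i).1.1.subtype (ConjClasses.mk c) = ConjClasses.mk g) ↔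
        IsConj (c : G) g := ConjClasses.mk_eq_mk_iff_isConj
    by_cases h6 : IsConj (c : G) g
    · rw [if_pos h6, if_pos (h5.2 h6)]
      rfl
    · rw [if_neg h6, if_neg (fun h7 => h6 (h5.1 h7))]
      rfl

/-- **Rational injectivity of the assembly map for Whitehead groups.** -/
theorem assembly_injective (G : Type v) [Group G] :
    Function.Injective (LinearMap.lTensor ℚ (assembly G FinSub).toIntLinearMap) :=
  lTensor_injective _ kernel_torsion

end Final

end Pool.Agent.H95.WH
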