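import Pool.Agent.H95.WH.Div

/-!
# The invariant `gam : GL_ι(𝕜[G]) → (ConjClasses G →₀ ZMod N)`

`gam r τ U = dd (a(U⁻¹)) (b(U⁻¹)) X` for any `X` with `tr X = b(U) - a(U)`, where
`b(U) = U^{⊗N}`, `a(U) = Δ(U^{⊗M}) ⊕ 1`.

* `exists_sol`: `X` exists (`exists_tr`, `stab_dvd`; `bb N U - aa r U` is invariant by `sg_bb`,
  `sg_aa`).
* `gam_eq`: the value does not depend on `X` (`ker_tr` and `CycTr.dd_indep`).
* `gam_mul`: `gam (U V) = gam U + gam V` (`CycTr.dd_mul` with `X'' = X b(V) + a(U) Y`: one has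
  `tr X'' = tr(X) b(V) + a(U) tr(Y) = b(U) b(V) - a(U) a(V)`).
-/

set_option autoImplicit false

open Matrix

namespace Pool.Agent.H95.WH

variable {M N : ℕ} [NeZero M] [NeZero N] {ι : Type*} [Fintype ι] [DecidableEq ι]
  {G : Type*} [Group G] {𝕜 : Type*} [CommRing 𝕜]

/-- `X` solves `tr X = b(U) - a(U)`. -/
def Sol (r : ZMod N →+* ZMod M) (U : (Matrix ι ι (MonoidAlgebra 𝕜 G))ˣ) (X : EE 𝕜 N ι G) : Prop :=
  ∑ i : ZMod N, sg i X = bb N (U : Matrix ι ι (MonoidAlgebra 𝕜 G)) - aa r (U : Matrix ι ι _)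

open scoped Classical in
/-- The invariant. -/
noncomputable def gam (r : ZMod N →+* ZMod M) (τ : 𝕜 →+* ZMod N)
    (U : (Matrix ι ι (MonoidAlgebra 𝕜 G))ˣ) : ConjClasses G →₀ ZMod N :=
  if h : ∃ X, Sol r U X then
    (cycTr τ).dd (aa r ((U⁻¹ : (Matrix ι ι (MonoidAlgebra 𝕜 G))ˣ) : Matrix ι ι _))
      (bb N ((U⁻¹ : (Matrix ι ι (MonoidAlgebra 𝕜 G))ˣ) : Matrix ι ι _)) h.choose
  else 0

theorem exists_sol {p k : ℕ} (hp : p.Prime) (hN : N = p ^ (k + 1)) (hM : M = p ^ k)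
    (hfrob : ∀ a : 𝕜, (p : 𝕜) ∣ a ^ p - a) (r : ZMod N →+* ZMod M) (hr : Function.Surjective r)
    (U : (Matrix ι ι (MonoidAlgebra 𝕜 G))ˣ) : ∃ X, Sol r U X := by
  obtain ⟨X, hX, _⟩ := exists_tr
    (bb N (U : Matrix ι ι (MonoidAlgebra 𝕜 G)) - aa r (U : Matrix ι ι (MonoidAlgebra 𝕜 G)))
    (fun i => by rw [map_sub, sg_bb, sg_aa r hr])
    (fun q => stab_dvd hp hN hM hfrob r hr _ q)
  exact ⟨X, hX⟩

omit [NeZero M] [NeZero N] in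
private theorem Gam_aux_inv (U : (Matrix ι ι (MonoidAlgebra 𝕜 G))ˣ) :
    (U : Matrix ι ι (MonoidAlgebra 𝕜 G)) *
      ((U⁻¹ : (Matrix ι ι (MonoidAlgebra 𝕜 G))ˣ) : Matrix ι ι (MonoidAlgebra 𝕜 G)) = 1 ∧
    ((U⁻¹ : (Matrix ι ι (MonoidAlgebra 𝕜 G))ˣ) : Matrix ι ι (MonoidAlgebra 𝕜 G)) *
      (U : Matrix ι ι (MonoidAlgebra 𝕜 G)) = 1 :=
  ⟨U.mul_inv, U.inv_mul⟩

private theorem Gam_aa_inv (r : ZMod N →+* ZMod M) (hr : Function.Surjective r)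
    (U : (Matrix ι ι (MonoidAlgebra 𝕜 G))ˣ) :
    aa r (U : Matrix ι ι (MonoidAlgebra 𝕜 G)) *
      aa r ((U⁻¹ : (Matrix ι ι (MonoidAlgebra 𝕜 G))ˣ) : Matrix ι ι (MonoidAlgebra 𝕜 G)) = 1 ∧
    aa r ((U⁻¹ : (Matrix ι ι (MonoidAlgebra 𝕜 G))ˣ) : Matrix ι ι (MonoidAlgebra 𝕜 G)) *
      aa r (U : Matrix ι ι (MonoidAlgebra 𝕜 G)) = 1 := by
  rw [← aa_mul r hr, ← aa_mul r hr, (Gam_aux_inv U).1, (Gam_aux_inv U).2, aa_one]
  exact ⟨rfl, rfl⟩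

private theorem Gam_bb_inv (U : (Matrix ι ι (MonoidAlgebra 𝕜 G))ˣ) :
    bb N (U : Matrix ι ι (MonoidAlgebra 𝕜 G)) *
      bb N ((U⁻¹ : (Matrix ι ι (MonoidAlgebra 𝕜 G))ˣ) : Matrix ι ι (MonoidAlgebra 𝕜 G)) = 1 ∧
    bb N ((U⁻¹ : (Matrix ι ι (MonoidAlgebra 𝕜 G))ˣ) : Matrix ι ι (MonoidAlgebra 𝕜 G)) *
      bb N (U : Matrix ι ι (MonoidAlgebra 𝕜 G)) = 1 := by
  rw [← bb_mul, ← bb_mul, (Gam_aux_inv U).1, (Gam_aux_inv U).2, bb_one]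
  exact ⟨rfl, rfl⟩

theorem gam_eq [IsDomain 𝕜] [CharZero 𝕜] (r : ZMod N →+* ZMod M) (hr : Function.Surjective r)
    (τ : 𝕜 →+* ZMod N) (U : (Matrix ι ι (MonoidAlgebra 𝕜 G))ˣ) (X : EE 𝕜 N ι G)
    (hX : Sol r U X) :
    gam r τ U = (cycTr τ).dd (aa r ((U⁻¹ : (Matrix ι ι (MonoidAlgebra 𝕜 G))ˣ) : Matrix ι ι _))
      (bb N ((U⁻¹ : (Matrix ι ι (MonoidAlgebra 𝕜 G))ˣ) : Matrix ι ι _)) X := by
  have h : ∃ X, Sol r U X := ⟨X, hX⟩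
  have hc : Sol r U h.choose := h.choose_spec
  rw [gam, dif_pos h]
  generalize h.choose = X' at hc ⊢
  have h0 : ∑ i : ZMod N, sg i (X' - X) = 0 := by
    unfold Sol at hX hc
    simp only [map_sub, Finset.sum_sub_distrib]
    rw [hX, hc, sub_self]
  obtain ⟨Z, hZ⟩ := ker_tr (X' - X) h0
  have hX' : X' = X + ((cycTr τ).σ 1 Z - Z) := by
    rw [cycTr_σ, ← hZ]
    abel
  rw [hX']
  exact (cycTr τ).dd_indep (Gam_aa_inv r hr U).1 (Gam_aa_inv r hr U).2 (Gam_bb_inv U).1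
    (Gam_bb_inv U).2 (fun i => sg_aa r hr i _) (fun i => sg_bb i _) hX Z

theorem gam_mul [IsDomain 𝕜] [CharZero 𝕜] {p k : ℕ} (hp : p.Prime) (hN : N = p ^ (k + 1))
    (hM : M = p ^ k) (hfrob : ∀ a : 𝕜, (p : 𝕜) ∣ a ^ p - a) (r : ZMod N →+* ZMod M)
    (hr : Function.Surjective r) (τ : 𝕜 →+* ZMod N) (U V : (Matrix ι ι (MonoidAlgebra 𝕜 G))ˣ) :
    gam r τ (U * V) = gam r τ U + gam r τ V := by
  obtain ⟨X, hX⟩ := exists_sol hp hN hM hfrob r hr U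
  obtain ⟨Y, hY⟩ := exists_sol hp hN hM hfrob r hr V
  have hXY : Sol r (U * V) (X * bb N (V : Matrix ι ι (MonoidAlgebra 𝕜 G)) +
      aa r (U : Matrix ι ι (MonoidAlgebra 𝕜 G)) * Y) := by
    unfold Sol at hX hY ⊢
    rw [Units.val_mul, bb_mul, aa_mul r hr]
    have h1 : ∀ i : ZMod N, sg i (X * bb N (V : Matrix ι ι (MonoidAlgebra 𝕜 G)) +
        aa r (U : Matrix ι ι (MonoidAlgebra 𝕜 G)) * Y) =
        sg i X * bb N (V : Matrix ι ι (MonoidAlgebra 𝕜 G)) +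
        aa r (U : Matrix ι ι (MonoidAlgebra 𝕜 G)) * sg i Y := fun i => by
      rw [map_add, map_mul, map_mul, sg_bb, sg_aa r hr]
    simp only [h1]
    rw [Finset.sum_add_distrib, ← Finset.sum_mul, ← Finset.mul_sum, hX, hY, sub_mul, mul_sub]
    abel
  rw [gam_eq r hr τ U X hX, gam_eq r hr τ V Y hY, gam_eq r hr τ (U * V) _ hXY, _root_.mul_inv_rev,
    Units.val_mul, aa_mul r hr, bb_mul]
  exact (cycTr τ).dd_mul (Gam_aa_inv r hr U).1 (Gam_aa_inv r hr U).2 (Gam_bb_inv U).1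
    (Gam_bb_inv U).2 (Gam_aa_inv r hr V).1 (Gam_aa_inv r hr V).2 (Gam_bb_inv V).1
    (Gam_bb_inv V).2 (fun i => sg_aa r hr i _) (fun i => sg_bb i _) (fun i => sg_aa r hr i _)
    (fun i => sg_bb i _) hX hY

end Pool.Agent.H95.WH
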