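import Pool.Agent.H95.WH.Gam

/-!
# The invariant `gam` for commutative groups and for group elements

`gam_comm`: let `C` be a commutative group with `g^p = g` for all `g`, `p` odd, `u` a unit of `𝕜[C]`
and `f : 𝕜[C]` with `N f = u^{N-M} - 1`. Then the value of `gam` at the class of `g` is `τ` of the
coefficient of `f` at `g`.

## Paper proof of `gam_comm`

Let `letI : CommGroup C` be given by `hC`. The product map `(ZMod N → C) →* C`, `γ ↦ ∏ₛ γ s`,
induces a ring homomorphism `π : 𝕜[C^N] → 𝕜[C]`, and `π ∘ shR i = π`, `cyc γ = ∏ₛ γ s`, so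
`kap τ x = ∑_g single [g] (τ (π x)(g))`. The index type `ZMod N → Fin 1` has one element `*`, so
`EE 𝕜 N (Fin 1) C` is `𝕜[C^N]` via `x ↦ x * *` and `TT τ x = kap τ (x * *)`. Write `π x` for
`π (x * *)`; it is a ring homomorphism.
`π (bb N U) = ∏ₛ u = u^N`. `π (perR x) = π_M x`: for `γ' : ZMod M → C`,
`∏_{s : ZMod N} γ' (r s) = (∏_{s : ZMod M} γ' s)^p = ∏_{s : ZMod M} γ' s` (the fibres of `r` have
`p` elements), so `π (aa r U) = u^M`. Let `X` be a solution (`exists_sol`). Then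
`N π(X) = ∑ᵢ π (sg i X) = u^N - u^M`, so `N (u^{-M} π(X)) = u^{N-M} - 1 = N f` and
`u^{-M} π(X) = f` (torsion-free). By `gam_eq`
`gam = [π(a⁻) π(X)] - ∑ᵢ (1 - i) • [π(a⁻) π(X) π(b⁻) π(X)]` with `π(a⁻) = u^{-M}`; the second term
is `(∑_{i : ZMod N} (1 - i)) • [⋯] = 0` because `∑_{i : ZMod N} i = 0` for odd `N` (substitute
`i ↦ -i` : `2 ∑ i = 0`, `2` invertible) and `∑_{i : ZMod N} 1 = N = 0`.

## Paper proof of `gam_single`, `gam_neg_one`

For `u = single g 1` : `bb N U = single (fun _ => g) 1` (1 × 1 matrix) `= aa r U`, so `X = 0` is a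
solution and `gam = dd .. 0 = 0` (`gam_eq`). For `u = -1`: `bb N U = (-1)^N = -1`,
`aa r U = (-1)^M = -1` (`N`, `M` odd). (Note that all of `ZMod N → Fin 1` is in the range of `per r`, so
`aa r U` is the corner embedding of `bb M U`.)
-/

set_option autoImplicit false

open Matrix

namespace Pool.Agent.H95.WH

variable {M N : ℕ} [NeZero M] [NeZero N] {𝕜 : Type*} [CommRing 𝕜]

/-- The `1 × 1` matrix of a unit. -/
def scU {R : Type*} [Ring R] (u : Rˣ) : (Matrix (Fin 1) (Fin 1) R)ˣ :=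
  Units.map (Matrix.scalar (Fin 1)).toMonoidHom u

section Comm

variable {C : Type*} [CommGroup C]

omit [NeZero N] in
private theorem cf_list_prod (f : ℕ → C) (n : ℕ) :
    ((List.range n).map f).prod = ∏ s ∈ Finset.range n, f s := by
  induction n with
  | zero => simp
  | succ n ih => rw [List.range_succ, List.map_append, List.prod_append, ih,
      Finset.prod_range_succ]; simp

private theorem cf_cyc (γ : ZMod N → C) : cyc γ = ∏ s, γ s := by
  rw [cyc, cf_list_prod (fun s : ℕ => γ (s : ZMod N)) N]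
  refine Finset.prod_bij' (fun s _ => (s : ZMod N)) (fun s _ => s.val) ?_ ?_ ?_ ?_ ?_
  · intro s _; exact Finset.mem_univ _
  · intro s _; exact Finset.mem_range.2 (ZMod.val_lt s)
  · intro s hs; exact ZMod.val_natCast_of_lt (Finset.mem_range.1 hs)
  · intro s _; exact ZMod.natCast_zmod_val s
  · intro s _; rfl

/-- The product homomorphism. -/
private def cfHom (N : ℕ) [NeZero N] (C : Type*) [CommGroup C] : (ZMod N → C) →* C where
  toFun γ := ∏ s, γ s
  map_one' := by simp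
  map_mul' γ δ := by simp [Finset.prod_mul_distrib]

/-- The ring homomorphism induced by the product. -/
private noncomputable def cfR (N : ℕ) [NeZero N] (𝕜 : Type*) [CommRing 𝕜] (C : Type*)
    [CommGroup C] : MonoidAlgebra 𝕜 (ZMod N → C) →+* MonoidAlgebra 𝕜 C :=
  MonoidAlgebra.mapDomainRingHom 𝕜 (cfHom N C)

private theorem cfR_single (γ : ZMod N → C) (c : 𝕜) :
    cfR N 𝕜 C (MonoidAlgebra.single γ c) = MonoidAlgebra.single (∏ s, γ s) c := by
  change MonoidAlgebra.mapDomain (cfHom N C) _ = _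
  rw [MonoidAlgebra.mapDomain_single]
  rfl

private theorem cfR_shR (i : ZMod N) (y : MonoidAlgebra 𝕜 (ZMod N → C)) :
    cfR N 𝕜 C (shR 𝕜 i y) = cfR N 𝕜 C y := by
  induction y using MonoidAlgebra.induction_linear with
  | zero => rw [map_zero]
  | add a b ha hb => rw [map_add, map_add, map_add, ha, hb]
  | single γ c =>
    rw [shR_single, cfR_single, cfR_single]
    congr 1
    exact Fintype.prod_equiv (Equiv.addRight i) _ _ (fun s => rfl)

private theorem cfR_ten (f : ZMod N → MonoidAlgebra 𝕜 C) :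
    cfR N 𝕜 C (ten f) = ∏ s, f s := by
  classical
  set F : Finset C := Finset.univ.biUnion fun s : ZMod N => (f s).coeff.support with hF
  have hf : ∀ s, f s = ∑ j : F, MonoidAlgebra.single (j : C) ((f s).coeff j) := by
    intro s
    rw [Finset.sum_coe_sort F (fun j => MonoidAlgebra.single j ((f s).coeff j))]
    conv_lhs => rw [← MonoidAlgebra.sum_coeff_single (f s)]
    rw [Finsupp.sum]
    apply Finset.sum_subset
    · exact Finset.subset_biUnion_of_mem (fun s : ZMod N => (f s).coeff.support)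
        (Finset.mem_univ s)
    · intro j _ hj
      rw [Finsupp.notMem_support_iff] at hj
      rw [hj, MonoidAlgebra.single_zero]
  have h1 : ten f = ∑ J : ZMod N → F,
      ten (fun s => MonoidAlgebra.single (J s : C) ((f s).coeff (J s))) := by
    conv_lhs => rw [show f = fun s => ∑ j : F, MonoidAlgebra.single (j : C) ((f s).coeff j) from
      funext hf]
    rw [ten_sum]
  rw [h1, map_sum]
  conv_rhs => rw [show f = fun s => ∑ j : F, MonoidAlgebra.single (j : C) ((f s).coeff j) from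
      funext hf]
  rw [Finset.prod_univ_sum, Fintype.piFinset_univ]
  refine Finset.sum_congr rfl fun J _ => ?_
  rw [ten_single, cfR_single, MonoidAlgebra.prod_single]

private theorem cf_card {p k : ℕ} (hp : p.Prime) (hN : N = p ^ (k + 1)) (hM : M = p ^ k)
    (r : ZMod N →+* ZMod M) (hr : Function.Surjective r) (t : ZMod M) :
    (Finset.univ.filter fun s : ZMod N => r s = t).card = p := by
  have h1 : ∀ t t' : ZMod M, (Finset.univ.filter fun s : ZMod N => r s = t).card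
      = (Finset.univ.filter fun s : ZMod N => r s = t').card := by
    intro t t'
    obtain ⟨a, ha⟩ := hr (t' - t)
    refine Finset.card_bij (fun s _ => s + a) ?_ ?_ ?_
    · intro s hs
      rw [Finset.mem_filter] at hs ⊢
      refine ⟨Finset.mem_univ _, ?_⟩
      rw [map_add, hs.2, ha]; ring
    · intro s _ s' _ h; exact add_right_cancel h
    · intro s hs
      rw [Finset.mem_filter] at hs
      refine ⟨s - a, ?_, sub_add_cancel s a⟩
      rw [Finset.mem_filter]
      refine ⟨Finset.mem_univ _, ?_⟩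
      rw [map_sub, hs.2, ha]; ring
  have h2 : (Finset.univ : Finset (ZMod N)).card
      = ∑ t' : ZMod M, (Finset.univ.filter fun s : ZMod N => r s = t').card :=
    Finset.card_eq_sum_card_fiberwise (fun s _ => Finset.mem_univ (r s))
  rw [Finset.sum_congr rfl (fun t' _ => h1 t' t), Finset.sum_const, Finset.card_univ,
    Finset.card_univ, ZMod.card, ZMod.card, smul_eq_mul] at h2
  have h3 : M * p = N := by rw [hM, hN, pow_succ]
  exact Nat.eq_of_mul_eq_mul_left (NeZero.pos M) (h2.symm.trans h3.symm)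

private theorem cf_prod_per {p k : ℕ} (hp : p.Prime) (hN : N = p ^ (k + 1)) (hM : M = p ^ k)
    (r : ZMod N →+* ZMod M) (hr : Function.Surjective r) (hexp : ∀ g : C, g ^ p = g)
    (γ : ZMod M → C) : ∏ s : ZMod N, per r γ s = ∏ t : ZMod M, γ t := by
  rw [← Finset.prod_fiberwise Finset.univ (fun s : ZMod N => r s) (per r γ)]
  refine Finset.prod_congr rfl fun t _ => ?_
  rw [Finset.prod_congr rfl (g := fun _ => γ t)]
  · rw [Finset.prod_const, cf_card hp hN hM r hr t, hexp]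
  · intro s hs
    rw [Finset.mem_filter] at hs
    change γ (r s) = γ t
    rw [hs.2]

private theorem cfR_perR {p k : ℕ} (hp : p.Prime) (hN : N = p ^ (k + 1)) (hM : M = p ^ k)
    (r : ZMod N →+* ZMod M) (hr : Function.Surjective r) (hexp : ∀ g : C, g ^ p = g)
    (y : MonoidAlgebra 𝕜 (ZMod M → C)) :
    cfR N 𝕜 C (perR r C 𝕜 y) = cfR M 𝕜 C y := by
  induction y using MonoidAlgebra.induction_linear with
  | zero => rw [map_zero, map_zero, map_zero]
  | add a b ha hb => rw [map_add, map_add, map_add, ha, hb]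
  | single γ c =>
    rw [perR_single, cfR_single, cfR_single, cf_prod_per hp hN hM r hr hexp]

/-- The additive map `g ↦ [g]` on the group ring. -/
private noncomputable def cfL (τ : 𝕜 →+* ZMod N) : MonoidAlgebra 𝕜 C →+ (ConjClasses C →₀ ZMod N) :=
  (Finsupp.liftAddHom fun g : C =>
    (Finsupp.singleAddHom (ConjClasses.mk g)).comp τ.toAddMonoidHom).comp
    (MonoidAlgebra.coeffAddEquiv : MonoidAlgebra 𝕜 C ≃+ _).toAddMonoidHom

omit [NeZero N] in
private theorem cfL_single (τ : 𝕜 →+* ZMod N) (g : C) (c : 𝕜) :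
    cfL τ (MonoidAlgebra.single g c) = Finsupp.single (ConjClasses.mk g) (τ c) := by
  change Finsupp.liftAddHom _ (Finsupp.single g c) = _
  rw [Finsupp.liftAddHom_apply_single]
  rfl

omit [NeZero N] in
private theorem cfL_apply (τ : 𝕜 →+* ZMod N) (z : MonoidAlgebra 𝕜 C) (g : C) :
    cfL τ z (ConjClasses.mk g) = τ (z.coeff g) := by
  classical
  induction z using MonoidAlgebra.induction_linear with
  | zero => simp
  | add a b ha hb => rw [map_add, Finsupp.add_apply, ha, hb, ← map_add]; rfl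
  | single h c =>
    rw [cfL_single, MonoidAlgebra.coeff_single]
    by_cases hh : h = g
    · subst hh; simp
    · rw [Finsupp.single_eq_of_ne, Finsupp.single_eq_of_ne, map_zero]
      · exact fun h' => hh h'.symm
      · intro h'
        apply hh
        rw [ConjClasses.mk_eq_mk_iff_isConj, isConj_iff_eq] at h'
        exact h'.symm

private theorem cf_kap (τ : 𝕜 →+* ZMod N) (y : MonoidAlgebra 𝕜 (ZMod N → C)) :
    kap τ y = cfL τ (cfR N 𝕜 C y) := by
  induction y using MonoidAlgebra.induction_linear with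
  | zero => rw [map_zero, map_zero, map_zero]
  | add a b ha hb => rw [map_add, map_add, map_add, ha, hb]
  | single γ c => rw [kap_single, cfR_single, cfL_single, cf_cyc]

/-- The index. -/
private def cfst (N : ℕ) : ZMod N → Fin 1 := fun _ => 0

omit [NeZero N] in
private theorem cfst_eq (I : ZMod N → Fin 1) : I = cfst N := Subsingleton.elim _ _

/-- The evaluation at the only entry. -/
private noncomputable def cfE (N : ℕ) [NeZero N] (𝕜 : Type*) [CommRing 𝕜] (C : Type*) [Group C] :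
    EE 𝕜 N (Fin 1) C →+* MonoidAlgebra 𝕜 (ZMod N → C) where
  toFun x := x (cfst N) (cfst N)
  map_one' := by rw [Matrix.one_apply_eq]
  map_mul' x y := by
    rw [Matrix.mul_apply, Fintype.sum_eq_single (cfst N)]
    intro J hJ
    exact absurd (cfst_eq J) hJ
  map_zero' := rfl
  map_add' _ _ := rfl

private theorem cf_ext {C : Type*} [Group C] {x y : EE 𝕜 N (Fin 1) C} (h : cfE N 𝕜 C x = cfE N 𝕜 C y) :
    x = y := by
  refine Matrix.ext fun I J => ?_
  rw [cfst_eq I, cfst_eq J]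
  exact h

private theorem cf_TT (τ : 𝕜 →+* ZMod N) (x : EE 𝕜 N (Fin 1) C) :
    TT τ x = cfL τ (cfR N 𝕜 C (cfE N 𝕜 C x)) := by
  rw [TT_apply, Fintype.sum_eq_single (cfst N) (fun J hJ => absurd (cfst_eq J) hJ), cf_kap]
  rfl

private theorem cfE_sg (i : ZMod N) (x : EE 𝕜 N (Fin 1) C) :
    cfR N 𝕜 C (cfE N 𝕜 C (sg i x)) = cfR N 𝕜 C (cfE N 𝕜 C x) := by
  change cfR N 𝕜 C (shR 𝕜 i (x (sh (-i) (cfst N)) (sh (-i) (cfst N)))) = _
  rw [cfR_shR]
  rfl

private theorem cfE_bb {C : Type*} [Group C] (U : Matrix (Fin 1) (Fin 1) (MonoidAlgebra 𝕜 C)) :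
    cfE N 𝕜 C (bb N U) = ten (fun _ => U 0 0) := rfl

private theorem cfE_aa {C : Type*} [Group C] (r : ZMod N →+* ZMod M) (hr : Function.Surjective r)
    (U : Matrix (Fin 1) (Fin 1) (MonoidAlgebra 𝕜 C)) :
    cfE N 𝕜 C (aa r U) = perR r C 𝕜 (ten (fun _ => U 0 0)) := by
  change ext (per r) (perR r C 𝕜) (bb M U) (per r (cfst M)) (per r (cfst M)) = _
  rw [ext_apply (per_injective r hr)]
  rfl

private theorem cf_bb (U : Matrix (Fin 1) (Fin 1) (MonoidAlgebra 𝕜 C)) :
    cfR N 𝕜 C (cfE N 𝕜 C (bb N U)) = U 0 0 ^ N := by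
  rw [cfE_bb, cfR_ten, Finset.prod_const, Finset.card_univ, ZMod.card]

private theorem cf_aa {p k : ℕ} (hp : p.Prime) (hN : N = p ^ (k + 1)) (hM : M = p ^ k)
    (r : ZMod N →+* ZMod M) (hr : Function.Surjective r) (hexp : ∀ g : C, g ^ p = g)
    (U : Matrix (Fin 1) (Fin 1) (MonoidAlgebra 𝕜 C)) :
    cfR N 𝕜 C (cfE N 𝕜 C (aa r U)) = U 0 0 ^ M := by
  rw [cfE_aa r hr, cfR_perR hp hN hM r hr hexp, cfR_ten, Finset.prod_const, Finset.card_univ,
    ZMod.card]

omit [NeZero N] in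
private theorem scU_apply {R : Type*} [Ring R] (u : Rˣ) :
    (scU u : Matrix (Fin 1) (Fin 1) R) 0 0 = u := by
  change (Matrix.scalar (Fin 1)) (u : R) 0 0 = u
  simp

omit [NeZero N] in
private theorem scU_inv_apply {R : Type*} [Ring R] (u : Rˣ) :
    (((scU u)⁻¹ : (Matrix (Fin 1) (Fin 1) R)ˣ) : Matrix (Fin 1) (Fin 1) R) 0 0 = (u⁻¹ : Rˣ) := by
  rw [show (scU u)⁻¹ = scU u⁻¹ from (map_inv (Units.map
    (Matrix.scalar (Fin 1) : R →+* Matrix (Fin 1) (Fin 1) R).toMonoidHom) u).symm]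
  exact scU_apply _

private theorem cf_sum (hN : Odd N) : ∑ i : ZMod N, (1 - i) = 0 := by
  have h1 : ∑ i : ZMod N, (1 - i) = ∑ i : ZMod N, i :=
    Fintype.sum_equiv (Equiv.subLeft 1) _ _ (fun i => rfl)
  have h2 : ∑ i : ZMod N, i = ∑ i : ZMod N, (-i) :=
    Fintype.sum_equiv (Equiv.neg _) _ _ (fun i => by simp)
  rw [Finset.sum_neg_distrib] at h2
  have h3 : (2 : ZMod N) * ∑ i : ZMod N, i = 0 := by
    rw [two_mul]
    nth_rw 1 [h2]
    exact neg_add_cancel _
  have h4 : IsUnit (2 : ZMod N) := by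
    have := (ZMod.unitOfCoprime 2 (Nat.coprime_two_left.2 hN)).isUnit
    rwa [ZMod.coe_unitOfCoprime, Nat.cast_ofNat] at this
  rw [h1]
  exact (h4.mul_right_eq_zero).1 h3

private theorem gam_comm' [IsDomain 𝕜] [CharZero 𝕜] {p k : ℕ} (hp : p.Prime) (hp2 : p ≠ 2)
    (hN : N = p ^ (k + 1)) (hM : M = p ^ k) (hfrob : ∀ a : 𝕜, (p : 𝕜) ∣ a ^ p - a)
    (r : ZMod N →+* ZMod M) (hr : Function.Surjective r) (τ : 𝕜 →+* ZMod N)
    (hexp : ∀ g : C, g ^ p = g)
    (u : (MonoidAlgebra 𝕜 C)ˣ) (f : MonoidAlgebra 𝕜 C)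
    (hf : (N : MonoidAlgebra 𝕜 C) * f = (u : MonoidAlgebra 𝕜 C) ^ (N - M) - 1) (g : C) :
    gam r τ (scU u) (ConjClasses.mk g) = τ (f.coeff g) := by
  have hMN : M ≤ N := by
    rw [hN, hM]; exact Nat.pow_le_pow_right hp.pos (Nat.le_succ k)
  have hodd : Odd N := by
    rw [hN]; exact (hp.odd_of_ne_two hp2).pow
  obtain ⟨X, hX⟩ := exists_sol hp hN hM hfrob r hr (scU u)
  set x : MonoidAlgebra 𝕜 C := cfR N 𝕜 C (cfE N 𝕜 C X) with hx
  have h1 : (N : MonoidAlgebra 𝕜 C) * x = (u : MonoidAlgebra 𝕜 C) ^ N - (u : MonoidAlgebra 𝕜 C) ^ M := by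
    have h2 := congrArg (fun y => cfR N 𝕜 C (cfE N 𝕜 C y)) hX
    simp only [map_sum, map_sub, cfE_sg, cf_bb, cf_aa hp hN hM r hr hexp, scU_apply] at h2
    rw [Finset.sum_const, Finset.card_univ, ZMod.card, nsmul_eq_mul] at h2
    exact h2
  have h3 : (N : MonoidAlgebra 𝕜 C) * x
      = (N : MonoidAlgebra 𝕜 C) * ((u : MonoidAlgebra 𝕜 C) ^ M * f) := by
    rw [h1, mul_left_comm, hf, mul_sub, mul_one, ← pow_add, Nat.add_sub_cancel' hMN]
  have h4 : x = (u : MonoidAlgebra 𝕜 C) ^ M * f := by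
    rw [← nsmul_eq_mul, ← nsmul_eq_mul] at h3
    apply MonoidAlgebra.coeff_injective
    ext a
    have h5 := congrArg (fun y : MonoidAlgebra 𝕜 C => y.coeff a) h3
    simp only [MonoidAlgebra.coeff_smul_apply] at h5
    rw [nsmul_eq_mul, nsmul_eq_mul] at h5
    exact mul_left_cancel₀ (by exact_mod_cast NeZero.ne N) h5
  rw [gam_eq r hr τ (scU u) X hX, CycTr.dd]
  have h6 : ∀ i : ZMod N, (cycTr τ).T (aa r (((scU u)⁻¹ : (Matrix (Fin 1) (Fin 1) _)ˣ) :
      Matrix (Fin 1) (Fin 1) (MonoidAlgebra 𝕜 C)) * X * bb N (((scU u)⁻¹ :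
      (Matrix (Fin 1) (Fin 1) _)ˣ) : Matrix (Fin 1) (Fin 1) (MonoidAlgebra 𝕜 C)) *
      (cycTr τ).σ i X) = cfL τ (((u⁻¹ : (MonoidAlgebra 𝕜 C)ˣ) : MonoidAlgebra 𝕜 C) ^ M * x *
        ((u⁻¹ : (MonoidAlgebra 𝕜 C)ˣ) : MonoidAlgebra 𝕜 C) ^ N * x) := by
    intro i
    rw [cycTr_T, cycTr_σ, cf_TT, RingHom.map_mul, RingHom.map_mul, RingHom.map_mul,
      RingHom.map_mul, RingHom.map_mul, RingHom.map_mul, cfE_sg, cf_bb,
      cf_aa hp hN hM r hr hexp, scU_inv_apply]
  simp only [h6]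
  rw [← Finset.sum_smul, cf_sum hodd, zero_smul, sub_zero, cycTr_T, cf_TT, RingHom.map_mul,
    RingHom.map_mul, cf_aa hp hN hM r hr hexp, scU_inv_apply, ← hx, h4, ← mul_assoc, ← mul_pow, Units.inv_mul,
    one_pow, one_mul, cfL_apply]

end Comm

theorem gam_comm [IsDomain 𝕜] [CharZero 𝕜] {p k : ℕ} (hp : p.Prime) (hp2 : p ≠ 2)
    (hN : N = p ^ (k + 1)) (hM : M = p ^ k) (hfrob : ∀ a : 𝕜, (p : 𝕜) ∣ a ^ p - a)
    (r : ZMod N →+* ZMod M) (hr : Function.Surjective r) (τ : 𝕜 →+* ZMod N)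
    {C : Type*} [Group C] (hC : ∀ a b : C, a * b = b * a) (hexp : ∀ g : C, g ^ p = g)
    (u : (MonoidAlgebra 𝕜 C)ˣ) (f : MonoidAlgebra 𝕜 C)
    (hf : (N : MonoidAlgebra 𝕜 C) * f = (u : MonoidAlgebra 𝕜 C) ^ (N - M) - 1) (g : C) :
    gam r τ (scU u) (ConjClasses.mk g) = τ (f.coeff g) := by
  letI : CommGroup C := { (inferInstance : Group C) with mul_comm := hC }
  exact gam_comm' hp hp2 hN hM hfrob r hr τ hexp u f hf g

theorem gam_single [IsDomain 𝕜] [CharZero 𝕜] {p k : ℕ} (hp : p.Prime)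
    (hN : N = p ^ (k + 1)) (hM : M = p ^ k)
    (r : ZMod N →+* ZMod M) (hr : Function.Surjective r) (τ : 𝕜 →+* ZMod N)
    {G : Type*} [Group G] (g : G) :
    gam r τ (scU (Units.map (MonoidAlgebra.of 𝕜 G) (toUnits g))) = 0 := by
  have hsol : Sol r (scU (Units.map (MonoidAlgebra.of 𝕜 G) (toUnits g))) 0 := by
    rw [Sol]
    have h : bb N (scU (Units.map (MonoidAlgebra.of 𝕜 G) (toUnits g)) :
        Matrix (Fin 1) (Fin 1) (MonoidAlgebra 𝕜 G)) =
        aa r (scU (Units.map (MonoidAlgebra.of 𝕜 G) (toUnits g)) :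
        Matrix (Fin 1) (Fin 1) (MonoidAlgebra 𝕜 G)) := by
      apply cf_ext
      rw [cfE_bb, cfE_aa r hr, scU_apply]
      change ten (fun _ : ZMod N => MonoidAlgebra.single g (1 : 𝕜))
        = perR r G 𝕜 (ten fun _ : ZMod M => MonoidAlgebra.single g (1 : 𝕜))
      rw [ten_single, ten_single, perR_single, Finset.prod_const_one, Finset.prod_const_one]
      rfl
    rw [h, sub_self]
    exact Finset.sum_eq_zero fun i _ => map_zero _
  rw [gam_eq r hr τ _ 0 hsol, CycTr.dd]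
  simp

theorem gam_neg_one [IsDomain 𝕜] [CharZero 𝕜] {p k : ℕ} (hp : p.Prime) (hp2 : p ≠ 2)
    (hN : N = p ^ (k + 1)) (hM : M = p ^ k)
    (r : ZMod N →+* ZMod M) (hr : Function.Surjective r) (τ : 𝕜 →+* ZMod N)
    {G : Type*} [Group G] :
    gam r τ (scU (-1 : (MonoidAlgebra 𝕜 G)ˣ)) = 0 := by
  have hoN : Odd N := by
    rw [hN]; exact (hp.odd_of_ne_two hp2).pow
  have hoM : Odd M := by
    rw [hM]; exact (hp.odd_of_ne_two hp2).pow
  have hsol : Sol r (scU (-1 : (MonoidAlgebra 𝕜 G)ˣ)) 0 := by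
    rw [Sol]
    have h : bb N (scU (-1 : (MonoidAlgebra 𝕜 G)ˣ) :
        Matrix (Fin 1) (Fin 1) (MonoidAlgebra 𝕜 G)) =
        aa r (scU (-1 : (MonoidAlgebra 𝕜 G)ˣ) :
        Matrix (Fin 1) (Fin 1) (MonoidAlgebra 𝕜 G)) := by
      apply cf_ext
      rw [cfE_bb, cfE_aa r hr, scU_apply]
      have h1 : (((-1 : (MonoidAlgebra 𝕜 G)ˣ)) : MonoidAlgebra 𝕜 G)
          = MonoidAlgebra.single (1 : G) (-1 : 𝕜) := by
        rw [Units.val_neg, Units.val_one, MonoidAlgebra.one_def, MonoidAlgebra.single_neg]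
      rw [h1]
      rw [ten_single, ten_single, perR_single, Finset.prod_const, Finset.prod_const,
        Finset.card_univ, Finset.card_univ, ZMod.card, ZMod.card, hoN.neg_one_pow,
        hoM.neg_one_pow]
      rfl
    rw [h, sub_self]
    exact Finset.sum_eq_zero fun i _ => map_zero _
  rw [gam_eq r hr τ _ 0 hsol, CycTr.dd]
  simp

end Pool.Agent.H95.WH
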