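import Mathlib

/-!
# Two facts on permutation modules of `ℤ/N`

`π : ZMod N → 𝔅 → 𝔅` is an action of `ℤ/N` on a type `𝔅` and `c : 𝔅 →₀ 𝕜` an invariant function.

`orb_exists`: if `c(q)` is divisible by the order of the stabiliser of `q`, for all `q`, then
`c = ∑ᵢ X ∘ πᵢ` for some finitely supported `X`, with `supp X ⊆ supp c`.

Paper proof: choose a representative `ρ(q)` of every orbit (`Quotient.out` for the setoid
`q ~ q' ↔ ∃ i, π i q = q'`, `ρ(q) ~ q`, `ρ` constant on orbits) and for every `q` a quotient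
`e(q)` with `c(q) = e(q) * |Stab q|`. Put `X(q) = e(q)` if `q = ρ(q)` and `c(q) ≠ 0`, else `0`. In
`∑ᵢ X(πᵢ q)` the terms with `πᵢ q = ρ(q)` contribute `e(ρ(q))` each, and there are `|Stab ρ(q)|` of
them (`{i | πᵢ q = ρ(q)}` is a translate of the stabiliser of `ρ(q)`), so the sum is
`c(ρ(q)) = c(q)` (if `c(q) = 0` then all `c(πᵢ q) = 0` and the sum is `0`).

`orb_ker`: if `∑ᵢ X(πᵢ q) = 0` for all `q` then `X(q) = Z(π₋₁ q) - Z(q)` for some finitely
supported `Z`.

Paper proof: let `S` be the additive subgroup of `𝔅 →₀ 𝕜` of the functions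
`q ↦ Z(π₋₁ q) - Z(q)`. For all `q`, `a`, `i`: `single (πᵢ q) a - single q a ∈ S` (for `i = 1` take
`Z = single q a`, as `π₋₁ q' = q ↔ q' = π₁ q`; then induct over `i.val`). Hence, with the
representatives `ρ(q)` as above, `X = ∑_q single q X(q)` is congruent modulo `S` to
`∑_q single (ρ(q)) X(q)` (sum over the support of `X`). The value of the last function at a
representative `q₀ = ρ(q₀)` is `∑_{q ∈ supp X, q ~ q₀} X(q)`, and
`0 = ∑ᵢ X(πᵢ q₀) = |Stab q₀| ∑_{q ~ q₀} X(q)`, so it is `0` as `𝕜` is torsion-free. Hence `X ∈ S`.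
-/

set_option autoImplicit false

namespace Pool.Agent.H95.WH

variable {N : ℕ} [NeZero N] {𝔅 : Type*} {𝕜 : Type*} [CommRing 𝕜]

omit [NeZero N] in
/-- Representatives of the orbits. -/
private theorem orb_rep (π : ZMod N → 𝔅 → 𝔅) (h0 : ∀ q, π 0 q = q)
    (hadd : ∀ i j q, π (i + j) q = π i (π j q)) :
    ∃ ρ : 𝔅 → 𝔅, (∀ q, ∃ i, π i q = ρ q) ∧ ∀ i q, ρ (π i q) = ρ q := by
  have hinv : ∀ i q, π (-i) (π i q) = q := by
    intro i q
    rw [← hadd, neg_add_cancel, h0]
  let s : Setoid 𝔅 :=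
    { r := fun q q' => ∃ i, π i q = q'
      iseqv :=
        { refl := fun q => ⟨0, h0 q⟩
          symm := by
            rintro q q' ⟨i, rfl⟩
            exact ⟨-i, hinv i q⟩
          trans := by
            rintro q q' q'' ⟨i, rfl⟩ ⟨j, rfl⟩
            exact ⟨j + i, hadd j i q⟩ } }
  refine ⟨fun q => (Quotient.mk s q).out, fun q => ?_, fun i q => ?_⟩
  · have h : s (Quotient.mk s q).out q := Quotient.mk_out q
    obtain ⟨i, hi⟩ := h
    refine ⟨-i, ?_⟩
    have h2 := hinv i (Quotient.mk s q).out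
    rw [hi] at h2
    exact h2
  · have h : Quotient.mk s (π i q) = Quotient.mk s q := by
      refine Quotient.sound ?_
      exact ⟨-i, hinv i q⟩
    simp only [h]

open scoped Classical in
theorem orb_exists (π : ZMod N → 𝔅 → 𝔅) (h0 : ∀ q, π 0 q = q)
    (hadd : ∀ i j q, π (i + j) q = π i (π j q)) (c : 𝔅 →₀ 𝕜) (hc : ∀ i q, c (π i q) = c q)
    (hdvd : ∀ q, ((Finset.univ.filter fun i : ZMod N => π i q = q).card : 𝕜) ∣ c q) :
    ∃ X : 𝔅 →₀ 𝕜, (∀ q, ∑ i : ZMod N, X (π i q) = c q) ∧ ∀ q, X q ≠ 0 → c q ≠ 0 := by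
  obtain ⟨ρ, hρ1, hρ2⟩ := orb_rep π h0 hadd
  choose e he using hdvd
  have hcρ : ∀ q, c (ρ q) = c q := by
    intro q
    obtain ⟨i, hi⟩ := hρ1 q
    rw [← hi, hc]
  have hsupp : ∀ q, (if q = ρ q ∧ c q ≠ 0 then e q else 0) ≠ 0 → q ∈ c.support := by
    intro q hq
    rw [Finsupp.mem_support_iff]
    intro h
    apply hq
    rw [if_neg]
    exact fun h' => h'.2 h
  refine ⟨Finsupp.onFinset c.support (fun q => if q = ρ q ∧ c q ≠ 0 then e q else 0) hsupp,
    fun q => ?_, fun q hq => ?_⟩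
  · simp only [Finsupp.onFinset_apply, hc, hρ2]
    by_cases hq : c q = 0
    · rw [hq]
      refine Finset.sum_eq_zero fun i _ => ?_
      rw [if_neg]
      exact fun h => h.2 rfl
    · have e1 : ∀ i ∈ (Finset.univ : Finset (ZMod N)),
          (if π i q = ρ q ∧ c q ≠ 0 then e (π i q) else 0) =
            if π i q = ρ q then e (ρ q) else 0 := by
        intro i _
        by_cases h : π i q = ρ q
        · rw [if_pos ⟨h, hq⟩, if_pos h, h]
        · rw [if_neg (fun h' => h h'.1), if_neg h]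
      rw [Finset.sum_congr rfl e1, ← Finset.sum_filter, Finset.sum_const, nsmul_eq_mul]
      have hcard : (Finset.univ.filter fun i : ZMod N => π i q = ρ q).card =
          (Finset.univ.filter fun i : ZMod N => π i (ρ q) = ρ q).card := by
        obtain ⟨i₀, hi₀⟩ := hρ1 q
        refine Finset.card_nbij' (fun i => i - i₀) (fun i => i + i₀) ?_ ?_ ?_ ?_
        · intro i hi
          simp only [Finset.coe_filter, Finset.mem_univ, true_and, Set.mem_ofPred_eq] at hi ⊢
          calc π (i - i₀) (ρ q) = π (i - i₀) (π i₀ q) := by rw [hi₀]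
            _ = π i q := by rw [← hadd, sub_add_cancel]
            _ = ρ q := hi
        · intro i hi
          simp only [Finset.coe_filter, Finset.mem_univ, true_and, Set.mem_ofPred_eq] at hi ⊢
          rw [hadd, hi₀, hi]
        · intro i _
          simp
        · intro i _
          simp
      rw [hcard, ← he (ρ q), hcρ]
  · have h := hsupp q hq
    exact Finsupp.mem_support_iff.mp h

/-- The subgroup of the functions `Z ∘ π₋₁ - Z`. -/
private def orbS (π : ZMod N → 𝔅 → 𝔅) : AddSubgroup (𝔅 →₀ 𝕜) where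
  carrier := {Y | ∃ Z : 𝔅 →₀ 𝕜, ∀ q, Y q = Z (π (-1) q) - Z q}
  zero_mem' := ⟨0, fun q => by simp⟩
  add_mem' := by
    rintro Y Y' ⟨Z, hZ⟩ ⟨Z', hZ'⟩
    refine ⟨Z + Z', fun q => ?_⟩
    rw [Finsupp.add_apply, Finsupp.add_apply, Finsupp.add_apply, hZ, hZ']; ring
  neg_mem' := by
    rintro Y ⟨Z, hZ⟩
    refine ⟨-Z, fun q => ?_⟩
    rw [Finsupp.neg_apply, Finsupp.neg_apply, Finsupp.neg_apply, hZ]; ring

private theorem orb_single_mem (π : ZMod N → 𝔅 → 𝔅) (h0 : ∀ q, π 0 q = q)
    (hadd : ∀ i j q, π (i + j) q = π i (π j q)) (q : 𝔅) (a : 𝕜) (i : ZMod N) :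
    Finsupp.single (π i q) a - Finsupp.single q a ∈ orbS (𝕜 := 𝕜) π := by
  classical
  have hstep : ∀ q : 𝔅, Finsupp.single (π 1 q) a - Finsupp.single q a ∈ orbS (𝕜 := 𝕜) π := by
    intro q
    refine ⟨Finsupp.single q a, fun q' => ?_⟩
    rw [Finsupp.sub_apply, Finsupp.single_apply, Finsupp.single_apply, Finsupp.single_apply]
    congr 1
    refine if_congr ?_ rfl rfl
    constructor
    · rintro rfl
      rw [← hadd, neg_add_cancel, h0]
    · intro h
      rw [h, ← hadd, add_neg_cancel, h0]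
  have hnat : ∀ n : ℕ, Finsupp.single (π (n : ZMod N) q) a - Finsupp.single q a ∈
      orbS (𝕜 := 𝕜) π := by
    intro n
    induction n with
    | zero => rw [Nat.cast_zero, h0, sub_self]; exact zero_mem _
    | succ n ih =>
      have h1 := hstep (π (n : ZMod N) q)
      rw [← hadd] at h1
      have e : ((n + 1 : ℕ) : ZMod N) = 1 + (n : ZMod N) := by push_cast; ring
      rw [e]
      have h2 := add_mem h1 ih
      rwa [sub_add_sub_cancel] at h2
  have h := hnat i.val
  rwa [ZMod.natCast_zmod_val] at h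

theorem orb_ker [IsDomain 𝕜] [CharZero 𝕜] (π : ZMod N → 𝔅 → 𝔅) (h0 : ∀ q, π 0 q = q)
    (hadd : ∀ i j q, π (i + j) q = π i (π j q)) (X : 𝔅 →₀ 𝕜)
    (hX : ∀ q, ∑ i : ZMod N, X (π i q) = 0) :
    ∃ Z : 𝔅 →₀ 𝕜, ∀ q, X q = Z (π (-1) q) - Z q := by
  classical
  obtain ⟨ρ, hρ1, hρ2⟩ := orb_rep π h0 hadd
  obtain ⟨W, hW⟩ : ∃ W : 𝔅 →₀ 𝕜, W = X.mapDomain ρ := ⟨_, rfl⟩
  -- `X` and `W` are congruent
  have hmem : X - W ∈ orbS (𝕜 := 𝕜) π := by
    have e : X - W = X.sum fun q a => Finsupp.single q a - Finsupp.single (ρ q) a := by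
      rw [Finsupp.sum_sub, Finsupp.sum_single, hW, Finsupp.mapDomain]
    rw [e]
    refine sum_mem fun q _ => ?_
    obtain ⟨i, hi⟩ := hρ1 q
    have h2 := neg_mem (orb_single_mem π h0 hadd q (X q) i)
    rw [neg_sub, hi] at h2
    exact h2
  -- the norm of `W` vanishes
  have hWN : ∀ q, ∑ i : ZMod N, W (π i q) = 0 := by
    intro q
    obtain ⟨Z, hZ⟩ := hmem
    have h1 : ∑ i : ZMod N, (X - W) (π i q) = 0 := by
      simp only [hZ, ← hadd]
      rw [Finset.sum_sub_distrib, sub_eq_zero]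
      exact Fintype.sum_equiv (Equiv.addLeft (-1 : ZMod N)) _ _ (fun i => rfl)
    simp only [Finsupp.sub_apply] at h1
    rw [Finset.sum_sub_distrib, hX, zero_sub, neg_eq_zero] at h1
    exact h1
  -- `W` vanishes
  have hρρ : ∀ q, ρ (ρ q) = ρ q := by
    intro q
    obtain ⟨i, hi⟩ := hρ1 q
    rw [← hi, hρ2, hi]
  have hWr : ∀ q, W q ≠ 0 → ρ q = q := by
    intro q hq
    by_contra h
    apply hq
    rw [hW]
    refine Finsupp.mapDomain_of_notMem_range X q ?_
    rintro ⟨q', rfl⟩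
    exact h (hρρ q')
  have hW0 : W = 0 := by
    ext q
    rw [Finsupp.zero_apply]
    by_contra hq
    have hr := hWr q hq
    have h1 := hWN q
    have e1 : ∀ i ∈ (Finset.univ : Finset (ZMod N)),
        W (π i q) = if π i q = q then W q else 0 := by
      intro i _
      by_cases h : π i q = q
      · rw [if_pos h, h]
      · rw [if_neg h]
        by_contra h2
        have h3 := hWr _ h2
        rw [hρ2, hr] at h3
        exact h h3.symm
    rw [Finset.sum_congr rfl e1, ← Finset.sum_filter, Finset.sum_const, nsmul_eq_mul,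
      mul_eq_zero] at h1
    rcases h1 with h1 | h1
    · rw [Nat.cast_eq_zero, Finset.card_eq_zero] at h1
      have : (0 : ZMod N) ∈ (Finset.univ.filter fun i : ZMod N => π i q = q) := by
        simp [h0]
      rw [h1] at this
      exact absurd this (Finset.notMem_empty _)
    · exact hq h1
  rw [hW0, sub_zero] at hmem
  exact hmem

end Pool.Agent.H95.WH
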