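import Pool.Agent.H95.WH.Shift
import Pool.Agent.H95.WH.Orb

/-!
# Coordinates on `E = M_{ι^N}(𝕜[G^N])`, solutions of `tr X = c`

`co x q` is the coefficient of `x : E` at `q = (I, J, γ)`. The shift acts by
`co (sg i x) q = co x (shB (-i) q)`.

Paper proofs: `co` is a bijection `E → (𝔅 →₀ 𝕜)` (`mkE` is the inverse: `mkE c I J` is the finitely
supported function `γ ↦ c (I, J, γ)`), the index set being finite in the first two components.
`exists_tr`, `ker_tr` follow from `orb_exists`, `orb_ker` for `π i = shB i`: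
`co (∑ᵢ sg i X) q = ∑ᵢ co X (shB (-i) q) = ∑ᵢ co X (shB i q)`.
-/

set_option autoImplicit false

open Matrix

namespace Pool.Agent.H95.WH

/-- The index set of the coordinates. -/
abbrev BB (N : ℕ) (ι : Type*) (G : Type*) : Type _ := (ZMod N → ι) × (ZMod N → ι) × (ZMod N → G)

/-- The shift on the index set. -/
def shB {N : ℕ} {ι : Type*} {G : Type*} (i : ZMod N) (q : BB N ι G) : BB N ι G :=
  (sh i q.1, sh i q.2.1, sh i q.2.2)

theorem shB_zero {N : ℕ} {ι : Type*} {G : Type*} (q : BB N ι G) : shB 0 q = q := by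
  simp only [shB, sh_zero]

theorem shB_add {N : ℕ} {ι : Type*} {G : Type*} (i j : ZMod N) (q : BB N ι G) :
    shB (i + j) q = shB i (shB j q) := by
  simp only [shB, sh_sh]

section

variable {N : ℕ} [NeZero N] {ι : Type*} [Fintype ι] [DecidableEq ι] {G : Type*} [Group G]
  {𝕜 : Type*} [CommRing 𝕜]

/-- The coefficient at `q`. -/
def co (x : EE 𝕜 N ι G) (q : BB N ι G) : 𝕜 := (x q.1 q.2.1).coeff q.2.2

theorem co_ext {x y : EE 𝕜 N ι G} (h : ∀ q, co x q = co y q) : x = y := by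
  refine Matrix.ext fun I J => MonoidAlgebra.coeff_injective (Finsupp.ext fun γ => ?_)
  exact h (I, J, γ)

theorem co_add (x y : EE 𝕜 N ι G) (q : BB N ι G) : co (x + y) q = co x q + co y q := by
  rw [co, co, co, Matrix.add_apply, MonoidAlgebra.coeff_add, Finsupp.add_apply]

theorem co_sub (x y : EE 𝕜 N ι G) (q : BB N ι G) : co (x - y) q = co x q - co y q := by
  rw [eq_sub_iff_add_eq, ← co_add, sub_add_cancel]

theorem co_sum {κ : Type*} (s : Finset κ) (f : κ → EE 𝕜 N ι G) (q : BB N ι G) :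
    co (∑ a ∈ s, f a) q = ∑ a ∈ s, co (f a) q := by
  classical
  induction s using Finset.induction_on with
  | empty =>
    rw [Finset.sum_empty, Finset.sum_empty]
    rfl
  | insert a s ha ih => rw [Finset.sum_insert ha, Finset.sum_insert ha, co_add, ih]

theorem co_sg (i : ZMod N) (x : EE 𝕜 N ι G) (q : BB N ι G) :
    co (sg i x) q = co x (shB (-i) q) := by
  obtain ⟨I, J, γ⟩ := q
  change (shR 𝕜 i (x (sh (-i) I) (sh (-i) J))).coeff γ = (x (sh (-i) I) (sh (-i) J)).coeff (sh (-i) γ)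
  change Finsupp.mapDomain (sh i) (x (sh (-i) I) (sh (-i) J)).coeff γ = _
  have h := Finsupp.mapDomain_apply (f := (sh i : (ZMod N → G) → (ZMod N → G)))
    (shE i).injective (x (sh (-i) I) (sh (-i) J)).coeff (sh (-i) γ)
  rwa [sh_sh_neg] at h

/-- every finitely supported function is the coordinate function of an element -/
theorem exists_co (c : BB N ι G →₀ 𝕜) : ∃ x : EE 𝕜 N ι G, ∀ q, co x q = c q := by
  have hinj : ∀ I J : ZMod N → ι, Function.Injective
      (fun γ : ZMod N → G => ((I, J, γ) : BB N ι G)) := by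
    intro I J γ δ h
    exact (Prod.mk.inj (Prod.mk.inj h).2).2
  refine ⟨fun I J => MonoidAlgebra.ofCoeff (c.comapDomain (fun γ => (I, J, γ)) (hinj I J).injOn),
    ?_⟩
  rintro ⟨I, J, γ⟩
  change (c.comapDomain (fun γ => (I, J, γ)) (hinj I J).injOn) γ = _
  rw [Finsupp.comapDomain_apply]

/-- coordinate functions are finitely supported -/
theorem exists_finsupp (x : EE 𝕜 N ι G) : ∃ c : BB N ι G →₀ 𝕜, ∀ q, co x q = c q := by
  have hfin : (Function.support fun q : BB N ι G => co x q).Finite := by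
    have h : (⋃ I : ZMod N → ι, ⋃ J : ZMod N → ι,
        (fun γ : ZMod N → G => ((I, J, γ) : BB N ι G)) '' ((x I J).coeff.support : Set _)).Finite :=
      Set.finite_iUnion fun I => Set.finite_iUnion fun J => (Finset.finite_toSet _).image _
    refine h.subset ?_
    rintro ⟨I, J, γ⟩ hq
    refine Set.mem_iUnion.2 ⟨I, Set.mem_iUnion.2 ⟨J, γ, ?_, rfl⟩⟩
    exact Finsupp.mem_support_iff.2 hq
  exact ⟨Finsupp.ofSupportFinite _ hfin, fun q => rfl⟩

theorem coord_tr (X : EE 𝕜 N ι G) (q : BB N ι G) :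
    co (∑ i : ZMod N, sg i X) q = ∑ i : ZMod N, co X (shB i q) := by
  rw [co_sum, ← Equiv.sum_comp (Equiv.neg (ZMod N)) fun i => co X (shB i q)]
  exact Finset.sum_congr rfl fun i _ => co_sg i X q

open scoped Classical in
theorem exists_tr (c : EE 𝕜 N ι G) (hc : ∀ i, sg i c = c)
    (hdvd : ∀ q, ((Finset.univ.filter fun i : ZMod N => shB i q = q).card : 𝕜) ∣ co c q) :
    ∃ X : EE 𝕜 N ι G, ∑ i : ZMod N, sg i X = c ∧ ∀ q, co X q ≠ 0 → co c q ≠ 0 := by
  obtain ⟨c', hc'⟩ := exists_finsupp c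
  obtain ⟨X', hX1, hX2⟩ := orb_exists shB shB_zero shB_add c' (fun i q => by
    rw [← hc', ← hc']
    conv_rhs => rw [← hc (-i)]
    rw [co_sg, neg_neg]) (fun q => by
    rw [← hc']
    convert hdvd q)
  obtain ⟨X, hX⟩ := exists_co X'
  refine ⟨X, co_ext fun q => ?_, fun q hq => ?_⟩
  · rw [coord_tr, hc', ← hX1 q]
    exact Finset.sum_congr rfl fun i _ => hX _
  · rw [hX] at hq
    rw [hc']
    exact hX2 q hq

theorem ker_tr [IsDomain 𝕜] [CharZero 𝕜] (Y : EE 𝕜 N ι G) (hY : ∑ i : ZMod N, sg i Y = 0) :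
    ∃ Z : EE 𝕜 N ι G, Y = sg 1 Z - Z := by
  obtain ⟨Y', hY'⟩ := exists_finsupp Y
  obtain ⟨Z', hZ'⟩ := orb_ker shB shB_zero shB_add Y' (fun q => by
    have h : ∑ i : ZMod N, Y' (shB i q) = co (∑ i : ZMod N, sg i Y) q := by
      rw [coord_tr]
      exact Finset.sum_congr rfl fun i _ => (hY' _).symm
    rw [h, hY]
    rfl)
  obtain ⟨Z, hZ⟩ := exists_co Z'
  refine ⟨Z, co_ext fun q => ?_⟩
  rw [co_sub, co_sg, hZ, hZ, hY', hZ']

end

end Pool.Agent.H95.WH
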