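import Mathlib

/-!
# Corner embeddings of matrix rings

For a map `j : A → B` of finite types, `f : R →+* S` and `x : Matrix A A R`, the matrix
`cor j f x : Matrix B B S` has the entries `f (x a a')` at `(j a, j a')` and `0` elsewhere (`j`
injective), and `ext j f x = cor j f x + (1 - cor j f 1)`. For injective `j` the first is
multiplicative and additive, the second is multiplicative and unital.

All proofs: `cor j f x = P * x.map f * Q` with `P = pm j`, `Q = qm j`, and `Q * P = 1` for `j`
injective.
-/

set_option autoImplicit false

open Matrix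

namespace Pool.Agent.H95.WH

variable {A B : Type*} [Fintype A] [DecidableEq A] [Fintype B] [DecidableEq B]
  {R : Type*} [Ring R] {S : Type*} [Ring S]

/-- The matrix of `j`, rows indexed by `B`. -/
def pm (S : Type*) [Ring S] (j : A → B) : Matrix B A S := Matrix.of fun b a => if j a = b then 1 else 0

/-- The matrix of `j`, rows indexed by `A`. -/
def qm (S : Type*) [Ring S] (j : A → B) : Matrix A B S := Matrix.of fun a b => if j a = b then 1 else 0

/-- The corner embedding. -/
def cor (j : A → B) (f : R →+* S) (x : Matrix A A R) : Matrix B B S := pm S j * x.map f * qm S j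

/-- The corner embedding, completed by the identity. -/
def ext (j : A → B) (f : R →+* S) (x : Matrix A A R) : Matrix B B S :=
  cor j f x + (1 - cor j f 1)

theorem qm_mul_pm {j : A → B} (hj : Function.Injective j) : qm S j * pm S j = 1 := by
  ext a a'
  rw [Matrix.mul_apply, Matrix.one_apply]
  simp only [qm, pm, Matrix.of_apply, ite_mul, one_mul, zero_mul, Finset.sum_ite_eq,
    Finset.mem_univ, if_true]
  by_cases h : a = a'
  · subst h; simp
  · rw [if_neg h, if_neg]
    exact fun h' => h (hj h').symm

omit [Fintype B] [DecidableEq A] in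
theorem cor_val (j : A → B) (f : R →+* S) (x : Matrix A A R) (b b' : B) :
    cor j f x b b' = ∑ a', (∑ a, (if j a = b then 1 else 0) * f (x a a')) *
      (if j a' = b' then 1 else 0) := by
  simp only [cor, Matrix.mul_apply, pm, qm, Matrix.of_apply, Matrix.map_apply]

theorem cor_apply {j : A → B} (hj : Function.Injective j) (f : R →+* S) (x : Matrix A A R)
    (a a' : A) : cor j f x (j a) (j a') = f (x a a') := by
  rw [cor_val]
  simp only [hj.eq_iff, ite_mul, one_mul, zero_mul, mul_ite, mul_one, mul_zero,
    Finset.sum_ite_eq', Finset.mem_univ, if_true]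

theorem cor_apply_left {j : A → B} (f : R →+* S) (x : Matrix A A R) {b : B}
    (hb : ∀ a, j a ≠ b) (b' : B) : cor j f x b b' = 0 := by
  rw [cor_val]
  simp only [if_neg (hb _), zero_mul, Finset.sum_const_zero]

theorem cor_apply_right {j : A → B} (f : R →+* S) (x : Matrix A A R) (b : B) {b' : B}
    (hb : ∀ a, j a ≠ b') : cor j f x b b' = 0 := by
  rw [cor_val]
  simp only [if_neg (hb _), mul_zero, Finset.sum_const_zero]

theorem cor_mul {j : A → B} (hj : Function.Injective j) (f : R →+* S) (x y : Matrix A A R) :
    cor j f (x * y) = cor j f x * cor j f y := by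
  have h : (x * y).map f = x.map f * y.map f := by
    ext a a'
    simp only [Matrix.map_apply, Matrix.mul_apply, map_sum, map_mul]
  unfold cor
  rw [h]
  calc pm S j * (x.map f * y.map f) * qm S j
      = pm S j * x.map f * (1 : Matrix A A S) * (y.map f * qm S j) := by
        rw [Matrix.mul_one]; simp only [Matrix.mul_assoc]
    _ = pm S j * x.map f * (qm S j * pm S j) * (y.map f * qm S j) := by rw [qm_mul_pm hj]
    _ = pm S j * x.map f * qm S j * (pm S j * y.map f * qm S j) := by
        simp only [Matrix.mul_assoc]

theorem cor_add (j : A → B) (f : R →+* S) (x y : Matrix A A R) :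
    cor j f (x + y) = cor j f x + cor j f y := by
  have h : (x + y).map f = x.map f + y.map f := by
    ext a a'
    simp only [Matrix.map_apply, Matrix.add_apply, map_add]
  unfold cor
  rw [h, Matrix.mul_add, Matrix.add_mul]

theorem cor_sub (j : A → B) (f : R →+* S) (x y : Matrix A A R) :
    cor j f (x - y) = cor j f x - cor j f y := by
  have h : (x - y).map f = x.map f - y.map f := by
    ext a a'
    simp only [Matrix.map_apply, Matrix.sub_apply, map_sub]
  unfold cor
  rw [h, Matrix.mul_sub, Matrix.sub_mul]

theorem cor_zero (j : A → B) (f : R →+* S) : cor j f 0 = 0 := by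
  have h := cor_sub j f (0 : Matrix A A R) 0
  rwa [sub_self, sub_self] at h

/-- the entries of `ext` -/
theorem ext_apply {j : A → B} (hj : Function.Injective j) (f : R →+* S) (x : Matrix A A R)
    (a a' : A) : ext j f x (j a) (j a') = f (x a a') := by
  unfold ext
  rw [Matrix.add_apply, Matrix.sub_apply, cor_apply hj, cor_apply hj]
  have h : (1 : Matrix B B S) (j a) (j a') = f ((1 : Matrix A A R) a a') := by
    rw [Matrix.one_apply, Matrix.one_apply]
    by_cases h : a = a'
    · subst h; simp
    · rw [if_neg h, if_neg (fun h' => h (hj h')), map_zero]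
  rw [h, sub_self, add_zero]

theorem ext_apply_left {j : A → B} (hj : Function.Injective j) (f : R →+* S) (x : Matrix A A R)
    {b : B} (hb : ∀ a, j a ≠ b) (b' : B) : ext j f x b b' = (1 : Matrix B B S) b b' := by
  unfold ext
  rw [Matrix.add_apply, Matrix.sub_apply, cor_apply_left f x hb, cor_apply_left f 1 hb, zero_add,
    sub_zero]

theorem ext_apply_right {j : A → B} (hj : Function.Injective j) (f : R →+* S) (x : Matrix A A R)
    (b : B) {b' : B} (hb : ∀ a, j a ≠ b') : ext j f x b b' = (1 : Matrix B B S) b b' := by
  unfold ext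
  rw [Matrix.add_apply, Matrix.sub_apply, cor_apply_right f x b hb, cor_apply_right f 1 b hb,
    zero_add, sub_zero]

theorem ext_mul {j : A → B} (hj : Function.Injective j) (f : R →+* S) (x y : Matrix A A R) :
    ext j f (x * y) = ext j f x * ext j f y := by
  have h1 : cor j f x * cor j f 1 = cor j f x := by rw [← cor_mul hj, Matrix.mul_one]
  have h2 : cor j f 1 * cor j f y = cor j f y := by rw [← cor_mul hj, Matrix.one_mul]
  have h3 : cor j f (1 : Matrix A A R) * cor j f 1 = cor j f 1 := by
    rw [← cor_mul hj, Matrix.one_mul]
  unfold ext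
  rw [cor_mul hj, Matrix.add_mul, Matrix.mul_add, Matrix.mul_add, Matrix.sub_mul, Matrix.mul_sub,
    Matrix.mul_sub, Matrix.sub_mul, Matrix.mul_one, Matrix.one_mul, Matrix.one_mul,
    Matrix.mul_one, h1, h2, Matrix.sub_mul, Matrix.one_mul, h3]
  abel

theorem ext_one {j : A → B} (f : R →+* S) : ext j f (1 : Matrix A A R) = 1 := by
  unfold ext
  abel

/-- `ext` as a homomorphism. -/
def extHom {j : A → B} (hj : Function.Injective j) (f : R →+* S) :
    Matrix A A R →* Matrix B B S where
  toFun := ext j f
  map_one' := ext_one f
  map_mul' := ext_mul hj f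

/-- `ext` on invertible matrices. -/
def extU {j : A → B} (hj : Function.Injective j) (f : R →+* S) :
    (Matrix A A R)ˣ →* (Matrix B B S)ˣ := Units.map (extHom hj f)

theorem extU_val {j : A → B} (hj : Function.Injective j) (f : R →+* S) (U : (Matrix A A R)ˣ) :
    (extU hj f U : Matrix B B S) = ext j f (U : Matrix A A R) := rfl

theorem extU_inv_val {j : A → B} (hj : Function.Injective j) (f : R →+* S)
    (U : (Matrix A A R)ˣ) :
    ((extU hj f U)⁻¹ : (Matrix B B S)ˣ).val = ext j f ((U⁻¹ : (Matrix A A R)ˣ) : Matrix A A R) :=
  rfl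

/-- corner embeddings with respect to a composition -/
theorem ext_ext {C : Type*} [Fintype C] [DecidableEq C] {T : Type*} [Ring T]
    {j : A → B} (hj : Function.Injective j) {l : B → C} (hl : Function.Injective l)
    (f : R →+* S) (g : S →+* T) (x : Matrix A A R) :
    ext l g (ext j f x) = ext (l ∘ j) (g.comp f) x := by
  have hc : ∀ y : Matrix A A R, cor l g (cor j f y) = cor (l ∘ j) (g.comp f) y := by
    intro y
    have e1 : pm T l * pm T j = pm T (l ∘ j) := by
      ext c a
      simp only [Matrix.mul_apply, pm, Matrix.of_apply, mul_ite, mul_one, mul_zero,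
        Finset.sum_ite_eq, Finset.mem_univ, if_true, Function.comp_apply]
    have e2 : qm T j * qm T l = qm T (l ∘ j) := by
      ext a c
      simp only [Matrix.mul_apply, qm, Matrix.of_apply, ite_mul, one_mul, zero_mul,
        Finset.sum_ite_eq, Finset.mem_univ, if_true, Function.comp_apply]
    have e3 : (cor j f y).map g = pm T j * y.map (g.comp f) * qm T j := by
      ext b b'
      rw [Matrix.map_apply, cor_val]
      simp only [Matrix.mul_apply, pm, qm, Matrix.of_apply, Matrix.map_apply, map_sum, map_mul,
        RingHom.comp_apply]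
      refine Finset.sum_congr rfl fun a' _ => ?_
      congr 1
      · refine Finset.sum_congr rfl fun a _ => ?_
        split_ifs <;> simp
      · split_ifs <;> simp
    unfold cor at e3 ⊢
    rw [e3, ← e1, ← e2]
    simp only [Matrix.mul_assoc]
  unfold ext
  rw [cor_add, cor_sub, hc, hc]
  abel

end Pool.Agent.H95.WH
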