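import Mathlib

/-!
# Shifts, cyclic products and the twisted trace on `𝕜[G^N]`

Positions are the elements of `ZMod N`; `sh i I` is the shifted function `s ↦ I (s + i)`;
`cyc γ = γ(0) γ(1) ⋯ γ(N-1)`; `kap : 𝕜[G^N] → (ConjClasses G →₀ ZMod N)` is the additive map with
`kap (c γ) = τ(c) [cyc γ]`.

Main results: `cyc_conj` : `cyc (γ δ)` is conjugate to `cyc (δ · sh 1 γ)`;
`kap_mul` : `kap (x y) = kap (y · shR 1 x)`.

Paper proof of `cyc_conj`: `γ(0) ∏_{s<N} (δ(s) γ(s+1)) = (∏_{s<N} (γ(s) δ(s))) γ(N)` by induction on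
the length of the product (for all lengths `n ≤ N`), and `γ(N) = γ(0)` as `(N : ZMod N) = 0`.
`kap_mul`: both sides are biadditive; check on `single γ c`, `single δ d`.
-/

set_option autoImplicit false

namespace Pool.Agent.H95.WH

section Shift

variable {N : ℕ} {α β : Type*}

/-- The shift of a function on `ZMod N`. -/
def sh (i : ZMod N) (I : ZMod N → α) : ZMod N → α := fun s => I (s + i)

theorem sh_apply (i : ZMod N) (I : ZMod N → α) (s : ZMod N) : sh i I s = I (s + i) := rfl

theorem sh_zero (I : ZMod N → α) : sh 0 I = I := by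
  funext s
  rw [sh_apply, add_zero]

theorem sh_sh (i j : ZMod N) (I : ZMod N → α) : sh i (sh j I) = sh (i + j) I := by
  funext s
  rw [sh_apply, sh_apply, sh_apply, add_assoc]

theorem sh_neg_sh (i : ZMod N) (I : ZMod N → α) : sh (-i) (sh i I) = I := by
  rw [sh_sh, neg_add_cancel, sh_zero]

theorem sh_sh_neg (i : ZMod N) (I : ZMod N → α) : sh i (sh (-i) I) = I := by
  rw [sh_sh, add_neg_cancel, sh_zero]

theorem comp_sh (f : α → β) (i : ZMod N) (I : ZMod N → α) : f ∘ sh i I = sh i (f ∘ I) := rfl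

/-- The shift as a permutation. -/
def shE (i : ZMod N) : (ZMod N → α) ≃ (ZMod N → α) where
  toFun := sh i
  invFun := sh (-i)
  left_inv := sh_neg_sh i
  right_inv := sh_sh_neg i

end Shift

section Group

variable {N : ℕ} [NeZero N] {G : Type*} [Group G] {H : Type*} [Group H]

/-- The shift as an endomorphism of `G^N`. -/
def shG (i : ZMod N) : (ZMod N → G) →* (ZMod N → G) where
  toFun := sh i
  map_one' := rfl
  map_mul' _ _ := rfl

theorem shG_apply (i : ZMod N) (γ : ZMod N → G) : shG i γ = sh i γ := rfl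

/-- The cyclic product `γ(0) γ(1) ⋯ γ(N-1)`. -/
def cyc (γ : ZMod N → G) : G := ((List.range N).map fun s : ℕ => γ (s : ZMod N)).prod

theorem map_cyc (f : G →* H) (γ : ZMod N → G) : f (cyc γ) = cyc (f ∘ γ) := by
  rw [cyc, cyc, map_list_prod, List.map_map]
  rfl

omit [NeZero N] in
private theorem cyc_aux (γ δ : ZMod N → G) (n : ℕ) :
    γ 0 * ((List.range n).map fun s : ℕ => (δ * sh 1 γ) (s : ZMod N)).prod =
      ((List.range n).map fun s : ℕ => (γ * δ) (s : ZMod N)).prod * γ (n : ZMod N) := by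
  induction n with
  | zero => simp
  | succ n ih =>
    rw [List.range_succ, List.map_append, List.map_append, List.prod_append, List.prod_append,
      ← mul_assoc, ih, List.map_singleton, List.map_singleton, List.prod_singleton,
      List.prod_singleton, Pi.mul_apply, Pi.mul_apply, sh_apply, Nat.cast_succ]
    group

theorem cyc_conj (γ δ : ZMod N → G) : IsConj (cyc (γ * δ)) (cyc (δ * sh 1 γ)) := by
  rw [isConj_iff]
  refine ⟨(γ 0)⁻¹, ?_⟩
  have h := cyc_aux γ δ N
  rw [ZMod.natCast_self] at h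
  rw [inv_inv, cyc, cyc, mul_assoc, ← h, inv_mul_cancel_left]

end Group

section Kap

variable {N : ℕ} [NeZero N] {G : Type*} [Group G] {𝕜 : Type*} [CommRing 𝕜] (τ : 𝕜 →+* ZMod N)

/-- The shift on the group ring of `G^N`. -/
noncomputable def shR (𝕜 : Type*) [CommRing 𝕜] {N : ℕ} {G : Type*} [Group G]
    (i : ZMod N) : MonoidAlgebra 𝕜 (ZMod N → G) →+* MonoidAlgebra 𝕜 (ZMod N → G) :=
  MonoidAlgebra.mapDomainRingHom 𝕜 (shG i)

omit [NeZero N] in
theorem shR_single (i : ZMod N) (γ : ZMod N → G) (c : 𝕜) :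
    shR 𝕜 i (MonoidAlgebra.single γ c) = MonoidAlgebra.single (sh i γ) c := by
  change MonoidAlgebra.mapDomain (shG i) _ = _
  rw [MonoidAlgebra.mapDomain_single]
  rfl

/-- The additive map `𝕜[G^N] → (ConjClasses G →₀ ZMod N)`, `c γ ↦ τ(c) [cyc γ]`. -/
noncomputable def kap : MonoidAlgebra 𝕜 (ZMod N → G) →+ (ConjClasses G →₀ ZMod N) :=
  (Finsupp.liftAddHom fun γ : ZMod N → G =>
    (Finsupp.singleAddHom (ConjClasses.mk (cyc γ))).comp τ.toAddMonoidHom).comp
    (MonoidAlgebra.coeffAddEquiv : MonoidAlgebra 𝕜 (ZMod N → G) ≃+ _).toAddMonoidHom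

theorem kap_single (γ : ZMod N → G) (c : 𝕜) :
    kap τ (MonoidAlgebra.single γ c) = Finsupp.single (ConjClasses.mk (cyc γ)) (τ c) := by
  change Finsupp.liftAddHom _ (Finsupp.single γ c) = _
  rw [Finsupp.liftAddHom_apply_single]
  rfl

theorem kap_mul (x y : MonoidAlgebra 𝕜 (ZMod N → G)) :
    kap τ (x * y) = kap τ (y * shR 𝕜 1 x) := by
  induction x using MonoidAlgebra.induction_linear with
  | zero => rw [zero_mul, map_zero, map_zero, mul_zero, map_zero]
  | add x x' hx hx' => rw [add_mul, map_add, map_add, mul_add, map_add, hx, hx']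
  | single γ c =>
    induction y using MonoidAlgebra.induction_linear with
    | zero => rw [mul_zero, zero_mul]
    | add y y' hy hy' => rw [mul_add, add_mul, map_add, map_add, hy, hy']
    | single δ d =>
      rw [shR_single, MonoidAlgebra.single_mul_single, MonoidAlgebra.single_mul_single, kap_single,
        kap_single, mul_comm d c, ConjClasses.mk_eq_mk_iff_isConj.2 (cyc_conj γ δ)]

end Kap

end Pool.Agent.H95.WH
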