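import Pool.Agent.H95.WH.Coord

/-!
# Divisibility of `U^{⊗N} - Δ(U^{⊗M}) ⊕ 1`, `N = p^{k+1}`, `M = p^k`

Let `v(i, j, g)` be the coefficient of `U i j` at `g`. For `q = (I, J, γ)`:
* `co (bb N U) q = ∏_{s : ZMod N} v(I s, J s, γ s)`;
* if `q = (per r I', per r J', per r γ')` then `co (aa r U) q = ∏_{s : ZMod M} v(I' s, J' s, γ' s)`;
* otherwise `co (aa r U) q = 1` if `I = J`, `γ = 1` (then `I` is not of the form `per r I'`), and
  `co (aa r U) q = 0` if not.

## Paper proof of `stab_dvd`

`Stab q = {i | shB i q = q}` is a subgroup of `ℤ/N`, so its order is `p^j` for some `j ≤ k+1`.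
If `j = 0` there is nothing to prove. If `j ≥ 1`, `Stab q` contains the subgroup of order `p`, i.e.
the kernel `{i | r i = 0} = M ℤ/N` of `r`, so `q = (per r I', per r J', per r γ')`. Put
`w = ∏_{s : ZMod M} v(I' s, J' s, γ' s)`. Then `co (bb N U) q = w^p` (each fibre of `r` has `p`
elements) and `co (aa r U) q = w`. The function `s ↦ v(I' s, J' s, γ' s)` on `ℤ/M` is invariant
under the image of `Stab q` under `r`, a subgroup of order `p^{j-1}`, so `w = z^{p^{j-1}}`, `z` the
product over representatives of the cosets. Hence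
`co (bb N U - aa r U) q = w^p - w = (z^p)^{p^{j-1}} - z^{p^{j-1}}`, which is divisible by `p^j` by
`dvd_sub_pow_of_dvd_sub` as `p ∣ z^p - z`.
-/

set_option autoImplicit false

open Matrix

namespace Pool.Agent.H95.WH

variable {M N : ℕ} [NeZero M] [NeZero N] {ι : Type*} [Fintype ι] [DecidableEq ι]
  {G : Type*} [Group G] {𝕜 : Type*} [CommRing 𝕜]

theorem co_bb (U : Matrix ι ι (MonoidAlgebra 𝕜 G)) (q : BB N ι G) :
    co (bb N U) q = ∏ s : ZMod N, (U (q.1 s) (q.2.1 s)).coeff (q.2.2 s) := rfl

/-- coefficients of `perR` at periodic functions -/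
private theorem perR_coeff_per (r : ZMod N →+* ZMod M) (hr : Function.Surjective r)
    (x : MonoidAlgebra 𝕜 (ZMod M → G)) (γ : ZMod M → G) :
    (perR r G 𝕜 x).coeff (per r γ) = x.coeff γ := by
  change (Finsupp.mapDomain (perG r G) x.coeff) (perG r G γ) = _
  exact Finsupp.mapDomain_apply (f := (perG r G : (ZMod M → G) → (ZMod N → G)))
    (per_injective r hr) x.coeff γ

/-- coefficients of `perR` at the other functions -/
private theorem perR_coeff_ne (r : ZMod N →+* ZMod M)
    (x : MonoidAlgebra 𝕜 (ZMod M → G)) (γ : ZMod N → G) (hγ : ∀ γ' : ZMod M → G, per r γ' ≠ γ) :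
    (perR r G 𝕜 x).coeff γ = 0 := by
  change (Finsupp.mapDomain (perG r G) x.coeff) γ = _
  refine Finsupp.mapDomain_of_notMem_range _ _ ?_
  rintro ⟨γ', h⟩
  exact hγ γ' h

/-- products over the fibres of a surjective homomorphism -/
private theorem prod_fibre {A B : Type*} [AddCommGroup A] [AddCommGroup B] [Fintype A] [Fintype B]
    (f : A →+ B) (hf : Function.Surjective f) {n : ℕ} (hn : n * Fintype.card B = Fintype.card A)
    (g : B → 𝕜) : ∏ a : A, g (f a) = (∏ b : B, g b) ^ n := by
  classical
  have hcard : ∀ b : B, (Finset.univ.filter fun a : A => f a = b).card =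
      (Finset.univ.filter fun a : A => f a = 0).card := fun b =>
    AddMonoidHom.card_fiber_eq_of_mem_range f (hf b) (hf 0)
  have hn' : n = (Finset.univ.filter fun a : A => f a = 0).card := by
    have h1 : Fintype.card A = ∑ b : B, (Finset.univ.filter fun a : A => f a = b).card := by
      rw [← Finset.card_univ]
      exact Finset.card_eq_sum_card_fiberwise fun a _ => Finset.mem_univ _
    rw [Finset.sum_congr rfl fun b _ => hcard b, Finset.sum_const, Finset.card_univ,
      smul_eq_mul, mul_comm] at h1
    rw [h1] at hn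
    exact Nat.eq_of_mul_eq_mul_right (Fintype.card_pos_iff.2 ⟨0⟩) hn
  rw [← Finset.prod_fiberwise' Finset.univ f g, ← Finset.prod_pow]
  refine Finset.prod_congr rfl fun b _ => ?_
  rw [Finset.prod_const, hcard b, ← hn']

/-- the coordinates of a corner embedding at periodic indices -/
theorem co_cor_per (r : ZMod N →+* ZMod M) (hr : Function.Surjective r) (x : EE 𝕜 M ι G)
    (q : BB M ι G) :
    co (cor (per r) (perR r G 𝕜) x) (per r q.1, per r q.2.1, per r q.2.2) = co x q := by
  change (cor (per r) (perR r G 𝕜) x (per r q.1) (per r q.2.1)).coeff (per r q.2.2) = _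
  rw [cor_apply (per_injective r hr), perR_coeff_per r hr]
  rfl

/-- the coordinates of a corner embedding vanish at the other indices -/
theorem co_cor_ne (r : ZMod N →+* ZMod M) (hr : Function.Surjective r) (x : EE 𝕜 M ι G)
    (q : BB N ι G) (hq : ¬ ∃ q' : BB M ι G, q = (per r q'.1, per r q'.2.1, per r q'.2.2)) :
    co (cor (per r) (perR r G 𝕜) x) q = 0 := by
  obtain ⟨I, J, γ⟩ := q
  change (cor (per r) (perR r G 𝕜) x I J).coeff γ = 0
  by_cases hI : ∃ I' : ZMod M → ι, per r I' = I
  · obtain ⟨I', rfl⟩ := hI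
    by_cases hJ : ∃ J' : ZMod M → ι, per r J' = J
    · obtain ⟨J', rfl⟩ := hJ
      rw [cor_apply (per_injective r hr)]
      refine perR_coeff_ne r _ _ fun γ' h => hq ⟨(I', J', γ'), ?_⟩
      rw [← h]
    · rw [cor_apply_right _ _ _ fun J' h => hJ ⟨J', h⟩]
      rfl
  · rw [cor_apply_left _ _ fun I' h => hI ⟨I', h⟩]
    rfl

theorem co_aa_per (r : ZMod N →+* ZMod M) (hr : Function.Surjective r)
    (U : Matrix ι ι (MonoidAlgebra 𝕜 G)) (q : BB M ι G) :
    co (aa r U) (per r q.1, per r q.2.1, per r q.2.2) =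
      ∏ s : ZMod M, (U (q.1 s) (q.2.1 s)).coeff (q.2.2 s) := by
  change (ext (per r) (perR r G 𝕜) (bb M U) (per r q.1) (per r q.2.1)).coeff (per r q.2.2) = _
  rw [ext_apply (per_injective r hr), perR_coeff_per r hr]
  rfl

/-- an index that is fixed by the kernel of `r` is periodic -/
theorem exists_per (r : ZMod N →+* ZMod M) (hr : Function.Surjective r) {α : Type*}
    (I : ZMod N → α) (h : ∀ i, r i = 0 → sh i I = I) : ∃ I' : ZMod M → α, I = per r I' := by
  refine ⟨fun t => I (Function.surjInv hr t), ?_⟩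
  funext s
  change I s = I (Function.surjInv hr (r s))
  have h1 : r (s - Function.surjInv hr (r s)) = 0 := by
    rw [map_sub, Function.surjInv_eq hr, sub_self]
  have h2 := congrFun (h _ h1) (Function.surjInv hr (r s))
  rw [sh_apply, add_sub_cancel] at h2
  exact h2

open scoped Classical in
theorem stab_dvd {p k : ℕ} (hp : p.Prime) (hN : N = p ^ (k + 1)) (hM : M = p ^ k)
    (hfrob : ∀ a : 𝕜, (p : 𝕜) ∣ a ^ p - a)
    (r : ZMod N →+* ZMod M) (hr : Function.Surjective r)
    (U : Matrix ι ι (MonoidAlgebra 𝕜 G)) (q : BB N ι G) :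
    ((Finset.univ.filter fun i : ZMod N => shB i q = q).card : 𝕜) ∣ co (bb N U - aa r U) q := by
  -- the stabilizer as a subgroup
  let S : AddSubgroup (ZMod N) :=
    { carrier := {i | shB i q = q}
      zero_mem' := shB_zero q
      add_mem' := fun {i j} hi hj => by
        change shB (i + j) q = q
        rw [shB_add, hj, hi]
      neg_mem' := fun {i} hi => by
        have hi' : shB i q = q := hi
        change shB (-i) q = q
        have h := shB_add (-i) i q
        rw [neg_add_cancel, shB_zero, hi'] at h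
        exact h.symm }
  have hmem : ∀ i, i ∈ S ↔ shB i q = q := fun i => Iff.rfl
  have hScard : (Finset.univ.filter fun i : ZMod N => shB i q = q).card = Nat.card S := by
    rw [Nat.card_eq_fintype_card]
    exact (Fintype.card_of_subtype _ fun i => by
      rw [Finset.mem_filter]
      exact ⟨fun h => h.2, fun h => ⟨Finset.mem_univ _, h⟩⟩).symm
  rw [hScard]
  have hdvd : Nat.card S ∣ p ^ (k + 1) := by
    have := AddSubgroup.card_addSubgroup_dvd_card S
    rw [Nat.card_zmod] at this
    exact this.trans (dvd_of_eq hN)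
  obtain ⟨j, hj, hSj⟩ := (Nat.dvd_prime_pow hp).1 hdvd
  rcases j with _ | j
  · rw [hSj]
    simp
  · -- the kernel of `r` is contained in `S`
    have hker : ∀ i, r i = 0 → i ∈ S := by
      -- `S` contains an element `x` of order `p`
      haveI : Fact p.Prime := ⟨hp⟩
      obtain ⟨x, hx⟩ := exists_prime_addOrderOf_dvd_card' (G := S) p (by
        rw [hSj, pow_succ]
        exact dvd_mul_left _ _)
      have hx' : addOrderOf (x : ZMod N) = p := by
        rw [AddSubgroup.addOrderOf_coe, hx]
      -- it lies in the kernel of `r`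
      have hxk : r (x : ZMod N) = 0 := by
        have h1 : p • (x : ZMod N) = 0 := by
          rw [← hx']
          exact addOrderOf_nsmul_eq_zero _
        have h2 : ((p * (x : ZMod N).val : ℕ) : ZMod N) = 0 := by
          rw [Nat.cast_mul, ZMod.natCast_zmod_val, ← nsmul_eq_mul]
          exact h1
        rw [ZMod.natCast_eq_zero_iff] at h2
        have h3 : M ∣ (x : ZMod N).val := by
          have h4 : p * M ∣ p * (x : ZMod N).val := by
            refine Dvd.dvd.trans (dvd_of_eq ?_) h2
            rw [hM, hN, pow_succ']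
          exact Nat.dvd_of_mul_dvd_mul_left hp.pos h4
        have h5 : r (((x : ZMod N).val : ℕ) : ZMod N) = 0 := by
          rw [map_natCast, ZMod.natCast_eq_zero_iff]
          exact h3
        rwa [ZMod.natCast_zmod_val] at h5
      -- the kernel has order `p`
      have hkc : Nat.card (r : ZMod N →+ ZMod M).ker = p := by
        have h1 := AddSubgroup.card_mul_index (r : ZMod N →+ ZMod M).ker
        have h2 : (r : ZMod N →+ ZMod M).ker.index = M := by
          rw [AddSubgroup.index_ker]
          have h3 : (r : ZMod N →+ ZMod M).range = ⊤ := AddMonoidHom.range_eq_top.2 hr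
          rw [h3, AddSubgroup.card_top, Nat.card_zmod]
        rw [h2, Nat.card_zmod] at h1
        have h4 : Nat.card (r : ZMod N →+ ZMod M).ker * M = p * M := by
          rw [h1]
          conv_rhs => rw [hM]
          conv_lhs => rw [hN]
          rw [pow_succ']
        exact Nat.eq_of_mul_eq_mul_right (NeZero.pos M) h4
      have hle : AddSubgroup.zmultiples (x : ZMod N) ≤ (r : ZMod N →+ ZMod M).ker := by
        rw [AddSubgroup.zmultiples_le]
        exact hxk
      have heq : AddSubgroup.zmultiples (x : ZMod N) = (r : ZMod N →+ ZMod M).ker := by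
        refine AddSubgroup.eq_of_le_of_card_ge hle ?_
        rw [hkc, Nat.card_zmultiples, hx']
      intro i hi
      have hi' : i ∈ (r : ZMod N →+ ZMod M).ker := hi
      rw [← heq] at hi'
      exact (AddSubgroup.zmultiples_le.2 x.2) hi'
    have hq1 : ∃ I' : ZMod M → ι, q.1 = per r I' := exists_per r hr q.1 fun i hi =>
      congrArg Prod.fst ((hmem i).1 (hker i hi))
    have hq2 : ∃ J' : ZMod M → ι, q.2.1 = per r J' := exists_per r hr q.2.1 fun i hi =>
      congrArg (fun q : BB N ι G => q.2.1) ((hmem i).1 (hker i hi))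
    have hq3 : ∃ γ' : ZMod M → G, q.2.2 = per r γ' := exists_per r hr q.2.2 fun i hi =>
      congrArg (fun q : BB N ι G => q.2.2) ((hmem i).1 (hker i hi))
    obtain ⟨I', hI'⟩ := hq1
    obtain ⟨J', hJ'⟩ := hq2
    obtain ⟨γ', hγ'⟩ := hq3
    -- the homomorphism to the quotient
    let Q := ZMod N ⧸ S
    let mk : ZMod N →+ Q := QuotientAddGroup.mk' S
    have hkm : (r : ZMod N →+ ZMod M).ker ≤ mk.ker := by
      intro i hi
      rw [QuotientAddGroup.ker_mk']
      exact hker i hi
    let ψ : ZMod M →+ Q := AddMonoidHom.liftOfSurjective (r : ZMod N →+ ZMod M) hr ⟨mk, hkm⟩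
    have hψ : ∀ i, ψ (r i) = mk i := fun i =>
      AddMonoidHom.liftOfRightInverse_comp_apply (r : ZMod N →+ ZMod M) _ _ ⟨mk, hkm⟩ i
    have hmk : Function.Surjective mk := QuotientAddGroup.mk'_surjective S
    have hψs : Function.Surjective ψ := fun y => by
      obtain ⟨i, hi⟩ := hmk y
      exact ⟨r i, by rw [hψ, hi]⟩
    have : Fintype Q := Fintype.ofFinite Q
    have hcQ : p ^ (j + 1) * Fintype.card Q = Fintype.card (ZMod N) := by
      rw [← Nat.card_eq_fintype_card, ← Nat.card_eq_fintype_card, ← hSj,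
        AddSubgroup.card_eq_card_quotient_mul_card_addSubgroup S, mul_comm]
    have hcM : p ^ j * Fintype.card Q = Fintype.card (ZMod M) := by
      rw [ZMod.card, hM]
      rw [ZMod.card, hN, pow_succ, pow_succ] at hcQ
      refine Nat.eq_of_mul_eq_mul_right hp.pos ?_
      rw [← hcQ]
      ring
    -- the function on the quotient
    let F : ZMod N → 𝕜 := fun s => (U (q.1 s) (q.2.1 s)).coeff (q.2.2 s)
    have hF : ∀ i ∈ S, ∀ s, F (s + i) = F s := by
      intro i hi s
      have h := (hmem i).1 hi
      have h1 : q.1 (s + i) = q.1 s := congrFun (congrArg Prod.fst h) s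
      have h2 : q.2.1 (s + i) = q.2.1 s :=
        congrFun (congrArg (fun q : BB N ι G => q.2.1) h) s
      have h3 : q.2.2 (s + i) = q.2.2 s :=
        congrFun (congrArg (fun q : BB N ι G => q.2.2) h) s
      change (U (q.1 (s + i)) (q.2.1 (s + i))).coeff (q.2.2 (s + i)) = _
      rw [h1, h2, h3]
    let g : Q → 𝕜 := fun y => F (Function.surjInv hmk y)
    have hg : ∀ s, g (mk s) = F s := by
      intro s
      have h1 : mk (Function.surjInv hmk (mk s)) = mk s := Function.surjInv_eq hmk (mk s)
      have h2 : -s + Function.surjInv hmk (mk s) ∈ S := QuotientAddGroup.eq.1 h1.symm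
      have h3 := hF _ h2 s
      rw [add_neg_cancel_left] at h3
      exact h3
    have hb : co (bb N U) q = (∏ y : Q, g y) ^ p ^ (j + 1) := by
      rw [co_bb, ← prod_fibre mk hmk hcQ g]
      exact Finset.prod_congr rfl fun s _ => (hg s).symm
    have ha : co (aa r U) q = (∏ y : Q, g y) ^ p ^ j := by
      have hq : q = (per r I', per r J', per r γ') := by
        rw [← hI', ← hJ', ← hγ']
      rw [← prod_fibre ψ hψs hcM g]
      conv_lhs => rw [hq]
      rw [co_aa_per r hr U (I', J', γ')]
      refine Finset.prod_congr rfl fun t _ => ?_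
      obtain ⟨s, rfl⟩ := hr t
      rw [hψ, hg]
      change _ = (U (q.1 s) (q.2.1 s)).coeff (q.2.2 s)
      rw [hI', hJ', hγ']
      rfl
    rw [co_sub, hb, ha, hSj, pow_succ' p j, pow_mul]
    have := dvd_sub_pow_of_dvd_sub (hfrob (∏ y : Q, g y)) j
    rw [Nat.cast_mul, Nat.cast_pow]
    rwa [pow_succ'] at this

end Pool.Agent.H95.WH
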