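import Pool.Agent.H95.WH.Gam

/-!
# Naturality of the invariant `gam`

For an injection `j : ι → ι'` and a group homomorphism `α : G → H` let
`U' = extU j α(U)` (the matrix `α(U)` on the indices in the range of `j`, completed by the
identity). Then `gam U'` is the image of `gam U` under `ConjClasses G → ConjClasses H`.

## Paper proof

Put `f = mapDomainRingHom 𝕜 α`, `jN I = j ∘ I`, `fN = mapDomainRingHom 𝕜 (powG N α)`,
`F x = cor jN fN x : EE 𝕜 N ι' H` for `x : EE 𝕜 N ι G`; `F` is additive and multiplicative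
(`cor_add`, `cor_mul`).
(1) `sg i (F x) = F (sg i x)`; hence `F (tr x) = tr (F x)`.
(2) `TT τ (F x) = Finsupp.mapDomain (ConjClasses.map α) (TT τ x)` (`map_cyc`; `sh 1 (j ∘ I) =
j ∘ sh 1 I`).
(3) For `I : ZMod N → ι'` let `P(I) = {s | I s ∈ range j}`. Call `y : EE 𝕜 N ι' H` *block* if
`y I J = 0` whenever `P(I) ≠ P(J)`, and *mixed* if moreover `y I J = 0` whenever `P(I) = ∅` or
`P(I) = univ`. Block elements form a subring stable under `sg i`; mixed elements form a two-sided
ideal of this subring, stable under `sg i` (`P(sh i I)` is a translate of `P(I)`).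
`F x` is block, `F x * y = 0 = y * F x` for `y` mixed. If `y` is mixed then `TT τ y = 0`: a nonzero
term `kap τ (y I (sh 1 I))` has `P(I) = P(sh 1 I)`, so `P(I)` is invariant under translation by
`1`, i.e. `∅` or `univ`.
(4) Let `U' = ext j f U` for a matrix `U`. The elements `bb N U'` and `aa r U'` are block. At
`I = jN I₀`, `J = jN J₀` (i.e. `P(I) = P(J) = univ`) their entries are `fN (bb N U I₀ J₀)` and
`fN (aa r U I₀ J₀)` (`map_ten`, `ext_apply`; for `aa`: if `I`, `J` are both periodic, so are `I₀`, `J₀`,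
and the entry is `perR (bb M U' I' J')`, where `bb M U' I' J' = map (bb M U I₀' J₀')`; otherwise it is
the entry of `1`). If `P(I) = ∅` then their entries at `(I, J)` are those of `1`. Hence
`bb N U' = F (bb N U) + e + (mixed)`, `aa r U' = F (aa r U) + e + (mixed)`, where `e` is the
diagonal idempotent of the indices with `P(I) = ∅`, `e * F x = F x * e = 0`. So
`bb N U' * F x = F (bb N U * x)`, `aa r U' * F x = F (aa r U * x)`.
(5) Let `X` be a solution for `U` (`exists_sol`). Then `c = (bb N U' - aa r U') -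
F (bb N U - aa r U)` is mixed and invariant, and every coordinate of `c` is either the
corresponding coordinate of `bb N U' - aa r U'` or `0` (it is `0` if `P(I) = univ`, as then the entries
agree by (4)); so the hypothesis of `exists_tr` holds by `stab_dvd`. It gives `X''` with
`tr X'' = c` whose coordinates vanish where those of `c` do; so `X''` is mixed.
`X' = F X + X''` is a solution for `U'`.
(6) With `a' = aa r U'⁻¹`, `b' = bb N U'⁻¹` (here (4) is used for `U⁻¹`):
`TT (a' X') = TT (F (a X)) + 0` and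
`TT (a' X' b' sg i X') = TT (F (a X b sg i X)) + 0`, where `a = aa r U⁻¹`, `b = bb N U⁻¹`: expand
`X' = F X + X''`; all terms containing `X''` are mixed or `0`. Now use `gam_eq` for `U'`, `X'` and for
`U`, `X`, and (2).
-/

set_option autoImplicit false
set_option linter.unusedSectionVars false

open Matrix

namespace Pool.Agent.H95.WH

section Aux

variable {N : ℕ} {ι : Type*} {ι' : Type*}

/-- The positions at which `I` has its value in the range of `j`. -/
private def pat (j : ι → ι') (I : ZMod N → ι') : Set (ZMod N) := {s | ∃ a, j a = I s}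

private theorem pat_comp (j : ι → ι') (I : ZMod N → ι) : pat j (j ∘ I) = Set.univ := by
  ext s
  simp [pat]

private theorem pat_univ {j : ι → ι'} {I : ZMod N → ι'} (h : pat j I = Set.univ) :
    ∃ I₀ : ZMod N → ι, I = j ∘ I₀ := by
  have h1 : ∀ s, ∃ a, j a = I s := fun s => by
    have : s ∈ pat j I := by rw [h]; trivial
    exact this
  choose I₀ h2 using h1
  exact ⟨I₀, funext fun s => (h2 s).symm⟩

private theorem pat_sh (j : ι → ι') (i : ZMod N) (I : ZMod N → ι') (s : ZMod N) :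
    s ∈ pat j (sh i I) ↔ s + i ∈ pat j I := Iff.rfl

private theorem pat_sh_eq {j : ι → ι'} (i : ZMod N) {I J : ZMod N → ι'}
    (h : pat j I = pat j J) : pat j (sh i I) = pat j (sh i J) := by
  ext s
  rw [pat_sh, pat_sh, h]

private theorem pat_sh_iff {j : ι → ι'} (i : ZMod N) {I J : ZMod N → ι'} :
    pat j (sh i I) = pat j (sh i J) ↔ pat j I = pat j J := by
  constructor
  · intro h
    have h1 := pat_sh_eq (j := j) (-i) h
    rwa [sh_neg_sh, sh_neg_sh] at h1
  · exact pat_sh_eq i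

private theorem pat_inv [NeZero N] {j : ι → ι'} {I : ZMod N → ι'}
    (h : pat j I = pat j (sh 1 I)) : pat j I = ∅ ∨ pat j I = Set.univ := by
  have h1 : ∀ s, s ∈ pat j I ↔ s + 1 ∈ pat j I := fun s => by
    rw [← pat_sh, ← h]
  have h2 : ∀ n : ℕ, (0 : ZMod N) ∈ pat j I ↔ ((n : ℕ) : ZMod N) ∈ pat j I := by
    intro n
    induction n with
    | zero => rw [Nat.cast_zero]
    | succ n ih => rw [ih, h1, Nat.cast_succ]
  have h3 : ∀ s : ZMod N, (0 : ZMod N) ∈ pat j I ↔ s ∈ pat j I := fun s => by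
    rw [h2 s.val, ZMod.natCast_zmod_val]
  by_cases h0 : (0 : ZMod N) ∈ pat j I
  · right
    ext s
    simp [← h3 s, h0]
  · left
    ext s
    simp [← h3 s, h0]

end Aux

variable {M N : ℕ} [NeZero M] [NeZero N] {ι : Type*} [Fintype ι] [DecidableEq ι]
  {ι' : Type*} [Fintype ι'] [DecidableEq ι'] {G : Type*} [Group G] {H : Type*} [Group H]
  {𝕜 : Type*} [CommRing 𝕜]

/-- Block elements. -/
private def Blk (j : ι → ι') (y : EE 𝕜 N ι' H) : Prop :=
  ∀ I J : ZMod N → ι', pat j I ≠ pat j J → y I J = 0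

/-- Mixed elements. -/
private def Mix (j : ι → ι') (y : EE 𝕜 N ι' H) : Prop :=
  Blk j y ∧ ∀ I J : ZMod N → ι', (pat j I = ∅ ∨ pat j I = Set.univ) → y I J = 0

private theorem Blk.mul {j : ι → ι'} {x y : EE 𝕜 N ι' H} (hx : Blk j x) (hy : Blk j y) :
    Blk j (x * y) := by
  intro I K h
  rw [Matrix.mul_apply]
  apply Finset.sum_eq_zero
  intro J _
  by_cases h1 : pat j I = pat j J
  · rw [hy J K (fun h2 => h (h1.trans h2)), mul_zero]
  · rw [hx I J h1, zero_mul]

private theorem Blk.mul_mix {j : ι → ι'} {x y : EE 𝕜 N ι' H} (hx : Blk j x) (hy : Mix j y) :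
    Mix j (x * y) := by
  refine ⟨hx.mul hy.1, ?_⟩
  intro I K h
  rw [Matrix.mul_apply]
  apply Finset.sum_eq_zero
  intro J _
  by_cases h1 : pat j I = pat j J
  · rw [hy.2 J K (h1 ▸ h), mul_zero]
  · rw [hx I J h1, zero_mul]

private theorem Mix.mul_blk {j : ι → ι'} {x y : EE 𝕜 N ι' H} (hx : Mix j x) (hy : Blk j y) :
    Mix j (x * y) := by
  refine ⟨hx.1.mul hy, ?_⟩
  intro I K h
  rw [Matrix.mul_apply]
  apply Finset.sum_eq_zero
  intro J _
  rw [hx.2 I J h, zero_mul]

private theorem Mix.sg {j : ι → ι'} {x : EE 𝕜 N ι' H} (hx : Mix j x) (i : ZMod N) :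
    Mix j (sg i x) := by
  constructor
  · intro I J h
    rw [sg_apply, hx.1 _ _ (fun h1 => h ((pat_sh_iff (-i)).1 h1)), map_zero]
  · intro I J h
    rw [sg_apply, hx.2 _ _ ?_, map_zero]
    rcases h with h | h
    · left
      ext s
      rw [pat_sh, h]
      simp
    · right
      ext s
      rw [pat_sh, h]
      simp

private theorem Blk.sg {j : ι → ι'} {x : EE 𝕜 N ι' H} (hx : Blk j x) (i : ZMod N) :
    Blk j (WH.sg i x) := by
  intro I J h
  rw [sg_apply, hx _ _ (fun h1 => h ((pat_sh_iff (-i)).1 h1)), map_zero]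

private theorem Mix.TT_eq {j : ι → ι'} {x : EE 𝕜 N ι' H} (hx : Mix j x) (τ : 𝕜 →+* ZMod N) :
    TT τ x = 0 := by
  rw [TT_apply]
  apply Finset.sum_eq_zero
  intro I _
  by_cases h : pat j I = pat j (sh 1 I)
  · rw [hx.2 _ _ (pat_inv h), map_zero]
  · rw [hx.1 _ _ h, map_zero]

/-- The homomorphism of the group rings of the powers. -/
private noncomputable def fN (𝕜 : Type*) [CommRing 𝕜] (N : ℕ) (α : G →* H) :
    MonoidAlgebra 𝕜 (ZMod N → G) →+* MonoidAlgebra 𝕜 (ZMod N → H) :=
  MonoidAlgebra.mapDomainRingHom 𝕜 (powG N α)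

private theorem fN_single (α : G →* H) (γ : ZMod N → G) (c : 𝕜) :
    fN 𝕜 N α (MonoidAlgebra.single γ c) = MonoidAlgebra.single (α ∘ γ) c := by
  change MonoidAlgebra.mapDomain (powG N α) _ = _
  rw [MonoidAlgebra.mapDomain_single]
  rfl

/-- The map `F`. -/
private noncomputable def FF (𝕜 : Type*) [CommRing 𝕜] (N : ℕ) [NeZero N] (j : ι → ι')
    (α : G →* H) : EE 𝕜 N ι G →+ EE 𝕜 N ι' H :=
  AddMonoidHom.mk' (cor (fun I : ZMod N → ι => j ∘ I) (fN 𝕜 N α)) (cor_add _ _)

private theorem FF_def (j : ι → ι') (α : G →* H) (x : EE 𝕜 N ι G) :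
    FF 𝕜 N j α x = cor (fun I : ZMod N → ι => j ∘ I) (fN 𝕜 N α) x := rfl

private theorem jN_inj {j : ι → ι'} (hj : Function.Injective j) :
    Function.Injective (fun I : ZMod N → ι => j ∘ I) := fun I J h => by
  funext s
  exact hj (congrFun h s)

private theorem FF_apply {j : ι → ι'} (hj : Function.Injective j) (α : G →* H)
    (x : EE 𝕜 N ι G) (I J : ZMod N → ι) : FF 𝕜 N j α x (j ∘ I) (j ∘ J) = fN 𝕜 N α (x I J) := by
  rw [FF_def]
  exact cor_apply (jN_inj hj) _ x I J

private theorem FF_left (j : ι → ι') (α : G →* H) (x : EE 𝕜 N ι G) {I : ZMod N → ι'}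
    (h : pat j I ≠ Set.univ) (J : ZMod N → ι') : FF 𝕜 N j α x I J = 0 := by
  rw [FF_def]
  apply cor_apply_left
  rintro I₀ rfl
  exact h (pat_comp j I₀)

private theorem FF_right (j : ι → ι') (α : G →* H) (x : EE 𝕜 N ι G) (I : ZMod N → ι')
    {J : ZMod N → ι'} (h : pat j J ≠ Set.univ) : FF 𝕜 N j α x I J = 0 := by
  rw [FF_def]
  apply cor_apply_right
  rintro I₀ rfl
  exact h (pat_comp j I₀)

private theorem FF_mul {j : ι → ι'} (hj : Function.Injective j) (α : G →* H)
    (x y : EE 𝕜 N ι G) : FF 𝕜 N j α (x * y) = FF 𝕜 N j α x * FF 𝕜 N j α y := by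
  rw [FF_def, FF_def, FF_def]
  exact cor_mul (jN_inj hj) _ x y

private theorem FF_blk (j : ι → ι') (α : G →* H) (x : EE 𝕜 N ι G) : Blk j (FF 𝕜 N j α x) := by
  intro I J h
  by_cases h1 : pat j I = Set.univ
  · exact FF_right j α x I (fun h2 => h (h1.trans h2.symm))
  · exact FF_left j α x h1 J

private theorem shR_fN (α : G →* H) (i : ZMod N) (x : MonoidAlgebra 𝕜 (ZMod N → G)) :
    shR 𝕜 i (fN 𝕜 N α x) = fN 𝕜 N α (shR 𝕜 i x) := by
  induction x using MonoidAlgebra.induction_linear with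
  | zero => simp only [map_zero]
  | add a b ha hb => rw [map_add, map_add, map_add, map_add, ha, hb]
  | single s t =>
    rw [fN_single, shR_single, shR_single, fN_single]
    rfl

private theorem kap_fN (τ : 𝕜 →+* ZMod N) (α : G →* H) (x : MonoidAlgebra 𝕜 (ZMod N → G)) :
    kap τ (fN 𝕜 N α x) = Finsupp.mapDomain (ConjClasses.map α) (kap τ x) := by
  induction x using MonoidAlgebra.induction_linear with
  | zero => simp only [map_zero, Finsupp.mapDomain_zero]
  | add a b ha hb => rw [map_add, map_add, map_add, Finsupp.mapDomain_add, ha, hb]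
  | single s t =>
    rw [fN_single, kap_single, kap_single, Finsupp.mapDomain_single, ← map_cyc]
    rfl

private theorem sg_FF {j : ι → ι'} (hj : Function.Injective j) (α : G →* H)
    (i : ZMod N) (x : EE 𝕜 N ι G) : sg i (FF 𝕜 N j α x) = FF 𝕜 N j α (sg i x) := by
  have key : ∀ I : ZMod N → ι', pat j (sh (-i) I) = Set.univ → pat j I = Set.univ := by
    intro I h
    obtain ⟨I₀, h1⟩ := pat_univ h
    have h2 : I = j ∘ sh i I₀ := by
      rw [comp_sh, ← h1, sh_sh_neg]
    rw [h2, pat_comp]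
  refine Matrix.ext fun I J => ?_
  rw [sg_apply]
  by_cases hI : pat j I = Set.univ
  · by_cases hJ : pat j J = Set.univ
    · obtain ⟨I₀, rfl⟩ := pat_univ hI
      obtain ⟨J₀, rfl⟩ := pat_univ hJ
      rw [← comp_sh, ← comp_sh, FF_apply hj, FF_apply hj, shR_fN]
      rfl
    · rw [FF_right j α _ _ (fun h => hJ (key J h)), FF_right j α _ _ hJ, map_zero]
  · rw [FF_left j α _ (fun h => hI (key I h)), FF_left j α _ hI, map_zero]

private theorem TT_FF {j : ι → ι'} (hj : Function.Injective j) (α : G →* H) (τ : 𝕜 →+* ZMod N)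
    (x : EE 𝕜 N ι G) :
    TT τ (FF 𝕜 N j α x) = Finsupp.mapDomain (ConjClasses.map α) (TT τ x) := by
  rw [TT_apply, TT_apply]
  have h1 : Finsupp.mapDomain (ConjClasses.map α) (∑ I : ZMod N → ι, kap τ (x I (sh 1 I))) =
      ∑ I : ZMod N → ι, Finsupp.mapDomain (ConjClasses.map α) (kap τ (x I (sh 1 I))) :=
    map_sum (Finsupp.mapDomain.addMonoidHom (ConjClasses.map α)) _ _
  rw [h1]
  symm
  apply Fintype.sum_of_injective (fun I : ZMod N → ι => j ∘ I) (jN_inj hj)
  · intro I hI
    rw [FF_left j α, map_zero]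
    intro h
    obtain ⟨I₀, rfl⟩ := pat_univ h
    exact hI ⟨I₀, rfl⟩
  · intro I
    rw [← comp_sh, FF_apply hj, kap_fN]

/-- `y` restricts to `x` on the range of `j`, and is the identity off it. -/
private structure Rel (j : ι → ι') (α : G →* H) (y : EE 𝕜 N ι' H) (x : EE 𝕜 N ι G) : Prop where
  res : ∀ I J : ZMod N → ι, y (j ∘ I) (j ∘ J) = fN 𝕜 N α (x I J)
  blk : Blk j y
  one : ∀ I J : ZMod N → ι', pat j I = ∅ → y I J = (1 : EE 𝕜 N ι' H) I J

private theorem Rel.mul_FF {j : ι → ι'} (hj : Function.Injective j) {α : G →* H}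
    {y : EE 𝕜 N ι' H} {x : EE 𝕜 N ι G} (h : Rel j α y x) (z : EE 𝕜 N ι G) :
    y * FF 𝕜 N j α z = FF 𝕜 N j α (x * z) := by
  refine Matrix.ext fun I K => ?_
  by_cases hK : pat j K = Set.univ
  · by_cases hI : pat j I = Set.univ
    · obtain ⟨I₀, rfl⟩ := pat_univ hI
      obtain ⟨K₀, rfl⟩ := pat_univ hK
      rw [FF_apply hj, Matrix.mul_apply, Matrix.mul_apply, map_sum]
      symm
      apply Fintype.sum_of_injective (fun I : ZMod N → ι => j ∘ I) (jN_inj hj)
      · intro J hJ
        rw [FF_left j α, mul_zero]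
        intro h
        obtain ⟨J₀, rfl⟩ := pat_univ h
        exact hJ ⟨J₀, rfl⟩
      · intro J
        rw [map_mul, h.res, FF_apply hj]
    · rw [FF_left j α _ hI, Matrix.mul_apply]
      apply Finset.sum_eq_zero
      intro J _
      by_cases hJ : pat j J = Set.univ
      · rw [h.blk I J (fun h1 => hI (h1.trans hJ)), zero_mul]
      · rw [FF_left j α _ hJ, mul_zero]
  · rw [FF_right j α _ _ hK, Matrix.mul_apply]
    apply Finset.sum_eq_zero
    intro J _
    rw [FF_right j α _ _ hK, mul_zero]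

private theorem Rel.bb {j : ι → ι'} (hj : Function.Injective j) (α : G →* H)
    (U : Matrix ι ι (MonoidAlgebra 𝕜 G)) :
    Rel j α (bb N (ext j (MonoidAlgebra.mapDomainRingHom 𝕜 α) U)) (bb N U) := by
  constructor
  · intro I J
    rw [bb_apply, bb_apply, fN, map_ten]
    congr 1
    funext s
    exact ext_apply hj _ U _ _
  · intro I J h
    rw [bb_apply]
    have h1 : ∃ s, ¬ (s ∈ pat j I ↔ s ∈ pat j J) := by
      by_contra h2
      push Not at h2
      exact h (Set.ext h2)
    obtain ⟨s, hs⟩ := h1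
    apply ten_zero _ s
    by_cases h2 : s ∈ pat j I
    · have h3 : s ∉ pat j J := fun h3 => hs ⟨fun _ => h3, fun _ => h2⟩
      have h4 : ∀ a, j a ≠ J s := fun a ha => h3 ⟨a, ha⟩
      rw [ext_apply_right hj _ _ _ h4, Matrix.one_apply_ne]
      intro h5
      apply h3
      obtain ⟨a, ha⟩ := h2
      exact ⟨a, ha.trans h5⟩
    · have h4 : ∀ a, j a ≠ I s := fun a ha => h2 ⟨a, ha⟩
      rw [ext_apply_left hj _ _ h4, Matrix.one_apply_ne]
      intro h5
      by_cases h3 : s ∈ pat j J
      · obtain ⟨a, ha⟩ := h3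
        exact h4 a (ha.trans h5.symm)
      · exact hs ⟨fun h6 => absurd h6 h2, fun h6 => absurd h6 h3⟩
  · intro I J h
    rw [← bb_one, bb_apply, bb_apply]
    congr 1
    funext s
    apply ext_apply_left hj
    intro a ha
    have : s ∈ pat j I := ⟨a, ha⟩
    rw [h] at this
    exact this

private theorem perR_fN (r : ZMod N →+* ZMod M) (α : G →* H) (x : MonoidAlgebra 𝕜 (ZMod M → G)) :
    perR r H 𝕜 (fN 𝕜 M α x) = fN 𝕜 N α (perR r G 𝕜 x) := by
  induction x using MonoidAlgebra.induction_linear with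
  | zero => simp only [map_zero]
  | add a b ha hb => rw [map_add, map_add, map_add, map_add, ha, hb]
  | single s t =>
    rw [fN_single, perR_single, perR_single, fN_single]
    rfl

private theorem aa_apply (r : ZMod N →+* ZMod M) (hr : Function.Surjective r)
    (U : Matrix ι ι (MonoidAlgebra 𝕜 G)) (I J : ZMod M → ι) :
    aa r U (per r I) (per r J) = perR r G 𝕜 (bb M U I J) := by
  rw [aa]
  exact ext_apply (per_injective r hr) _ _ I J

private theorem aa_left (r : ZMod N →+* ZMod M) (hr : Function.Surjective r)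
    (U : Matrix ι ι (MonoidAlgebra 𝕜 G)) {I : ZMod N → ι} (hI : ¬ ∃ I₀, per r I₀ = I)
    (J : ZMod N → ι) : aa r U I J = (1 : EE 𝕜 N ι G) I J := by
  rw [aa]
  exact ext_apply_left (per_injective r hr) _ _ (fun a h => hI ⟨a, h⟩) J

private theorem aa_right (r : ZMod N →+* ZMod M) (hr : Function.Surjective r)
    (U : Matrix ι ι (MonoidAlgebra 𝕜 G)) (I : ZMod N → ι) {J : ZMod N → ι}
    (hJ : ¬ ∃ J₀, per r J₀ = J) : aa r U I J = (1 : EE 𝕜 N ι G) I J := by
  rw [aa]
  exact ext_apply_right (per_injective r hr) _ _ I (fun a h => hJ ⟨a, h⟩)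

private theorem per_of_comp (r : ZMod N →+* ZMod M) (hr : Function.Surjective r) {j : ι → ι'}
    (hj : Function.Injective j) {I : ZMod N → ι} (h : ∃ I₀, per r I₀ = j ∘ I) :
    ∃ I₀, per r I₀ = I := by
  obtain ⟨K, hK⟩ := h
  have h1 : ∀ t, ∃ a, j a = K t := fun t => by
    obtain ⟨s, rfl⟩ := hr t
    exact ⟨I s, (congrFun hK s).symm⟩
  choose I₀ h2 using h1
  refine ⟨I₀, ?_⟩
  funext s
  apply hj
  change j (I₀ (r s)) = _
  rw [h2]
  exact congrFun hK s

private theorem fN_one (α : G →* H) (I J : ZMod N → ι) {j : ι → ι'}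
    (hj : Function.Injective j) :
    (1 : EE 𝕜 N ι' H) (j ∘ I) (j ∘ J) = fN 𝕜 N α ((1 : EE 𝕜 N ι G) I J) := by
  by_cases h : I = J
  · subst h
    rw [Matrix.one_apply_eq, Matrix.one_apply_eq, map_one]
  · rw [Matrix.one_apply_ne h, Matrix.one_apply_ne (fun h1 => h (jN_inj hj h1)), map_zero]

private theorem pat_per (r : ZMod N →+* ZMod M) (j : ι → ι') (I : ZMod M → ι') (s : ZMod N) :
    s ∈ pat j (per r I) ↔ r s ∈ pat j I := Iff.rfl

private theorem pat_per_iff (r : ZMod N →+* ZMod M) (hr : Function.Surjective r) (j : ι → ι')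
    (I J : ZMod M → ι') : pat j (per r I) = pat j (per r J) ↔ pat j I = pat j J := by
  constructor
  · intro h
    ext t
    obtain ⟨s, rfl⟩ := hr t
    rw [← pat_per, ← pat_per, h]
  · intro h
    ext s
    rw [pat_per, pat_per, h]

private theorem Rel.aa {j : ι → ι'} (hj : Function.Injective j) (α : G →* H)
    (r : ZMod N →+* ZMod M) (hr : Function.Surjective r)
    (U : Matrix ι ι (MonoidAlgebra 𝕜 G)) :
    Rel j α (aa r (ext j (MonoidAlgebra.mapDomainRingHom 𝕜 α) U)) (aa r U) := by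
  have hb := Rel.bb (N := M) hj α U
  constructor
  · intro I J
    by_cases hI : ∃ I₀, per r I₀ = I
    · by_cases hJ : ∃ J₀, per r J₀ = J
      · obtain ⟨I, rfl⟩ := hI
        obtain ⟨J, rfl⟩ := hJ
        have h1 : ∀ K : ZMod M → ι, j ∘ per r K = per r (j ∘ K) := fun K => rfl
        rw [h1, h1, aa_apply r hr, aa_apply r hr, hb.res, perR_fN]
      · rw [aa_right r hr _ _ hJ, aa_right r hr _ _ (fun h => hJ (per_of_comp r hr hj h)),
          fN_one α I J hj]
    · rw [aa_left r hr _ hI, aa_left r hr _ (fun h => hI (per_of_comp r hr hj h)),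
        fN_one α I J hj]
  · intro I J h
    have hne : I ≠ J := fun h1 => h (by rw [h1])
    by_cases hI : ∃ I₀, per r I₀ = I
    · by_cases hJ : ∃ J₀, per r J₀ = J
      · obtain ⟨I, rfl⟩ := hI
        obtain ⟨J, rfl⟩ := hJ
        rw [aa_apply r hr, hb.blk I J (fun h1 => h ((pat_per_iff r hr j I J).2 h1)), map_zero]
      · rw [aa_right r hr _ _ hJ, Matrix.one_apply_ne hne]
    · rw [aa_left r hr _ hI, Matrix.one_apply_ne hne]
  · intro I J h
    by_cases hI : ∃ I₀, per r I₀ = I
    · by_cases hJ : ∃ J₀, per r J₀ = J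
      · obtain ⟨I, rfl⟩ := hI
        obtain ⟨J, rfl⟩ := hJ
        have h1 : pat j I = ∅ := by
          ext t
          obtain ⟨s, rfl⟩ := hr t
          rw [← pat_per, h]
          simp
        rw [aa_apply r hr, hb.one I J h1]
        by_cases h2 : I = J
        · subst h2
          rw [Matrix.one_apply_eq, Matrix.one_apply_eq, map_one]
        · rw [Matrix.one_apply_ne h2, Matrix.one_apply_ne (fun h3 => h2 (per_injective r hr h3)),
            map_zero]
      · rw [aa_right r hr _ _ hJ]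
    · rw [aa_left r hr _ hI]

theorem gam_ext [IsDomain 𝕜] [CharZero 𝕜] {p k : ℕ} (hp : p.Prime) (hN : N = p ^ (k + 1))
    (hM : M = p ^ k) (hfrob : ∀ a : 𝕜, (p : 𝕜) ∣ a ^ p - a) (r : ZMod N →+* ZMod M)
    (hr : Function.Surjective r) (τ : 𝕜 →+* ZMod N) {j : ι → ι'} (hj : Function.Injective j)
    (α : G →* H) (U : (Matrix ι ι (MonoidAlgebra 𝕜 G))ˣ) :
    gam r τ (extU hj (MonoidAlgebra.mapDomainRingHom 𝕜 α) U) =
      Finsupp.mapDomain (ConjClasses.map α) (gam r τ U) := by
  obtain ⟨X, hX⟩ := exists_sol hp hN hM hfrob r hr U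
  -- the data of `U'`
  set U' := extU hj (MonoidAlgebra.mapDomainRingHom 𝕜 α) U with hU'
  have hb : Rel j α (bb N U'.val) (bb N U.val) := by
    rw [hU', extU_val]
    exact Rel.bb hj α _
  have ha : Rel j α (aa r U'.val) (aa r U.val) := by
    rw [hU', extU_val]
    exact Rel.aa hj α r hr _
  have hbi : Rel j α (bb N (U'⁻¹ : (Matrix ι' ι' (MonoidAlgebra 𝕜 H))ˣ).val)
      (bb N (U⁻¹ : (Matrix ι ι (MonoidAlgebra 𝕜 G))ˣ).val) := by
    rw [hU']
    rw [extU_inv_val]
    exact Rel.bb hj α _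
  have hai : Rel j α (aa r (U'⁻¹ : (Matrix ι' ι' (MonoidAlgebra 𝕜 H))ˣ).val)
      (aa r (U⁻¹ : (Matrix ι ι (MonoidAlgebra 𝕜 G))ˣ).val) := by
    rw [hU']
    rw [extU_inv_val]
    exact Rel.aa hj α r hr _
  -- the mixed part
  set c : EE 𝕜 N ι' H := (bb N U'.val - aa r U'.val) -
    FF 𝕜 N j α (bb N U.val - aa r U.val) with hc
  have hcmix : Mix j c := by
    constructor
    · intro I J h
      rw [hc, Matrix.sub_apply, Matrix.sub_apply, hb.blk I J h, ha.blk I J h,
        FF_blk j α _ I J h, sub_zero, sub_zero]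
    · intro I J h
      rcases h with h | h
      · rw [hc, Matrix.sub_apply, Matrix.sub_apply, hb.one I J h, ha.one I J h, FF_left j α,
          sub_self, sub_zero]
        rw [h]
        exact (Set.univ_nonempty (α := ZMod N)).ne_empty.symm
      · by_cases hJ : pat j J = Set.univ
        · obtain ⟨I₀, rfl⟩ := pat_univ h
          obtain ⟨J₀, rfl⟩ := pat_univ hJ
          rw [hc, Matrix.sub_apply, Matrix.sub_apply, hb.res, ha.res, FF_apply hj,
            Matrix.sub_apply, map_sub, sub_self]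
        · have h1 : pat j I ≠ pat j J := fun h1 => hJ (h1.symm.trans h)
          rw [hc, Matrix.sub_apply, Matrix.sub_apply, hb.blk I J h1, ha.blk I J h1,
            FF_blk j α _ I J h1, sub_zero, sub_zero]
  have hcinv : ∀ i, sg i c = c := by
    intro i
    rw [hc, map_sub, map_sub, sg_bb, sg_aa r hr, sg_FF hj, map_sub, sg_bb, sg_aa r hr]
  classical
  obtain ⟨X2, hX2, hX2s⟩ := exists_tr c hcinv (by
    intro q
    by_cases hI : pat j q.1 = Set.univ
    · have : co c q = 0 := by
        rw [co, hcmix.2 _ _ (Or.inr hI)]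
        rfl
      rw [this]
      exact dvd_zero _
    · have : co c q = co (bb N U'.val - aa r U'.val) q := by
        rw [co, hc, Matrix.sub_apply, FF_left j α _ hI, sub_zero]
        rfl
      rw [this]
      exact stab_dvd hp hN hM hfrob r hr _ q)
  have hX2mix : Mix j X2 := by
    have key : ∀ I J, c I J = 0 → X2 I J = 0 := by
      intro I J h
      have h1 : ∀ γ, co X2 (I, J, γ) = 0 := by
        intro γ
        by_contra h2
        apply hX2s _ h2
        change (c I J).coeff γ = 0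
        rw [h]
        rfl
      apply MonoidAlgebra.ext
      apply Finsupp.ext
      intro γ
      exact h1 γ
    exact ⟨fun I J h => key I J (hcmix.1 I J h), fun I J h => key I J (hcmix.2 I J h)⟩
  have hX' : Sol r U' (FF 𝕜 N j α X + X2) := by
    rw [Sol]
    have h1 : ∑ i : ZMod N, sg i (FF 𝕜 N j α X + X2) =
        FF 𝕜 N j α (∑ i : ZMod N, sg i X) + ∑ i : ZMod N, sg i X2 := by
      rw [map_sum, ← Finset.sum_add_distrib]
      apply Finset.sum_congr rfl
      intro i _
      rw [map_add, sg_FF hj]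
    rw [Sol] at hX
    rw [h1, hX2, hX, hc]
    abel
  rw [gam_eq r hr τ U' _ hX', gam_eq r hr τ U X hX, CycTr.dd, CycTr.dd]
  simp only [cycTr_T, cycTr_σ]
  set ai' := aa r (U'⁻¹ : (Matrix ι' ι' (MonoidAlgebra 𝕜 H))ˣ).val
  set bi' := bb N (U'⁻¹ : (Matrix ι' ι' (MonoidAlgebra 𝕜 H))ˣ).val
  set ai := aa r (U⁻¹ : (Matrix ι ι (MonoidAlgebra 𝕜 G))ˣ).val
  set bi := bb N (U⁻¹ : (Matrix ι ι (MonoidAlgebra 𝕜 G))ˣ).val
  have e1 : TT τ (ai' * (FF 𝕜 N j α X + X2)) =
      Finsupp.mapDomain (ConjClasses.map α) (TT τ (ai * X)) := by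
    rw [mul_add, map_add, (hai.blk.mul_mix hX2mix).TT_eq τ, add_zero, hai.mul_FF hj, TT_FF hj]
  have e2 : ∀ i : ZMod N, TT τ (ai' * (FF 𝕜 N j α X + X2) * bi' * sg i (FF 𝕜 N j α X + X2)) =
      Finsupp.mapDomain (ConjClasses.map α) (TT τ (ai * X * bi * sg i X)) := by
    intro i
    have h1 : ai' * (FF 𝕜 N j α X + X2) * bi' * sg i (FF 𝕜 N j α X + X2) =
        ai' * FF 𝕜 N j α X * (bi' * sg i (FF 𝕜 N j α X)) +
          (ai' * FF 𝕜 N j α X * bi' * sg i X2 +
            ai' * X2 * bi' * sg i (FF 𝕜 N j α X + X2)) := by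
      rw [map_add]
      noncomm_ring
    have h2 : TT τ (ai' * FF 𝕜 N j α X * bi' * sg i X2) = 0 :=
      (((hai.blk.mul (FF_blk j α X)).mul hbi.blk).mul_mix (hX2mix.sg i)).TT_eq τ
    have h0 : Blk j (FF 𝕜 N j α X + X2) := by
      intro I J h
      rw [Matrix.add_apply, FF_blk j α X I J h, hX2mix.1 I J h, add_zero]
    have h3 : TT τ (ai' * X2 * bi' * sg i (FF 𝕜 N j α X + X2)) = 0 :=
      (((hai.blk.mul_mix hX2mix).mul_blk hbi.blk).mul_blk (h0.sg i)).TT_eq τ
    rw [h1, map_add, map_add, h2, h3, add_zero, add_zero, sg_FF hj, hai.mul_FF hj,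
      hbi.mul_FF hj, ← FF_mul hj, TT_FF hj, mul_assoc (ai * X)]
  rw [e1]
  simp only [e2]
  have e3 : ∀ x y : ConjClasses G →₀ ZMod N, Finsupp.mapDomain (ConjClasses.map α) (x - y) =
      Finsupp.mapDomain (ConjClasses.map α) x - Finsupp.mapDomain (ConjClasses.map α) y :=
    fun x y => map_sub (Finsupp.mapDomain.addMonoidHom (ConjClasses.map α)) x y
  have e4 : ∀ f : ZMod N → (ConjClasses G →₀ ZMod N),
      Finsupp.mapDomain (ConjClasses.map α) (∑ i, f i) =
        ∑ i, Finsupp.mapDomain (ConjClasses.map α) (f i) :=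
    fun f => map_sum (Finsupp.mapDomain.addMonoidHom (ConjClasses.map α)) f _
  rw [e3, e4]
  congr 1
  apply Finset.sum_congr rfl
  intro i _
  rw [Finsupp.mapDomain_smul]

end Pool.Agent.H95.WH
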