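import Pool.Agent.H95.WH.Defs
import Pool.Agent.H95.WH.NatG
import Pool.Agent.H95.WH.CommF

/-!
# The integral logarithm `K₁(ℤ[G]) → (ConjClasses G →₀ ZMod (p^{k+1}))`

## Paper proofs

`GK` is defined by `K1.lift`: additivity is `gam_mul`, stability is `gam_ext` for
`j = Fin.castSucc` (or `Fin.castAdd 1`) and `α = id` (`stabMat U = ext j (RingHom.id _) U`: compare
entries; `mapDomainRingHom 𝕜 (MonoidHom.id G) = RingHom.id`, `Finsupp.mapDomain id = id`,
`ConjClasses.map id = id`).
`GK_ind` is `gam_ext` for `j = id` (`ext id f U = U.map f`).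
`GK_wh`: `gam_single`, `gam_neg_one`.
For `𝕜 = ℤ`: `hfrob` is Fermat's little theorem (`ZMod.pow_card` or `Int.ModEq.pow_card_sub_one..`).
-/

set_option autoImplicit false

open Matrix

universe v

namespace Pool.Agent.H95.WH

variable (p k : ℕ) [Fact p.Prime]

/-- The reduction `ℤ/p^{k+1} → ℤ/p^k`. -/
def rK : ZMod (p ^ (k + 1)) →+* ZMod (p ^ k) :=
  ZMod.castHom (pow_dvd_pow p (Nat.le_succ k)) (ZMod (p ^ k))

theorem rK_surjective : Function.Surjective (rK p k) :=
  ZMod.castHom_surjective (pow_dvd_pow p (Nat.le_succ k))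

theorem int_frob (a : ℤ) : (p : ℤ) ∣ a ^ p - a := by
  rw [← ZMod.intCast_zmod_eq_zero_iff_dvd]
  push_cast
  rw [ZMod.pow_card, sub_self]

/-- The invariant `gam` for `𝕜 = ℤ`, on matrices indexed by `Fin n`. -/
noncomputable def gK {G : Type v} [Group G] {n : ℕ}
    (U : (Matrix (Fin n) (Fin n) (MonoidAlgebra ℤ G))ˣ) : ConjClasses G →₀ ZMod (p ^ (k + 1)) :=
  gam (rK p k) (Int.castRingHom (ZMod (p ^ (k + 1)))) U

theorem gK_mul {G : Type v} [Group G] {n : ℕ}
    (U V : (Matrix (Fin n) (Fin n) (MonoidAlgebra ℤ G))ˣ) :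
    gK p k (U * V) = gK p k U + gK p k V :=
  gam_mul (Fact.out : p.Prime) rfl rfl (int_frob p) (rK p k) (rK_surjective p k) _ U V

private theorem stabMat_eq_ext {R : Type*} [Ring R] {n : ℕ} (U : Matrix (Fin n) (Fin n) R) :
    stabMat U = ext (Fin.castSucc (n := n)) (RingHom.id R) U := by
  have hinj : Function.Injective (Fin.castSucc (n := n)) := Fin.castSucc_injective n
  have e1 : ∀ i : Fin n, finSumFinEquiv.symm (Fin.castSucc i) = (Sum.inl i : Fin n ⊕ Fin 1) := by
    intro i
    rw [Equiv.symm_apply_eq, finSumFinEquiv_apply_left]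
    rfl
  have e2 : finSumFinEquiv.symm (Fin.last n) = (Sum.inr 0 : Fin n ⊕ Fin 1) := by
    rw [Equiv.symm_apply_eq, finSumFinEquiv_apply_right]
    rfl
  have hl : ∀ a : Fin n, Fin.castSucc a ≠ Fin.last n := fun a => Fin.castSucc_ne_last a
  refine Matrix.ext fun i j => ?_
  rw [stabMat, Matrix.reindex_apply, Matrix.submatrix_apply]
  induction i using Fin.lastCases with
  | last =>
    rw [ext_apply_left hinj _ _ hl, e2]
    induction j using Fin.lastCases with
    | last => rw [e2, Matrix.fromBlocks_apply₂₂, Matrix.one_apply_eq, Matrix.one_apply_eq]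
    | cast j =>
      rw [e1, Matrix.fromBlocks_apply₂₁, Matrix.zero_apply, Matrix.one_apply_ne (hl j).symm]
  | cast i =>
    induction j using Fin.lastCases with
    | last =>
      rw [ext_apply_right hinj _ _ _ hl, e1, e2, Matrix.fromBlocks_apply₁₂, Matrix.zero_apply,
        Matrix.one_apply_ne (hl i)]
    | cast j => rw [ext_apply hinj, e1, e1, Matrix.fromBlocks_apply₁₁]; rfl

private theorem map_eq_ext {R : Type*} [Ring R] {S : Type*} [Ring S] {n : ℕ} (f : R →+* S)
    (U : Matrix (Fin n) (Fin n) R) : U.map f = ext (id : Fin n → Fin n) f U :=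
  Matrix.ext fun i j => (ext_apply Function.injective_id f U i j).symm

private theorem mapDomain_conj_id {G : Type*} [Group G] {A : Type*} [AddCommMonoid A]
    (x : ConjClasses G →₀ A) :
    Finsupp.mapDomain (ConjClasses.map (MonoidHom.id G)) x = x := by
  have h : (ConjClasses.map (MonoidHom.id G)) = id := by
    funext a
    induction a using Quotient.inductionOn with
    | h a => rfl
  rw [h, Finsupp.mapDomain_id]

theorem gK_stab {G : Type v} [Group G] {n : ℕ}
    (U : (Matrix (Fin n) (Fin n) (MonoidAlgebra ℤ G))ˣ) :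
    gK p k (stab U) = gK p k U := by
  have h := gam_ext (Fact.out : p.Prime) rfl rfl (int_frob p) (rK p k) (rK_surjective p k)
    (Int.castRingHom (ZMod (p ^ (k + 1)))) (Fin.castSucc_injective n) (MonoidHom.id G) U
  rw [mapDomain_conj_id] at h
  have e : extU (Fin.castSucc_injective n) (MonoidAlgebra.mapDomainRingHom ℤ (MonoidHom.id G)) U
      = stab U := by
    apply Units.ext
    rw [extU_val]
    have hid : MonoidAlgebra.mapDomainRingHom ℤ (MonoidHom.id G) = RingHom.id _ := by
      ext x <;> simp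
    rw [hid]
    exact (stabMat_eq_ext U.val).symm
  rw [e] at h
  exact h

/-- The integral logarithm. -/
noncomputable def GK (G : Type v) [Group G] :
    K1 (MonoidAlgebra ℤ G) →+ (ConjClasses G →₀ ZMod (p ^ (k + 1))) :=
  K1.lift (fun _ U => gK p k U) (fun _ U V => gK_mul p k U V) (fun _ U => gK_stab p k U)

theorem GK_mk {G : Type v} [Group G] {n : ℕ}
    (U : (Matrix (Fin n) (Fin n) (MonoidAlgebra ℤ G))ˣ) : GK p k G (K1.mk U) = gK p k U :=
  K1.lift_mk _ _ _ U

theorem GK_ind {G H : Type v} [Group G] [Group H] (φ : G →* H) (x : K1 (MonoidAlgebra ℤ G)) :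
    GK p k H (ind φ x) = Finsupp.mapDomain (ConjClasses.map φ) (GK p k G x) := by
  suffices h : (GK p k H).comp (ind φ) =
      (Finsupp.mapDomain.addMonoidHom (ConjClasses.map φ)).comp (GK p k G) from
    DFunLike.congr_fun h x
  apply K1.hom_ext
  intro n U
  change GK p k H (K1.map _ (K1.mk U)) = Finsupp.mapDomain (ConjClasses.map φ) (GK p k G (K1.mk U))
  rw [K1.map_mk, GK_mk, GK_mk]
  have h := gam_ext (Fact.out : p.Prime) rfl rfl (int_frob p) (rK p k) (rK_surjective p k)
    (Int.castRingHom (ZMod (p ^ (k + 1)))) (Function.injective_id (α := Fin n)) φ U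
  have e : extU (Function.injective_id (α := Fin n)) (MonoidAlgebra.mapDomainRingHom ℤ φ) U
      = K1.mapU (MonoidAlgebra.mapDomainRingHom ℤ φ) U := by
    apply Units.ext
    rw [extU_val, ← map_eq_ext]
    rfl
  rw [e] at h
  exact h

theorem GK_wh (hp2 : p ≠ 2) {G : Type v} [Group G] (x : K1 (MonoidAlgebra ℤ G))
    (hx : x ∈ WhRel G) : GK p k G x = 0 := by
  have hle : WhRel G ≤ (GK p k G).ker := by
    rw [WhRel, AddSubgroup.closure_le]
    rintro z (hz | ⟨g, rfl⟩)
    · rw [Set.mem_singleton_iff] at hz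
      rw [hz]
      change GK p k G (K1.mk _) = 0
      rw [GK_mk]
      exact gam_neg_one (Fact.out : p.Prime) hp2 rfl rfl (rK p k) (rK_surjective p k) _
    · change GK p k G (K1.mk _) = 0
      rw [GK_mk]
      exact gam_single (Fact.out : p.Prime) rfl rfl (rK p k) (rK_surjective p k) _ g
  exact hle hx

theorem GK_comm (hp2 : p ≠ 2) {C : Type v} [Group C] (hC : ∀ a b : C, a * b = b * a)
    (hexp : ∀ g : C, g ^ p = g) (u : (MonoidAlgebra ℤ C)ˣ) (f : MonoidAlgebra ℤ C)
    (hf : ((p ^ (k + 1) : ℕ) : MonoidAlgebra ℤ C) * f =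
      (u : MonoidAlgebra ℤ C) ^ (p ^ (k + 1) - p ^ k) - 1) (g : C) :
    GK p k C (K1.unit u) (ConjClasses.mk g) = ((f.coeff g : ℤ) : ZMod (p ^ (k + 1))) := by
  rw [K1.unit, GK_mk]
  exact gam_comm (Fact.out : p.Prime) hp2 rfl rfl (int_frob p) (rK p k) (rK_surjective p k)
    (Int.castRingHom (ZMod (p ^ (k + 1)))) hC hexp u f hf g

end Pool.Agent.H95.WH
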