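import Pool.Agent.H95.WH.Push

/-!
# Rationally isomorphic lattices act in the same way on `K₁ ⊗ ℚ`

## Paper proofs

`pow_mod`: the image of `U` in the finite monoid of matrices over `(ℤ/n)[F]` is a unit of finite order
`m`; a matrix over `ℤ[F]` that vanishes modulo `n` is `n` times a matrix.
`inter`: let `x = [U]` (`exists_mk`), `U^m = 1 + n Z`. Let `ã = 1 ⊗ a` (`Matrix (Fin k × X) (Fin k × Y)`,
integer entries), `b̃ = 1 ⊗ b`. Then `ã b̃ = n`, `b̃ ã = n`, `flat φ (Z) ã = ã flat ψ (Z)`, so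
`flat φ (U^m) = 1 + n flat φ Z = 1 + (flat φ Z * ã) b̃` and
`flat ψ (U^m) = 1 + n flat ψ Z = 1 + b̃ (ã * flat ψ Z) = 1 + b̃ (flat φ Z * ã)`, so the two have the
same class by Vaserstein's identity `cls_vas`.
-/

set_option autoImplicit false

open Matrix

universe u v w

namespace Pool.Agent.H95.WH

private theorem inter_div {F : Type v} [Group F] (n : ℕ) (r : MonoidAlgebra ℤ F)
    (h : MonoidAlgebra.mapRingHom F (Int.castRingHom (ZMod n)) r = 0) :
    ∃ z : MonoidAlgebra ℤ F, r = (n : ℤ) • z := by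
  refine ⟨MonoidAlgebra.ofCoeff (r.coeff.mapRange (fun t => t / (n : ℤ)) (by simp)), ?_⟩
  ext g
  have h1 : (MonoidAlgebra.mapRingHom F (Int.castRingHom (ZMod n)) r).coeff g = 0 := by
    rw [h]
    rfl
  rw [MonoidAlgebra.coeff_mapRingHom, eq_intCast, ZMod.intCast_zmod_eq_zero_iff_dvd] at h1
  change r.coeff g = (n : ℤ) * (r.coeff g / (n : ℤ))
  exact (Int.mul_ediv_cancel' h1).symm

theorem pow_mod {F : Type v} [Group F] [Finite F] (n : ℕ) (hn : n ≠ 0) {k : ℕ}
    (U : (Matrix (Fin k) (Fin k) (MonoidAlgebra ℤ F))ˣ) :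
    ∃ (m : ℕ) (Z : Matrix (Fin k) (Fin k) (MonoidAlgebra ℤ F)), 0 < m ∧
      ((U ^ m : (Matrix (Fin k) (Fin k) (MonoidAlgebra ℤ F))ˣ) :
        Matrix (Fin k) (Fin k) (MonoidAlgebra ℤ F)) = 1 + (n : ℤ) • Z := by
  have : NeZero n := ⟨hn⟩
  let f := MonoidAlgebra.mapRingHom F (Int.castRingHom (ZMod n))
  have h1 : Finite (MonoidAlgebra (ZMod n) F) :=
    Finite.of_injective (fun x : MonoidAlgebra (ZMod n) F => (⇑x.coeff : F → ZMod n))
      (DFunLike.coe_injective.comp MonoidAlgebra.coeff_injective)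
  have h2 : Finite (Matrix (Fin k) (Fin k) (MonoidAlgebra (ZMod n) F)) :=
    inferInstanceAs (Finite (Fin k → Fin k → MonoidAlgebra (ZMod n) F))
  let u := K1.mapU f U
  have hm : 0 < orderOf u := orderOf_pos u
  have hu : u ^ orderOf u = 1 := pow_orderOf_eq_one u
  have hu2 : K1.mapU f (U ^ orderOf u) = 1 := by
    rw [map_pow]
    exact hu
  have hu3 : ((U ^ orderOf u : (Matrix (Fin k) (Fin k) (MonoidAlgebra ℤ F))ˣ) :
      Matrix (Fin k) (Fin k) (MonoidAlgebra ℤ F)).map f = 1 := congrArg Units.val hu2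
  have hu4 : ∀ i j, ∃ z : MonoidAlgebra ℤ F,
      (((U ^ orderOf u : (Matrix (Fin k) (Fin k) (MonoidAlgebra ℤ F))ˣ) :
      Matrix (Fin k) (Fin k) (MonoidAlgebra ℤ F)) - 1) i j = (n : ℤ) • z := by
    intro i j
    apply inter_div
    change f _ = 0
    have e := congrFun (congrFun hu3 i) j
    rw [Matrix.map_apply] at e
    rw [Matrix.sub_apply, map_sub, e, Matrix.one_apply, Matrix.one_apply]
    split_ifs
    · rw [map_one, sub_self]
    · rw [map_zero, sub_zero]
  choose Z hZ using hu4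
  refine ⟨orderOf u, Matrix.of Z, hm, ?_⟩
  rw [← sub_eq_iff_eq_add']
  refine Matrix.ext fun i j => ?_
  exact hZ i j

/-- Block diagonal matrices with equal blocks. -/
private def interBlk (ι : Type*) [DecidableEq ι] {S : Type v} [Ring S] {X Y : Type*}
    (P : Matrix X Y S) : Matrix (ι × X) (ι × Y) S :=
  Matrix.of fun p q => if p.1 = q.1 then P p.2 q.2 else 0

private theorem interBlk_mul (ι : Type*) [Fintype ι] [DecidableEq ι] {S : Type v} [Ring S]
    {X Y W : Type*} [Fintype Y] (P : Matrix X Y S) (M : Matrix (ι × Y) W S) (i : ι) (c : X)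
    (w : W) : (interBlk ι P * M) (i, c) w = ∑ d, P c d * M (i, d) w := by
  simp only [interBlk, mul_apply, of_apply, Fintype.sum_prod_type, ite_mul, zero_mul]
  rw [Finset.sum_comm]
  simp

private theorem mul_interBlk (ι : Type*) [Fintype ι] [DecidableEq ι] {S : Type v} [Ring S]
    {X Y W : Type*} [Fintype X] (P : Matrix X Y S) (M : Matrix W (ι × X) S) (j : ι) (b : Y)
    (w : W) : (M * interBlk ι P) w (j, b) = ∑ d, M w (j, d) * P d b := by
  simp only [interBlk, mul_apply, of_apply, Fintype.sum_prod_type, mul_ite, mul_zero]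
  rw [Finset.sum_comm]
  simp

private theorem interBlk_smul_one (ι : Type*) [Fintype ι] [DecidableEq ι] {S : Type v} [Ring S]
    {X Y : Type*} [Fintype X] [DecidableEq X] [Fintype Y] (a : Matrix X Y ℤ) (b : Matrix Y X ℤ)
    (n : ℤ) (hab : a * b = n • (1 : Matrix X X ℤ)) :
    interBlk ι (a.map (Int.castRingHom S)) * interBlk ι (b.map (Int.castRingHom S)) =
      n • (1 : Matrix (ι × X) (ι × X) S) := by
  have h1 : a.map (Int.castRingHom S) * b.map (Int.castRingHom S) = n • (1 : Matrix X X S) := by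
    rw [← Matrix.map_mul, hab]
    ext i j
    rw [Matrix.map_apply, Matrix.smul_apply, Matrix.smul_apply]
    by_cases hij : i = j
    · subst hij
      rw [Matrix.one_apply_eq, Matrix.one_apply_eq]
      simp
    · rw [Matrix.one_apply_ne hij, Matrix.one_apply_ne hij]
      simp
  ext ⟨i, c⟩ ⟨j, d⟩
  rw [interBlk_mul]
  have h2 := congrFun (congrFun h1 c) d
  rw [Matrix.mul_apply] at h2
  by_cases hij : i = j
  · subst hij
    have e : ∀ t : Y, interBlk ι (b.map (Int.castRingHom S)) (i, t) (i, d) =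
        (b.map (Int.castRingHom S)) t d := by
      intro t
      simp [interBlk]
    simp only [e]
    rw [h2, Matrix.smul_apply, Matrix.smul_apply, Matrix.one_apply, Matrix.one_apply]
    simp
  · have e : ∀ t : Y, interBlk ι (b.map (Int.castRingHom S)) (i, t) (j, d) = 0 := by
      intro t
      simp [interBlk, hij]
    simp only [e]
    simp [hij]

private theorem flatM_smul {R : Type u} [Ring R] {S : Type v} [Ring S] {J : Type*} [Fintype J]
    [DecidableEq J] {ι κ : Type*} (φ : R →+* Matrix J J S) (n : ℤ) (U : Matrix ι κ R) :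
    flatM φ (n • U) = n • flatM φ U := by
  ext ⟨i, a⟩ ⟨j, b⟩
  simp only [flatM, of_apply, Matrix.smul_apply, map_zsmul]

private theorem flatM_add {R : Type u} [Ring R] {S : Type v} [Ring S] {J : Type*} [Fintype J]
    [DecidableEq J] {ι κ : Type*} (φ : R →+* Matrix J J S) (U V : Matrix ι κ R) :
    flatM φ (U + V) = flatM φ U + flatM φ V := by
  ext ⟨i, a⟩ ⟨j, b⟩
  simp only [flatM, of_apply, Matrix.add_apply, map_add]

theorem inter {R : Type u} [Ring R] {S : Type v} [Ring S] {X Y : Type*} [Fintype X]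
    [DecidableEq X] [Fintype Y] [DecidableEq Y] (φ : R →+* Matrix X X S) (ψ : R →+* Matrix Y Y S)
    (n : ℤ) (a : Matrix X Y ℤ) (b : Matrix Y X ℤ)
    (hab : a * b = n • (1 : Matrix X X ℤ)) (hba : b * a = n • (1 : Matrix Y Y ℤ))
    (h : ∀ r, φ r * a.map (Int.castRingHom S) = a.map (Int.castRingHom S) * ψ r)
    (hpow : ∀ (k : ℕ) (U : (Matrix (Fin k) (Fin k) R)ˣ),
      ∃ (m : ℕ) (Z : Matrix (Fin k) (Fin k) R), 0 < m ∧
        ((U ^ m : (Matrix (Fin k) (Fin k) R)ˣ) : Matrix (Fin k) (Fin k) R) = 1 + n • Z)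
    (x : K1 R) : ∃ m : ℕ, 0 < m ∧ m • K1.push φ x = m • K1.push ψ x := by
  obtain ⟨k, U, rfl⟩ := K1.exists_mk x
  obtain ⟨m, Z, hm, hZ⟩ := hpow k U
  refine ⟨m, hm, ?_⟩
  have hmk : m • K1.mk U = K1.mk (U ^ m) := by
    rw [← K1.cls_mk, ← K1.cls_mk, K1.cls_pow]
  rw [← map_nsmul, ← map_nsmul, hmk, K1.push_mk, K1.push_mk]
  set A := interBlk (Fin k) (a.map (Int.castRingHom S)) with hA
  set B := interBlk (Fin k) (b.map (Int.castRingHom S)) with hB
  have hAB : A * B = n • (1 : Matrix (Fin k × X) (Fin k × X) S) :=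
    interBlk_smul_one (Fin k) a b n hab
  have hBA : B * A = n • (1 : Matrix (Fin k × Y) (Fin k × Y) S) :=
    interBlk_smul_one (Fin k) b a n hba
  have hcomm : flatM φ Z * A = A * flatM ψ Z := by
    ext ⟨i, c⟩ ⟨j, d⟩
    rw [hA, interBlk_mul, mul_interBlk]
    have := congrFun (congrFun (h (Z i j)) c) d
    simp only [mul_apply] at this
    simpa [flatM] using this
  apply K1.cls_vas (flatM φ Z * A) B
  · change flatM φ (U ^ m : (Matrix (Fin k) (Fin k) R)ˣ).val = _
    rw [hZ, flatM_add, flatM_one, flatM_smul, Matrix.mul_assoc, hAB, Matrix.mul_smul,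
      Matrix.mul_one]
  · change flatM ψ (U ^ m : (Matrix (Fin k) (Fin k) R)ˣ).val = _
    rw [hZ, flatM_add, flatM_one, flatM_smul, hcomm, ← Matrix.mul_assoc, hBA, Matrix.smul_mul,
      Matrix.one_mul]

end Pool.Agent.H95.WH
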