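import Pool.Agent.H95.WH.Low

/-!
# The kernel of the assembly map: the argument on conjugacy classes

## Paper proof of `lin`

For a list `l` of pairs `(C, x)`, `𝒞 C`, `x : X C`, put `cl(l) = ∑ cl C x` and
`R(l)(g) = ∑_{(C, x) ∈ l} ∑_{c ∈ C, c ~ g} T C x c` for `g : G` (`~` is conjugacy in `G`).
Claim(n): if all `|C| ≤ n` and `R(l) = 0` then `cl(l) = 0`. Induction on `n`; `n = 0`: `l` is empty.
Step from `n` to `n + 1`:
(0) Invariance: `cl` and `R` do not change if `(C, x)` is replaced by `(C', mv g x)`, `g C g⁻¹ ≤ C'`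
(`cl_mv`; `T_mv`, `T_mv_ne`: `∑_{c' ∈ C', c' ~ h} T (mv x) c' = ∑_{c ∈ C, g c g⁻¹ ~ h} T x c`), or if
`(C, x)`, `(C, x')` are replaced by `(C, x + x')`; `cl`, `R` are additive, `k • l` means `(C, k • x)`.
(1) By (0) we may assume that the subgroups `C` of order `n + 1` that occur in `l` occur once and are
pairwise not conjugate in `G` (process the list: if `C'` is conjugate to a `C` already present,
transport `x'` to `C` and add). We do a second induction on the number of the subgroups of order `n + 1`
in `l`. If there is none, apply Claim(n).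
(2) Let `(C, x)` be one with `|C| = n + 1`. Let `c` be a generator of `C`. If `(C', x') ∈ l`, `c' ∈ C'` and
`c' ~ c` then `|C'| ≥ |⟨c'⟩| = n + 1`, so `C' = ⟨c'⟩` is conjugate to `⟨c⟩ = C`, so `C' = C`, `x' = x`.
So `R(l)(c) = 0` says `∑_{c' ∈ C, c' ~ c} T C x c' = 0` for every generator `c` of `C`. (*)
(3) Fix a generator `c₀` of `C`. For every `e ∈ C` with `e ~ c₀` choose `g_e` with
`g_e e g_e⁻¹ = c₀`; then `g_e C g_e⁻¹ = C` (`e` also generates `C`). Put `y = ∑_{e ∈ C, e ~ c₀} mv g_e x`.
Then `cl y = w • cl x`, `R((C, y)) = w • R((C, x))` with `w = #{e ∈ C | e ~ c₀} ≥ 1`. For a generator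
`c = c₀^s` of `C`: `T (mv g_e x) c = T x (g_e⁻¹ c g_e) = T x (e^s)`, and `e ↦ e^s` is a bijection from
`{e ∈ C | e ~ c₀}` to `{c' ∈ C | c' ~ c}` (inverse `c' ↦ c'^{s'}`, `c₀^{s s'} = c₀`: if `c' = h c h⁻¹` then
`c'^{s'} = h c₀ h⁻¹`). So `T C y c = ∑_{c' ~ c} T C x c' = 0` by (*).
(4) `Sys.low` for `y`: `m • cl y = ∑ cl (D a) z_a` and `m • R((C, y)) = R((D a, z_a)_a)`, `D a < C`. So
`(m w) • (C, x)` may be replaced by the `(D a, z_a)` without changing `cl` and `R`. Apply the second
induction hypothesis to `(m w) • (l ∖ {(C, x)}) ∪ {(D a, z_a)}`: it gives `(m w) • cl(l) = 0`, and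
`cl(l) = 0` as `V` is a `ℚ`-vector space.
-/

set_option autoImplicit false

universe v

namespace Pool.Agent.H95.WH

variable {G : Type v} [Group G] {𝒞 : Subgroup G → Prop} {𝔸 : Type} [AddCommGroup 𝔸]
  {V : Type v} [AddCommGroup V] [Module ℚ V]

/-- The function `R` of one pair. -/
private noncomputable def linR (S : Sys G 𝒞 𝔸 V) (g : G) (C : Subgroup G) (x : S.X C) : 𝔸 :=
  ∑ᶠ c : C, (open scoped Classical in if IsConj (c : G) g then S.T C x c else 0)

open scoped Classical in
private theorem linR_eq (S : Sys G 𝒞 𝔸 V) (g : G) (C : Subgroup G) [Fintype C] (x : S.X C) :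
    linR S g C x = ∑ c : C, (if IsConj (c : G) g then S.T C x c else 0) :=
  finsum_eq_sum_of_fintype _

private theorem linR_add (S : Sys G 𝒞 𝔸 V) (g : G) (C : Subgroup G) [Finite C] (x y : S.X C) :
    linR S g C (x + y) = linR S g C x + linR S g C y := by
  classical
  have := Fintype.ofFinite C
  rw [linR_eq, linR_eq, linR_eq, ← Finset.sum_add_distrib]
  refine Finset.sum_congr rfl fun c _ => ?_
  rw [map_add, Pi.add_apply]
  split_ifs
  · rfl
  · rw [add_zero]

/-- `linR` as a homomorphism. -/
private noncomputable def linH (S : Sys G 𝒞 𝔸 V) (g : G) (C : Subgroup G) [Finite C] :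
    S.X C →+ 𝔸 := AddMonoidHom.mk' (linR S g C) (linR_add S g C)

private theorem linH_apply (S : Sys G 𝒞 𝔸 V) (g : G) (C : Subgroup G) [Finite C] (x : S.X C) :
    linH S g C x = linR S g C x := rfl

private theorem linR_mv (S : Sys G 𝒞 𝔸 V) (g : G) {C C' : Subgroup G} (hC : 𝒞 C) (hC' : 𝒞 C')
    (h : G) (hg : ∀ x ∈ C, h * x * h⁻¹ ∈ C') (x : S.X C) :
    linR S g C' (S.mv h C C' hg x) = linR S g C x := by
  classical
  have := S.fin C hC
  have := S.fin C' hC'
  have := Fintype.ofFinite C
  have := Fintype.ofFinite C'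
  rw [linR_eq, linR_eq]
  symm
  refine Fintype.sum_of_injective (fun c : C => (⟨h * c * h⁻¹, hg c c.2⟩ : C')) ?_ _ _ ?_ ?_
  · intro a b hab
    have h1 : h * (a : G) * h⁻¹ = h * (b : G) * h⁻¹ := congrArg Subtype.val hab
    exact Subtype.ext (mul_left_cancel (mul_right_cancel h1))
  · intro y hy
    have h2 : S.T C' (S.mv h C C' hg x) y = 0 := by
      refine S.T_mv_ne h C C' hg hC hC' x y fun c hc => hy ⟨c, Subtype.ext hc⟩
    rw [h2, ite_self]
  · intro c
    rw [S.T_mv h C C' hg hC hC' x c]
    have h3 : IsConj (h * (c : G) * h⁻¹) g ↔ IsConj (c : G) g := by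
      have h4 : IsConj (c : G) (h * (c : G) * h⁻¹) := isConj_iff.2 ⟨h, rfl⟩
      exact ⟨fun h5 => h4.trans h5, fun h5 => h4.symm.trans h5⟩
    by_cases h6 : IsConj (c : G) g
    · rw [if_pos h6, if_pos (h3.2 h6)]
    · rw [if_neg h6, if_neg (fun h7 => h6 (h3.1 h7))]

/-- Restriction to a subgroup. -/
private theorem linR_sub (S : Sys G 𝒞 𝔸 V) (g : G) {C D : Subgroup G} [Fintype C] (hD : 𝒞 D)
    (hDC : D ≤ C) (z : S.X D) : linR S g D z = ∑ c : C, (open scoped Classical in
      if IsConj (c : G) g then
        (if h : (c : G) ∈ D then S.T D z ⟨(c : G), h⟩ else 0) else 0) := by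
  classical
  have := S.fin D hD
  have := Fintype.ofFinite D
  rw [linR_eq]
  refine Fintype.sum_of_injective (fun d : D => (⟨d, hDC d.2⟩ : C)) ?_ _ _ ?_ ?_
  · intro a b hab
    exact Subtype.ext (congrArg (fun c : C => (c : G)) hab)
  · intro y hy
    have h1 : ¬ (y : G) ∈ D := fun h => hy ⟨⟨y, h⟩, rfl⟩
    rw [dif_neg h1, ite_self]
  · intro d
    by_cases h6 : IsConj (d : G) g
    · rw [if_pos h6, if_pos h6, dif_pos d.2]
    · rw [if_neg h6, if_neg h6]

/-- A generator of a finite subgroup is recognised by its order. -/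
private theorem zpowers_eq_of_order {C : Subgroup G} [Finite C] {e : G} (he : e ∈ C)
    (ho : orderOf e = Nat.card C) : Subgroup.zpowers e = C := by
  have h1 : Subgroup.zpowers e ≤ C := Subgroup.zpowers_le.2 he
  refine Subgroup.eq_of_le_of_card_ge h1 ?_
  rw [Nat.card_zpowers, ho]

private theorem order_conj {a b : G} (h : IsConj a b) : orderOf a = orderOf b := by
  obtain ⟨g, hg⟩ := isConj_iff.1 h
  rw [← hg]
  exact ((MulAut.conj g).orderOf_eq a).symm

private theorem isConj_pow {a b : G} (h : IsConj a b) (s : ℕ) : IsConj (a ^ s) (b ^ s) := by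
  obtain ⟨g, hg⟩ := isConj_iff.1 h
  refine isConj_iff.2 ⟨g, ?_⟩
  rw [← hg, conj_pow]

/-- Step (3): averaging over the elements conjugate to a generator. -/
private theorem lin_avg (S : Sys G 𝒞 𝔸 V) (C : Subgroup G) (hC : 𝒞 C) (x : S.X C)
    (hx : ∀ c : C, Subgroup.zpowers (c : G) = C → linR S c C x = 0) :
    ∃ (w : ℕ) (y : S.X C), 0 < w ∧ S.cl C y = w • S.cl C x ∧
      (∀ g, linR S g C y = w • linR S g C x) ∧
      ∀ c : C, Subgroup.zpowers (c : G) = C → S.T C y c = 0 := by
  classical
  have := S.fin C hC
  have := Fintype.ofFinite C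
  have := S.cyc C hC
  obtain ⟨c0, hc0⟩ := IsCyclic.exists_generator (α := C)
  have ho0 : orderOf (c0 : G) = Nat.card C := by
    rw [Subgroup.orderOf_coe]
    exact orderOf_eq_card_of_forall_mem_zpowers hc0
  have hz0 : Subgroup.zpowers (c0 : G) = C := zpowers_eq_of_order c0.2 ho0
  -- the conjugating elements
  have hex : ∀ e : C, IsConj (e : G) c0 → ∃ g : G, g * e * g⁻¹ = c0 ∧
      ∀ x ∈ C, g * x * g⁻¹ ∈ C := by
    intro e he
    obtain ⟨g, hg⟩ := isConj_iff.1 he
    refine ⟨g, hg, fun x hx => ?_⟩
    have h1 : Subgroup.zpowers (e : G) = C :=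
      zpowers_eq_of_order e.2 ((order_conj he).trans ho0)
    rw [← h1] at hx
    obtain ⟨k, rfl⟩ := Subgroup.mem_zpowers_iff.1 hx
    rw [← conj_zpow, hg]
    exact C.zpow_mem c0.2 k
  choose ge hge1 hge2 using hex
  let F : C → S.X C := fun e => if h : IsConj (e : G) c0 then S.mv (ge e h) C C (hge2 e h) x else 0
  let A : Finset C := Finset.univ.filter fun e : C => IsConj (e : G) c0
  have hsum : ∑ e, F e = ∑ e ∈ A, F e := by
    rw [Finset.sum_filter]
    refine Finset.sum_congr rfl fun e _ => ?_
    by_cases h : IsConj (e : G) c0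
    · rw [if_pos h]
    · rw [if_neg h]
      exact dif_neg h
  refine ⟨A.card, ∑ e, F e, ?_, ?_, ?_, ?_⟩
  · exact Finset.card_pos.2 ⟨c0, Finset.mem_filter.2 ⟨Finset.mem_univ _, IsConj.refl _⟩⟩
  · rw [hsum, map_sum, ← Finset.sum_const]
    refine Finset.sum_congr rfl fun e he => ?_
    have h := (Finset.mem_filter.1 he).2
    have h1 : F e = S.mv (ge e h) C C (hge2 e h) x := dif_pos h
    rw [h1, S.cl_mv _ _ _ _ hC hC]
  · intro g
    rw [← linH_apply, hsum, map_sum, ← Finset.sum_const]
    refine Finset.sum_congr rfl fun e he => ?_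
    have h := (Finset.mem_filter.1 he).2
    have h1 : F e = S.mv (ge e h) C C (hge2 e h) x := dif_pos h
    rw [linH_apply, h1, linR_mv S g hC hC]
  · intro c hc
    -- `c = c0 ^ s` with `s` coprime to the order
    obtain ⟨s, hs⟩ : ∃ s : ℕ, c0 ^ s = c := by
      have h1 := hc0 c
      rw [← mem_powers_iff_mem_zpowers] at h1
      exact h1
    have hoc : orderOf c = Nat.card C := by
      rw [← Subgroup.orderOf_coe, ← Nat.card_zpowers, hc]
    have hcop : (Nat.card C).Coprime s := by
      have h2 : orderOf (c0 ^ s) = orderOf c0 / (orderOf c0).gcd s := orderOf_pow c0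
      have h3 : orderOf c0 = Nat.card C := orderOf_eq_card_of_forall_mem_zpowers hc0
      rw [hs, hoc, h3] at h2
      have hpos : 0 < Nat.card C := Nat.card_pos
      have h4 : (Nat.card C).gcd s ∣ Nat.card C := Nat.gcd_dvd_left _ _
      obtain ⟨k, hk⟩ := h4
      have hg0 : 0 < (Nat.card C).gcd s := Nat.gcd_pos_of_pos_left _ hpos
      have h5 : Nat.card C / (Nat.card C).gcd s = k := Nat.div_eq_of_eq_mul_right hg0 hk
      rw [h5] at h2
      rw [← h2] at hk
      have h6 : Nat.card C * 1 = Nat.card C * (Nat.card C).gcd s := by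
        rw [mul_one, mul_comm]
        exact hk
      exact (Nat.eq_of_mul_eq_mul_left hpos h6).symm
    -- an inverse of `s`
    obtain ⟨t, ht⟩ : ∃ t : ℕ, ∀ e : C, (e ^ s) ^ t = e := by
      have hinj := (powCoprime hcop)
      obtain ⟨t, ht⟩ : ∃ t : ℕ, (c0 ^ s) ^ t = c0 := by
        have h1 : c0 ∈ Subgroup.zpowers c := by
          have h2 : Subgroup.zpowers c = ⊤ := by
            refine Subgroup.eq_top_of_card_eq _ ?_
            rw [Nat.card_zpowers, hoc]
          rw [h2]
          exact Subgroup.mem_top _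
        rw [← mem_powers_iff_mem_zpowers] at h1
        obtain ⟨t, ht⟩ := h1
        exact ⟨t, by rw [hs]; exact ht⟩
      refine ⟨t, fun e => ?_⟩
      obtain ⟨k, hk⟩ := Subgroup.mem_zpowers_iff.1 (hc0 e)
      rw [← hk, ← zpow_natCast, ← zpow_natCast, ← zpow_mul, ← zpow_mul]
      have h3 : c0 ^ ((s : ℤ) * t) = c0 := by
        rw [zpow_mul, zpow_natCast, zpow_natCast]
        exact ht
      calc c0 ^ (k * ((s : ℤ) * t)) = (c0 ^ ((s : ℤ) * t)) ^ k := by
            rw [← zpow_mul]
            congr 1
            ring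
        _ = c0 ^ k := by rw [h3]
    have key : ∀ e : C, IsConj (e : G) c0 ↔ IsConj ((e ^ s : C) : G) c := by
      intro e
      constructor
      · intro h
        have := isConj_pow h s
        rw [← hs]
        push_cast
        exact this
      · intro h
        have h1 := isConj_pow h t
        have h2 : ((e ^ s : C) : G) ^ t = e := by
          have := congrArg (fun z : C => (z : G)) (ht e)
          simpa using this
        have h3 : (c : G) ^ t = c0 := by
          have := congrArg (fun z : C => (z : G)) (ht c0)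
          rw [hs] at this
          simpa using this
        rwa [h2, h3] at h1
    have hT : ∀ e : C, S.T C (F e) c = if IsConj (e : G) c0 then S.T C x (e ^ s) else 0 := by
      intro e
      by_cases h : IsConj (e : G) c0
      · have h1 : F e = S.mv (ge e h) C C (hge2 e h) x := dif_pos h
        rw [if_pos h, h1]
        have h2 := S.T_mv (ge e h) C C (hge2 e h) hC hC x (e ^ s)
        have h3 : c = ⟨ge e h * ((e ^ s : C) : G) * (ge e h)⁻¹, hge2 e h _ (e ^ s).2⟩ := by
          apply Subtype.ext
          show (c : G) = ge e h * ((e ^ s : C) : G) * (ge e h)⁻¹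
          rw [← hs]
          push_cast
          rw [← conj_pow, hge1 e h]
        rw [← h2]
        exact congrArg (S.T C (S.mv (ge e h) C C (hge2 e h) x)) h3
      · have h1 : F e = 0 := dif_neg h
        rw [if_neg h, h1, map_zero, Pi.zero_apply]
    rw [map_sum, Finset.sum_apply]
    simp_rw [hT]
    have h0 := hx c hc
    rw [linR_eq] at h0
    refine Eq.trans ?_ h0
    refine Fintype.sum_equiv (powCoprime hcop) _ _ fun e => ?_
    have h9 : powCoprime hcop e = e ^ s := rfl
    rw [h9]
    by_cases h : IsConj (e : G) c0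
    · rw [if_pos h, if_pos ((key e).1 h)]
    · rw [if_neg h, if_neg (fun h' => h ((key e).2 h'))]

/-- Steps (3), (4) together. -/
private theorem lin_red (S : Sys G 𝒞 𝔸 V) (C : Subgroup G) (hC : 𝒞 C) (x : S.X C)
    (hx : ∀ c : C, Subgroup.zpowers (c : G) = C → linR S c C x = 0) :
    ∃ (w r : ℕ) (D : Fin r → Subgroup G) (z : ∀ a, S.X (D a)), 0 < w ∧ (∀ a, D a < C) ∧
      w • S.cl C x = ∑ a, S.cl (D a) (z a) ∧
      ∀ g, w • linR S g C x = ∑ a, linR S g (D a) (z a) := by
  classical
  have := S.fin C hC
  have := Fintype.ofFinite C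
  obtain ⟨w, y, hw, h1, h2, h3⟩ := lin_avg S C hC x hx
  obtain ⟨m, r, D, z, hm, hD, h4, h5⟩ := S.low C hC y h3
  refine ⟨m * w, r, D, z, Nat.mul_pos hm hw, hD, ?_, fun g => ?_⟩
  · rw [← h4, h1, mul_smul]
  · rw [mul_smul, ← h2, linR_eq, Finset.smul_sum]
    simp_rw [linR_sub S g (S.sub C _ hC (hD _).le) (hD _).le]
    rw [Finset.sum_comm]
    refine Finset.sum_congr rfl fun c _ => ?_
    by_cases h : IsConj (c : G) g
    · simp only [if_pos h]
      rw [← h5 c]
    · simp only [if_neg h, smul_zero, Finset.sum_const_zero]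

/-- Pairs of a subgroup and an element of its group. -/
private abbrev LP (S : Sys G 𝒞 𝔸 V) := Σ C : Subgroup G, S.X C

private noncomputable def lcl (S : Sys G 𝒞 𝔸 V) (l : List (LP S)) : V :=
  (l.map fun p => S.cl p.1 p.2).sum

private noncomputable def lR (S : Sys G 𝒞 𝔸 V) (g : G) (l : List (LP S)) : 𝔸 :=
  (l.map fun p => linR S g p.1 p.2).sum

private theorem eq_zero_of_nsmul {v : V} {k : ℕ} (hk : 0 < k) (h : k • v = 0) : v = 0 := by
  rw [← Nat.cast_smul_eq_nsmul ℚ] at h
  rcases smul_eq_zero.1 h with h | h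
  · exact absurd (Nat.cast_eq_zero.1 h) hk.ne'
  · exact h

open scoped Classical in
private theorem lin_main (S : Sys G 𝒞 𝔸 V) : ∀ (n : ℕ) (l : List (LP S)),
    (∀ p ∈ l, 𝒞 p.1) → (∀ p ∈ l, Nat.card p.1 ≤ n) → (∀ g, lR S g l = 0) → lcl S l = 0 := by
  intro n
  induction n with
  | zero =>
    intro l h𝒞 hcard _
    cases l with
    | nil => rfl
    | cons p l =>
      exfalso
      have h1 := hcard p List.mem_cons_self
      have := S.fin _ (h𝒞 p List.mem_cons_self)
      have h2 : 0 < Nat.card p.1 := Nat.card_pos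
      omega
  | succ n IHn =>
    have inner : ∀ (k : ℕ) (l : List (LP S)), l.countP (fun p => Nat.card p.1 = n + 1) = k →
        (∀ p ∈ l, 𝒞 p.1) → (∀ p ∈ l, Nat.card p.1 ≤ n + 1) → (∀ g, lR S g l = 0) →
        lcl S l = 0 := by
      intro k
      induction k with
      | zero =>
        intro l hk h𝒞 hcard hR
        refine IHn l h𝒞 (fun p hp => ?_) hR
        have h1 := hcard p hp
        have h2 : ¬ Nat.card p.1 = n + 1 := by
          intro h3
          have h4 := List.countP_eq_zero.1 hk p hp
          exact h4 (decide_eq_true h3)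
        omega
      | succ k IHk =>
        intro l hk h𝒞 hcard hR
        obtain ⟨p, hp, hpn⟩ : ∃ p ∈ l, Nat.card p.1 = n + 1 := by
          have h1 : 0 < l.countP (fun p => Nat.card p.1 = n + 1) := by omega
          obtain ⟨p, hp, h2⟩ := List.countP_pos_iff.1 h1
          exact ⟨p, hp, of_decide_eq_true h2⟩
        obtain ⟨l1, l2, rfl⟩ := List.append_of_mem hp
        -- the rest of the list
        obtain ⟨l', hl'⟩ : ∃ l', l' = l1 ++ l2 := ⟨_, rfl⟩
        have hperm : (l1 ++ p :: l2).Perm (p :: l') := by
          rw [hl']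
          exact List.perm_middle
        have hmem : ∀ q ∈ l', q ∈ l1 ++ p :: l2 := fun q hq =>
          hperm.mem_iff.2 (List.mem_cons_of_mem _ hq)
        have hcl : lcl S (l1 ++ p :: l2) = S.cl p.1 p.2 + lcl S l' := by
          unfold lcl
          rw [(hperm.map _).sum_eq, List.map_cons, List.sum_cons]
        have hRR : ∀ g, lR S g (l1 ++ p :: l2) = linR S g p.1 p.2 + lR S g l' := by
          intro g
          unfold lR
          rw [(hperm.map _).sum_eq, List.map_cons, List.sum_cons]
        have hkc : l'.countP (fun p => Nat.card p.1 = n + 1) = k := by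
          have h1 := List.countP_cons_of_pos (p := fun p : LP S => decide (Nat.card p.1 = n + 1))
            (a := p) (l := l') (decide_eq_true hpn)
          rw [hperm.countP_eq, h1] at hk
          omega
        rw [hcl]
        simp_rw [hRR] at hR
        obtain ⟨C, x⟩ := p
        simp only at hpn hR ⊢
        have hC : 𝒞 C := h𝒞 _ hp
        have := S.fin C hC
        by_cases hA : ∃ q ∈ l', Nat.card q.1 = n + 1 ∧ ∃ g : G, ∀ y ∈ q.1, g * y * g⁻¹ ∈ C
        · -- merge
          obtain ⟨q, hq, hqn, g, hg⟩ := hA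
          have hq𝒞 : 𝒞 q.1 := h𝒞 q (hmem q hq)
          obtain ⟨m1, m2, rfl⟩ := List.append_of_mem hq
          have hperm' : (m1 ++ q :: m2).Perm (q :: (m1 ++ m2)) := List.perm_middle
          have hkc' : (m1 ++ m2).countP (fun p => Nat.card p.1 = n + 1) + 1 = k := by
            have h1 := List.countP_cons_of_pos (p := fun p : LP S => decide (Nat.card p.1 = n + 1))
              (a := q) (l := m1 ++ m2) (decide_eq_true hqn)
            rw [hperm'.countP_eq, h1] at hkc
            exact hkc
          have e1 : S.cl C x + lcl S (m1 ++ q :: m2) =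
              lcl S (⟨C, x + S.mv g q.1 C hg q.2⟩ :: (m1 ++ m2)) := by
            unfold lcl
            rw [(hperm'.map _).sum_eq, List.map_cons, List.sum_cons, List.map_cons, List.sum_cons,
              map_add, S.cl_mv g q.1 C hg hq𝒞 hC, add_assoc]
          have e2 : ∀ h, linR S h C x + lR S h (m1 ++ q :: m2) =
              lR S h (⟨C, x + S.mv g q.1 C hg q.2⟩ :: (m1 ++ m2)) := by
            intro h
            unfold lR
            rw [(hperm'.map _).sum_eq, List.map_cons, List.sum_cons, List.map_cons, List.sum_cons,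
              linR_add, linR_mv S h hq𝒞 hC, add_assoc]
          rw [e1]
          have hmem' : ∀ r ∈ (⟨C, x + S.mv g q.1 C hg q.2⟩ :: (m1 ++ m2) : List (LP S)),
              𝒞 r.1 ∧ Nat.card r.1 ≤ n + 1 := by
            intro r hr
            rcases List.mem_cons.1 hr with rfl | hr
            · exact ⟨hC, hpn.le⟩
            · have h1 : r ∈ m1 ++ q :: m2 := hperm'.mem_iff.2 (List.mem_cons_of_mem _ hr)
              exact ⟨h𝒞 r (hmem r h1), hcard r (hmem r h1)⟩
          refine IHk _ ?_ (fun r hr => (hmem' r hr).1) (fun r hr => (hmem' r hr).2) ?_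
          · have h1 := List.countP_cons_of_pos (p := fun p : LP S => decide (Nat.card p.1 = n + 1))
              (a := (⟨C, x + S.mv g q.1 C hg q.2⟩ : LP S)) (l := m1 ++ m2) (decide_eq_true hpn)
            rw [h1]
            exact hkc'
          · intro h
            rw [← e2]
            exact hR h
        · -- reduce
          have hx : ∀ c : C, Subgroup.zpowers (c : G) = C → linR S c C x = 0 := by
            intro c hc
            have h1 := hR c
            have h2 : lR S (c : G) l' = 0 := by
              unfold lR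
              refine List.sum_eq_zero ?_
              intro a ha
              obtain ⟨q, hq, rfl⟩ := List.mem_map.1 ha
              have hq𝒞 : 𝒞 q.1 := h𝒞 q (hmem q hq)
              have := S.fin _ hq𝒞
              have := Fintype.ofFinite q.1
              show linR S c q.1 q.2 = 0
              rw [linR_eq]
              refine Finset.sum_eq_zero fun c' _ => ?_
              rw [if_neg]
              intro hcc
              apply hA
              have ho : orderOf (c' : G) = n + 1 := by
                rw [order_conj hcc, ← Nat.card_zpowers, hc, hpn]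
              have hle : Nat.card (Subgroup.zpowers (c' : G)) ≤ Nat.card q.1 :=
                Nat.card_le_card_of_injective
                  (Subgroup.inclusion (Subgroup.zpowers_le.2 c'.2))
                  (Subgroup.inclusion_injective _)
              rw [Nat.card_zpowers, ho] at hle
              have hqn : Nat.card q.1 = n + 1 := le_antisymm (hcard q (hmem q hq)) hle
              refine ⟨q, hq, hqn, ?_⟩
              obtain ⟨g, hg⟩ := isConj_iff.1 hcc
              refine ⟨g, fun y hy => ?_⟩
              have h5 : Subgroup.zpowers (c' : G) = q.1 :=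
                zpowers_eq_of_order c'.2 (ho.trans hqn.symm)
              rw [← h5] at hy
              obtain ⟨j, rfl⟩ := Subgroup.mem_zpowers_iff.1 hy
              rw [← conj_zpow, hg]
              exact C.zpow_mem c.2 j
            rwa [h2, add_zero] at h1
          obtain ⟨w, r, D, z, hw, hD, h1, h2⟩ := lin_red S C hC x hx
          have hlt : ∀ a, Nat.card (D a) < n + 1 := by
            intro a
            rw [← hpn]
            by_contra hcon
            have h3 := Subgroup.eq_of_le_of_card_ge (hD a).le (not_lt.1 hcon)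
            exact (hD a).ne h3
          let ln : List (LP S) := (List.ofFn fun a => (⟨D a, z a⟩ : LP S)) ++
            l'.map fun q => (⟨q.1, w • q.2⟩ : LP S)
          have e1 : lcl S ln = w • (S.cl C x + lcl S l') := by
            show lcl S ((List.ofFn fun a => (⟨D a, z a⟩ : LP S)) ++
              l'.map fun q => (⟨q.1, w • q.2⟩ : LP S)) = _
            unfold lcl
            rw [List.map_append, List.sum_append, List.map_ofFn, List.sum_ofFn, smul_add, h1,
              List.map_map, List.smul_sum, List.map_map]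
            congr 2
            refine List.map_congr_left fun q _ => ?_
            simp only [Function.comp]
            rw [map_nsmul]
          have e2 : ∀ g, lR S g ln = w • (linR S g C x + lR S g l') := by
            intro g
            show lR S g ((List.ofFn fun a => (⟨D a, z a⟩ : LP S)) ++
              l'.map fun q => (⟨q.1, w • q.2⟩ : LP S)) = _
            unfold lR
            rw [List.map_append, List.sum_append, List.map_ofFn, List.sum_ofFn, smul_add, h2,
              List.map_map, List.smul_sum, List.map_map]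
            congr 2
            refine List.map_congr_left fun q hq => ?_
            simp only [Function.comp]
            have := S.fin _ (h𝒞 q (hmem q hq))
            rw [← linH_apply, map_nsmul, linH_apply]
          have hmem' : ∀ q ∈ ln, 𝒞 q.1 ∧ Nat.card q.1 ≤ n + 1 := by
            intro q hq
            rcases List.mem_append.1 hq with hq | hq
            · obtain ⟨a, rfl⟩ := List.mem_ofFn.1 hq
              exact ⟨S.sub C _ hC (hD a).le, (hlt a).le⟩
            · obtain ⟨q', hq', rfl⟩ := List.mem_map.1 hq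
              exact ⟨h𝒞 q' (hmem q' hq'), hcard q' (hmem q' hq')⟩
          have hcnt : ln.countP (fun p => Nat.card p.1 = n + 1) = k := by
            show ((List.ofFn fun a => (⟨D a, z a⟩ : LP S)) ++
              l'.map fun q => (⟨q.1, w • q.2⟩ : LP S)).countP _ = k
            rw [List.countP_append, List.countP_map]
            have h3 : (List.ofFn fun a => (⟨D a, z a⟩ : LP S)).countP
                (fun p => Nat.card p.1 = n + 1) = 0 := by
              refine List.countP_eq_zero.2 fun q hq => ?_
              obtain ⟨a, rfl⟩ := List.mem_ofFn.1 hq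
              have := hlt a
              intro h4
              have h5 : Nat.card (D a) = n + 1 := of_decide_eq_true h4
              omega
            rw [h3, zero_add]
            exact hkc
          have h0 := IHk ln hcnt (fun q hq => (hmem' q hq).1) (fun q hq => (hmem' q hq).2)
            (fun g => by rw [e2, hR, smul_zero])
          rw [e1] at h0
          exact eq_zero_of_nsmul hw h0
    intro l h𝒞 hcard hR
    exact inner _ l rfl h𝒞 hcard hR

open scoped Classical in
theorem Sys.lin (S : Sys G 𝒞 𝔸 V) {n : ℕ} (C : Fin n → Subgroup G) (hC : ∀ i, 𝒞 (C i))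
    [∀ i, Fintype (C i)] (x : ∀ i, S.X (C i))
    (hrel : ∀ g : G, ∑ i, ∑ c : C i, (if IsConj (c : G) g then S.T (C i) (x i) c else 0) = 0) :
    ∑ i, S.cl (C i) (x i) = 0 := by
  obtain ⟨N, hN⟩ : ∃ N : ℕ, ∀ i, Nat.card (C i) ≤ N :=
    ⟨∑ i, Nat.card (C i), fun i => Finset.single_le_sum (f := fun i => Nat.card (C i))
      (fun _ _ => Nat.zero_le _) (Finset.mem_univ i)⟩
  have h := lin_main S N (List.ofFn fun i => (⟨C i, x i⟩ : LP S)) ?_ ?_ ?_
  · unfold lcl at h
    rw [List.map_ofFn, List.sum_ofFn] at h
    exact h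
  · intro p hp
    obtain ⟨i, rfl⟩ := List.mem_ofFn.1 hp
    exact hC i
  · intro p hp
    obtain ⟨i, rfl⟩ := List.mem_ofFn.1 hp
    exact hN i
  · intro g
    unfold lR
    rw [List.map_ofFn, List.sum_ofFn, ← hrel g]
    refine Finset.sum_congr rfl fun i _ => ?_
    exact linR_eq S g (C i) (x i)

end Pool.Agent.H95.WH
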