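import Mathlib

/-!
# An abstract system of groups on finite cyclic subgroups; elements vanishing on generators

`Sys G 𝒞 𝔸 V`: groups `X C` (later: the units of `ℤ[C]`), maps `mv` induced by conjugations and
inclusions `x ↦ g x g⁻¹`, `C → C'`, functions `T C x : C → 𝔸` (later: the logarithm) and classes
`cl C x : V` (later: in the rational colimit).

## Paper proof of `low`

`C` is cyclic of order `c`; for a prime `ℓ ∣ c` let `C_ℓ` be its subgroup of index `ℓ`; an element of `C`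
generates `C` iff it lies in no `C_ℓ`. Claim by induction on a list `ℓ₁, …, ℓ_t` of distinct primes
dividing `c`: there are `m > 0`, an element `y_t : X C` and a family `z_a : X (D a)`, `D a < C`, such that
(i) `m • cl C y = cl C y_t + ∑ cl (D a) z_a`,
(ii) `m • T C y c = T C y_t c + ∑_a [c ∈ D a] T (D a) z_a c` for all `c : C`,
(iii) `T C y_t` vanishes on the generators of `C` and on `C_{ℓ₁} ∪ ⋯ ∪ C_{ℓ_t}`.
`t = 0`: `y₀ = y`, `m = 1`. Step: `ℓ = ℓ_{t+1}`, `z : X (C_ℓ)` from `norm` for `y_t`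
(`T z c = ℓ • T C y_t c` for `c ∈ C_ℓ`), `y_{t+1} = ℓ • y_t - mv 1 z` (inclusion `C_ℓ ≤ C`, `g = 1`). By `T_mv`,
`T_mv_ne`: `T C y_{t+1} c = ℓ • T C y_t c - [c ∈ C_ℓ] ℓ • T C y_t c`, which vanishes on `C_ℓ` and wherever
`T C y_t` vanishes. Multiply (i), (ii) by `ℓ` and add `z` to the family (`cl_mv`).
For the list of all primes dividing `c`, `T C y_t = 0`, hence `cl C y_t = 0` by `cl_zero`.
-/

set_option autoImplicit false

universe v

namespace Pool.Agent.H95.WH

/-- The abstract system. -/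
structure Sys (G : Type v) [Group G] (𝒞 : Subgroup G → Prop) (𝔸 : Type) [AddCommGroup 𝔸]
    (V : Type v) [AddCommGroup V] [Module ℚ V] where
  fin : ∀ C, 𝒞 C → Finite C
  cyc : ∀ C, 𝒞 C → IsCyclic C
  sub : ∀ C D, 𝒞 C → D ≤ C → 𝒞 D
  /-- the groups -/
  X : Subgroup G → Type v
  [inst : ∀ C, AddCommGroup (X C)]
  /-- the maps induced by conjugation -/
  mv : ∀ (g : G) (C C' : Subgroup G), (∀ x ∈ C, g * x * g⁻¹ ∈ C') → (X C →+ X C')
  /-- the logarithm -/
  T : ∀ C : Subgroup G, X C →+ (C → 𝔸)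
  /-- the class in the colimit -/
  cl : ∀ C : Subgroup G, X C →+ V
  T_mv : ∀ (g : G) (C C' : Subgroup G) (h : ∀ x ∈ C, g * x * g⁻¹ ∈ C'), 𝒞 C → 𝒞 C' →
    ∀ (x : X C) (c : C), T C' (mv g C C' h x) ⟨g * c * g⁻¹, h c c.2⟩ = T C x c
  T_mv_ne : ∀ (g : G) (C C' : Subgroup G) (h : ∀ x ∈ C, g * x * g⁻¹ ∈ C'), 𝒞 C → 𝒞 C' →
    ∀ (x : X C) (y : C'), (∀ c : C, g * c * g⁻¹ ≠ y) → T C' (mv g C C' h x) y = 0
  cl_mv : ∀ (g : G) (C C' : Subgroup G) (h : ∀ x ∈ C, g * x * g⁻¹ ∈ C'), 𝒞 C → 𝒞 C' →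
    ∀ x : X C, cl C' (mv g C C' h x) = cl C x
  cl_zero : ∀ C, 𝒞 C → ∀ x : X C, T C x = 0 → cl C x = 0
  norm : ∀ (C D : Subgroup G), 𝒞 C → ∀ hDC : D ≤ C, ∀ x : X C, ∃ z : X D, ∀ d : D,
    T D z d = D.relIndex C • T C x ⟨d, hDC d.2⟩

attribute [instance] Sys.inst

variable {G : Type v} [Group G] {𝒞 : Subgroup G → Prop} {𝔸 : Type} [AddCommGroup 𝔸]
  {V : Type v} [AddCommGroup V] [Module ℚ V]

open scoped Classical in
private theorem Sys.low_aux (S : Sys G 𝒞 𝔸 V) (C : Subgroup G) (hC : 𝒞 C) (y : S.X C)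
    (hy : ∀ c : C, Subgroup.zpowers (c : G) = C → S.T C y c = 0) (L : List (Subgroup G)) :
    (∀ D ∈ L, D < C) →
    ∃ (m r : ℕ) (D : Fin r → Subgroup G) (z : ∀ a, S.X (D a)) (w : S.X C), 0 < m ∧
      (∀ a, D a < C) ∧
      m • S.cl C y = S.cl C w + ∑ a, S.cl (D a) (z a) ∧
      (∀ c : C, m • S.T C y c = S.T C w c +
        ∑ a, (if h : (c : G) ∈ D a then S.T (D a) (z a) ⟨(c : G), h⟩ else 0)) ∧
      (∀ c : C, Subgroup.zpowers (c : G) = C → S.T C w c = 0) ∧
      (∀ D ∈ L, ∀ c : C, (c : G) ∈ D → S.T C w c = 0) := by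
  induction L with
  | nil =>
    intro _
    refine ⟨1, 0, Fin.elim0, fun a => a.elim0, y, one_pos, fun a => a.elim0, ?_, ?_, hy, ?_⟩
    · simp
    · intro c; simp
    · intro D hD; simp at hD
  | cons D0 L ih =>
    intro hL
    obtain ⟨m, r, D, z, w, hm, hD, h1, h2, h3, h4⟩ :=
      ih (fun D hD => hL D (List.mem_cons_of_mem _ hD))
    have hD0 : D0 < C := hL D0 List.mem_cons_self
    have hCD : 𝒞 D0 := S.sub C D0 hC hD0.le
    have := S.fin C hC
    have hn : D0.relIndex C ≠ 0 := Subgroup.index_ne_zero_of_finite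
    obtain ⟨z0, hz0⟩ := S.norm C D0 hC hD0.le w
    set n := D0.relIndex C with hndef
    have hmv : ∀ x ∈ D0, (1 : G) * x * (1 : G)⁻¹ ∈ C := by
      intro x hx; simpa using hD0.le hx
    -- the value of the logarithm of the transported element
    have hT1 : ∀ c : C, (c : G) ∈ D0 → S.T C (S.mv 1 D0 C hmv z0) c = n • S.T C w c := by
      intro c hc
      have := S.T_mv 1 D0 C hmv hCD hC z0 ⟨(c : G), hc⟩
      rw [hz0] at this
      rw [← this]
      exact congrArg (S.T C (S.mv 1 D0 C hmv z0)) (Subtype.ext (by simp))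
    have hT0 : ∀ c : C, (c : G) ∉ D0 → S.T C (S.mv 1 D0 C hmv z0) c = 0 := by
      intro c hc
      apply S.T_mv_ne 1 D0 C hmv hCD hC z0 c
      intro d hd
      apply hc
      rw [← hd]
      simp
    refine ⟨n * m, r + 1, Fin.cons D0 D,
      Fin.cons (α := fun a => S.X ((Fin.cons D0 D : Fin (r + 1) → Subgroup G) a)) z0
        (fun a => n • z a), n • w - S.mv 1 D0 C hmv z0, Nat.mul_pos (Nat.pos_of_ne_zero hn) hm,
      ?_, ?_, ?_, ?_, ?_⟩
    · intro a
      refine Fin.cases ?_ ?_ a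
      · simpa using hD0
      · intro a; simpa using hD a
    · rw [mul_smul, h1, Fin.sum_univ_succ, map_sub, map_nsmul, S.cl_mv 1 D0 C hmv hCD hC,
        smul_add, Finset.smul_sum]
      have e0 : S.cl ((Fin.cons D0 D : Fin (r + 1) → Subgroup G) 0)
          ((Fin.cons (α := fun a => S.X ((Fin.cons D0 D : Fin (r + 1) → Subgroup G) a)) z0
            (fun a => n • z a) : ∀ a, S.X ((Fin.cons D0 D : Fin (r + 1) → Subgroup G) a)) 0)
          = S.cl D0 z0 := rfl
      have e1 : ∀ a : Fin r, S.cl ((Fin.cons D0 D : Fin (r + 1) → Subgroup G) a.succ)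
          ((Fin.cons (α := fun a => S.X ((Fin.cons D0 D : Fin (r + 1) → Subgroup G) a)) z0
            (fun a => n • z a) : ∀ a, S.X ((Fin.cons D0 D : Fin (r + 1) → Subgroup G) a)) a.succ)
          = n • S.cl (D a) (z a) := fun a => (S.cl (D a)).map_nsmul _ _
      rw [e0, Finset.sum_congr rfl (fun a _ => e1 a)]
      abel
    · intro c
      rw [mul_smul, h2, Fin.sum_univ_succ, map_sub, map_nsmul, smul_add, Finset.smul_sum]
      have e0 : (if h : (c : G) ∈ (Fin.cons D0 D : Fin (r + 1) → Subgroup G) 0 then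
          S.T ((Fin.cons D0 D : Fin (r + 1) → Subgroup G) 0)
          ((Fin.cons (α := fun a => S.X ((Fin.cons D0 D : Fin (r + 1) → Subgroup G) a)) z0
            (fun a => n • z a) : ∀ a, S.X ((Fin.cons D0 D : Fin (r + 1) → Subgroup G) a)) 0)
            ⟨(c : G), h⟩ else 0)
          = S.T C (S.mv 1 D0 C hmv z0) c := by
        by_cases h : (c : G) ∈ D0
        · have h' : (c : G) ∈ (Fin.cons D0 D : Fin (r + 1) → Subgroup G) 0 := h
          rw [dif_pos h', hT1 c h]
          exact hz0 ⟨(c : G), h⟩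
        · have h' : ¬ (c : G) ∈ (Fin.cons D0 D : Fin (r + 1) → Subgroup G) 0 := h
          rw [dif_neg h', hT0 c h]
      have e1 : ∀ a : Fin r,
          (if h : (c : G) ∈ (Fin.cons D0 D : Fin (r + 1) → Subgroup G) a.succ then
          S.T ((Fin.cons D0 D : Fin (r + 1) → Subgroup G) a.succ)
          ((Fin.cons (α := fun a => S.X ((Fin.cons D0 D : Fin (r + 1) → Subgroup G) a)) z0
            (fun a => n • z a) : ∀ a, S.X ((Fin.cons D0 D : Fin (r + 1) → Subgroup G) a)) a.succ)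
            ⟨(c : G), h⟩ else 0)
          = n • (if h : (c : G) ∈ D a then S.T (D a) (z a) ⟨(c : G), h⟩ else 0) := by
        intro a
        by_cases h : (c : G) ∈ D a
        · have h' : (c : G) ∈ (Fin.cons D0 D : Fin (r + 1) → Subgroup G) a.succ := h
          rw [dif_pos h', dif_pos h]
          exact congrFun ((S.T (D a)).map_nsmul _ _) _
        · have h' : ¬ (c : G) ∈ (Fin.cons D0 D : Fin (r + 1) → Subgroup G) a.succ := h
          rw [dif_neg h', dif_neg h, smul_zero]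
      rw [e0, Finset.sum_congr rfl (fun a _ => e1 a)]
      simp only [Pi.sub_apply, Pi.smul_apply]
      abel
    · intro c hc
      have hc0 : (c : G) ∉ D0 := by
        intro h
        have : C ≤ D0 := by
          rw [← hc, Subgroup.zpowers_le]; exact h
        exact absurd this (not_le_of_gt hD0)
      rw [map_sub, map_nsmul, Pi.sub_apply, Pi.smul_apply, hT0 c hc0, h3 c hc, smul_zero, sub_zero]
    · intro E hE c hcE
      rw [map_sub, map_nsmul, Pi.sub_apply, Pi.smul_apply]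
      by_cases h : (c : G) ∈ D0
      · rw [hT1 c h, sub_self]
      · rcases List.mem_cons.mp hE with rfl | hE
        · exact absurd hcE h
        · rw [hT0 c h, h4 E hE c hcE, smul_zero, sub_zero]

open scoped Classical in
theorem Sys.low (S : Sys G 𝒞 𝔸 V) (C : Subgroup G) (hC : 𝒞 C) (y : S.X C)
    (hy : ∀ c : C, Subgroup.zpowers (c : G) = C → S.T C y c = 0) :
    ∃ (m r : ℕ) (D : Fin r → Subgroup G) (z : ∀ a, S.X (D a)), 0 < m ∧ (∀ a, D a < C) ∧
      m • S.cl C y = ∑ a, S.cl (D a) (z a) ∧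
      ∀ c : C, m • S.T C y c =
        ∑ a, (if h : (c : G) ∈ D a then S.T (D a) (z a) ⟨(c : G), h⟩ else 0) := by
  classical
  have := S.fin C hC
  let _ : Fintype C := Fintype.ofFinite C
  obtain ⟨m, r, D, z, w, hm, hD, h1, h2, h3, h4⟩ := S.low_aux C hC y hy
    (((Finset.univ : Finset C).filter (fun c : C => Subgroup.zpowers (c : G) ≠ C)).toList.map
      (fun c : C => Subgroup.zpowers (c : G))) (by
      intro E hE
      rw [List.mem_map] at hE
      obtain ⟨c, hc, rfl⟩ := hE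
      rw [Finset.mem_toList, Finset.mem_filter] at hc
      exact lt_of_le_of_ne (by rw [Subgroup.zpowers_le]; exact c.2) hc.2)
  have hw : S.T C w = 0 := by
    funext c
    by_cases hc : Subgroup.zpowers (c : G) = C
    · exact h3 c hc
    · refine h4 (Subgroup.zpowers (c : G)) ?_ c (Subgroup.mem_zpowers _)
      rw [List.mem_map]
      exact ⟨c, by rw [Finset.mem_toList, Finset.mem_filter]; exact ⟨Finset.mem_univ _, hc⟩, rfl⟩
  refine ⟨m, r, D, z, hm, hD, ?_, ?_⟩
  · rw [h1, S.cl_zero C hC w hw, zero_add]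
  · intro c
    rw [h2 c, hw, Pi.zero_apply, zero_add]

end Pool.Agent.H95.WH
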