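import Pool.Agent.H95.WH.K1B

/-!
# Mennicke symbols

For a commutative ring `A` and `a d - b c = 1` let `sl2 a b c d` be the matrix `!![a, b; c, d]`.
Main result `men_torsion`: if `a ∣ b^m - 1` then `m • [sl2 a b c d] = 0` in `K₁(A)`.

## Paper proofs

(E) Elementary matrices have class zero (`cls_transvection`); products of matrices have the sum of
the classes. In particular the class of `w = !![0, 1; -1, 0] = e₁₂(1) e₂₁(-1) e₁₂(1)` is zero.
`men_row`: two matrices in `SL₂` with the same first row differ by a left factor `!![1, 0; x, 1]`.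
`men_mul`: in `SL₃(A)` compute
`(sl2 a b₁ c₁ d₁ ⊕ 1) * (1 ⊕ (sl2 a b₂ c₂ d₂ * w)) = !![a, -b₁ b₂, b₁ a; c₁, -d₁ b₂, d₁ a; 0, -d₂, c₂]`.
Subtract `b₁` times column 1 from column 3 (using `a d₁ - b₁ c₁ = 1`):
`!![a, -b₁ b₂, 0; c₁, -d₁ b₂, 1; 0, -d₂, c₂]`. Subtract `c₂` times row 2 from row 3:
`!![a, -b₁ b₂, 0; c₁, -d₁ b₂, 1; -c₁ c₂, -d₂ + c₂ d₁ b₂, 0]`. Subtract `c₁` times column 3 from
column 1 and add `d₁ b₂` times column 3 to column 2:
`!![a, -b₁ b₂, 0; 0, 0, 1; -c₁ c₂, -d₂ + c₂ d₁ b₂, 0]`. This is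
`(1 ⊕ w) * !![a, -b₁ b₂, 0; c₁ c₂, d₂ - c₂ d₁ b₂, 0; 0, 0, 1]` (`w` as above). Hence the claim; the classes of
`X ⊕ 1` and `1 ⊕ X` are the class of `X` (`cls_stab`, `cls_reindex`).
`men_neg`: `men_mul` with `b₂ = 1`, `c₂ = -1`, `d₂ = 0` (`!![a, 1; -1, 0] = !![1, -a; 0, 1] * w⁻¹..` is
a product of elementary matrices, class `0`), then `men_row`.
`men_pow`: induction on `m`: if `β` has first row `(a, b^m)` and class `m • [α]`, `men_mul` for `β`, `α`
gives a matrix with first row `(a, -b^{m+1})`; use `men_neg` and `men_row`. (`m = 0`: first row `(a, 1)`.)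
`men_torsion`: `b^m = 1 + t a`; the matrix with first row `(a, b^m)` times `!![1, -t; 0, 1]` has first
row `(a, 1)`, so its class is `0`. Such a matrix exists: from `a d - b c = 1` the ideal `(a, b^m)` is
the unit ideal (`IsCoprime.pow_right`).
-/

set_option autoImplicit false

open Matrix

universe u

namespace Pool.Agent.H95.WH

variable {A : Type u} [CommRing A]

/-- The matrix `!![a, b; c, d]` of determinant one. -/
def sl2 (a b c d : A) (h : a * d - b * c = 1) : (Matrix (Fin 2) (Fin 2) A)ˣ where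
  val := !![a, b; c, d]
  inv := !![d, -b; -c, a]
  val_inv := by
    ext i j
    fin_cases i <;> fin_cases j <;> simp [Matrix.mul_apply, Fin.sum_univ_two] <;>
      first | ring1 | linear_combination h
  inv_val := by
    ext i j
    fin_cases i <;> fin_cases j <;> simp [Matrix.mul_apply, Fin.sum_univ_two] <;>
      first | ring1 | linear_combination h

/-- The elementary matrix as a unit. -/
private def tvU {n : ℕ} (i j : Fin n) (hij : i ≠ j) (x : A) : (Matrix (Fin n) (Fin n) A)ˣ where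
  val := transvection i j x
  inv := transvection i j (-x)
  val_inv := by rw [transvection_mul_transvection_same i j hij, add_neg_cancel, transvection_zero]
  inv_val := by rw [transvection_mul_transvection_same i j hij, neg_add_cancel, transvection_zero]

private theorem mk_tvU {n : ℕ} (i j : Fin n) (hij : i ≠ j) (x : A) :
    K1.mk (tvU i j hij x) = 0 := by
  rw [← K1.cls_mk]
  exact K1.cls_transvection hij x _ rfl

private theorem tv10 (x : A) : (transvection 1 0 x : Matrix (Fin 2) (Fin 2) A) = !![1, 0; x, 1] := by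
  ext i j
  fin_cases i <;> fin_cases j <;> simp [transvection, Matrix.single_apply]

private theorem tv01 (x : A) : (transvection 0 1 x : Matrix (Fin 2) (Fin 2) A) = !![1, x; 0, 1] := by
  ext i j
  fin_cases i <;> fin_cases j <;> simp [transvection, Matrix.single_apply]

private theorem tv02 (x : A) :
    (transvection 0 2 x : Matrix (Fin 3) (Fin 3) A) = !![1, 0, x; 0, 1, 0; 0, 0, 1] := by
  ext i j
  fin_cases i <;> fin_cases j <;> simp [transvection, Matrix.single_apply]

private theorem tv20 (x : A) :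
    (transvection 2 0 x : Matrix (Fin 3) (Fin 3) A) = !![1, 0, 0; 0, 1, 0; x, 0, 1] := by
  ext i j
  fin_cases i <;> fin_cases j <;> simp [transvection, Matrix.single_apply]

private theorem tv21 (x : A) :
    (transvection 2 1 x : Matrix (Fin 3) (Fin 3) A) = !![1, 0, 0; 0, 1, 0; 0, x, 1] := by
  ext i j
  fin_cases i <;> fin_cases j <;> simp [transvection, Matrix.single_apply]

private theorem stab_val (a b c d : A) (h : a * d - b * c = 1) :
    (stab (sl2 a b c d h)).val = !![a, b, 0; c, d, 0; 0, 0, 1] := by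
  ext i j
  fin_cases i <;> fin_cases j <;> rfl

theorem men_row (a b c d c' d' : A) (h : a * d - b * c = 1) (h' : a * d' - b * c' = 1) :
    K1.mk (sl2 a b c d h) = K1.mk (sl2 a b c' d' h') := by
  have e : sl2 a b c' d' h' = tvU 1 0 (by decide) (c' * d - d' * c) * sl2 a b c d h := by
    apply Units.ext
    change !![a, b; c', d'] = transvection 1 0 (c' * d - d' * c) * !![a, b; c, d]
    rw [tv10, Matrix.mul_fin_two]
    ext i j
    fin_cases i <;> fin_cases j <;> simp
    · linear_combination (-c') * h + c * h'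
    · linear_combination (-d') * h + d * h'
  rw [e, K1.mk_mul, mk_tvU, zero_add]

/-- the matrix `!![0, 1; -1, 0]` -/
private def wU : (Matrix (Fin 2) (Fin 2) A)ˣ := sl2 0 1 (-1) 0 (by ring)

private theorem mk_wU : K1.mk (wU : (Matrix (Fin 2) (Fin 2) A)ˣ) = 0 := by
  have e : (wU : (Matrix (Fin 2) (Fin 2) A)ˣ) =
      tvU 0 1 (by decide) 1 * tvU 1 0 (by decide) (-1) * tvU 0 1 (by decide) 1 := by
    apply Units.ext
    change !![0, 1; -1, 0] = transvection 0 1 1 * transvection 1 0 (-1) * transvection 0 1 1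
    rw [tv01, tv10, Matrix.mul_fin_two, Matrix.mul_fin_two]
    ext i j
    fin_cases i <;> fin_cases j <;> simp
  rw [e, K1.mk_mul, K1.mk_mul]
  simp only [mk_tvU, add_zero]

/-- the cyclic permutation matrix -/
private def cycU : (Matrix (Fin 3) (Fin 3) A)ˣ where
  val := !![0, 0, 1; 1, 0, 0; 0, 1, 0]
  inv := !![0, 1, 0; 0, 0, 1; 1, 0, 0]
  val_inv := by
    rw [Matrix.mul_fin_three]
    ext i j
    fin_cases i <;> fin_cases j <;> simp
  inv_val := by
    rw [Matrix.mul_fin_three]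
    ext i j
    fin_cases i <;> fin_cases j <;> simp

/-- the matrix `1 ⊕ !![a, b; c, d]` -/
private def shU (a b c d : A) (h : a * d - b * c = 1) : (Matrix (Fin 3) (Fin 3) A)ˣ :=
  cycU * stab (sl2 a b c d h) * cycU⁻¹

private theorem shU_val (a b c d : A) (h : a * d - b * c = 1) :
    (shU a b c d h).val = !![1, 0, 0; 0, a, b; 0, c, d] := by
  change cycU.val * (stab (sl2 a b c d h)).val * (cycU⁻¹).val = _
  rw [stab_val]
  change !![0, 0, 1; 1, 0, 0; 0, 1, 0] * !![a, b, 0; c, d, 0; 0, 0, 1] *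
    !![0, 1, 0; 0, 0, 1; 1, 0, 0] = _
  rw [Matrix.mul_fin_three, Matrix.mul_fin_three]
  ext i j
  fin_cases i <;> fin_cases j <;> simp

private theorem mk_inv {n : ℕ} (U : (Matrix (Fin n) (Fin n) A)ˣ) : K1.mk U⁻¹ = - K1.mk U := by
  rw [← K1.cls_mk, ← K1.cls_mk, K1.cls_inv]

private theorem mk_shU (a b c d : A) (h : a * d - b * c = 1) :
    K1.mk (shU a b c d h) = K1.mk (sl2 a b c d h) := by
  rw [shU, K1.mk_mul, K1.mk_mul, K1.mk_stab, mk_inv]
  abel

theorem men_mul (a b₁ c₁ d₁ b₂ c₂ d₂ : A) (h₁ : a * d₁ - b₁ * c₁ = 1) (h₂ : a * d₂ - b₂ * c₂ = 1)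
    (h₃ : a * (d₂ - c₂ * d₁ * b₂) - (-(b₁ * b₂)) * (c₁ * c₂) = 1) :
    K1.mk (sl2 a (-(b₁ * b₂)) (c₁ * c₂) (d₂ - c₂ * d₁ * b₂) h₃) =
      K1.mk (sl2 a b₁ c₁ d₁ h₁) + K1.mk (sl2 a b₂ c₂ d₂ h₂) := by
  have hw : (0 : A) * 0 - 1 * (-1) = 1 := by ring
  have hprod : (-b₂) * c₂ - a * (-d₂) = 1 := by linear_combination h₂
  have e1 : tvU 2 1 (by decide) (-c₂) * (stab (sl2 a b₁ c₁ d₁ h₁) * shU (-b₂) a (-d₂) c₂ hprod) *
      tvU 0 2 (by decide) (-b₁) * tvU 2 0 (by decide) (-c₁) * tvU 2 1 (by decide) (d₁ * b₂) =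
      shU 0 1 (-1) 0 hw * stab (sl2 a (-(b₁ * b₂)) (c₁ * c₂) (d₂ - c₂ * d₁ * b₂) h₃) := by
    apply Units.ext
    change transvection 2 1 (-c₂) * ((stab (sl2 a b₁ c₁ d₁ h₁)).val *
      (shU (-b₂) a (-d₂) c₂ hprod).val) * transvection 0 2 (-b₁) * transvection 2 0 (-c₁) *
      transvection 2 1 (d₁ * b₂) = (shU 0 1 (-1) 0 hw).val *
        (stab (sl2 a (-(b₁ * b₂)) (c₁ * c₂) (d₂ - c₂ * d₁ * b₂) h₃)).val
    rw [stab_val, stab_val, shU_val, shU_val, tv21, tv02, tv20, tv21]
    rw [Matrix.mul_fin_three, Matrix.mul_fin_three, Matrix.mul_fin_three, Matrix.mul_fin_three,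
      Matrix.mul_fin_three, Matrix.mul_fin_three]
    ext i j
    fin_cases i <;> fin_cases j <;> simp
    · ring
    · ring
    · ring
    · linear_combination (-c₁) * h₁
    · linear_combination (d₁ * b₂) * h₁
    · linear_combination h₁
    · linear_combination (c₁ * c₂) * h₁
    · linear_combination (-(c₂ * d₁ * b₂)) * h₁
    · linear_combination (-c₂) * h₁
  have e2 : sl2 (-b₂) a (-d₂) c₂ hprod = sl2 a b₂ c₂ d₂ h₂ * wU := by
    apply Units.ext
    change !![-b₂, a; -d₂, c₂] = !![a, b₂; c₂, d₂] * !![0, 1; -1, 0]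
    rw [Matrix.mul_fin_two]
    ext i j
    fin_cases i <;> fin_cases j <;> simp
  have e3 : K1.mk (sl2 (-b₂) a (-d₂) c₂ hprod) = K1.mk (sl2 a b₂ c₂ d₂ h₂) := by
    rw [e2, K1.mk_mul, mk_wU, add_zero]
  have e4 : K1.mk (sl2 (0 : A) 1 (-1) 0 hw) = 0 := mk_wU
  have e5 := congrArg K1.mk e1
  rw [K1.mk_mul, K1.mk_mul, K1.mk_mul, K1.mk_mul, K1.mk_mul, K1.mk_mul, K1.mk_stab, K1.mk_stab,
    mk_shU, mk_shU, mk_tvU, mk_tvU, mk_tvU, mk_tvU, e3, e4] at e5
  simpa using e5.symm

theorem men_neg (a b c d : A) (h : a * d - b * c = 1) (h' : a * d - (-b) * (-c) = 1) :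
    K1.mk (sl2 a (-b) (-c) d h') = K1.mk (sl2 a b c d h) := by
  have h2 : a * 0 - 1 * (-1) = (1 : A) := by ring
  have h3 : a * (0 - (-1) * d * 1) - (-(b * 1)) * (c * (-1)) = 1 := by linear_combination h'
  have e := men_mul a b c d 1 (-1) 0 h h2 h3
  have e0 : K1.mk (sl2 a 1 (-1) 0 h2) = 0 := by
    have e1 : sl2 a 1 (-1) 0 h2 = tvU 0 1 (by decide) (-a) * wU := by
      apply Units.ext
      change !![a, 1; -1, 0] = transvection 0 1 (-a) * !![0, 1; -1, 0]
      rw [tv01, Matrix.mul_fin_two]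
      ext i j
      fin_cases i <;> fin_cases j <;> simp
    rw [e1, K1.mk_mul, mk_tvU, mk_wU, add_zero]
  rw [e0, add_zero] at e
  rw [← e]
  congr 1
  apply Units.ext
  change !![a, -b; -c, d] = !![a, -(b * 1); c * (-1), 0 - (-1) * d * 1]
  ext i j
  fin_cases i <;> fin_cases j <;> simp

theorem men_pow (a b c d : A) (h : a * d - b * c = 1) (m : ℕ) (c' d' : A)
    (h' : a * d' - b ^ m * c' = 1) :
    K1.mk (sl2 a (b ^ m) c' d' h') = m • K1.mk (sl2 a b c d h) := by
  induction m generalizing c' d' with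
  | zero =>
    rw [zero_smul]
    have h2 : a * 0 - 1 * (-1) = (1 : A) := by ring
    have h2' : a * 0 - b ^ 0 * (-1) = (1 : A) := by ring
    rw [men_row a (b ^ 0) c' d' (-1) 0 h' h2']
    have e1 : sl2 a (b ^ 0) (-1) 0 h2' = tvU 0 1 (by decide) (-a) * wU := by
      apply Units.ext
      change !![a, b ^ 0; -1, 0] = transvection 0 1 (-a) * !![0, 1; -1, 0]
      rw [tv01, Matrix.mul_fin_two]
      ext i j
      fin_cases i <;> fin_cases j <;> simp
    rw [e1, K1.mk_mul, mk_tvU, mk_wU, add_zero]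
  | succ m ih =>
    -- a matrix with first row `(a, b^m)`
    have hco : IsCoprime a (b ^ m) := by
      have : IsCoprime a b := ⟨d, -c, by linear_combination h⟩
      exact this.pow_right
    obtain ⟨x, y, hxy⟩ := hco
    have h1 : a * x - b ^ m * (-y) = 1 := by linear_combination hxy
    have e1 := ih (-y) x h1
    have h3 : a * (d - c * x * b) - (-(b ^ m * b)) * ((-y) * c) = 1 := by
      linear_combination h - b * c * hxy
    have e2 := men_mul a (b ^ m) (-y) x b c d h1 h h3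
    have h4 : a * (d - c * x * b) - (b ^ m * b) * (-((-y) * c)) = 1 := by
      linear_combination h3
    have h5 : a * (d - c * x * b) - (-(b ^ m * b)) * (-(-((-y) * c))) = 1 := by
      linear_combination h3
    have e3 := men_neg a (b ^ m * b) (-((-y) * c)) (d - c * x * b) h4 h5
    have e4 : K1.mk (sl2 a (-(b ^ m * b)) (-(-((-y) * c))) (d - c * x * b) h5) =
        K1.mk (sl2 a (-(b ^ m * b)) ((-y) * c) (d - c * x * b) h3) :=
      men_row _ _ _ _ _ _ _ _
    have h6 : a * (d - c * x * b) - (b ^ (m + 1)) * (-((-y) * c)) = 1 := by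
      rw [pow_succ]; exact h4
    have e5 : K1.mk (sl2 a (b ^ (m + 1)) (-((-y) * c)) (d - c * x * b) h6) =
        K1.mk (sl2 a (b ^ m * b) (-((-y) * c)) (d - c * x * b) h4) := by
      congr 1
      apply Units.ext
      change !![a, b ^ (m + 1); -((-y) * c), d - c * x * b] =
        !![a, b ^ m * b; -((-y) * c), d - c * x * b]
      rw [pow_succ]
    rw [men_row a (b ^ (m + 1)) c' d' (-((-y) * c)) (d - c * x * b) h' h6, e5, ← e3, e4, e2, e1,
      succ_nsmul]

theorem men_torsion (a b c d : A) (h : a * d - b * c = 1) (m : ℕ) (hm : a ∣ b ^ m - 1) :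
    m • K1.mk (sl2 a b c d h) = 0 := by
  obtain ⟨t, ht⟩ := hm
  have hco : IsCoprime a (b ^ m) := by
    have : IsCoprime a b := ⟨d, -c, by linear_combination h⟩
    exact this.pow_right
  obtain ⟨x, y, hxy⟩ := hco
  have h1 : a * x - b ^ m * (-y) = 1 := by linear_combination hxy
  rw [← men_pow a b c d h m (-y) x h1]
  have hb : b ^ m = 1 + a * t := by linear_combination ht
  -- multiply by `!![1, -t; 0, 1]`
  have h2 : a * (x + t * y) - 1 * (-y) = 1 := by
    linear_combination hxy - y * hb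
  have e1 : sl2 a 1 (-y) (x + t * y) h2 =
      sl2 a (b ^ m) (-y) x h1 * tvU 0 1 (by decide) (-t) := by
    apply Units.ext
    change !![a, 1; -y, x + t * y] = !![a, b ^ m; -y, x] * transvection 0 1 (-t)
    rw [tv01, Matrix.mul_fin_two, hb]
    ext i j
    fin_cases i <;> fin_cases j <;> simp <;> ring
  have e2 := congrArg K1.mk e1
  rw [K1.mk_mul, mk_tvU, add_zero] at e2
  rw [← e2]
  have h3 : a * 0 - 1 * (-1) = (1 : A) := by ring
  rw [men_row a 1 (-y) (x + t * y) (-1) 0 h2 h3]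
  have e3 : sl2 a 1 (-1) 0 h3 = tvU 0 1 (by decide) (-a) * wU := by
    apply Units.ext
    change !![a, 1; -1, 0] = transvection 0 1 (-a) * !![0, 1; -1, 0]
    rw [tv01, Matrix.mul_fin_two]
    ext i j
    fin_cases i <;> fin_cases j <;> simp
  rw [e3, K1.mk_mul, mk_tvU, mk_wU, add_zero]

end Pool.Agent.H95.WH
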