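import Mathlib

/-!
# The abstract logarithmic invariant

`CycTr N E A`: a ring `E` with an action `σ` of `ℤ/N` by ring endomorphisms and an additive map
`T : E → A` to a `ℤ/N`-module with the twisted trace property `T (x y) = T (y σ₁(x))`.

For `σ`-invariant invertible `a`, `b` and `X` with `b = a + tr X`, `tr X = ∑ σᵢ(X)`, the element
`dd a⁻¹ b⁻¹ X = T(a⁻¹ X) - ∑ᵢ (1 - i) T(a⁻¹ X b⁻¹ σᵢ(X))` is the `t`-component of the trace of
`V⁻¹ ∂V`, where `V = 1 + a⁻¹ X (1 + t + ⋯ + t^{N-1})` in the skew group ring `E ⋊ ⟨t⟩` and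
`∂ tⁱ = i tⁱ`.

## Main results

* `CycTr.dd_mul`: multiplicativity.
* `CycTr.dd_indep`: replacing `X` by `X + σ₁(Z) - Z` does not change the invariant.

## Paper proof of `dd_mul`

First general facts.
(F1) `T (σ i x) = T x` (for `i = 1` take `y = 1` in `T_mul`; then induct over `i.val`, using
`σ_add`, `σ_zero`).
(F2) If `c` is invariant (`σ i c = c` for all `i`) then `T (c * x) = T (x * c)` (`T_mul` with
`σ 1 c = c`). Inverses of invariant elements are invariant, `tr X` is invariant.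

Consider pairs `P = (c, x)` with `c, x : E`, `c` invariant (`P` stands for `c + x N_t`,
`N_t = ∑ tⁱ`), with the product `P P' = (c c', x c' + c x' + x tr(x'))` and the biadditive form
`Φ(P, P') = T(c x') + ∑ᵢ (1 - i) • T(x σᵢ(x'))`.

(D) For `P = (c, x)`, `Q = (c', x')`, `R = (c'', x'')`:
`Φ(P, Q R) = Φ(P Q, R) + Φ(R P, Q)`.
Proof: `LHS = T(c x' c'') + T(c c' x'') + T(c x' tr x'')
   + ∑ (1-i) [T(x σᵢ(x') c'') + T(x c' σᵢ(x'')) + T(x σᵢ(x') tr x'')]`,
`Φ(PQ, R) = T(c c' x'') + ∑ (1-i) [T(x c' σᵢ x'') + T(c x' σᵢ x'') + T(x tr(x') σᵢ x'')]`,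
`Φ(RP, Q) = T(c'' c x') + ∑ (1-i) [T(x'' c σᵢ x') + T(c'' x σᵢ x') + T(x'' tr(x) σᵢ x')]`.
By (F2) `T(c x' c'') = T(c'' c x')` and `T(x σᵢ(x') c'') = T(c'' x σᵢ x')`. Two identities remain.
(A) `T(c x' tr x'') = ∑ (1-i) [T(c x' σᵢ x'') + T(x'' c σᵢ x')]`:
`T(x'' c σᵢ x') = T(c σᵢ(x') σ₁(x'')) = T(c x' σ_{1-i}(x''))` (apply `σ_{-i}`, F1), so the second
sum is `∑ (1-i) T(c x' σ_{1-i} x'') = ∑ i T(c x' σᵢ x'')`, and `(1-i) + i = 1`.
(B) `∑ (1-i) T(x σᵢ(x') tr x'') = ∑ (1-i) [T(x tr(x') σᵢ x'') + T(x'' tr(x) σᵢ x')]`: put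
`f(i,j) = T(x σᵢ(x') σⱼ(x''))`. The left side is `∑_{i,j} (1-i) f(i,j)`, the first term on the
right is `∑_{i,j} (1-j) f(i,j)`; `T(x'' σⱼ(x) σᵢ(x')) = T(σⱼ(x) σᵢ(x') σ₁(x'')) = f(i-j, 1-j)`, so
the second one is `∑_{i,j} (1-i) f(i-j, 1-j) = ∑_{i',j'} (j'-i') f(i',j')` (`i' = i-j`, `j' = 1-j`);
and `(1-j) + (j-i) = 1-i`.

Associativity of the product of pairs is immediate (`tr` of `x c' + c x' + x tr(x')` is
`tr(x) c' + c tr(x') + tr(x) tr(x')` as `c, c', tr x'` are invariant). The unit is `(1, 0)` and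
`Φ(P, (1,0)) = 0`. If `P⁻ P = P P⁻ = (1,0)` then by (D) with `(P, Q, R) → ((PQ)⁻ , P, Q)`, i.e.
`Φ(Q⁻ P⁻, P Q) = Φ(Q⁻ P⁻ P, Q) + Φ(Q Q⁻ P⁻, P) = Φ(Q⁻, Q) + Φ(P⁻, P)`. (1)
Also `Φ((c⁻,0),(c,0)) = 0`, so conjugating by `(c, 0)` does not change `Φ(P⁻, P)`. (2)

`dd ai bi X = Φ(P⁻, P)` for `P = (1, ai X)`, `P⁻ = (1, - ai X bi a)` (use `T(ai X bi a σᵢ(ai X)) =
T(ai X bi σᵢ X)`; `P P⁻ = P⁻ P = (1, 0)` because `ai (b - a) = ai b - 1`).
For the triples `(a, b, X)`, `(c, d, Y)` put `P = (1, ai X)`, `Q = (1, ci Y)` and `P^c = (1, ci ai X c)`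
(the conjugate of `P` by `(c, 0)`). Then `P^c Q = (1, ci ai X c + ci Y + ci ai X c tr(ci Y))` and
`c tr(ci Y) = c ci (d - c) = d - c`, so `P^c Q = (1, ci ai X d + ci Y) = (1, ci ai (X d + a Y))`,
the pair of the product triple. Hence the claim by (1) and (2).
(One may also verify the final identity directly.)

## Paper proof of `dd_indep`

Let `Y = σ₁ Z - Z`, `B(P, Q) = ∑ (1-i) • T(ai P bi σᵢ Q)`. Then `T(ai Y) = 0` by (F1), (F2)
(`T(ai σ₁ Z) = T(σ₁(ai Z))`). `B(Y, Q) = ∑ (1-i) T(σ₁(ai Z bi σ_{i-1} Q)) - ∑ (1-i) T(ai Z bi σᵢ Q)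
= ∑ (-i) T(ai Z bi σᵢ Q) - ∑ (1-i) T(ai Z bi σᵢ Q) = - T(ai Z bi tr Q)`.
`B(Q, Y) = ∑ (1-i) T(ai Q bi (σ_{i+1} Z - σᵢ Z)) = ∑ ((2-i) - (1-i)) T(ai Q bi σᵢ Z)
= T(ai Q bi tr Z) = ∑ T(ai σ_{-i}(Q) bi Z) = T(ai tr(Q) bi Z)`.
With `Q = X`, `tr X = b - a`: `B(Y, X) = - T(ai Z bi (b - a)) = - T(ai Z) + T(Z bi)` (F2) and
`B(X, Y) = T(ai (b - a) bi Z) = T(ai Z) - T(bi Z)`, so `B(Y,X) + B(X,Y) = 0`. As `tr Y = 0`,
`B(Y, Y) = 0`. Expand `dd ai bi (X + Y)`.
-/

set_option autoImplicit false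

namespace Pool.Agent.H95.WH

/-- A ring with an action of `ℤ/N` and a twisted trace. -/
structure CycTr (N : ℕ) [NeZero N] (E : Type*) [Ring E] (A : Type*) [AddCommGroup A]
    [Module (ZMod N) A] where
  /-- the action -/
  σ : ZMod N → E →+* E
  σ_zero : ∀ x, σ 0 x = x
  σ_add : ∀ i j x, σ (i + j) x = σ i (σ j x)
  /-- the twisted trace -/
  T : E →+ A
  T_mul : ∀ x y, T (x * y) = T (y * σ 1 x)

namespace CycTr

variable {N : ℕ} [NeZero N] {E : Type*} [Ring E] {A : Type*} [AddCommGroup A] [Module (ZMod N) A]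
  (C : CycTr N E A)

/-- The norm map `∑ᵢ σᵢ(x)`. -/
def tr (x : E) : E := ∑ i : ZMod N, C.σ i x

/-- The invariant. -/
def dd (ai bi X : E) : A :=
  C.T (ai * X) - ∑ i : ZMod N, (1 - i) • C.T (ai * X * bi * C.σ i X)

section aux

private theorem T_nat (n : ℕ) (x : E) : C.T (C.σ (n : ZMod N) x) = C.T x := by
  induction n generalizing x with
  | zero => rw [Nat.cast_zero, C.σ_zero]
  | succ n ih =>
    rw [Nat.cast_succ, C.σ_add, ih]
    have := C.T_mul x 1
    rw [mul_one, one_mul] at this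
    exact this.symm

private theorem T_σ (i : ZMod N) (x : E) : C.T (C.σ i x) = C.T x := by
  have := C.T_nat (ZMod.val i) x
  rwa [ZMod.natCast_zmod_val] at this

private theorem T_inv {c : E} (hc : ∀ i, C.σ i c = c) (x : E) : C.T (c * x) = C.T (x * c) := by
  rw [C.T_mul, hc]

private theorem σ_inv {c c' : E} (h : c * c' = 1) (h' : c' * c = 1) (hc : ∀ i, C.σ i c = c)
    (i : ZMod N) : C.σ i c' = c' := by
  calc C.σ i c' = C.σ i c' * (c * c') := by rw [h, mul_one]
    _ = C.σ i c' * C.σ i c * c' := by rw [hc i, mul_assoc]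
    _ = c' := by rw [← map_mul, h', map_one, one_mul]

private theorem σ_neg_cancel (i : ZMod N) (x : E) : C.σ (-i) (C.σ i x) = x := by
  rw [← C.σ_add, neg_add_cancel, C.σ_zero]

private theorem tr_add (x y : E) : C.tr (x + y) = C.tr x + C.tr y := by
  simp only [tr, map_add, Finset.sum_add_distrib]

private theorem tr_neg (x : E) : C.tr (-x) = -C.tr x := by
  simp only [tr, map_neg, Finset.sum_neg_distrib]

private theorem tr_mul_inv (x : E) {c : E} (hc : ∀ i, C.σ i c = c) :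
    C.tr (x * c) = C.tr x * c := by
  simp only [tr, map_mul, hc, Finset.sum_mul]

private theorem tr_inv_mul (x : E) {c : E} (hc : ∀ i, C.σ i c = c) :
    C.tr (c * x) = c * C.tr x := by
  simp only [tr, map_mul, hc, Finset.mul_sum]

private theorem σ_tr (i : ZMod N) (x : E) : C.σ i (C.tr x) = C.tr x := by
  unfold tr
  rw [map_sum]
  simp only [← C.σ_add]
  exact Fintype.sum_equiv (Equiv.addLeft i) _ _ (fun j => rfl)

/-- The form on pairs with first component one. -/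
private def Phi (x y : E) : A := C.T y + ∑ i : ZMod N, (1 - i) • C.T (x * C.σ i y)

private theorem idA (x' x'' : E) : C.T (x' * C.tr x'') =
    ∑ i : ZMod N, (1 - i) • C.T (x' * C.σ i x'') + ∑ i : ZMod N, (1 - i) • C.T (x'' * C.σ i x') := by
  have h1 : ∀ i : ZMod N, C.T (x'' * C.σ i x') = C.T (x' * C.σ (1 - i) x'') := by
    intro i
    rw [C.T_mul, ← C.T_σ (-i), map_mul (C.σ _), C.σ_neg_cancel, ← C.σ_add, neg_add_eq_sub]
  have h2 : ∑ i : ZMod N, (1 - i) • C.T (x'' * C.σ i x') =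
      ∑ i : ZMod N, i • C.T (x' * C.σ i x'') := by
    simp only [h1]
    exact Fintype.sum_equiv (Equiv.subLeft 1) _ _ (fun j => rfl)
  rw [h2, ← Finset.sum_add_distrib]
  simp only [← add_smul, sub_add_cancel, one_smul]
  rw [← map_sum, tr, Finset.mul_sum]

private theorem idB (x x' x'' : E) :
    ∑ i : ZMod N, (1 - i) • C.T (x * C.σ i x' * C.tr x'') =
    ∑ i : ZMod N, (1 - i) • C.T (x * C.tr x' * C.σ i x'') +
      ∑ i : ZMod N, (1 - i) • C.T (x'' * C.tr x * C.σ i x') := by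
  set f : ZMod N → ZMod N → A := fun i j => C.T (x * C.σ i x' * C.σ j x'') with hf
  have e1 : ∑ i : ZMod N, (1 - i) • C.T (x * C.σ i x' * C.tr x'') =
      ∑ j : ZMod N, ∑ i : ZMod N, (1 - i) • f i j := by
    rw [Finset.sum_comm]
    refine Finset.sum_congr rfl (fun i _ => ?_)
    rw [← Finset.smul_sum, hf]
    simp only
    rw [← map_sum, tr, Finset.mul_sum]
  have e2 : ∑ i : ZMod N, (1 - i) • C.T (x * C.tr x' * C.σ i x'') =
      ∑ j : ZMod N, ∑ i : ZMod N, (1 - j) • f i j := by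
    refine Finset.sum_congr rfl (fun j _ => ?_)
    rw [← Finset.smul_sum, hf]
    simp only
    rw [← map_sum, tr, Finset.mul_sum, Finset.sum_mul]
  have e3 : ∑ i : ZMod N, (1 - i) • C.T (x'' * C.tr x * C.σ i x') =
      ∑ j : ZMod N, ∑ i : ZMod N, (j - i) • f i j := by
    have h1 : ∀ i : ZMod N, C.T (x'' * C.tr x * C.σ i x') =
        ∑ j : ZMod N, f (i - j) (1 - j) := by
      intro i
      rw [tr, Finset.mul_sum, Finset.sum_mul, map_sum]
      refine Finset.sum_congr rfl (fun j _ => ?_)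
      rw [mul_assoc, C.T_mul, ← C.T_σ (-j), map_mul (C.σ _), map_mul (C.σ _), C.σ_neg_cancel,
        ← C.σ_add, ← C.σ_add, neg_add_eq_sub, neg_add_eq_sub]
    simp only [h1, Finset.smul_sum]
    rw [Finset.sum_comm]
    have h2 : ∀ j : ZMod N, ∑ i : ZMod N, (1 - i) • f (i - j) (1 - j) =
        ∑ i : ZMod N, ((1 - j) - i) • f i (1 - j) := by
      intro j
      refine Fintype.sum_equiv (Equiv.subRight j) _ _ (fun i => ?_)
      simp only [Equiv.subRight_apply]
      congr 1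
      ring
    simp only [h2]
    exact Fintype.sum_equiv (Equiv.subLeft 1) _ _ (fun j => rfl)
  rw [e1, e2, e3, ← Finset.sum_add_distrib]
  refine Finset.sum_congr rfl (fun j _ => ?_)
  rw [← Finset.sum_add_distrib]
  refine Finset.sum_congr rfl (fun i _ => ?_)
  rw [← add_smul]
  congr 1
  ring

private theorem Phi_D (x x' x'' : E) :
    C.Phi x (x' + x'' + x' * C.tr x'') =
      C.Phi (x + x' + x * C.tr x') x'' + C.Phi (x'' + x + x'' * C.tr x) x' := by
  unfold Phi
  simp only [map_add, map_mul, σ_tr, mul_add, add_mul, smul_add, Finset.sum_add_distrib]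
  rw [C.idA x' x'']
  simp only [← mul_assoc]
  rw [C.idB x x' x'']
  abel

end aux

theorem dd_mul {a ai b bi c ci d di X Y : E} (ha : a * ai = 1) (ha' : ai * a = 1)
    (hb : b * bi = 1) (hb' : bi * b = 1) (hc : c * ci = 1) (hc' : ci * c = 1)
    (hd : d * di = 1) (hd' : di * d = 1) (hσa : ∀ i, C.σ i a = a) (hσb : ∀ i, C.σ i b = b)
    (hσc : ∀ i, C.σ i c = c) (hσd : ∀ i, C.σ i d = d)
    (hX : C.tr X = b - a) (hY : C.tr Y = d - c) :
    C.dd (ci * ai) (di * bi) (X * d + a * Y) = C.dd ai bi X + C.dd ci di Y := by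
  have hσai := C.σ_inv ha ha' hσa
  have hσbi := C.σ_inv hb hb' hσb
  have hσci := C.σ_inv hc hc' hσc
  have hσdi := C.σ_inv hd hd' hσd
  -- cancellation rules
  have ka : ∀ z, a * (ai * z) = z := fun z => by rw [← mul_assoc, ha, one_mul]
  have ka' : ∀ z, ai * (a * z) = z := fun z => by rw [← mul_assoc, ha', one_mul]
  have kb : ∀ z, b * (bi * z) = z := fun z => by rw [← mul_assoc, hb, one_mul]
  have kb' : ∀ z, bi * (b * z) = z := fun z => by rw [← mul_assoc, hb', one_mul]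
  have kc : ∀ z, c * (ci * z) = z := fun z => by rw [← mul_assoc, hc, one_mul]
  have kc' : ∀ z, ci * (c * z) = z := fun z => by rw [← mul_assoc, hc', one_mul]
  have kd : ∀ z, d * (di * z) = z := fun z => by rw [← mul_assoc, hd, one_mul]
  have kd' : ∀ z, di * (d * z) = z := fun z => by rw [← mul_assoc, hd', one_mul]
  set p : E := ci * (ai * (X * c)) with hp
  set p' : E := -(ci * (ai * (X * (bi * (a * c))))) with hp'
  set q : E := ci * Y with hq
  set q' : E := -(ci * (Y * (di * c))) with hq'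
  have hσ1 : ∀ i, C.σ i (bi * (a * c)) = bi * (a * c) := fun i => by
    rw [map_mul, map_mul, hσbi, hσa, hσc]
  have hσ2 : ∀ i, C.σ i (di * c) = di * c := fun i => by rw [map_mul, hσdi, hσc]
  have trp : C.tr p = ci * (ai * (b * c)) - 1 := by
    rw [hp, C.tr_inv_mul _ hσci, C.tr_inv_mul _ hσai, C.tr_mul_inv _ hσc, hX]
    simp only [sub_mul, mul_sub, ka', hc']
  have trp' : C.tr p' = ci * (bi * (a * c)) - 1 := by
    rw [hp', C.tr_neg, C.tr_inv_mul _ hσci, C.tr_inv_mul _ hσai, C.tr_mul_inv _ hσ1, hX]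
    simp only [sub_mul, mul_sub, ka', kb, hc']
    abel
  have trq : C.tr q = ci * d - 1 := by
    rw [hq, C.tr_inv_mul _ hσci, hY, mul_sub, hc']
  have trq' : C.tr q' = di * c - 1 := by
    rw [hq', C.tr_neg, C.tr_inv_mul _ hσci, C.tr_mul_inv _ hσ2, hY]
    simp only [sub_mul, mul_sub, kc', kd, hc']
    abel
  set r : E := q' + p' + q' * C.tr p' with hr
  -- the three product formulas
  have hrp : r + p + r * C.tr p = q' := by
    have e1 : r + p + r * C.tr p = r * (ci * (ai * (b * c))) + p := by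
      rw [trp, mul_sub, mul_one]
      abel
    have e2 : r = q' * (ci * (bi * (a * c))) + p' := by
      rw [hr, trp', mul_sub, mul_one]
      abel
    rw [e1, e2, hp', hq', hp]
    simp only [add_mul, neg_mul, mul_assoc, kc, ka, kb']
    abel
  have hqr : q + r + q * C.tr r = p' := by
    have e0 : C.tr r = di * c * (ci * (bi * (a * c))) - 1 := by
      have hσ3 : ∀ i, C.σ i (C.tr p') = C.tr p' := fun i => C.σ_tr i p'
      rw [hr, C.tr_add, C.tr_add, C.tr_mul_inv _ hσ3, trq', trp']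
      noncomm_ring
    have e1 : q + r + q * C.tr r = r + q * (di * c * (ci * (bi * (a * c)))) := by
      rw [e0, mul_sub, mul_one]
      abel
    have e2 : r = q' * (ci * (bi * (a * c))) + p' := by
      rw [hr, trp', mul_sub, mul_one]
      abel
    rw [e1, e2, hq', hq]
    simp only [neg_mul, mul_assoc, kc]
    abel
  have hpq : p + q + p * C.tr q = ci * (ai * (X * d + a * Y)) := by
    rw [trq, hp, hq]
    simp only [mul_add, mul_sub, mul_one, mul_assoc, kc, ka']
    abel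
  have hD := C.Phi_D r p q
  rw [hrp, hqr, hpq] at hD
  -- identification of the three terms
  have t1 : C.dd (ci * ai) (di * bi) (X * d + a * Y) = C.Phi r (ci * (ai * (X * d + a * Y))) := by
    unfold dd Phi
    have e2 : r = -(ci * (ai * ((X * d + a * Y) * (di * (bi * (a * c)))))) := by
      have e3 : r = q' * (ci * (bi * (a * c))) + p' := by
        rw [hr, trp', mul_sub, mul_one]
        abel
      rw [e3, hq', hp']
      simp only [add_mul, mul_add, neg_mul, mul_assoc, kc, kd, ka']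
      abel
    have e4 : ∀ i : ZMod N, C.T (r * C.σ i (ci * (ai * (X * d + a * Y)))) =
        -C.T (ci * ai * (X * d + a * Y) * (di * bi) * C.σ i (X * d + a * Y)) := by
      intro i
      rw [e2, map_mul (C.σ _), map_mul (C.σ _), hσci, hσai, neg_mul, map_neg]
      congr 2
      simp only [mul_assoc, kc, ka]
    simp only [e4, smul_neg, Finset.sum_neg_distrib]
    rw [sub_eq_add_neg, mul_assoc ci ai]
  have t2 : C.Phi q' q = C.dd ci di Y := by
    unfold dd Phi
    have e4 : ∀ i : ZMod N, C.T (q' * C.σ i q) = -C.T (ci * Y * di * C.σ i Y) := by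
      intro i
      rw [hq', hq, map_mul (C.σ _), hσci, neg_mul, map_neg]
      congr 2
      simp only [mul_assoc, kc]
    simp only [e4, smul_neg, Finset.sum_neg_distrib]
    rw [sub_eq_add_neg]
  have t3 : C.Phi p' p = C.dd ai bi X := by
    unfold dd Phi
    have e5 : ∀ z, C.T (ci * (z * c)) = C.T z := by
      intro z
      rw [C.T_inv hσci, mul_assoc, hc, mul_one]
    have e6 : C.T p = C.T (ai * X) := by
      rw [hp, ← e5 (ai * X)]
      simp only [mul_assoc]
    have e4 : ∀ i : ZMod N, C.T (p' * C.σ i p) = -C.T (ai * X * bi * C.σ i X) := by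
      intro i
      rw [hp', hp, map_mul (C.σ _), map_mul (C.σ _), map_mul (C.σ _), hσci, hσai, hσc, neg_mul,
        map_neg, ← e5 (ai * X * bi * C.σ i X)]
      congr 2
      simp only [mul_assoc, kc, ka]
    simp only [e4, smul_neg, Finset.sum_neg_distrib, e6]
    rw [sub_eq_add_neg]
  rw [t1, hD, t2, t3, add_comm]

theorem dd_indep {a ai b bi X : E} (ha : a * ai = 1) (ha' : ai * a = 1)
    (hb : b * bi = 1) (hb' : bi * b = 1) (hσa : ∀ i, C.σ i a = a) (hσb : ∀ i, C.σ i b = b)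
    (hX : C.tr X = b - a) (Z : E) :
    C.dd ai bi (X + (C.σ 1 Z - Z)) = C.dd ai bi X := by
  have hσai := C.σ_inv ha ha' hσa
  have hσbi := C.σ_inv hb hb' hσb
  set Y : E := C.σ 1 Z - Z with hY
  have hB1 : ∀ Q : E, ∑ i : ZMod N, (1 - i) • C.T (ai * Y * bi * C.σ i Q) =
      -C.T (ai * Z * bi * C.tr Q) := by
    intro Q
    have e1 : ∀ i : ZMod N, C.T (ai * Y * bi * C.σ i Q) =
        C.T (ai * Z * bi * C.σ (i - 1) Q) - C.T (ai * Z * bi * C.σ i Q) := by
      intro i
      have e2 : ai * C.σ 1 Z * bi * C.σ i Q = C.σ 1 (ai * Z * bi * C.σ (i - 1) Q) := by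
        rw [map_mul (C.σ _), map_mul (C.σ _), map_mul (C.σ _), hσai, hσbi, ← C.σ_add,
          add_sub_cancel]
      rw [hY, mul_sub, sub_mul, sub_mul, map_sub, e2, C.T_σ]
    simp only [e1, smul_sub, Finset.sum_sub_distrib]
    have e3 : ∑ i : ZMod N, (1 - i) • C.T (ai * Z * bi * C.σ (i - 1) Q) =
        ∑ i : ZMod N, (-i) • C.T (ai * Z * bi * C.σ i Q) := by
      refine Fintype.sum_equiv (Equiv.subRight 1) _ _ (fun i => ?_)
      simp only [Equiv.subRight_apply]
      rw [neg_sub]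
    rw [e3, ← Finset.sum_sub_distrib, tr, Finset.mul_sum, map_sum, ← Finset.sum_neg_distrib]
    refine Finset.sum_congr rfl (fun i _ => ?_)
    rw [← sub_smul, show -i - (1 - i) = -(1 : ZMod N) by ring, neg_smul, one_smul]
  have hB2 : ∀ Q : E, ∑ i : ZMod N, (1 - i) • C.T (ai * Q * bi * C.σ i Y) =
      C.T (ai * C.tr Q * bi * Z) := by
    intro Q
    have e1 : ∀ i : ZMod N, C.T (ai * Q * bi * C.σ i Y) =
        C.T (ai * Q * bi * C.σ (i + 1) Z) - C.T (ai * Q * bi * C.σ i Z) := by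
      intro i
      rw [hY, map_sub, mul_sub, map_sub, ← C.σ_add]
    simp only [e1, smul_sub, Finset.sum_sub_distrib]
    have e3 : ∑ i : ZMod N, (1 - i) • C.T (ai * Q * bi * C.σ (i + 1) Z) =
        ∑ i : ZMod N, (2 - i) • C.T (ai * Q * bi * C.σ i Z) := by
      refine Fintype.sum_equiv (Equiv.addRight 1) _ _ (fun i => ?_)
      simp only [Equiv.coe_addRight]
      congr 1
      ring
    have e4 : ∑ i : ZMod N, C.T (ai * Q * bi * C.σ i Z) =
        ∑ i : ZMod N, C.T (ai * C.σ i Q * bi * Z) := by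
      refine Fintype.sum_equiv (Equiv.neg _) _ _ (fun i => ?_)
      simp only [Equiv.neg_apply]
      rw [← C.T_σ (-i), map_mul (C.σ _), map_mul (C.σ _), map_mul (C.σ _), hσai, hσbi,
        C.σ_neg_cancel]
    rw [e3, ← Finset.sum_sub_distrib, tr, Finset.mul_sum, Finset.sum_mul, Finset.sum_mul, map_sum,
      ← e4]
    refine Finset.sum_congr rfl (fun i _ => ?_)
    rw [← sub_smul, show (2 : ZMod N) - i - (1 - i) = 1 by ring, one_smul]
  have hTY : C.T (ai * Y) = 0 := by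
    have e1 : ai * C.σ 1 Z = C.σ 1 (ai * Z) := by rw [map_mul, hσai]
    rw [hY, mul_sub, map_sub, e1, C.T_σ, sub_self]
  have htrY : C.tr Y = 0 := by
    have e1 : C.tr (C.σ 1 Z) = C.tr Z := by
      unfold tr
      simp only [← C.σ_add]
      exact Fintype.sum_equiv (Equiv.addRight 1) _ _ (fun j => rfl)
    rw [hY, sub_eq_add_neg, C.tr_add, C.tr_neg, e1, add_neg_cancel]
  have hsum : -C.T (ai * Z * bi * C.tr X) + C.T (ai * C.tr X * bi * Z) = 0 := by
    rw [hX]
    have e1 : ai * Z * bi * (b - a) = ai * Z - ai * (Z * bi * a) := by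
      rw [mul_sub, mul_assoc (ai * Z) bi b, hb', mul_one]
      simp only [mul_assoc]
    have e2 : ai * (b - a) * bi * Z = ai * Z - bi * Z := by
      rw [mul_sub, ha', sub_mul, sub_mul, one_mul, mul_assoc ai b bi, hb, mul_one]
    have e3 : C.T (ai * (Z * bi * a)) = C.T (bi * Z) := by
      rw [C.T_inv hσai, mul_assoc, ha, mul_one, C.T_inv hσbi]
    rw [e1, e2, map_sub, map_sub, e3]
    abel
  have hYY : ∑ i : ZMod N, (1 - i) • C.T (ai * Y * bi * C.σ i Y) = 0 := by
    rw [hB1, htrY, mul_zero, map_zero, neg_zero]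
  unfold dd
  simp only [mul_add, add_mul, map_add, smul_add, Finset.sum_add_distrib]
  rw [hB1, hB2, hYY, hTY, add_zero]
  generalize C.T (ai * X) = t0
  generalize ∑ i : ZMod N, (1 - i) • C.T (ai * X * bi * C.σ i X) = t1
  revert hsum
  generalize C.T (ai * Z * bi * C.tr X) = u
  generalize C.T (ai * C.tr X * bi * Z) = v
  intro hsum
  have huv : v = u := by
    rw [neg_add_eq_zero] at hsum
    exact hsum.symm
  rw [huv]
  abel

end CycTr

end Pool.Agent.H95.WH
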