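import Pool.Agent.H95.WH.Cyc

/-!
# The `N`-fold tensor power of a matrix over a group ring

`ten f : 𝕜[G^N]` for `f : ZMod N → 𝕜[G]` is the element `f(0) ⊗ ⋯ ⊗ f(N-1)`: its coefficient at
`γ` is `∏ₛ (f s)(γ s)`. `bb U` is the matrix indexed by `ZMod N → ι` with the entries
`bb U I J = ten (s ↦ U (I s) (J s))`, i.e. the tensor power `U^{⊗N}`.

## Paper proofs

`ten_mul`: compare coefficients at `γ`. By `MonoidAlgebra.coeff_mul_apply_left` (or the like)
`(x y)(γ) = ∑_{δ ∈ supp x} x(δ) y(δ⁻¹ γ)`; the support of `ten f` is contained in the product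
`Fintype.piFinset (fun s => supp (f s))`, so
`(ten f * ten g)(γ) = ∑_{δ ∈ piFinset} ∏ₛ f(s)(δ s) g(s)((δ s)⁻¹ γ s)
 = ∏ₛ ∑_{d ∈ supp (f s)} f(s)(d) g(s)(d⁻¹ γ(s)) = ∏ₛ (f s * g s)(γ s)` (`Finset.prod_univ_sum`).
`ten` is multilinear: compare coefficients (or define a `MultilinearMap` first).
`bb_mul`: `(bb U * bb V) I K = ∑_J ten (s ↦ U (I s) (J s)) * ten (s ↦ V (J s) (K s))
 = ∑_J ten (s ↦ U (I s) (J s) * V (J s) (K s)) = ten (s ↦ ∑_j U (I s) j * V j (K s))` by
multilinearity (`MultilinearMap.map_sum`).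
-/

set_option autoImplicit false

open Matrix

namespace Pool.Agent.H95.WH

variable {N : ℕ} [NeZero N] {ι : Type*} [Fintype ι] [DecidableEq ι] {G : Type*} [Group G]
  {H : Type*} [Group H] {𝕜 : Type*} [CommRing 𝕜]

/-- The tensor product of the elements `f s`. -/
noncomputable def ten (f : ZMod N → MonoidAlgebra 𝕜 G) : MonoidAlgebra 𝕜 (ZMod N → G) :=
  open scoped Classical in
  MonoidAlgebra.ofCoeff
    (Finsupp.onFinset (Fintype.piFinset fun s => (f s).coeff.support)
      (fun γ => ∏ s, (f s).coeff (γ s)) (by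
        intro γ h
        rw [Fintype.mem_piFinset]
        intro s
        rw [Finsupp.mem_support_iff]
        intro h0
        exact h (Finset.prod_eq_zero (Finset.mem_univ s) h0)))

theorem ten_coeff (f : ZMod N → MonoidAlgebra 𝕜 G) (γ : ZMod N → G) :
    (ten f).coeff γ = ∏ s, (f s).coeff (γ s) := rfl

theorem ten_single (γ : ZMod N → G) (c : ZMod N → 𝕜) :
    ten (fun s => MonoidAlgebra.single (γ s) (c s)) = MonoidAlgebra.single γ (∏ s, c s) := by
  classical
  apply MonoidAlgebra.coeff_injective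
  refine Finsupp.ext fun δ => ?_
  rw [ten_coeff]
  by_cases h : γ = δ
  · subst h
    simp only [MonoidAlgebra.coeff_single, Finsupp.single_eq_same]
  · obtain ⟨s, hs⟩ := Function.ne_iff.1 h
    rw [MonoidAlgebra.coeff_single, Finsupp.single_eq_of_ne' h]
    refine Finset.prod_eq_zero (Finset.mem_univ s) ?_
    rw [MonoidAlgebra.coeff_single, Finsupp.single_eq_of_ne' hs]

theorem ten_one : ten (fun _ : ZMod N => (1 : MonoidAlgebra 𝕜 G)) = 1 := by
  have h := ten_single (N := N) (G := G) (𝕜 := 𝕜) (fun _ => 1) (fun _ => 1)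
  rw [Finset.prod_const_one] at h
  exact h

theorem ten_zero (f : ZMod N → MonoidAlgebra 𝕜 G) (s : ZMod N) (h : f s = 0) : ten f = 0 := by
  apply MonoidAlgebra.coeff_injective
  refine Finsupp.ext fun δ => ?_
  rw [ten_coeff]
  refine Finset.prod_eq_zero (Finset.mem_univ s) ?_
  rw [h]
  rfl

theorem ten_mul (f g : ZMod N → MonoidAlgebra 𝕜 G) :
    ten f * ten g = ten (fun s => f s * g s) := by
  classical
  apply MonoidAlgebra.coeff_injective
  refine Finsupp.ext fun γ => ?_
  rw [ten_coeff, MonoidAlgebra.coeff_mul_apply_left]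
  have hsub : (ten f).coeff.support ⊆ Fintype.piFinset fun s => (f s).coeff.support := by
    intro δ hδ
    rw [Finsupp.mem_support_iff, ten_coeff] at hδ
    rw [Fintype.mem_piFinset]
    intro s
    rw [Finsupp.mem_support_iff]
    intro h0
    exact hδ (Finset.prod_eq_zero (Finset.mem_univ s) h0)
  have hL : ((ten f).coeff.sum fun h r => r * (ten g).coeff (h⁻¹ * γ)) =
      ∑ δ ∈ Fintype.piFinset fun s => (f s).coeff.support,
        (ten f).coeff δ * (ten g).coeff (δ⁻¹ * γ) :=
    Finsupp.sum_of_support_subset _ hsub _ (fun δ _ => zero_mul _)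
  rw [hL]
  have hR : ∀ s : ZMod N, (f s * g s).coeff (γ s) =
      ∑ d ∈ (f s).coeff.support, (f s).coeff d * (g s).coeff (d⁻¹ * γ s) := by
    intro s
    rw [MonoidAlgebra.coeff_mul_apply_left]
    rfl
  rw [Finset.prod_congr rfl (fun s _ => hR s), Finset.prod_univ_sum]
  refine Finset.sum_congr rfl fun δ _ => ?_
  rw [ten_coeff, ten_coeff, ← Finset.prod_mul_distrib]
  rfl

theorem ten_sum {κ : Type*} [Fintype κ] [DecidableEq κ] (f : ZMod N → κ → MonoidAlgebra 𝕜 G) :
    ten (fun s => ∑ j, f s j) = ∑ J : ZMod N → κ, ten (fun s => f s (J s)) := by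
  classical
  apply MonoidAlgebra.coeff_injective
  refine Finsupp.ext fun γ => ?_
  rw [ten_coeff, MonoidAlgebra.coeff_sum, Finsupp.finsetSum_apply]
  have hL : ∀ s : ZMod N, (∑ j, f s j).coeff (γ s) = ∑ j, (f s j).coeff (γ s) := by
    intro s
    rw [MonoidAlgebra.coeff_sum, Finsupp.finsetSum_apply]
  rw [Finset.prod_congr rfl (fun s _ => hL s), Finset.prod_univ_sum, Fintype.piFinset_univ]
  rfl

/-- every family of elements is a sum of monomials over one finite index set -/
private theorem ten_expand_aux (f : ZMod N → MonoidAlgebra 𝕜 G) :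
    ∃ S : Finset G, ∀ s, f s = ∑ j : S, MonoidAlgebra.single (j : G) ((f s).coeff j) := by
  classical
  refine ⟨Finset.univ.biUnion fun s => (f s).coeff.support, fun s => ?_⟩
  rw [Finset.sum_coe_sort (Finset.univ.biUnion fun s => (f s).coeff.support)
    (fun j : G => MonoidAlgebra.single j ((f s).coeff j))]
  have h := MonoidAlgebra.sum_coeff_single (f s)
  have hsub : (f s).coeff.support ⊆ Finset.univ.biUnion fun s => (f s).coeff.support := by
    intro g hg
    exact Finset.mem_biUnion.2 ⟨s, Finset.mem_univ s, hg⟩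
  rw [Finsupp.sum_of_support_subset _ hsub _ (fun g _ => MonoidAlgebra.single_zero g)] at h
  exact h.symm

theorem shR_ten (i : ZMod N) (f : ZMod N → MonoidAlgebra 𝕜 G) :
    shR 𝕜 i (ten f) = ten (sh i f) := by
  classical
  obtain ⟨S, hS⟩ := ten_expand_aux f
  have h1 : ten f = ∑ J : ZMod N → S, MonoidAlgebra.single (fun s => (J s : G))
      (∏ s, (f s).coeff (J s)) := by
    conv_lhs => rw [show f = fun s => ∑ j : S, MonoidAlgebra.single (j : G) ((f s).coeff j) from
      funext hS]
    rw [ten_sum]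
    exact Finset.sum_congr rfl fun J _ => ten_single (fun s => (J s : G)) _
  have h2 : ten (sh i f) = ∑ J : ZMod N → S, MonoidAlgebra.single (fun s => (J s : G))
      (∏ s, (sh i f s).coeff (J s)) := by
    conv_lhs => rw [show sh i f = fun s => ∑ j : S, MonoidAlgebra.single (j : G)
      ((sh i f s).coeff j) from funext fun s => hS (s + i)]
    rw [ten_sum]
    exact Finset.sum_congr rfl fun J _ => ten_single (fun s => (J s : G)) _
  rw [h1, h2, map_sum]
  rw [← Equiv.sum_comp (shE (α := S) i) (fun J : ZMod N → S =>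
    MonoidAlgebra.single (fun s => (J s : G)) (∏ s, (sh i f s).coeff (J s)))]
  refine Finset.sum_congr rfl fun J _ => ?_
  rw [shR_single]
  congr 1
  rw [← Equiv.prod_comp (Equiv.addRight i) (fun s => (f s).coeff (J s))]
  rfl

/-- The homomorphism `G^N → H^N` induced by `G → H`. -/
def powG (N : ℕ) (α : G →* H) : (ZMod N → G) →* (ZMod N → H) where
  toFun γ := fun s => α (γ s)
  map_one' := by funext s; exact map_one α
  map_mul' γ δ := by funext s; exact map_mul α (γ s) (δ s)

/-- naturality in the group -/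
theorem map_ten (α : G →* H) (f : ZMod N → MonoidAlgebra 𝕜 G) :
    MonoidAlgebra.mapDomainRingHom 𝕜 (powG N α) (ten f) =
      ten (fun s => MonoidAlgebra.mapDomainRingHom 𝕜 α (f s)) := by
  classical
  obtain ⟨S, hS⟩ := ten_expand_aux f
  have h1 : ten f = ∑ J : ZMod N → S, MonoidAlgebra.single (fun s => (J s : G))
      (∏ s, (f s).coeff (J s)) := by
    conv_lhs => rw [show f = fun s => ∑ j : S, MonoidAlgebra.single (j : G) ((f s).coeff j) from
      funext hS]
    rw [ten_sum]
    exact Finset.sum_congr rfl fun J _ => ten_single (fun s => (J s : G)) _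
  have h2 : (fun s => MonoidAlgebra.mapDomainRingHom 𝕜 α (f s)) =
      fun s => ∑ j : S, MonoidAlgebra.single (α (j : G)) ((f s).coeff j) := by
    funext s
    conv_lhs => rw [hS s]
    rw [map_sum]
    refine Finset.sum_congr rfl fun j _ => ?_
    change MonoidAlgebra.mapDomain α _ = _
    rw [MonoidAlgebra.mapDomain_single]
  rw [h1, h2, ten_sum, map_sum]
  refine Finset.sum_congr rfl fun J _ => ?_
  rw [ten_single (fun s => α (J s : G)) (fun s => (f s).coeff (J s))]
  change MonoidAlgebra.mapDomain (powG N α) _ = _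
  rw [MonoidAlgebra.mapDomain_single]
  rfl

/-- The `N`-fold tensor power of a matrix. -/
noncomputable def bb (N : ℕ) [NeZero N] (U : Matrix ι ι (MonoidAlgebra 𝕜 G)) :
    Matrix (ZMod N → ι) (ZMod N → ι) (MonoidAlgebra 𝕜 (ZMod N → G)) :=
  Matrix.of fun I J => ten (fun s => U (I s) (J s))

omit [Fintype ι] [DecidableEq ι] in
theorem bb_apply (U : Matrix ι ι (MonoidAlgebra 𝕜 G)) (I J : ZMod N → ι) :
    bb N U I J = ten (fun s => U (I s) (J s)) := rfl

theorem bb_mul (U V : Matrix ι ι (MonoidAlgebra 𝕜 G)) : bb N (U * V) = bb N U * bb N V := by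
  refine Matrix.ext fun I K => ?_
  rw [bb_apply, Matrix.mul_apply]
  have h : (fun s => (U * V) (I s) (K s)) = fun s => ∑ j, U (I s) j * V j (K s) := by
    funext s
    exact Matrix.mul_apply
  rw [h, ten_sum]
  refine Finset.sum_congr rfl fun J _ => ?_
  rw [bb_apply, bb_apply, ten_mul]

theorem bb_one : bb N (1 : Matrix ι ι (MonoidAlgebra 𝕜 G)) = 1 := by
  refine Matrix.ext fun I J => ?_
  rw [bb_apply]
  by_cases h : I = J
  · subst h
    rw [Matrix.one_apply_eq]
    simp only [Matrix.one_apply_eq]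
    exact ten_one
  · rw [Matrix.one_apply_ne h]
    obtain ⟨s, hs⟩ := Function.ne_iff.1 h
    exact ten_zero _ s (Matrix.one_apply_ne hs)

end Pool.Agent.H95.WH
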