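import Pool.Agent.H95.WH.Cyc
import Pool.Agent.H95.WH.Pair
import Pool.Agent.H95.WH.Ten
import Pool.Agent.H95.WH.Cor

/-!
# The ring `E = M_{ι^N}(𝕜[G^N])` with the shift and the twisted trace

`sg i : E →+* E` is the simultaneous shift of both indices and of the group elements;
`TT τ x = ∑_I kap τ (x I (sh 1 I))` is the twisted trace; `cycTr τ` is the `CycTr` structure.

## Paper proofs

`TT_mul`: `TT (x y) = ∑_I ∑_J kap (x I J * y J (sh 1 I))`, and
`TT (y σ₁(x)) = ∑_J ∑_K kap (y J K * shR 1 (x (sh (-1) K) (sh (-1) (sh 1 J))))`; substitute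
`K = sh 1 I` and use `kap_mul`.

`sg_bb`: `sg i (bb U) I J = shR i (ten (s ↦ U (I (s - i)) (J (s - i)))) = ten (s ↦ U (I s) (J s))`
by `shR_ten`.

`sg_cor`: for the inclusion `per r : (ZMod M → ι) → (ZMod N → ι)`, `I' ↦ I' ∘ r`, along a
surjective ring homomorphism `r : ZMod N → ZMod M`:
`sg i (cor (per r) (perR r) x) = cor (per r) (perR r) (sg (r i) x)`, since
`sh i (I' ∘ r) = (sh (r i) I') ∘ r` (compare entries; a function is of the form `I' ∘ r` iff its
shift is).
-/

set_option autoImplicit false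

open Matrix

namespace Pool.Agent.H95.WH

/-- The ring `M_{ι^N}(𝕜[G^N])`. -/
abbrev EE (𝕜 : Type*) [CommRing 𝕜] (N : ℕ) (ι : Type*) (G : Type*) [Group G] : Type _ :=
  Matrix (ZMod N → ι) (ZMod N → ι) (MonoidAlgebra 𝕜 (ZMod N → G))

section Sg

variable {N : ℕ} [NeZero N] {ι : Type*} [Fintype ι] [DecidableEq ι] {G : Type*} [Group G]
  {𝕜 : Type*} [CommRing 𝕜]

/-- The shift endomorphism. -/
noncomputable def sg (i : ZMod N) : EE 𝕜 N ι G →+* EE 𝕜 N ι G where
  toFun x := (x.submatrix (shE (-i)) (shE (-i))).map (shR 𝕜 i)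
  map_one' := by
    rw [Matrix.submatrix_one_equiv]
    exact Matrix.map_one _ (map_zero _) (map_one _)
  map_mul' x y := by
    rw [← Matrix.submatrix_mul_equiv x y (shE (-i)) (shE (-i)) (shE (-i)), Matrix.map_mul]
  map_zero' := by
    refine Matrix.ext fun I J => ?_
    exact map_zero (shR 𝕜 i)
  map_add' x y := by
    refine Matrix.ext fun I J => ?_
    exact map_add (shR 𝕜 i) _ _

theorem sg_apply (i : ZMod N) (x : EE 𝕜 N ι G) (I J : ZMod N → ι) :
    sg i x I J = shR 𝕜 i (x (sh (-i) I) (sh (-i) J)) := rfl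

omit [NeZero N] in
private theorem shiftAux_shR_zero (y : MonoidAlgebra 𝕜 (ZMod N → G)) : shR 𝕜 0 y = y := by
  induction y using MonoidAlgebra.induction_linear with
  | zero => exact map_zero _
  | add a b ha hb => rw [map_add, ha, hb]
  | single γ c => rw [shR_single, sh_zero]

omit [NeZero N] in
private theorem shiftAux_shR_shR (i j : ZMod N) (y : MonoidAlgebra 𝕜 (ZMod N → G)) :
    shR 𝕜 i (shR 𝕜 j y) = shR 𝕜 (i + j) y := by
  induction y using MonoidAlgebra.induction_linear with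
  | zero => simp only [map_zero]
  | add a b ha hb => simp only [map_add, ha, hb]
  | single γ c => rw [shR_single, shR_single, shR_single, sh_sh]

theorem sg_zero (x : EE 𝕜 N ι G) : sg 0 x = x := by
  refine Matrix.ext fun I J => ?_
  rw [sg_apply, shiftAux_shR_zero, neg_zero, sh_zero, sh_zero]

theorem sg_add (i j : ZMod N) (x : EE 𝕜 N ι G) : sg (i + j) x = sg i (sg j x) := by
  refine Matrix.ext fun I J => ?_
  rw [sg_apply, sg_apply, sg_apply, shiftAux_shR_shR, sh_sh, sh_sh, neg_add_rev]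

variable (τ : 𝕜 →+* ZMod N)

/-- The twisted trace. -/
noncomputable def TT : EE 𝕜 N ι G →+ (ConjClasses G →₀ ZMod N) where
  toFun x := ∑ I : ZMod N → ι, kap τ (x I (sh 1 I))
  map_zero' := by simp
  map_add' x y := by
    rw [← Finset.sum_add_distrib]
    apply Finset.sum_congr rfl
    intro I _
    rw [Matrix.add_apply, map_add]

theorem TT_apply (x : EE 𝕜 N ι G) : TT τ x = ∑ I : ZMod N → ι, kap τ (x I (sh 1 I)) := rfl

theorem TT_mul (x y : EE 𝕜 N ι G) : TT τ (x * y) = TT τ (y * sg 1 x) := by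
  rw [TT_apply, TT_apply]
  simp only [Matrix.mul_apply, map_sum]
  rw [Finset.sum_comm]
  refine Finset.sum_congr rfl fun J _ => ?_
  refine Fintype.sum_equiv (shE (1 : ZMod N)) _ _ fun I => ?_
  change kap τ (x I J * y J (sh 1 I)) = kap τ (y J (sh 1 I) * sg 1 x (sh 1 I) (sh 1 J))
  rw [sg_apply, sh_neg_sh, sh_neg_sh]
  exact kap_mul τ _ _

/-- The `CycTr` structure of `E`. -/
noncomputable def cycTr : CycTr N (EE 𝕜 N ι G) (ConjClasses G →₀ ZMod N) where
  σ := sg
  σ_zero := sg_zero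
  σ_add := sg_add
  T := TT τ
  T_mul := TT_mul τ

theorem cycTr_σ (i : ZMod N) (x : EE 𝕜 N ι G) : (cycTr τ).σ i x = sg i x := rfl

theorem cycTr_T (x : EE 𝕜 N ι G) : (cycTr τ).T x = TT τ x := rfl

theorem sg_bb (i : ZMod N) (U : Matrix ι ι (MonoidAlgebra 𝕜 G)) : sg i (bb N U) = bb N U := by
  refine Matrix.ext fun I J => ?_
  rw [sg_apply, bb_apply, bb_apply, shR_ten]
  congr 1
  funext s
  change U (I (s + i + -i)) (J (s + i + -i)) = U (I s) (J s)
  rw [add_neg_cancel_right]

end Sg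

section Per

variable {M N : ℕ} [NeZero M] [NeZero N] {ι : Type*} [Fintype ι] [DecidableEq ι]
  {G : Type*} [Group G] {𝕜 : Type*} [CommRing 𝕜]

/-- The inclusion of the `M`-periodic functions. -/
def per (r : ZMod N →+* ZMod M) {α : Type*} (I : ZMod M → α) : ZMod N → α := fun s => I (r s)

omit [NeZero M] [NeZero N] in
theorem per_injective (r : ZMod N →+* ZMod M) {α : Type*} (hr : Function.Surjective r) :
    Function.Injective (per r : (ZMod M → α) → (ZMod N → α)) := fun I J h => by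
  funext s
  obtain ⟨t, rfl⟩ := hr s
  exact congrFun h t

omit [NeZero M] [NeZero N] in
theorem sh_per (r : ZMod N →+* ZMod M) {α : Type*} (i : ZMod N) (I : ZMod M → α) :
    sh i (per r I) = per r (sh (r i) I) := by
  funext s
  change I (r (s + i)) = I (r s + r i)
  rw [map_add]

/-- The homomorphism `G^M → G^N`. -/
def perG (r : ZMod N →+* ZMod M) (G : Type*) [Group G] : (ZMod M → G) →* (ZMod N → G) where
  toFun := per r
  map_one' := rfl
  map_mul' _ _ := rfl

/-- The homomorphism `𝕜[G^M] → 𝕜[G^N]`. -/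
noncomputable def perR (r : ZMod N →+* ZMod M) (G : Type*) [Group G] (𝕜 : Type*) [CommRing 𝕜] :
    MonoidAlgebra 𝕜 (ZMod M → G) →+* MonoidAlgebra 𝕜 (ZMod N → G) :=
  MonoidAlgebra.mapDomainRingHom 𝕜 (perG r G)

omit [NeZero M] [NeZero N] in
theorem perR_single (r : ZMod N →+* ZMod M) (γ : ZMod M → G) (c : 𝕜) :
    perR r G 𝕜 (MonoidAlgebra.single γ c) = MonoidAlgebra.single (per r γ) c := by
  change MonoidAlgebra.mapDomain (perG r G) _ = _
  rw [MonoidAlgebra.mapDomain_single]
  rfl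

omit [NeZero M] [NeZero N] in
private theorem shiftAux_shR_perR (r : ZMod N →+* ZMod M) (i : ZMod N)
    (y : MonoidAlgebra 𝕜 (ZMod M → G)) :
    shR 𝕜 i (perR r G 𝕜 y) = perR r G 𝕜 (shR 𝕜 (r i) y) := by
  induction y using MonoidAlgebra.induction_linear with
  | zero => simp only [map_zero]
  | add a b ha hb => simp only [map_add, ha, hb]
  | single γ c => rw [perR_single, shR_single, shR_single, perR_single, sh_per]

theorem sg_cor (r : ZMod N →+* ZMod M) (hr : Function.Surjective r) (i : ZMod N)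
    (x : EE 𝕜 M ι G) :
    sg i (cor (per r) (perR r G 𝕜) x) = cor (per r) (perR r G 𝕜) (sg (r i) x) := by
  refine Matrix.ext fun I J => ?_
  rw [sg_apply]
  by_cases hI : ∃ I' : ZMod M → ι, per r I' = I
  · by_cases hJ : ∃ J' : ZMod M → ι, per r J' = J
    · obtain ⟨I', rfl⟩ := hI
      obtain ⟨J', rfl⟩ := hJ
      rw [sh_per, sh_per, cor_apply (per_injective r hr), cor_apply (per_injective r hr),
        sg_apply, shiftAux_shR_perR, map_neg]
    · push Not at hJ
      rw [cor_apply_right _ _ _ hJ, cor_apply_right, map_zero]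
      intro a ha
      apply hJ (sh (r i) a)
      rw [← sh_per, ha, sh_sh_neg]
  · push Not at hI
    rw [cor_apply_left _ _ hI, cor_apply_left, map_zero]
    intro a ha
    apply hI (sh (r i) a)
    rw [← sh_per, ha, sh_sh_neg]

/-- The matrix `a(U) = Δ(U^{⊗M}) ⊕ 1`. -/
noncomputable def aa (r : ZMod N →+* ZMod M) (U : Matrix ι ι (MonoidAlgebra 𝕜 G)) :
    EE 𝕜 N ι G := ext (per r) (perR r G 𝕜) (bb M U)

theorem aa_mul (r : ZMod N →+* ZMod M) (hr : Function.Surjective r)
    (U V : Matrix ι ι (MonoidAlgebra 𝕜 G)) : aa r (U * V) = aa r U * aa r V := by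
  rw [aa, aa, aa, bb_mul, ext_mul (per_injective r hr)]

theorem aa_one (r : ZMod N →+* ZMod M) : aa r (1 : Matrix ι ι (MonoidAlgebra 𝕜 G)) = 1 := by
  rw [aa, bb_one, ext_one]

theorem sg_aa (r : ZMod N →+* ZMod M) (hr : Function.Surjective r) (i : ZMod N)
    (U : Matrix ι ι (MonoidAlgebra 𝕜 G)) : sg i (aa r U) = aa r U := by
  rw [aa, ext, map_add, map_sub, map_one, sg_cor r hr, sg_cor r hr, sg_bb, map_one]

end Per

end Pool.Agent.H95.WH
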