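import Pool.Agent.H95.WH.GamK

/-!
# Detection of units of `ℤ[C]`, `C` finite commutative

## Paper proofs

`unit_frob`: `u^{p-1} = 1 + p z`. In the commutative ring `(ℤ/p)[C]` (characteristic `p`) the `p`-th power
map is additive, so `(∑ a_g g)^p = ∑ a_g^p g^p = ∑ a_g g` (Fermat and `g^p = g`), i.e. `u^p ≡ u` modulo `p`
in `ℤ[C]`; multiply by `u⁻¹`.
`exists_f`: with `v = u^{p-1}`, `u^{p^{k+1} - p^k} = v^{p^k} ≡ 1` modulo `p^{k+1}`
(`dvd_sub_pow_of_dvd_sub` in the commutative ring `ℤ[C]`).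
`unit_detect`: suppose all the values `GK p k C (unit u) (mk g)` vanish. By `GK_comm` and `exists_f` the
coefficients of `f_k`, `p^{k+1} f_k = v^{p^k} - 1`, are divisible by `p^{k+1}`, so
`p^{2k+2} ∣ v^{p^k} - 1` in `ℤ[C]` for all `k`. If `v ≠ 1` write `v = 1 + p^a z`, `a ≥ 1`, `p ∤ z` (`ℤ[C]` is
a free `ℤ`-module, so `v - 1 ≠ 0` is divisible by a maximal power of `p`). By induction on `k`
`v^{p^k} = 1 + p^{a+k} z_k` with `z_k ≡ z` modulo `p`: indeed
`(1 + p^b w)^p = 1 + p^{b+1} w + ∑_{2 ≤ i ≤ p} C(p,i) p^{b i} w^i ≡ 1 + p^{b+1} w` modulo `p^{b+2}` for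
`b ≥ 1`, `p` odd. So `p ∤ z_k` and `2k + 2 ≤ a + k` for all `k`, a contradiction.
-/

set_option autoImplicit false

open Matrix

universe v

namespace Pool.Agent.H95.WH

variable (p : ℕ) [Fact p.Prime] {C : Type v} [Group C]

private theorem UnitT_mul_comm (hC : ∀ a b : C, a * b = b * a) (x y : MonoidAlgebra ℤ C) :
    x * y = y * x := by
  let _ : CommGroup C := { ‹Group C› with mul_comm := hC }
  exact mul_comm x y

/-- The commutative ring structure. -/
private noncomputable abbrev UnitT_ring (hC : ∀ a b : C, a * b = b * a) : CommRing (MonoidAlgebra ℤ C) :=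
  { (inferInstance : Ring (MonoidAlgebra ℤ C)) with mul_comm := UnitT_mul_comm hC }

private theorem UnitT_lift {R : Type*} [CommRing R] {p : ℕ} (hp : Odd p) {b : ℕ} (hb : 1 ≤ b)
    (w : R) : ∃ t, (1 + (p : R) ^ b * w) ^ p = 1 + (p : R) ^ (b + 1) * (w + p * t) := by
  obtain ⟨c, rfl⟩ : ∃ c, b = c + 1 := ⟨b - 1, by omega⟩
  obtain ⟨s, hs⟩ := odd_sq_dvd_geom_sum₂_sub (R := R) (a := 1) (b := (p : R) ^ c * w) hp
  have h1 : (1 : R) + p * ((p : R) ^ c * w) = 1 + (p : R) ^ (c + 1) * w := by ring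
  simp only [one_pow, mul_one, h1] at hs
  have h2 := mul_geom_sum (1 + (p : R) ^ (c + 1) * w) p
  rw [sub_eq_iff_eq_add] at hs
  rw [hs] at h2
  refine ⟨w * s, ?_⟩
  rw [eq_comm, sub_eq_iff_eq_add] at h2
  rw [h2]
  ring

private theorem UnitT_abs {R : Type*} [CommRing R] {p : ℕ} (hp : Odd p)
    (hreg : ∀ x : R, (p : R) * x = 0 → x = 0)
    (hsep : ∀ x : R, (∀ a : ℕ, (p : R) ^ a ∣ x) → x = 0) (v : R) (hv : (p : R) ∣ v - 1)
    (h : ∀ k : ℕ, (p : R) ^ (2 * k + 2) ∣ v ^ p ^ k - 1) : v = 1 := by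
  classical
  by_contra hne
  have hex : ∃ a : ℕ, ¬ (p : R) ^ a ∣ v - 1 := by
    by_contra hcon
    push Not at hcon
    exact hne (sub_eq_zero.1 (hsep _ hcon))
  obtain ⟨a, ha⟩ : ∃ a, Nat.find hex = a := ⟨_, rfl⟩
  have ha1 : ¬ (p : R) ^ a ∣ v - 1 := ha ▸ Nat.find_spec hex
  have ha2 : ∀ b < a, (p : R) ^ b ∣ v - 1 := fun b hb => by
    by_contra hcon
    exact Nat.find_min hex (ha ▸ hb) hcon
  have ha3 : 2 ≤ a := by
    by_contra hcon
    have : a = 0 ∨ a = 1 := by omega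
    rcases this with rfl | rfl
    · exact ha1 (by simp)
    · exact ha1 (by simpa using hv)
  obtain ⟨c, rfl⟩ : ∃ c, a = c + 1 := ⟨a - 1, by omega⟩
  obtain ⟨z, hz⟩ := ha2 c (by omega)
  have hpz : ¬ (p : R) ∣ z := by
    rintro ⟨y, rfl⟩
    exact ha1 ⟨y, by rw [hz]; ring⟩
  have key : ∀ k : ℕ, ∃ y, v ^ p ^ k = 1 + (p : R) ^ (c + k) * (z + p * y) := by
    intro k
    induction k with
    | zero => exact ⟨0, by rw [pow_zero, pow_one, mul_zero, add_zero, add_zero, ← hz]; ring⟩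
    | succ k ih =>
      obtain ⟨y, hy⟩ := ih
      obtain ⟨t, ht⟩ := UnitT_lift hp (b := c + k) (by omega) (z + p * y)
      refine ⟨y + t, ?_⟩
      rw [pow_succ, pow_mul, hy, ht]
      ring
  have hregn : ∀ (n : ℕ) (x : R), (p : R) ^ n * x = 0 → x = 0 := by
    intro n
    induction n with
    | zero => intro x hx; simpa using hx
    | succ n ih =>
      intro x hx
      rw [pow_succ, mul_assoc] at hx
      exact hreg x (ih _ hx)
  obtain ⟨y, hy⟩ := key c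
  obtain ⟨f, hf⟩ := h c
  have h3 : (p : R) ^ (c + c) * ((z + p * y) - (p : R) ^ 2 * f) = 0 := by
    rw [hy] at hf
    have : (p : R) ^ (c + c) * (z + p * y) = (p : R) ^ (2 * c + 2) * f := by
      rw [← hf]
      ring
    rw [mul_sub, this]
    ring
  have h4 := hregn _ _ h3
  apply hpz
  refine ⟨(p : R) * f - y, ?_⟩
  linear_combination h4

private theorem UnitT_coeff_mul (n : ℕ) (x : MonoidAlgebra ℤ C) (g : C) :
    ((n : MonoidAlgebra ℤ C) * x).coeff g = (n : ℤ) * x.coeff g := by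
  rw [← nsmul_eq_mul, MonoidAlgebra.coeff_smul_apply, nsmul_eq_mul]

private theorem UnitT_dvd {n : ℕ} {x : MonoidAlgebra ℤ C}
    (h : ∀ g : C, (n : ℤ) ∣ x.coeff g) : ∃ y, x = (n : MonoidAlgebra ℤ C) * y := by
  refine ⟨MonoidAlgebra.ofCoeff (x.coeff.mapRange (fun c => c / (n : ℤ)) (by simp)), ?_⟩
  apply MonoidAlgebra.coeff_injective
  ext g
  rw [UnitT_coeff_mul]
  change _ = (n : ℤ) * (x.coeff.mapRange (fun c => c / (n : ℤ)) (by simp)) g
  rw [Finsupp.mapRange_apply, Int.mul_ediv_cancel' (h g)]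

private theorem UnitT_frob (hC : ∀ a b : C, a * b = b * a) (hexp : ∀ g : C, g ^ p = g)
    (x : MonoidAlgebra ℤ C) : ∃ z : MonoidAlgebra ℤ C, x ^ p = x + (p : MonoidAlgebra ℤ C) * z := by
  classical
  have hp : p.Prime := Fact.out
  induction x using MonoidAlgebra.induction_linear with
  | zero => exact ⟨0, by rw [zero_pow hp.ne_zero]; simp⟩
  | single g a =>
    obtain ⟨b, hb⟩ := int_frob p a
    refine ⟨MonoidAlgebra.single g b, ?_⟩
    rw [MonoidAlgebra.single_pow, hexp]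
    apply MonoidAlgebra.coeff_injective
    ext g'
    rw [MonoidAlgebra.coeff_add, Finsupp.add_apply, UnitT_coeff_mul, MonoidAlgebra.coeff_single,
      MonoidAlgebra.coeff_single, MonoidAlgebra.coeff_single, Finsupp.single_apply,
      Finsupp.single_apply, Finsupp.single_apply]
    split_ifs
    · linarith
    · simp
  | add x y hx hy =>
    obtain ⟨z, hz⟩ := hx
    obtain ⟨z', hz'⟩ := hy
    obtain ⟨r, hr⟩ := Commute.exists_add_pow_prime_eq hp
      (show Commute x y from UnitT_mul_comm hC x y)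
    refine ⟨z + z' + x * y * r, ?_⟩
    rw [hr, hz, hz', mul_add, mul_add]
    simp only [mul_assoc]
    abel

theorem unit_frob (hC : ∀ a b : C, a * b = b * a) (hexp : ∀ g : C, g ^ p = g)
    (u : (MonoidAlgebra ℤ C)ˣ) :
    ∃ z : MonoidAlgebra ℤ C, (u : MonoidAlgebra ℤ C) ^ (p - 1) = 1 + (p : MonoidAlgebra ℤ C) * z := by
  have hp : p.Prime := Fact.out
  obtain ⟨z, hz⟩ := UnitT_frob p hC hexp (u : MonoidAlgebra ℤ C)
  refine ⟨z * ((u⁻¹ : (MonoidAlgebra ℤ C)ˣ) : MonoidAlgebra ℤ C), ?_⟩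
  have h1 : (u : MonoidAlgebra ℤ C) ^ p = (u : MonoidAlgebra ℤ C) ^ (p - 1) * u := by
    rw [← pow_succ, Nat.sub_add_cancel hp.one_lt.le]
  have h2 : (u : MonoidAlgebra ℤ C) ^ (p - 1) =
      (u : MonoidAlgebra ℤ C) ^ p * ((u⁻¹ : (MonoidAlgebra ℤ C)ˣ) : MonoidAlgebra ℤ C) := by
    rw [h1, mul_assoc, Units.mul_inv, mul_one]
  rw [h2, hz, add_mul, Units.mul_inv, mul_assoc]

theorem exists_f (hC : ∀ a b : C, a * b = b * a) (hexp : ∀ g : C, g ^ p = g)
    (u : (MonoidAlgebra ℤ C)ˣ) (k : ℕ) :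
    ∃ f : MonoidAlgebra ℤ C, ((p ^ (k + 1) : ℕ) : MonoidAlgebra ℤ C) * f =
      (u : MonoidAlgebra ℤ C) ^ (p ^ (k + 1) - p ^ k) - 1 := by
  obtain ⟨z, hz⟩ := unit_frob p hC hexp u
  let _ : CommRing (MonoidAlgebra ℤ C) := UnitT_ring hC
  have h1 : (p : MonoidAlgebra ℤ C) ∣ (u : MonoidAlgebra ℤ C) ^ (p - 1) - 1 := by
    refine ⟨z, ?_⟩
    rw [hz, add_sub_cancel_left]
  obtain ⟨f, hf⟩ := dvd_sub_pow_of_dvd_sub h1 k
  refine ⟨f, ?_⟩
  have h2 : p ^ (k + 1) - p ^ k = (p - 1) * p ^ k := by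
    rw [Nat.sub_mul, one_mul, pow_succ, mul_comm p]
  rw [h2, pow_mul, Nat.cast_pow, ← hf, one_pow]

theorem unit_detect [Finite C] (hp2 : p ≠ 2) (hC : ∀ a b : C, a * b = b * a)
    (hexp : ∀ g : C, g ^ p = g) (u : (MonoidAlgebra ℤ C)ˣ)
    (h : ∀ (k : ℕ) (g : C), GK p k C (K1.unit u) (ConjClasses.mk g) = 0) :
    u ^ (p - 1) = 1 := by
  have hp : p.Prime := Fact.out
  have hodd : Odd p := hp.odd_of_ne_two hp2
  obtain ⟨z, hz⟩ := unit_frob p hC hexp u
  have hk : ∀ k : ℕ, ∃ f : MonoidAlgebra ℤ C,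
      ((u : MonoidAlgebra ℤ C) ^ (p - 1)) ^ p ^ k - 1 =
        (p : MonoidAlgebra ℤ C) ^ (2 * k + 2) * f := by
    intro k
    obtain ⟨f, hf⟩ := exists_f p hC hexp u k
    have h1 : ∀ g : C, ((p ^ (k + 1) : ℕ) : ℤ) ∣ f.coeff g := by
      intro g
      have h2 := GK_comm p k hp2 hC hexp u f hf g
      rw [h k g] at h2
      exact (ZMod.intCast_zmod_eq_zero_iff_dvd _ _).1 h2.symm
    obtain ⟨f', rfl⟩ := UnitT_dvd h1
    refine ⟨f', ?_⟩
    have h2 : p ^ (k + 1) - p ^ k = (p - 1) * p ^ k := by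
      rw [Nat.sub_mul, one_mul, pow_succ, mul_comm p]
    rw [← pow_mul, ← h2, ← hf, ← mul_assoc, Nat.cast_pow, ← pow_add]
    congr 2
    ring
  have hval : (u : MonoidAlgebra ℤ C) ^ (p - 1) = 1 := by
    let _ : CommRing (MonoidAlgebra ℤ C) := UnitT_ring hC
    refine UnitT_abs hodd ?_ ?_ _ ⟨z, by rw [hz, add_sub_cancel_left]⟩ hk
    · intro x hx
      apply MonoidAlgebra.coeff_injective
      ext g
      have h1 := UnitT_coeff_mul p x g
      have h2 : ((p : MonoidAlgebra ℤ C) * x).coeff g = 0 := by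
        have := congrArg (fun y : MonoidAlgebra ℤ C => y.coeff g) hx
        exact this
      rw [h2] at h1
      have h3 : (p : ℤ) ≠ 0 := by exact_mod_cast hp.ne_zero
      exact (mul_eq_zero.1 h1.symm).resolve_left h3
    · intro x hx
      apply MonoidAlgebra.coeff_injective
      ext g
      by_contra hne
      have h1 : ∀ a : ℕ, (p : ℤ) ^ a ∣ x.coeff g := by
        intro a
        obtain ⟨y, hy⟩ := hx a
        have h2 := UnitT_coeff_mul (p ^ a) y g
        rw [Nat.cast_pow] at h2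
        refine ⟨y.coeff g, ?_⟩
        rw [hy]
        rw [Nat.cast_pow] at h2
        exact h2
      have h3 : Int.natAbs (x.coeff g) ≠ 0 := Int.natAbs_ne_zero.2 hne
      have h4 := h1 (Int.natAbs (x.coeff g))
      have h5 : p ^ Int.natAbs (x.coeff g) ∣ Int.natAbs (x.coeff g) := by
        have := Int.natAbs_dvd_natAbs.2 h4
        rwa [Int.natAbs_pow, Int.natAbs_natCast] at this
      have h6 := Nat.le_of_dvd (Nat.pos_of_ne_zero h3) h5
      exact absurd (Nat.lt_pow_self hp.one_lt) (not_lt.2 h6)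
  apply Units.ext
  rw [Units.val_pow_eq_pow_val, hval, Units.val_one]

end Pool.Agent.H95.WH
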